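import Mathlib

/-!
Chebyshev and Mertens type estimates.
-/

set_option linter.unusedSectionVars false
set_option linter.unusedSimpArgs false

open Finset

namespace Pool.Agent.Helper52

/-- primes in `(a, b]` -/
def pr (a b : ℕ) : Finset ℕ := (Finset.Ioc a b).filter Nat.Prime

theorem mem_pr {a b q : ℕ} : q ∈ pr a b ↔ a < q ∧ q ≤ b ∧ q.Prime := by
  unfold pr; rw [mem_filter, mem_Ioc, and_assoc]

theorem theta_nat (n : ℕ) : Chebyshev.theta (n : ℝ) = ∑ q ∈ pr 0 n, Real.log q := by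
  rw [Chebyshev.theta_eq_sum_Icc, Nat.floor_natCast]
  apply Finset.sum_congr _ (fun _ _ => rfl)
  ext q
  rw [mem_filter, mem_Icc, mem_pr]
  constructor
  · rintro ⟨⟨_, h2⟩, h3⟩; exact ⟨h3.pos, h2, h3⟩
  · rintro ⟨_, h2, h3⟩; exact ⟨⟨Nat.zero_le _, h2⟩, h3⟩

theorem cheb_dyadic {i : ℕ} (hi : 1 ≤ i) : ((pr (2 ^ i) (2 ^ (i + 1))).card : ℝ) * i ≤ 4 * 2 ^ i := by
  have h1 : Chebyshev.theta ((2 ^ (i + 1) : ℕ) : ℝ) ≤ Real.log 4 * ((2 ^ (i + 1) : ℕ) : ℝ) :=
    Chebyshev.theta_le_log4_mul_x (Nat.cast_nonneg _)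
  rw [theta_nat] at h1
  have h2 : ∑ q ∈ pr (2 ^ i) (2 ^ (i + 1)), Real.log q ≤ ∑ q ∈ pr 0 (2 ^ (i + 1)), Real.log q := by
    apply Finset.sum_le_sum_of_subset_of_nonneg
    · intro q hq; rw [mem_pr] at hq ⊢; exact ⟨hq.2.2.pos, hq.2.1, hq.2.2⟩
    · intro q _ _; exact Real.log_natCast_nonneg q
  have h3 : ((pr (2 ^ i) (2 ^ (i + 1))).card : ℝ) * (i * Real.log 2) ≤ ∑ q ∈ pr (2 ^ i) (2 ^ (i + 1)), Real.log q := by
    rw [← nsmul_eq_mul]
    apply Finset.card_nsmul_le_sum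
    intro q hq
    rw [mem_pr] at hq
    rw [← Real.log_pow]
    apply Real.log_le_log (by positivity)
    exact_mod_cast hq.1.le
  have h4 : Real.log 4 = 2 * Real.log 2 := by
    rw [show (4:ℝ) = 2 ^ 2 by norm_num, Real.log_pow]; norm_num
  have hl2 : 0 < Real.log 2 := Real.log_pos (by norm_num)
  have h5 : ((pr (2 ^ i) (2 ^ (i + 1))).card : ℝ) * i * Real.log 2 ≤ 4 * 2 ^ i * Real.log 2 := by
    calc _ = ((pr (2 ^ i) (2 ^ (i + 1))).card : ℝ) * (i * Real.log 2) := by ring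
      _ ≤ _ := h3
      _ ≤ _ := h2
      _ ≤ _ := h1
      _ = _ := by rw [h4]; push_cast; ring
  exact le_of_mul_le_mul_right h5 hl2

theorem recip_dyadic {i : ℕ} (hi : 1 ≤ i) : ∑ q ∈ pr (2 ^ i) (2 ^ (i + 1)), 1 / (q : ℝ) ≤ 4 / i := by
  have hir : (0:ℝ) < i := by exact_mod_cast hi
  calc _ ≤ ∑ q ∈ pr (2 ^ i) (2 ^ (i + 1)), 1 / (2:ℝ) ^ i := by
        apply Finset.sum_le_sum
        intro q hq
        rw [mem_pr] at hq
        apply one_div_le_one_div_of_le (by positivity)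
        exact_mod_cast hq.1.le
    _ = ((pr (2 ^ i) (2 ^ (i + 1))).card : ℝ) / 2 ^ i := by
        rw [Finset.sum_const, nsmul_eq_mul]; ring
    _ ≤ _ := by
        rw [div_le_div_iff₀ (by positivity) hir]
        have := cheb_dyadic hi
        linarith

theorem mertens1 {n : ℕ} (hn : 1 ≤ n) : ∑ q ∈ pr 0 n, Real.log q / q ≤ Real.log n + Real.log 4 := by
  have hnr : (0:ℝ) < n := by exact_mod_cast hn
  have h1 : ∑ q ∈ pr 0 n, ((n / q : ℕ) : ℝ) * Real.log q ≤ Real.log (n.factorial : ℝ) := by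
    rw [Real.log_nat_eq_sum_factorization, Finsupp.sum]
    have hsub : pr 0 n ⊆ n.factorial.factorization.support := by
      intro q hq
      rw [mem_pr] at hq
      rw [Nat.support_factorization, Nat.mem_primeFactors]
      exact ⟨hq.2.2, (Nat.Prime.dvd_factorial hq.2.2).mpr hq.2.1, Nat.factorial_ne_zero n⟩
    calc _ ≤ ∑ q ∈ pr 0 n, (n.factorial.factorization q : ℝ) * Real.log q := by
          apply Finset.sum_le_sum
          intro q hq
          rw [mem_pr] at hq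
          apply mul_le_mul_of_nonneg_right _ (Real.log_natCast_nonneg q)
          have hf := Nat.factorization_factorial hq.2.2 (n := n) (b := Nat.log q n + 2) (by omega)
          rw [hf]
          have : n / q ^ 1 ≤ ∑ i ∈ Finset.Ico 1 (Nat.log q n + 2), n / q ^ i :=
            Finset.single_le_sum (f := fun i => n / q ^ i) (fun i _ => Nat.zero_le _)
              (by rw [mem_Ico]; omega)
          rw [pow_one] at this
          exact_mod_cast this
      _ ≤ _ := by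
          apply Finset.sum_le_sum_of_subset_of_nonneg hsub
          intro q _ _
          exact mul_nonneg (Nat.cast_nonneg _) (Real.log_natCast_nonneg q)
  have h2 : Real.log (n.factorial : ℝ) ≤ n * Real.log n := by
    rw [← Real.log_pow]
    apply Real.log_le_log (by exact_mod_cast Nat.factorial_pos n)
    exact_mod_cast Nat.factorial_le_pow n
  have h3 : ∑ q ∈ pr 0 n, ((n:ℝ) / q - 1) * Real.log q ≤ ∑ q ∈ pr 0 n, ((n / q : ℕ) : ℝ) * Real.log q := by
    apply Finset.sum_le_sum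
    intro q hq
    rw [mem_pr] at hq
    apply mul_le_mul_of_nonneg_right _ (Real.log_natCast_nonneg q)
    have hq0 : (0:ℝ) < q := by exact_mod_cast hq.1
    have h5 : n < (n / q + 1) * q := by
      have := Nat.lt_div_mul_add (a := n) hq.1
      linarith
    have h6 : (n:ℝ) < ((n / q : ℕ) + 1) * q := by exact_mod_cast h5
    have h7 : (n:ℝ) / q < ((n / q : ℕ) : ℝ) + 1 := by rw [div_lt_iff₀ hq0]; exact h6
    linarith
  have h4 : ∑ q ∈ pr 0 n, Real.log q ≤ Real.log 4 * n := by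
    rw [← theta_nat]; exact Chebyshev.theta_le_log4_mul_x hnr.le
  have h5 : ∑ q ∈ pr 0 n, ((n:ℝ) / q - 1) * Real.log q =
      n * ∑ q ∈ pr 0 n, Real.log q / q - ∑ q ∈ pr 0 n, Real.log q := by
    rw [Finset.mul_sum, ← Finset.sum_sub_distrib]
    apply Finset.sum_congr rfl
    intro q _
    ring
  have h6 : n * ∑ q ∈ pr 0 n, Real.log q / q ≤ n * (Real.log n + Real.log 4) := by
    calc _ = ∑ q ∈ pr 0 n, ((n:ℝ) / q - 1) * Real.log q + ∑ q ∈ pr 0 n, Real.log q := by rw [h5]; ring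
      _ ≤ n * Real.log n + Real.log 4 * n := by linarith
      _ = _ := by ring
  exact le_of_mul_le_mul_left h6 hnr

/-- `pr 0 (2^n)` as a dyadic sum -/
theorem sum_pr_dyadic (f : ℕ → ℝ) (n : ℕ) :
    ∑ q ∈ pr 0 (2 ^ n), f q = ∑ i ∈ Finset.range n, ∑ q ∈ pr (2 ^ i) (2 ^ (i + 1)), f q := by
  induction n with
  | zero =>
    have : pr 0 (2 ^ 0) = ∅ := by
      ext q; rw [mem_pr]
      simp only [pow_zero, Finset.notMem_empty, iff_false, not_and]
      intro h1 h2 h3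
      have := h3.two_le
      omega
    rw [this]; simp
  | succ n ih =>
    rw [Finset.sum_range_succ, ← ih]
    rw [← Finset.sum_union]
    · apply Finset.sum_congr _ (fun _ _ => rfl)
      ext q
      rw [mem_union, mem_pr, mem_pr, mem_pr]
      have h1 : 2 ^ n ≤ 2 ^ (n + 1) := Nat.pow_le_pow_right (by norm_num) (by omega)
      have h2 : 0 < 2 ^ n := by positivity
      constructor
      · rintro ⟨a, b, c⟩
        by_cases h : q ≤ 2 ^ n
        · left; exact ⟨a, h, c⟩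
        · right; exact ⟨by omega, b, c⟩
      · rintro (⟨a, b, c⟩ | ⟨a, b, c⟩)
        · exact ⟨a, by omega, c⟩
        · exact ⟨by omega, b, c⟩
    · rw [Finset.disjoint_left]
      intro q h1 h2
      rw [mem_pr] at h1 h2
      omega

theorem sum_recip_range (n : ℕ) : ∑ i ∈ Finset.range n, 1 / ((i:ℝ) + 1) ≤ 1 + Real.log n := by
  have h := harmonic_le_one_add_log n
  have e : ((harmonic n : ℚ) : ℝ) = ∑ i ∈ Finset.range n, 1 / ((i:ℝ) + 1) := by
    unfold harmonic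
    push_cast
    apply Finset.sum_congr rfl
    intro i _
    rw [one_div]
  rw [← e]; exact h

/-- abstract dyadic partial summation -/
theorem partial_sum (a : ℕ → ℝ) (n : ℕ) :
    ∑ i ∈ Finset.range n, a (i + 1) = (∑ i ∈ Finset.range n, ((i:ℝ) + 1) * a (i + 1)) / ((n:ℝ) + 1) +
      ∑ i ∈ Finset.range n, (∑ j ∈ Finset.range (i + 1), ((j:ℝ) + 1) * a (j + 1)) / (((i:ℝ) + 1) * ((i:ℝ) + 2)) := by
  induction n with
  | zero => simp
  | succ n ih =>
    rw [Finset.sum_range_succ, ih, Finset.sum_range_succ (fun i => (∑ j ∈ Finset.range (i + 1), ((j:ℝ) + 1) * a (j + 1)) / (((i:ℝ) + 1) * ((i:ℝ) + 2)))]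
    rw [Finset.sum_range_succ (fun i => ((i:ℝ) + 1) * a (i + 1))]
    set S := ∑ i ∈ Finset.range n, ((i:ℝ) + 1) * a (i + 1)
    have h1 : (n:ℝ) + 1 ≠ 0 := by positivity
    have h2 : (n:ℝ) + 2 ≠ 0 := by positivity
    push_cast
    field_simp
    ring

theorem mertens2 {n : ℕ} (hn : 1 ≤ n) : ∑ q ∈ pr 0 (2 ^ n), 1 / (q : ℝ) ≤ Real.log n + 8 := by
  obtain ⟨m, rfl⟩ : ∃ m, n = m + 1 := ⟨n - 1, by omega⟩
  set a : ℕ → ℝ := fun i => ∑ q ∈ pr (2 ^ i) (2 ^ (i + 1)), 1 / (q : ℝ) with ha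
  have ha0 : ∀ i, 0 ≤ a i := fun i => Finset.sum_nonneg fun q _ => by positivity
  have hl2 : 0 < Real.log 2 := Real.log_pos (by norm_num)
  have h4 : Real.log 4 = 2 * Real.log 2 := by
    rw [show (4:ℝ) = 2 ^ 2 by norm_num, Real.log_pow]; norm_num
  -- weighted bound
  have hS : ∀ k : ℕ, ∑ i ∈ Finset.range k, ((i:ℝ) + 1) * a (i + 1) ≤ k + 3 := by
    intro k
    have h1 := mertens1 (n := 2 ^ (k + 1)) (Nat.one_le_two_pow)
    rw [sum_pr_dyadic] at h1
    rw [Finset.sum_range_succ'] at h1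
    have h2 : ∀ i ∈ Finset.range k, Real.log 2 * (((i:ℝ) + 1) * a (i + 1)) ≤
        ∑ q ∈ pr (2 ^ (i + 1)) (2 ^ (i + 1 + 1)), Real.log q / q := by
      intro i _
      simp only [ha]
      rw [← mul_assoc, Finset.mul_sum]
      apply Finset.sum_le_sum
      intro q hq
      rw [mem_pr] at hq
      rw [mul_one_div]
      apply div_le_div_of_nonneg_right _ (Nat.cast_nonneg _)
      have : Real.log 2 * ((i:ℝ) + 1) = Real.log ((2:ℝ) ^ (i + 1)) := by
        rw [Real.log_pow]; push_cast; ring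
      rw [this]
      apply Real.log_le_log (by positivity)
      exact_mod_cast hq.1.le
    have h3 := Finset.sum_le_sum h2
    rw [← Finset.mul_sum] at h3
    have h5 : 0 ≤ ∑ q ∈ pr (2 ^ 0) (2 ^ (0 + 1)), Real.log q / q :=
      Finset.sum_nonneg fun q _ => div_nonneg (Real.log_natCast_nonneg q) (Nat.cast_nonneg _)
    have h6 : Real.log ((2 ^ (k + 1) : ℕ) : ℝ) = (k + 1) * Real.log 2 := by
      push_cast; rw [Real.log_pow]; push_cast; ring
    rw [h6] at h1
    have h7 : Real.log 2 * ∑ i ∈ Finset.range k, ((i:ℝ) + 1) * a (i + 1) ≤ Real.log 2 * (k + 3) := by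
      linarith
    exact le_of_mul_le_mul_left h7 hl2
  rw [sum_pr_dyadic, Finset.sum_range_succ']
  have hz : ∑ q ∈ pr (2 ^ 0) (2 ^ (0 + 1)), 1 / (q : ℝ) ≤ 1 := by
    have : pr (2 ^ 0) (2 ^ (0 + 1)) ⊆ {2} := by
      intro q hq
      rw [mem_pr] at hq
      rw [mem_singleton]
      simp at hq
      omega
    calc _ ≤ ∑ q ∈ ({2} : Finset ℕ), 1 / (q : ℝ) :=
          Finset.sum_le_sum_of_subset_of_nonneg this (fun _ _ _ => by positivity)
      _ ≤ 1 := by rw [Finset.sum_singleton]; norm_num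
  have hmain : ∑ i ∈ Finset.range m, a (i + 1) ≤ Real.log ((m + 1 : ℕ) : ℝ) + 7 := by
    rw [partial_sum a m]
    have h1 : (∑ i ∈ Finset.range m, ((i:ℝ) + 1) * a (i + 1)) / ((m:ℝ) + 1) ≤ 3 := by
      rw [div_le_iff₀ (by positivity)]
      have := hS m
      have hm0 : (0:ℝ) ≤ m := Nat.cast_nonneg _
      linarith
    have h2 : ∑ i ∈ Finset.range m, (∑ j ∈ Finset.range (i + 1), ((j:ℝ) + 1) * a (j + 1)) / (((i:ℝ) + 1) * ((i:ℝ) + 2)) ≤
        ∑ i ∈ Finset.range m, (1 / ((i:ℝ) + 1) + 3 * (1 / ((i:ℝ) + 1) - 1 / (((i + 1 : ℕ):ℝ) + 1))) := by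
      apply Finset.sum_le_sum
      intro i _
      have h3 := hS (i + 1)
      push_cast at h3
      have hi0 : (0:ℝ) ≤ i := Nat.cast_nonneg _
      have e : 1 / ((i:ℝ) + 1) + 3 * (1 / ((i:ℝ) + 1) - 1 / (((i + 1 : ℕ):ℝ) + 1)) =
        ((i:ℝ) + 5) / (((i:ℝ) + 1) * ((i:ℝ) + 2)) := by
        push_cast
        field_simp
        ring
      rw [e]
      apply div_le_div_of_nonneg_right _ (by positivity)
      linarith
    rw [Finset.sum_add_distrib, ← Finset.mul_sum] at h2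
    have h3 := Finset.sum_range_sub' (fun i : ℕ => 1 / ((i:ℝ) + 1)) m
    have h4 : ∑ i ∈ Finset.range m, (1 / ((i:ℝ) + 1) - 1 / (((i + 1 : ℕ):ℝ) + 1)) ≤ 1 := by
      rw [h3]
      have : 0 ≤ 1 / ((m:ℝ) + 1) := by positivity
      simp only [Nat.cast_zero, zero_add, div_one]
      linarith
    have h5 := sum_recip_range m
    have h6 : Real.log (m:ℝ) ≤ Real.log ((m + 1 : ℕ) : ℝ) := by
      rcases Nat.eq_zero_or_pos m with h | h
      · rw [h]; simp
      · apply Real.log_le_log (by exact_mod_cast h)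
        push_cast; linarith
    linarith
  simp only [ha] at hmain
  linarith

theorem prod_lower {a : ℕ} (ha : 1 ≤ a) : Real.exp (-9) / a ≤ ∏ q ∈ pr 0 (2 ^ a), (1 - 1 / (q : ℝ)) := by
  have har : (0:ℝ) < a := by exact_mod_cast ha
  have h1 : Real.exp (-∑ q ∈ pr 0 (2 ^ a), (1 / (q:ℝ) + (1 / ((q:ℝ) - 1) - 1 / q))) ≤ ∏ q ∈ pr 0 (2 ^ a), (1 - 1 / (q : ℝ)) := by
    rw [← Finset.sum_neg_distrib, Real.exp_sum]
    apply Finset.prod_le_prod
    · intro q _; positivity
    · intro q hq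
      rw [mem_pr] at hq
      have hq2 : (2:ℝ) ≤ q := by exact_mod_cast hq.2.2.two_le
      have e1 : 1 / (q:ℝ) + (1 / ((q:ℝ) - 1) - 1 / q) = 1 / ((q:ℝ) - 1) := by ring
      rw [e1, Real.exp_neg]
      have h2 := Real.add_one_le_exp (1 / ((q:ℝ) - 1))
      have hq1 : 0 < (q:ℝ) - 1 := by linarith
      have e2 : 1 - 1 / (q:ℝ) = (1 / ((q:ℝ) - 1) + 1)⁻¹ := by
        field_simp
        ring
      rw [e2]
      apply inv_anti₀ (by positivity) h2
  apply le_trans _ h1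
  rw [Finset.sum_add_distrib]
  have h2 := mertens2 ha
  have h3 : ∑ q ∈ pr 0 (2 ^ a), (1 / ((q:ℝ) - 1) - 1 / q) ≤ 1 := by
    have hsub : pr 0 (2 ^ a) ⊆ Finset.Ioc 1 (2 ^ a) := by
      intro q hq; rw [mem_pr] at hq; rw [mem_Ioc]
      exact ⟨hq.2.2.one_lt, hq.2.1⟩
    calc _ ≤ ∑ q ∈ (Finset.Ioc 1 (2 ^ a) : Finset ℕ), (1 / ((q:ℝ) - 1) - 1 / q) := by
          apply Finset.sum_le_sum_of_subset_of_nonneg hsub
          intro q hq _
          rw [mem_Ioc] at hq
          have hq2 : (2:ℝ) ≤ q := by exact_mod_cast hq.1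
          have : 1 / (q:ℝ) ≤ 1 / ((q:ℝ) - 1) := one_div_le_one_div_of_le (by linarith) (by linarith)
          linarith
      _ = 1 - 1 / (2 ^ a : ℕ) := by
          have hgen : ∀ n : ℕ, 1 ≤ n → ∑ q ∈ (Finset.Ioc 1 n : Finset ℕ), (1 / ((q:ℝ) - 1) - 1 / q) = 1 - 1 / (n:ℝ) := by
            intro n hn
            induction n, hn using Nat.le_induction with
            | base => simp
            | succ n hn ih =>
              rw [← Finset.insert_Ioc_right_eq_Ioc_add_one (by omega : 1 ≤ n), Finset.sum_insert (by simp), ih]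
              push_cast
              ring
          exact hgen _ Nat.one_le_two_pow
      _ ≤ 1 := by
          have : 0 ≤ 1 / ((2 ^ a : ℕ) : ℝ) := by positivity
          linarith
  have h4 : Real.exp (-9) / a = Real.exp (-(Real.log a + 9)) := by
    rw [neg_add, Real.exp_add, Real.exp_neg (Real.log a), Real.exp_log har]
    ring
  rw [h4]
  apply Real.exp_le_exp.mpr
  linarith

theorem prod_upper {b : ℕ} (hb : 1 ≤ b) : ∏ q ∈ pr 0 (2 ^ b), (1 - 1 / (q : ℝ)) ≤ 1 / (b * Real.log 2) := by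
  have hbr : (0:ℝ) < b := by exact_mod_cast hb
  have hl2 : 0 < Real.log 2 := Real.log_pos (by norm_num)
  set N := 2 ^ b + 1 with hN
  have hpb : N.primesBelow = pr 0 (2 ^ b) := by
    ext q
    rw [Nat.mem_primesBelow, mem_pr]
    constructor
    · rintro ⟨h1, h2⟩; exact ⟨h2.pos, by omega, h2⟩
    · rintro ⟨_, h1, h2⟩; exact ⟨by omega, h2⟩
  let f : ℕ →* ℝ :=
    { toFun := fun n => ((n:ℝ))⁻¹
      map_one' := by simp
      map_mul' := by intro x y; push_cast; rw [mul_inv] }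
  have hf := EulerProduct.summable_and_hasSum_smoothNumbers_prod_primesBelow_geometric (f := f)
    (by
      intro q hq
      simp only [f, MonoidHom.coe_mk, OneHom.coe_mk, norm_inv, Real.norm_natCast]
      apply inv_lt_one_of_one_lt₀
      exact_mod_cast hq.one_lt) N
  obtain ⟨hsum, hhas⟩ := hf
  have h1 : ∑ n ∈ Finset.range (2 ^ b), 1 / ((n:ℝ) + 1) ≤ ∏ q ∈ N.primesBelow, (1 - f q)⁻¹ := by
    have hle := sum_le_hasSum (f := fun m : N.smoothNumbers => f m)
      (Finset.univ.image (fun n : Fin (2 ^ b) => (⟨(n:ℕ) + 1, Nat.mem_smoothNumbers_of_lt (by omega) (by omega)⟩ : N.smoothNumbers)))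
      (fun m _ => by simp only [f, MonoidHom.coe_mk, OneHom.coe_mk]; positivity) hhas
    rw [Finset.sum_image] at hle
    · simp only [f, MonoidHom.coe_mk, OneHom.coe_mk] at hle
      rw [Finset.sum_range]
      calc _ = ∑ x : Fin (2 ^ b), (((x:ℕ) + 1 : ℕ) : ℝ)⁻¹ := by
            apply Finset.sum_congr rfl
            intro x _
            push_cast
            rw [one_div]
        _ ≤ _ := hle
    · intro x _ y _ hxy
      simp only [Subtype.mk.injEq, add_left_inj] at hxy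
      exact Fin.ext hxy
  have h2 : Real.log ((2 ^ b + 1 : ℕ) : ℝ) ≤ ∑ n ∈ Finset.range (2 ^ b), 1 / ((n:ℝ) + 1) := by
    have h := log_add_one_le_harmonic (2 ^ b)
    have e : ((harmonic (2 ^ b) : ℚ) : ℝ) = ∑ i ∈ Finset.range (2 ^ b), 1 / ((i:ℝ) + 1) := by
      unfold harmonic
      push_cast
      apply Finset.sum_congr rfl
      intro i _
      rw [one_div]
    rw [← e]; exact h
  have h3 : b * Real.log 2 ≤ Real.log ((2 ^ b + 1 : ℕ) : ℝ) := by
    rw [← Real.log_pow]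
    apply Real.log_le_log (by positivity)
    push_cast
    linarith
  rw [hpb] at h1
  have h4 : ∏ q ∈ pr 0 (2 ^ b), (1 - f q)⁻¹ = (∏ q ∈ pr 0 (2 ^ b), (1 - 1 / (q : ℝ)))⁻¹ := by
    rw [← Finset.prod_inv_distrib]
    apply Finset.prod_congr rfl
    intro q _
    simp only [f, MonoidHom.coe_mk, OneHom.coe_mk, one_div]
  rw [h4] at h1
  have h5 : b * Real.log 2 ≤ (∏ q ∈ pr 0 (2 ^ b), (1 - 1 / (q : ℝ)))⁻¹ := by linarith
  have hpos : 0 < ∏ q ∈ pr 0 (2 ^ b), (1 - 1 / (q : ℝ)) := by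
    apply Finset.prod_pos
    intro q hq
    rw [mem_pr] at hq
    have hq2 : (2:ℝ) ≤ q := by exact_mod_cast hq.2.2.two_le
    have : 1 / (q:ℝ) < 1 := by rw [div_lt_one (by linarith)]; linarith
    linarith
  rw [one_div]
  rw [le_inv_comm₀ hpos (by positivity)]
  exact h5

theorem prod_range_le {a b : ℕ} (ha : 1 ≤ a) (hab : a ≤ b) :
    ∏ q ∈ pr (2 ^ a) (2 ^ b), (1 - 1 / (q : ℝ)) ≤ Real.exp 9 / Real.log 2 * a / b := by
  have har : (0:ℝ) < a := by exact_mod_cast ha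
  have hbr : (0:ℝ) < b := by exact_mod_cast (by omega : 0 < b)
  have hl2 : 0 < Real.log 2 := Real.log_pos (by norm_num)
  have hpw : 2 ^ a ≤ 2 ^ b := Nat.pow_le_pow_right (by norm_num) hab
  have h1 : ∏ q ∈ pr 0 (2 ^ b), (1 - 1 / (q : ℝ)) =
      (∏ q ∈ pr 0 (2 ^ a), (1 - 1 / (q : ℝ))) * ∏ q ∈ pr (2 ^ a) (2 ^ b), (1 - 1 / (q : ℝ)) := by
    rw [← Finset.prod_union]
    · apply Finset.prod_congr _ (fun _ _ => rfl)
      ext q
      rw [mem_union, mem_pr, mem_pr, mem_pr]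
      have h2 : 0 < 2 ^ a := by positivity
      constructor
      · rintro ⟨x, y, z⟩
        by_cases h : q ≤ 2 ^ a
        · left; exact ⟨x, h, z⟩
        · right; exact ⟨by omega, y, z⟩
      · rintro (⟨x, y, z⟩ | ⟨x, y, z⟩)
        · exact ⟨x, by omega, z⟩
        · exact ⟨by omega, y, z⟩
    · rw [Finset.disjoint_left]
      intro q h1 h2
      rw [mem_pr] at h1 h2
      omega
  have h2 := prod_upper (b := b) (by omega)
  have h3 := prod_lower ha
  rw [h1] at h2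
  have hpos : 0 ≤ ∏ q ∈ pr (2 ^ a) (2 ^ b), (1 - 1 / (q : ℝ)) := by
    apply Finset.prod_nonneg
    intro q hq
    rw [mem_pr] at hq
    have hq2 : (2:ℝ) ≤ q := by exact_mod_cast hq.2.2.two_le
    have : 1 / (q:ℝ) < 1 := by rw [div_lt_one (by linarith)]; linarith
    linarith
  have h4 : Real.exp (-9) / a * ∏ q ∈ pr (2 ^ a) (2 ^ b), (1 - 1 / (q : ℝ)) ≤ 1 / (b * Real.log 2) := by
    calc _ ≤ (∏ q ∈ pr 0 (2 ^ a), (1 - 1 / (q : ℝ))) * ∏ q ∈ pr (2 ^ a) (2 ^ b), (1 - 1 / (q : ℝ)) :=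
          mul_le_mul_of_nonneg_right h3 hpos
      _ ≤ _ := h2
  have h5 : Real.exp (-9) * Real.exp 9 = 1 := by rw [← Real.exp_add]; norm_num
  set P := ∏ q ∈ pr (2 ^ a) (2 ^ b), (1 - 1 / (q : ℝ)) with hP
  calc P = (Real.exp (-9) / a * P) * (Real.exp 9 * a) := by
        field_simp
        linear_combination P * (-h5)
    _ ≤ 1 / (b * Real.log 2) * (Real.exp 9 * a) := mul_le_mul_of_nonneg_right h4 (by positivity)
    _ = _ := by field_simp

end Pool.Agent.Helper52
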