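import Pool.Agent.Helper52.PrimeSums

/-!
A weak Brun-Titchmarsh type inequality and a Chebyshev type lower bound.
-/

set_option linter.unusedSectionVars false
set_option linter.unusedSimpArgs false

open Finset

namespace Pool.Agent.Helper52

theorem factorial_dvd_pow_mul_prod (c d K : ℕ) :
    K.factorial ∣ d ^ K * ∏ j ∈ Finset.range K, (c + d * j) := by
  rw [Nat.dvd_iff_prime_pow_dvd_dvd]
  intro q k hq hk
  by_cases hqd : q ∣ d
  · -- `q ∣ d`
    have hkK : k ≤ K := by
      have h1 : k ≤ K.factorial.factorization q :=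
        (Nat.Prime.pow_dvd_iff_le_factorization hq (Nat.factorial_ne_zero K)).mp hk
      have : Fact q.Prime := ⟨hq⟩
      have h2 : padicValNat q K.factorial ≤ K := padicValNat_factorial_le q K
      rw [Nat.factorization_def _ hq] at h1
      exact h1.trans h2
    apply Dvd.dvd.mul_right
    exact (pow_dvd_pow q hkK).trans (pow_dvd_pow_of_dvd hqd K)
  · -- `q ∤ d`
    have hcop : Nat.Coprime d (q ^ k) := by
      apply Nat.Coprime.pow_right
      exact ((Nat.Prime.coprime_iff_not_dvd hq).mpr hqd).symm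
    have hu := ZMod.coe_mul_inv_eq_one d hcop
    set u : ℕ := ((d : ZMod (q ^ k))⁻¹).val with hudef
    have : NeZero (q ^ k) := ⟨(pow_pos hq.pos k).ne'⟩
    have hu' : (d : ZMod (q ^ k)) * (u : ZMod (q ^ k)) = 1 := by
      rw [hudef, ZMod.natCast_zmod_val]
      exact hu
    apply Dvd.dvd.mul_left
    rw [← ZMod.natCast_eq_zero_iff]
    push_cast
    have h1 : ∀ j ∈ Finset.range K, ((c : ZMod (q ^ k)) + d * j) = d * ((c * u : ℕ) + j) := by
      intro j _
      push_cast
      calc (c : ZMod (q ^ k)) + d * j = c * (d * u) + d * j := by rw [hu', mul_one]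
        _ = _ := by ring
    rw [Finset.prod_congr rfl h1, Finset.prod_mul_distrib]
    have h2 : ∏ j ∈ Finset.range K, (((c * u : ℕ) : ZMod (q ^ k)) + (j : ZMod (q ^ k))) =
        (((c * u).ascFactorial K : ℕ) : ZMod (q ^ k)) := by
      rw [Nat.ascFactorial_eq_prod_range]
      push_cast
      rfl
    rw [h2]
    have h3 : (((c * u).ascFactorial K : ℕ) : ZMod (q ^ k)) = 0 := by
      rw [ZMod.natCast_eq_zero_iff]
      exact hk.trans (Nat.factorial_dvd_ascFactorial _ _)
    rw [h3, mul_zero]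

theorem log_le_two_sqrt {x : ℝ} (hx : 0 < x) : Real.log x ≤ 2 * √x := by
  have h := Real.log_le_sub_one_of_pos (Real.sqrt_pos.mpr hx)
  have h2 : Real.log x = 2 * Real.log (√x) := by
    rw [Real.log_sqrt hx.le]; ring
  rw [h2]
  linarith

theorem cheb_lower : ∃ N0 : ℕ, 100 ≤ N0 ∧ ∀ N : ℕ, N0 ≤ N →
    3 / 10 * (N:ℝ) / Real.log N ≤ ((pr (N / 4) N).card : ℝ) := by
  have hl2 : 0.6931471803 < Real.log 2 := Real.log_two_gt_d9
  have hlim : (fun x : ℝ => Real.log (x + 1) + 2 * √x * Real.log x) =o[Filter.atTop] (fun x : ℝ => x) := by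
    apply Asymptotics.IsLittleO.add
    · have h1 : (fun x : ℝ => Real.log (x + 1)) =o[Filter.atTop] (fun x : ℝ => x + 1) :=
        Real.isLittleO_log_id_atTop.comp_tendsto (Filter.tendsto_atTop_add_const_right _ 1 Filter.tendsto_id)
      apply h1.trans_isBigO
      apply Asymptotics.IsBigO.of_bound 2
      filter_upwards [Filter.eventually_ge_atTop (1:ℝ)] with x hx
      rw [Real.norm_of_nonneg (by linarith), Real.norm_of_nonneg (by linarith)]
      linarith
    · have h1 : Real.log =o[Filter.atTop] fun x => x ^ ((1:ℝ) / 2) := isLittleO_log_rpow_atTop (by norm_num)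
      have h2 : (fun x : ℝ => 2 * √x * Real.log x) =o[Filter.atTop] (fun x : ℝ => 2 * √x * x ^ ((1:ℝ) / 2)) :=
        (Asymptotics.isBigO_refl _ _).mul_isLittleO h1
      apply h2.trans_isBigO
      apply Asymptotics.IsBigO.of_bound 2
      filter_upwards [Filter.eventually_ge_atTop (1:ℝ)] with x hx
      rw [← Real.sqrt_eq_rpow, mul_assoc, Real.mul_self_sqrt (by linarith)]
      rw [Real.norm_of_nonneg (by linarith), Real.norm_of_nonneg (by linarith)]
  have hev := (hlim.bound (by norm_num : (0:ℝ) < 4 / 100))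
  rw [Filter.eventually_atTop] at hev
  obtain ⟨x0, hx0⟩ := hev
  refine ⟨max 100 ⌈x0⌉₊, le_max_left _ _, ?_⟩
  intro N hN
  have hN100 : 100 ≤ N := (le_max_left _ _).trans hN
  have hNx : x0 ≤ (N:ℝ) := (Nat.le_ceil x0).trans (by exact_mod_cast (le_max_right _ _).trans hN)
  have hNr : (100:ℝ) ≤ N := by exact_mod_cast hN100
  have h1 := hx0 N hNx
  rw [Real.norm_of_nonneg (by linarith : (0:ℝ) ≤ (N:ℝ))] at h1
  have h2 := (le_abs_self _).trans h1
  have h3 := Chebyshev.theta_ge N
  have h4 : Chebyshev.theta ((N / 4 : ℕ) : ℝ) ≤ Real.log 4 * ((N / 4 : ℕ) : ℝ) :=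
    Chebyshev.theta_le_log4_mul_x (Nat.cast_nonneg _)
  have h5 : ((N / 4 : ℕ) : ℝ) ≤ N / 4 := by
    have := Nat.cast_div_le (α := ℝ) (m := N) (n := 4)
    simpa using this
  have hl4 : Real.log 4 = 2 * Real.log 2 := by
    rw [show (4:ℝ) = 2 ^ 2 by norm_num, Real.log_pow]; norm_num
  have h6 : Chebyshev.theta (N:ℝ) - Chebyshev.theta ((N / 4 : ℕ) : ℝ) = ∑ q ∈ pr (N / 4) N, Real.log q := by
    rw [theta_nat, theta_nat]
    rw [sub_eq_iff_eq_add, ← Finset.sum_union]
    · apply Finset.sum_congr _ (fun _ _ => rfl)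
      ext q
      rw [mem_union, mem_pr, mem_pr, mem_pr]
      constructor
      · rintro ⟨x, y, z⟩
        by_cases h : q ≤ N / 4
        · right; exact ⟨x, h, z⟩
        · left; exact ⟨by omega, y, z⟩
      · rintro (⟨x, y, z⟩ | ⟨x, y, z⟩)
        · exact ⟨by omega, y, z⟩
        · exact ⟨x, by omega, z⟩
    · rw [Finset.disjoint_left]
      intro q h1 h2
      rw [mem_pr] at h1 h2
      omega
  have hlogN : 0 < Real.log N := Real.log_pos (by linarith)
  have h7 : ∑ q ∈ pr (N / 4) N, Real.log q ≤ ((pr (N / 4) N).card : ℝ) * Real.log N := by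
    rw [← nsmul_eq_mul]
    apply Finset.sum_le_card_nsmul
    intro q hq
    rw [mem_pr] at hq
    apply Real.log_le_log (by exact_mod_cast hq.2.2.pos)
    exact_mod_cast hq.2.1
  rw [div_le_iff₀ hlogN]
  have h8 : Real.log 4 * ((N / 4 : ℕ) : ℝ) ≤ Real.log 2 * N / 2 := by
    rw [hl4]
    have : 0 ≤ 2 * Real.log 2 := by linarith
    calc _ ≤ 2 * Real.log 2 * (N / 4) := mul_le_mul_of_nonneg_left h5 this
      _ = _ := by ring
  nlinarith

/-- weak Brun-Titchmarsh -/
theorem weak_bt : ∃ N0 : ℕ, ∀ N : ℕ, N0 ≤ N → ∀ d : ℕ, 8 ≤ d → (d:ℝ) ≤ ((pr (N / 4) N).card : ℝ) ^ 2 →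
    ∀ q0 ∈ pr (N / 4) N,
      (((pr (N / 4) N).filter (fun q : ℕ => (d : ℤ) ∣ (q : ℤ) - (q0 : ℤ))).card : ℝ) ≤
        54 * (pr (N / 4) N).card / √(d : ℝ) := by
  obtain ⟨N0, hN0, hch⟩ := cheb_lower
  refine ⟨N0, ?_⟩
  intro N hN d hd8 hdQ q0 hq0
  have hcheb := hch N hN
  set Q := pr (N / 4) N with hQ
  have hN100 : 100 ≤ N := hN0.trans hN
  have hNr : (100:ℝ) ≤ N := by exact_mod_cast hN100
  have hd0 : 0 < d := by omega
  have hdr : (0:ℝ) < d := by exact_mod_cast hd0
  have hsd : 0 < √(d:ℝ) := Real.sqrt_pos.mpr hdr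
  rw [mem_pr] at hq0
  have hq0pos := hq0.2.2.pos
  -- the trivial case: at most one element
  have htriv : (∀ q ∈ Q, (d : ℤ) ∣ (q : ℤ) - (q0 : ℤ) → q = q0) →
      ((Q.filter (fun q : ℕ => (d : ℤ) ∣ (q : ℤ) - (q0 : ℤ))).card : ℝ) ≤ 54 * Q.card / √(d : ℝ) := by
    intro h
    have h1 : (Q.filter (fun q : ℕ => (d : ℤ) ∣ (q : ℤ) - (q0 : ℤ))).card ≤ 1 := by
      rw [Finset.card_le_one]
      intro x hx y hy
      rw [mem_filter] at hx hy
      rw [h x hx.1 hx.2, h y hy.1 hy.2]
    have h2 : √(d:ℝ) ≤ Q.card := by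
      rw [Real.sqrt_le_left (Nat.cast_nonneg _)]
      exact hdQ
    rw [le_div_iff₀ hsd]
    calc _ ≤ 1 * √(d:ℝ) := mul_le_mul_of_nonneg_right (by exact_mod_cast h1) hsd.le
      _ ≤ _ := by
        have : (0:ℝ) ≤ Q.card := Nat.cast_nonneg _
        linarith
  by_cases hdN : N < d
  · apply htriv
    intro q hq hdv
    rw [hQ, mem_pr] at hq
    have h0 : (q:ℤ) - q0 = 0 := by
      apply Int.eq_zero_of_abs_lt_dvd hdv
      rw [abs_lt]
      constructor <;> omega
    omega
  push Not at hdN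
  by_cases hc0 : q0 % d = 0
  · -- `d ∣ q0`
    apply htriv
    intro q hq hdv
    rw [hQ, mem_pr] at hq
    have h1 : d ∣ q0 := Nat.dvd_of_mod_eq_zero hc0
    have h2 : (d:ℤ) ∣ (q:ℤ) := by
      have h3 : (d:ℤ) ∣ (q0:ℤ) := by exact_mod_cast h1
      have := dvd_add hdv h3
      simpa using this
    have h2' : d ∣ q := by exact_mod_cast h2
    rcases (Nat.dvd_prime hq0.2.2).mp h1 with h | h
    · omega
    · rcases (Nat.dvd_prime hq.2.2).mp h2' with h' | h'
      · omega
      · omega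
  -- main case
  set c := q0 % d with hc
  set K := N / d + 1 with hK
  set S := Q.filter (fun q : ℕ => (d : ℤ) ∣ (q : ℤ) - (q0 : ℤ)) with hS
  have hKN : K ≤ N / 8 + 1 := by
    rw [hK]
    have : N / d ≤ N / 8 := Nat.div_le_div_left hd8 (by norm_num)
    omega
  obtain ⟨M, hM⟩ := factorial_dvd_pow_mul_prod c d K
  have hprodpos : 0 < d ^ K * ∏ j ∈ Finset.range K, (c + d * j) := by
    apply Nat.mul_pos (pow_pos hd0 K)
    apply Finset.prod_pos
    intro j _
    have : 0 < c := Nat.pos_of_ne_zero hc0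
    omega
  have hMpos : 0 < M := by
    rcases Nat.eq_zero_or_pos M with h | h
    · rw [h, mul_zero] at hM; omega
    · exact h
  have hSM : ∀ q ∈ S, q ∣ M := by
    intro q hq
    rw [hS, mem_filter, hQ, mem_pr] at hq
    obtain ⟨⟨hq1, hq2, hqp⟩, hdv⟩ := hq
    have hmod : q % d = c := by
      have h1 : (q0:ℤ) ≡ q [ZMOD d] := by
        exact (Int.modEq_iff_dvd.mpr hdv)
      have h2 : q0 ≡ q [MOD d] := by exact (Int.natCast_modEq_iff).mp h1
      exact h2.symm
    have hq3 : c + d * (q / d) = q := by rw [← hmod]; exact Nat.mod_add_div q d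
    have hq4 : q / d < K := by
      rw [hK]
      exact Nat.lt_succ_of_le (Nat.div_le_div_right hq2)
    have h1 : q ∣ d ^ K * ∏ j ∈ Finset.range K, (c + d * j) := by
      apply Dvd.dvd.mul_left
      have := Finset.dvd_prod_of_mem (fun j => c + d * j) (Finset.mem_range.mpr hq4)
      rwa [hq3] at this
    rw [hM] at h1
    rcases (Nat.Prime.dvd_mul hqp).mp h1 with h2 | h2
    · exfalso
      have := (Nat.Prime.dvd_factorial hqp).mp h2
      omega
    · exact h2
  have hprodS : ∏ q ∈ S, q ∣ M := by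
    apply Finset.prod_primes_dvd
    · intro q hq
      rw [hS, mem_filter, hQ, mem_pr] at hq
      exact Nat.Prime.prime hq.1.2.2
    · exact hSM
  have h1 : ∏ q ∈ S, q ≤ M := Nat.le_of_dvd hMpos hprodS
  -- upper bound for `M`
  have h2 : M ≤ d ^ (2 * K) := by
    have h3 : ∏ j ∈ Finset.range K, (c + d * j) ≤ d ^ K * K.factorial := by
      calc ∏ j ∈ Finset.range K, (c + d * j) ≤ ∏ j ∈ Finset.range K, (d * (j + 1)) := by
            apply Finset.prod_le_prod
            · intro j _; exact Nat.zero_le _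
            · intro j _
              have : c < d := Nat.mod_lt _ hd0
              have e : d * (j + 1) = d + d * j := by ring
              omega
        _ = d ^ K * K.factorial := by
            rw [Finset.prod_mul_distrib, Finset.prod_const, Finset.card_range,
              Finset.prod_range_add_one_eq_factorial]
    have h4 : K.factorial * M ≤ K.factorial * d ^ (2 * K) := by
      calc K.factorial * M = d ^ K * ∏ j ∈ Finset.range K, (c + d * j) := hM.symm
        _ ≤ d ^ K * (d ^ K * K.factorial) := Nat.mul_le_mul_left _ h3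
        _ = _ := by ring
    exact Nat.le_of_mul_le_mul_left h4 (Nat.factorial_pos K)
  -- logarithms
  have h3 : (S.card : ℝ) * Real.log ((N:ℝ) / 4) ≤ 2 * K * Real.log d := by
    have h4 : (S.card : ℝ) * Real.log ((N:ℝ) / 4) ≤ ∑ q ∈ S, Real.log q := by
      rw [← nsmul_eq_mul]
      apply Finset.card_nsmul_le_sum
      intro q hq
      rw [hS, mem_filter, hQ, mem_pr] at hq
      apply Real.log_le_log (by linarith)
      have h5 : N < 4 * (q:ℕ) := by omega
      have h6 : (N:ℝ) < 4 * q := by exact_mod_cast h5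
      linarith
    have h5 : ∑ q ∈ S, Real.log q = Real.log ((∏ q ∈ S, q : ℕ) : ℝ) := by
      push_cast
      rw [Real.log_prod]
      intro q hq
      rw [hS, mem_filter, hQ, mem_pr] at hq
      exact_mod_cast hq.1.2.2.ne_zero
    have h6 : Real.log ((∏ q ∈ S, q : ℕ) : ℝ) ≤ Real.log ((d ^ (2 * K) : ℕ) : ℝ) := by
      apply Real.log_le_log
      · have : 0 < ∏ q ∈ S, q := by
          apply Finset.prod_pos
          intro q hq
          rw [hS, mem_filter, hQ, mem_pr] at hq
          exact hq.1.2.2.pos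
        exact_mod_cast this
      · exact_mod_cast h1.trans h2
    have h7 : Real.log ((d ^ (2 * K) : ℕ) : ℝ) = 2 * K * Real.log d := by
      push_cast
      rw [Real.log_pow]
      push_cast
      ring
    rw [h5] at h4
    rw [h7] at h6
    exact h4.trans h6
  have hKr : (K:ℝ) ≤ 2 * (N / d) := by
    have h4 : ((N / d : ℕ) : ℝ) ≤ N / d := Nat.cast_div_le
    have h5 : (1:ℝ) ≤ N / d := by
      rw [le_div_iff₀ hdr, one_mul]; exact_mod_cast hdN
    rw [hK]; push_cast; linarith
  have hlogd : 0 ≤ Real.log d := Real.log_natCast_nonneg d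
  have hlogd2 : Real.log d ≤ 2 * √(d:ℝ) := log_le_two_sqrt hdr
  have hlogN : 0 < Real.log N := Real.log_pos (by linarith)
  have hlogN4 : Real.log N ≤ 2 * Real.log ((N:ℝ) / 4) := by
    rw [← Real.log_rpow (by linarith)]
    apply Real.log_le_log (by linarith)
    rw [show ((2:ℝ)) = ((2:ℕ):ℝ) by norm_num, Real.rpow_natCast]
    nlinarith
  have h4 : (S.card : ℝ) * Real.log N ≤ 8 * (N / d) * (2 * √(d:ℝ)) := by
    calc (S.card : ℝ) * Real.log N ≤ (S.card : ℝ) * (2 * Real.log ((N:ℝ) / 4)) :=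
          mul_le_mul_of_nonneg_left hlogN4 (Nat.cast_nonneg _)
      _ = 2 * ((S.card : ℝ) * Real.log ((N:ℝ) / 4)) := by ring
      _ ≤ 2 * (2 * K * Real.log d) := by linarith
      _ ≤ 2 * (2 * (2 * (N / d)) * (2 * √(d:ℝ))) := by
          apply mul_le_mul_of_nonneg_left _ (by norm_num)
          apply mul_le_mul _ hlogd2 hlogd (by positivity)
          linarith
      _ = _ := by ring
  have h5 : 3 / 10 * (N:ℝ) ≤ Q.card * Real.log N := by
    rwa [div_le_iff₀ hlogN] at hcheb
  have h6 : (S.card : ℝ) * Real.log N ≤ (54 * Q.card / √(d:ℝ)) * Real.log N := by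
    have e1 : 8 * ((N:ℝ) / d) * (2 * √(d:ℝ)) = 16 * N / √(d:ℝ) := by
      have hs : √(d:ℝ) * √(d:ℝ) = (d:ℝ) := Real.mul_self_sqrt hdr.le
      rw [eq_div_iff hsd.ne']
      calc 8 * ((N:ℝ) / d) * (2 * √(d:ℝ)) * √(d:ℝ) = 16 * N * (√(d:ℝ) * √(d:ℝ)) / d := by ring
        _ = 16 * N := by rw [hs]; field_simp
    rw [e1] at h4
    apply h4.trans
    rw [div_mul_eq_mul_div]
    apply div_le_div_of_nonneg_right _ hsd.le
    linarith
  exact le_of_mul_le_mul_right h6 hlogN

end Pool.Agent.Helper52
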