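import Mathlib

/-!
Random residue classes: outcome space, expectation, avoidance probabilities.
-/

set_option linter.unusedSectionVars false
set_option linter.unusedSimpArgs false

open Finset

open scoped Classical in
section

namespace Pool.Agent.Helper52

variable {ι : Type*} [Fintype ι] [DecidableEq ι]

/-- Outcome space: one residue for each modulus. -/
abbrev Om (p : ι → ℕ) := ∀ i, Fin (p i)

/-- The integer `n` avoids all the chosen residue classes. -/
def Avoid (p : ι → ℕ) (a : Om p) (n : ℤ) : Prop :=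
  ∀ i, ¬ ((p i : ℤ) ∣ n - ((a i : ℕ) : ℤ))

/-- Expectation over uniformly random residue classes. -/
noncomputable def E (p : ι → ℕ) (f : Om p → ℝ) : ℝ := (∑ a, f a) / ∏ i, (p i : ℝ)

variable {p : ι → ℕ}

theorem prod_pos_of (hp : ∀ i, 0 < p i) : (0 : ℝ) < ∏ i, (p i : ℝ) :=
  Finset.prod_pos fun i _ => by exact_mod_cast hp i

theorem E_const (hp : ∀ i, 0 < p i) (c : ℝ) : E p (fun _ => c) = c := by
  have h := prod_pos_of hp
  unfold E
  rw [Finset.sum_const, Finset.card_univ, Fintype.card_pi]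
  simp only [Fintype.card_fin, nsmul_eq_mul, Nat.cast_prod]
  field_simp

theorem E_add (f g : Om p → ℝ) : E p (fun a => f a + g a) = E p f + E p g := by
  unfold E; rw [Finset.sum_add_distrib, add_div]

theorem E_sub (f g : Om p → ℝ) : E p (fun a => f a - g a) = E p f - E p g := by
  unfold E; rw [Finset.sum_sub_distrib, sub_div]

theorem E_mul_left (c : ℝ) (f : Om p → ℝ) : E p (fun a => c * f a) = c * E p f := by
  unfold E; rw [← Finset.mul_sum, mul_div_assoc]

theorem E_mul_right (c : ℝ) (f : Om p → ℝ) : E p (fun a => f a * c) = E p f * c := by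
  unfold E; rw [← Finset.sum_mul]; ring

theorem E_div (c : ℝ) (f : Om p → ℝ) : E p (fun a => f a / c) = E p f / c := by
  simp only [div_eq_mul_inv]
  exact E_mul_right _ _

theorem E_sum {κ : Type*} (s : Finset κ) (f : κ → Om p → ℝ) :
    E p (fun a => ∑ k ∈ s, f k a) = ∑ k ∈ s, E p (f k) := by
  unfold E; rw [Finset.sum_comm, Finset.sum_div]

theorem E_mono {f g : Om p → ℝ} (h : ∀ a, f a ≤ g a) : E p f ≤ E p g := by
  unfold E
  apply div_le_div_of_nonneg_right _ (Finset.prod_nonneg fun i _ => Nat.cast_nonneg _)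
  exact Finset.sum_le_sum fun a _ => h a

theorem E_nonneg {f : Om p → ℝ} (h : ∀ a, 0 ≤ f a) : 0 ≤ E p f := by
  unfold E
  exact div_nonneg (Finset.sum_nonneg fun a _ => h a)
    (Finset.prod_nonneg fun i _ => Nat.cast_nonneg _)

theorem E_prod (f : ∀ i, Fin (p i) → ℝ) :
    E p (fun a => ∏ i, f i (a i)) = ∏ i, ((∑ x, f i x) / (p i : ℝ)) := by
  unfold E
  rw [Finset.prod_div_distrib, Finset.prod_univ_sum, Fintype.piFinset_univ]

/-- number of residue classes mod `p i` met by `S` -/
noncomputable def nu (p : ι → ℕ) (i : ι) (S : Finset ℤ) : ℕ := (S.image (fun n => n % (p i : ℤ))).card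

theorem card_avoid (i : ι) (hp : 0 < p i) (S : Finset ℤ) :
    ((univ.filter (fun x : Fin (p i) => ∀ n ∈ S, ¬ ((p i : ℤ) ∣ n - ((x : ℕ) : ℤ)))).card : ℝ)
      = (p i : ℝ) - nu p i S := by
  have hpz : (0 : ℤ) < (p i : ℤ) := by exact_mod_cast hp
  have hcompl : (univ.filter (fun x : Fin (p i) => ¬ ∀ n ∈ S, ¬ ((p i : ℤ) ∣ n - ((x : ℕ) : ℤ)))).card
      = nu p i S := by
    unfold nu
    apply Finset.card_bij (fun (x : Fin (p i)) _ => ((x : ℕ) : ℤ))
    · intro x hx
      simp only [mem_filter, mem_univ, true_and, not_forall, not_not] at hx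
      obtain ⟨n, hn, hd⟩ := hx
      rw [mem_image]
      refine ⟨n, hn, ?_⟩
      have h1 : n % (p i : ℤ) = ((x : ℕ) : ℤ) % (p i : ℤ) := by
        exact Int.emod_emod_of_dvd n (dvd_refl _) ▸ (Int.emod_emod_of_dvd n (dvd_refl _)).symm ▸
          (Int.emod_eq_emod_iff_emod_sub_eq_zero.mpr (Int.emod_eq_zero_of_dvd hd))
      rw [h1]
      apply Int.emod_eq_of_lt (by positivity)
      exact_mod_cast x.2
    · intro x _ y _ hxy
      apply Fin.ext
      exact_mod_cast hxy
    · intro b hb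
      rw [mem_image] at hb
      obtain ⟨n, hn, rfl⟩ := hb
      have h0 : 0 ≤ n % (p i : ℤ) := Int.emod_nonneg _ hpz.ne'
      have h1 : n % (p i : ℤ) < (p i : ℤ) := Int.emod_lt_of_pos _ hpz
      refine ⟨⟨(n % (p i : ℤ)).toNat, ?_⟩, ?_, ?_⟩
      · have := Int.toNat_of_nonneg h0
        omega
      · simp only [mem_filter, mem_univ, true_and, not_forall, not_not]
        refine ⟨n, hn, ?_⟩
        rw [Int.toNat_of_nonneg h0]
        exact Int.dvd_self_sub_of_emod_eq rfl
      · simp only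
        exact Int.toNat_of_nonneg h0
  have htot := Finset.card_filter_add_card_filter_not (s := (univ : Finset (Fin (p i))))
    (fun x : Fin (p i) => ∀ n ∈ S, ¬ ((p i : ℤ) ∣ n - ((x : ℕ) : ℤ)))
  rw [hcompl, Finset.card_univ, Fintype.card_fin] at htot
  have h3 : ((univ.filter (fun x : Fin (p i) => ∀ n ∈ S, ¬ ((p i : ℤ) ∣ n - ((x : ℕ) : ℤ)))).card : ℝ)
      + nu p i S = (p i : ℝ) := by exact_mod_cast htot
  linarith

/-- indicator that all of `S` avoids the classes -/
noncomputable def ind (p : ι → ℕ) (S : Finset ℤ) (a : Om p) : ℝ :=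
  if ∀ n ∈ S, Avoid p a n then 1 else 0

theorem ind_nonneg (S : Finset ℤ) (a : Om p) : 0 ≤ ind p S a := by
  unfold ind; split_ifs <;> norm_num

theorem ind_le_one (S : Finset ℤ) (a : Om p) : ind p S a ≤ 1 := by
  unfold ind; split_ifs <;> norm_num

theorem ind_of_avoid {S : Finset ℤ} {a : Om p} (h : ∀ n ∈ S, Avoid p a n) : ind p S a = 1 := by
  unfold ind; rw [if_pos h]

theorem ind_of_not {S : Finset ℤ} {a : Om p} (h : ¬ ∀ n ∈ S, Avoid p a n) : ind p S a = 0 := by
  unfold ind; rw [if_neg h]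

theorem ind_mul (S T : Finset ℤ) (a : Om p) : ind p S a * ind p T a = ind p (S ∪ T) a := by
  by_cases h1 : ∀ n ∈ S, Avoid p a n
  · by_cases h2 : ∀ n ∈ T, Avoid p a n
    · have h3 : ∀ n ∈ S ∪ T, Avoid p a n := by
        intro n hn
        rcases Finset.mem_union.mp hn with h | h
        · exact h1 n h
        · exact h2 n h
      rw [ind_of_avoid h1, ind_of_avoid h2, ind_of_avoid h3, one_mul]
    · have h3 : ¬ ∀ n ∈ S ∪ T, Avoid p a n := fun h => h2 fun n hn => h n (Finset.mem_union_right _ hn)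
      rw [ind_of_not h2, ind_of_not h3, mul_zero]
  · have h3 : ¬ ∀ n ∈ S ∪ T, Avoid p a n := fun h => h1 fun n hn => h n (Finset.mem_union_left _ hn)
    rw [ind_of_not h1, ind_of_not h3, zero_mul]

theorem ind_antitone {S T : Finset ℤ} (h : S ⊆ T) (a : Om p) : ind p T a ≤ ind p S a := by
  by_cases h1 : ∀ n ∈ T, Avoid p a n
  · have h2 : ∀ n ∈ S, Avoid p a n := fun n hn => h1 n (h hn)
    rw [ind_of_avoid h1, ind_of_avoid h2]
  · rw [ind_of_not h1]
    exact ind_nonneg _ _

theorem E_ind (hp : ∀ i, 0 < p i) (S : Finset ℤ) :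
    E p (ind p S) = ∏ i, (1 - (nu p i S : ℝ) / (p i : ℝ)) := by
  have h1 : ind p S = fun a => ∏ i, (if ∀ n ∈ S, ¬ ((p i : ℤ) ∣ n - ((a i : ℕ) : ℤ)) then (1:ℝ) else 0) := by
    funext a
    unfold ind Avoid
    rw [Finset.prod_ite_zero]
    · simp only [mem_univ, true_imp_iff, Finset.prod_const_one]
      congr 1
      apply propext
      constructor
      · intro h i n hn; exact h n hn i
      · intro h n hn i; exact h i n hn
  rw [h1, E_prod (p := p) (fun i x => if ∀ n ∈ S, ¬ ((p i : ℤ) ∣ n - ((x : ℕ) : ℤ)) then (1:ℝ) else 0)]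
  apply Finset.prod_congr rfl
  intro i _
  have hpi : (0:ℝ) < p i := by exact_mod_cast hp i
  rw [Finset.sum_boole, card_avoid i (hp i) S]
  field_simp

end Pool.Agent.Helper52
end
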