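import Pool.Agent.Helper52.Smooth

/-!
Integers with no, or exactly one, prime factor in the medium range.
-/

set_option linter.unusedSectionVars false
set_option linter.unusedSimpArgs false

open Finset

namespace Pool.Agent.Helper52

/-- integers in `[1,L]` with no prime factor in `(z, y]` -/
def A0 (z y L : ℕ) : Finset ℕ := (Finset.Icc 1 L).filter (fun n => ∀ q ∈ pr z y, ¬ q ∣ n)

/-- integers in `[1,L]` with exactly one prime factor in `(z, y]` -/
def A1 (z y L : ℕ) : Finset ℕ :=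
  (Finset.Icc 1 L).filter (fun n => ∃ q ∈ pr z y, q ∣ n ∧ ∀ q' ∈ pr z y, q' ∣ n → q' = q)

/-- smooth numbers -/
def Sm (z x : ℕ) : Finset ℕ := (Finset.Icc 1 x).filter (fun n : ℕ => ∀ q ∈ n.primeFactors, q ≤ z)

/-- integers with a prime factor in `(y, L]` -/
def Big (y L : ℕ) : Finset ℕ := (Finset.Icc 1 L).filter (fun n => ∃ q ∈ pr y L, q ∣ n)

theorem sum_biUnion_le' {α β : Type*} [DecidableEq β] (s : Finset α) (t : α → Finset β) (f : β → ℝ)
    (hf : ∀ x, 0 ≤ f x) : ∑ x ∈ s.biUnion t, f x ≤ ∑ a ∈ s, ∑ x ∈ t a, f x := by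
  classical
  induction s using Finset.induction_on with
  | empty => simp
  | insert a s ha ih =>
    rw [Finset.biUnion_insert, Finset.sum_insert ha]
    have h1 := Finset.sum_union_inter (s₁ := t a) (s₂ := s.biUnion t) (f := f)
    have h2 : 0 ≤ ∑ x ∈ t a ∩ s.biUnion t, f x := Finset.sum_nonneg fun x _ => hf x
    linarith

theorem recip_block (a k : ℕ) (ha : 1 ≤ a) : ∑ q ∈ pr (2 ^ a) (2 ^ (a + k)), 1 / (q : ℝ) ≤ 4 * k / a := by
  have har : (0:ℝ) < a := by exact_mod_cast ha
  induction k with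
  | zero =>
    have : pr (2 ^ a) (2 ^ (a + 0)) = ∅ := by
      ext q; rw [mem_pr]; simp only [add_zero, Finset.notMem_empty, iff_false]; omega
    rw [this]; simp
  | succ k ih =>
    have h1 : pr (2 ^ a) (2 ^ (a + (k + 1))) ⊆ pr (2 ^ a) (2 ^ (a + k)) ∪ pr (2 ^ (a + k)) (2 ^ (a + k + 1)) := by
      intro q hq
      rw [mem_pr] at hq
      rw [mem_union, mem_pr, mem_pr]
      by_cases h : q ≤ 2 ^ (a + k)
      · left; exact ⟨hq.1, h, hq.2.2⟩
      · right; exact ⟨by omega, hq.2.1, hq.2.2⟩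
    calc _ ≤ ∑ q ∈ pr (2 ^ a) (2 ^ (a + k)) ∪ pr (2 ^ (a + k)) (2 ^ (a + k + 1)), 1 / (q : ℝ) :=
          Finset.sum_le_sum_of_subset_of_nonneg h1 (fun _ _ _ => by positivity)
      _ ≤ ∑ q ∈ pr (2 ^ a) (2 ^ (a + k)), 1 / (q : ℝ) + ∑ q ∈ pr (2 ^ (a + k)) (2 ^ (a + k + 1)), 1 / (q : ℝ) := by
          rw [← Finset.sum_union_inter]
          have : 0 ≤ ∑ q ∈ pr (2 ^ a) (2 ^ (a + k)) ∩ pr (2 ^ (a + k)) (2 ^ (a + k + 1)), 1 / (q : ℝ) :=
            Finset.sum_nonneg fun _ _ => by positivity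
          linarith
      _ ≤ 4 * k / a + 4 / a := by
          apply add_le_add ih
          apply (recip_dyadic (by omega)).trans
          apply div_le_div_of_nonneg_left (by norm_num) har
          push_cast
          have : (0:ℝ) ≤ k := Nat.cast_nonneg _
          linarith
      _ = _ := by push_cast; ring

theorem card_multiples (q L : ℕ) (hq : 0 < q) :
    (((Finset.Icc 1 L).filter (fun n => q ∣ n)).card : ℝ) ≤ L / q := by
  have h := sum_dvd_eq (fun _ => (1:ℝ)) hq L
  simp only [Finset.sum_const, nsmul_eq_mul, mul_one, Nat.card_Icc] at h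
  rw [h]
  rw [Nat.add_sub_cancel]
  exact Nat.cast_div_le

theorem Big_card {y L a k : ℕ} (ha : 1 ≤ a) (hy : 2 ^ a ≤ y) (hL : L ≤ 2 ^ (a + k)) :
    ((Big y L).card : ℝ) ≤ L * (4 * k / a) := by
  have h1 : Big y L ⊆ (pr y L).biUnion (fun q => (Finset.Icc 1 L).filter (fun n => q ∣ n)) := by
    intro n hn
    unfold Big at hn
    rw [mem_filter] at hn
    obtain ⟨hn1, q, hq, hd⟩ := hn
    rw [mem_biUnion]
    exact ⟨q, hq, mem_filter.mpr ⟨hn1, hd⟩⟩
  calc ((Big y L).card : ℝ) ≤ ((∑ q ∈ pr y L, ((Finset.Icc 1 L).filter (fun n => q ∣ n)).card : ℕ) : ℝ) := by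
        exact_mod_cast (Finset.card_le_card h1).trans Finset.card_biUnion_le
    _ = ∑ q ∈ pr y L, (((Finset.Icc 1 L).filter (fun n => q ∣ n)).card : ℝ) := by push_cast; rfl
    _ ≤ ∑ q ∈ pr y L, (L:ℝ) / q := by
        apply Finset.sum_le_sum
        intro q hq
        exact card_multiples q L (mem_pr.mp hq).2.2.pos
    _ = L * ∑ q ∈ pr y L, 1 / (q : ℝ) := by
        rw [Finset.mul_sum]; apply Finset.sum_congr rfl; intro q _; ring
    _ ≤ L * ∑ q ∈ pr (2 ^ a) (2 ^ (a + k)), 1 / (q : ℝ) := by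
        apply mul_le_mul_of_nonneg_left _ (Nat.cast_nonneg _)
        apply Finset.sum_le_sum_of_subset_of_nonneg
        · intro q hq
          rw [mem_pr] at hq ⊢
          exact ⟨by omega, by omega, hq.2.2⟩
        · intro _ _ _; positivity
    _ ≤ _ := mul_le_mul_of_nonneg_left (recip_block a k ha) (Nat.cast_nonneg _)

theorem A0_subset (z y L : ℕ) : A0 z y L ⊆ Sm z L ∪ Big y L := by
  intro n hn
  unfold A0 at hn
  rw [mem_filter] at hn
  rw [mem_union]
  by_cases h : ∀ q ∈ n.primeFactors, q ≤ z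
  · left; unfold Sm; rw [mem_filter]; exact ⟨hn.1, h⟩
  · right
    push Not at h
    obtain ⟨q, hq, hqz⟩ := h
    rw [Nat.mem_primeFactors] at hq
    unfold Big
    rw [mem_filter]
    refine ⟨hn.1, q, ?_, hq.2.1⟩
    rw [mem_pr]
    have h1 := mem_Icc.mp hn.1
    have hqL : q ≤ L := (Nat.le_of_dvd (by omega) hq.2.1).trans h1.2
    refine ⟨?_, hqL, hq.1⟩
    by_contra hy
    exact hn.2 q (mem_pr.mpr ⟨hqz, by omega, hq.1⟩) hq.2.1

/-- the summand `exp(-(u - v))/v` -/
theorem exp_conv_sum (u : ℕ) (hu : 1 ≤ u) :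
    ∑ v ∈ Finset.range u, Real.exp (-((u:ℝ) - (v + 1))) * (1 / ((v:ℝ) + 1)) ≤ 4 / u := by
  have hur : (0:ℝ) < u := by exact_mod_cast hu
  have key : ∀ j : ℕ, ((j:ℝ) + 1) * Real.exp (-(j:ℝ)) ≤ (3 / 4) ^ j := by
    intro j
    induction j with
    | zero => simp
    | succ j ih =>
      have he : Real.exp (-(((j + 1 : ℕ)):ℝ)) = Real.exp (-(j:ℝ)) * Real.exp (-1) := by
        rw [← Real.exp_add]; congr 1; push_cast; ring
      have he1 : Real.exp (-1) ≤ 3 / 8 := by
        rw [Real.exp_neg]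
        have := Real.exp_one_gt_d9
        rw [inv_le_comm₀ (by positivity) (by norm_num)]
        linarith
      rw [he, pow_succ]
      have hj : (0:ℝ) ≤ j := Nat.cast_nonneg _
      have hx : 0 < Real.exp (-(j:ℝ)) := Real.exp_pos _
      have h1 : (((j + 1 : ℕ) : ℝ) + 1) * (Real.exp (-(j:ℝ)) * Real.exp (-1)) ≤
          (2 * ((j:ℝ) + 1)) * (Real.exp (-(j:ℝ)) * (3 / 8)) := by
        push_cast
        apply mul_le_mul
        · linarith
        · exact mul_le_mul_of_nonneg_left he1 hx.le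
        · positivity
        · positivity
      calc _ ≤ _ := h1
        _ = (((j:ℝ) + 1) * Real.exp (-(j:ℝ))) * (3 / 4) := by ring
        _ ≤ _ := mul_le_mul_of_nonneg_right ih (by norm_num)
  rw [← Finset.sum_range_reflect]
  have h1 : ∀ j ∈ Finset.range u, Real.exp (-((u:ℝ) - (((u - 1 - j : ℕ) : ℝ) + 1))) * (1 / (((u - 1 - j : ℕ) : ℝ) + 1)) ≤
      (1 / u) * (3 / 4) ^ j := by
    intro j hj
    rw [mem_range] at hj
    have e : ((u - 1 - j : ℕ) : ℝ) + 1 = (u:ℝ) - j := by
      have : u - 1 - j + 1 + j = u := by omega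
      have h2 : (((u - 1 - j + 1 + j : ℕ)) : ℝ) = u := by exact_mod_cast this
      push_cast at h2
      linarith
    rw [e]
    have huj : (1:ℝ) ≤ (u:ℝ) - j := by
      have : j + 1 ≤ u := hj
      have h2 : ((j:ℝ) + 1) ≤ u := by exact_mod_cast this
      linarith
    have e2 : (u:ℝ) - (u - j) = j := by ring
    rw [e2]
    have h3 : 1 / ((u:ℝ) - j) ≤ ((j:ℝ) + 1) / u := by
      rw [div_le_div_iff₀ (by linarith) hur]
      have hj0 : (0:ℝ) ≤ j := Nat.cast_nonneg _
      nlinarith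
    calc _ ≤ Real.exp (-(j:ℝ)) * (((j:ℝ) + 1) / u) := mul_le_mul_of_nonneg_left h3 (Real.exp_pos _).le
      _ = (1 / u) * (((j:ℝ) + 1) * Real.exp (-(j:ℝ))) := by ring
      _ ≤ _ := mul_le_mul_of_nonneg_left (key j) (by positivity)
  calc _ ≤ ∑ j ∈ Finset.range u, (1 / u) * ((3:ℝ) / 4) ^ j := Finset.sum_le_sum h1
    _ = (1 / u) * ∑ j ∈ Finset.range u, ((3:ℝ) / 4) ^ j := by rw [Finset.mul_sum]
    _ ≤ (1 / u) * 4 := by
        apply mul_le_mul_of_nonneg_left _ (by positivity)
        rw [geom_sum_eq (by norm_num)]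
        have : (0:ℝ) ≤ (3 / 4) ^ u := by positivity
        rw [div_le_iff_of_neg (by norm_num)]
        linarith
    _ = _ := by ring

/-- the constant in the smooth number bound with `A = 1` -/
noncomputable def CS : ℝ := 1 + Real.exp (12 * Real.exp (2 * 1))

theorem CS_pos : 0 < CS := by unfold CS; positivity

theorem A1_subset (z y L : ℕ) : A1 z y L ⊆
    ((pr z y).biUnion (fun q => (Finset.Icc 1 L).filter (fun n => q * q ∣ n))) ∪ Big y L ∪
      ((pr z y).biUnion (fun q => (Sm z (L / q)).image (fun m => q * m))) := by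
  intro n hn
  unfold A1 at hn
  rw [mem_filter, mem_Icc] at hn
  obtain ⟨⟨hn1, hn2⟩, q, hq, ⟨m, rfl⟩, huniq⟩ := hn
  have hqp := (mem_pr.mp hq).2.2
  rw [mem_union, mem_union]
  by_cases h1 : q ∣ m
  · left; left
    rw [mem_biUnion]
    refine ⟨q, hq, ?_⟩
    rw [mem_filter, mem_Icc]
    exact ⟨⟨hn1, hn2⟩, mul_dvd_mul_left q h1⟩
  · by_cases h2 : ∀ l ∈ m.primeFactors, l ≤ z
    · right
      rw [mem_biUnion]
      refine ⟨q, hq, ?_⟩
      rw [mem_image]
      refine ⟨m, ?_, rfl⟩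
      unfold Sm
      rw [mem_filter, mem_Icc]
      refine ⟨⟨?_, ?_⟩, h2⟩
      · rcases Nat.eq_zero_or_pos m with h | h
        · rw [h] at hn1; simp at hn1
        · exact h
      · rw [Nat.le_div_iff_mul_le hqp.pos]; linarith
    · left; right
      push Not at h2
      obtain ⟨l, hl, hlz⟩ := h2
      rw [Nat.mem_primeFactors] at hl
      unfold Big
      rw [mem_filter, mem_Icc]
      have hld : l ∣ q * m := Dvd.dvd.mul_left hl.2.1 q
      have hlL : l ≤ L := (Nat.le_of_dvd (by omega) hld).trans hn2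
      refine ⟨⟨hn1, hn2⟩, l, ?_, hld⟩
      rw [mem_pr]
      refine ⟨?_, hlL, hl.1⟩
      by_contra hy
      have := huniq l (mem_pr.mpr ⟨hlz, by omega, hl.1⟩) hld
      rw [this] at hl
      exact h1 hl.2.1

theorem sum_sq_le (z y : ℕ) (hz : 1 ≤ z) : ∑ q ∈ pr z y, 1 / ((q:ℝ) * q) ≤ 1 / z := by
  have hzr : (0:ℝ) < z := by exact_mod_cast hz
  have h1 : ∀ N : ℕ, ∑ q ∈ Finset.Ioc z (z + N), 1 / ((q:ℝ) * q) ≤ 1 / z - 1 / ((z + N : ℕ) : ℝ) := by
    intro N
    induction N with
    | zero => simp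
    | succ N ih =>
      rw [← Nat.add_assoc, ← Finset.insert_Ioc_right_eq_Ioc_add_one (by omega : z ≤ z + N), Finset.sum_insert (by simp)]
      have hzN : (0:ℝ) < ((z + N : ℕ) : ℝ) := by exact_mod_cast (by omega : 0 < z + N)
      have h2 : 1 / ((((z + N + 1 : ℕ)):ℝ) * ((z + N + 1 : ℕ) : ℝ)) ≤ 1 / ((z + N : ℕ) : ℝ) - 1 / ((z + N + 1 : ℕ) : ℝ) := by
        have e : 1 / ((z + N : ℕ) : ℝ) - 1 / ((z + N + 1 : ℕ) : ℝ) = 1 / (((z + N : ℕ) : ℝ) * ((z + N + 1 : ℕ) : ℝ)) := by
          push_cast at hzN ⊢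
          field_simp
          ring
        rw [e]
        apply one_div_le_one_div_of_le (by positivity)
        apply mul_le_mul_of_nonneg_right _ (by positivity)
        push_cast; linarith
      linarith
  calc _ ≤ ∑ q ∈ Finset.Ioc z (z + y), 1 / ((q:ℝ) * q) := by
        apply Finset.sum_le_sum_of_subset_of_nonneg
        · intro q hq
          rw [mem_pr] at hq
          rw [mem_Ioc]
          exact ⟨hq.1, by omega⟩
        · intro _ _ _; positivity
    _ ≤ _ := h1 y
    _ ≤ _ := by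
        have : 0 ≤ 1 / ((z + y : ℕ) : ℝ) := by positivity
        linarith

/-- Bound for the integers with exactly one medium prime factor. -/
theorem A1_card {u Z y L a k : ℕ} (hu : 1 ≤ u) (hZ : 6 ≤ Z) (ha : 1 ≤ a) (hy : 2 ^ a ≤ y)
    (hyL : y ≤ L) (hL : L ≤ 2 ^ (a + k)) (hL1 : 2 ^ (u * Z) ≤ L) (hL2 : L ≤ 2 ^ ((u + 1) * Z)) :
    ((A1 (2 ^ Z) y L).card : ℝ) ≤ L * (1 / 2 ^ Z + 4 * k / a + 150 * CS / u) := by
  have hur : (0:ℝ) < u := by exact_mod_cast hu
  have hL0 : 0 < L := lt_of_lt_of_le (by positivity) hL1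
  have hLr : (0:ℝ) < L := by exact_mod_cast hL0
  have hZr : (6:ℝ) ≤ Z := by exact_mod_cast hZ
  have hl2 : 0.6931471803 < Real.log 2 := Real.log_two_gt_d9
  have hz4 : 4 ≤ 2 ^ Z := by
    calc 4 = 2 ^ 2 := by norm_num
      _ ≤ 2 ^ Z := Nat.pow_le_pow_right (by norm_num) (by omega)
  have hlz : Real.log ((2 ^ Z : ℕ) : ℝ) = Z * Real.log 2 := by push_cast; rw [Real.log_pow]
  have hlz0 : 0 < Real.log ((2 ^ Z : ℕ) : ℝ) := by rw [hlz]; positivity
  have h1 := Finset.card_le_card (A1_subset (2 ^ Z) y L)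
  have h2 := h1.trans ((Finset.card_union_le _ _).trans (Nat.add_le_add_right (Finset.card_union_le _ _) _))
  -- squares
  have hsq : ((((pr (2 ^ Z) y).biUnion (fun q => (Finset.Icc 1 L).filter (fun n => q * q ∣ n))).card : ℕ) : ℝ)
      ≤ L * (1 / 2 ^ Z) := by
    calc _ ≤ ((∑ q ∈ pr (2 ^ Z) y, ((Finset.Icc 1 L).filter (fun n => q * q ∣ n)).card : ℕ) : ℝ) := by
          exact_mod_cast Finset.card_biUnion_le
      _ = ∑ q ∈ pr (2 ^ Z) y, (((Finset.Icc 1 L).filter (fun n => q * q ∣ n)).card : ℝ) := by push_cast; rfl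
      _ ≤ ∑ q ∈ pr (2 ^ Z) y, (L:ℝ) * (1 / ((q:ℝ) * q)) := by
          apply Finset.sum_le_sum
          intro q hq
          have hq0 := (mem_pr.mp hq).2.2.pos
          have := card_multiples (q * q) L (Nat.mul_pos hq0 hq0)
          push_cast at this
          calc _ ≤ _ := this
            _ = _ := by ring
      _ = L * ∑ q ∈ pr (2 ^ Z) y, (1 / ((q:ℝ) * q)) := by rw [Finset.mul_sum]
      _ ≤ _ := by
          apply mul_le_mul_of_nonneg_left _ hLr.le
          have := sum_sq_le (2 ^ Z) y Nat.one_le_two_pow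
          push_cast at this
          exact this
  have hbig := Big_card ha hy hL
  -- main part
  have hmain : ((((pr (2 ^ Z) y).biUnion (fun q => (Sm (2 ^ Z) (L / q)).image (fun m => q * m))).card : ℕ) : ℝ)
      ≤ L * (150 * CS / u) := by
    have hterm : ∀ q ∈ pr (2 ^ Z) y, (((Sm (2 ^ Z) (L / q)).card : ℕ) : ℝ) ≤
        CS * (L / q) * (Real.exp 1 * Real.exp (-((Real.log L - Real.log q) / Real.log ((2 ^ Z : ℕ) : ℝ)))) := by
      intro q hq
      have hq' := mem_pr.mp hq
      have hq0 := hq'.2.2.pos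
      have hqr : (0:ℝ) < q := by exact_mod_cast hq0
      have hqL : q ≤ L := hq'.2.1.trans hyL
      have hx1 : 1 ≤ L / q := (Nat.one_le_div_iff hq0).mpr hqL
      have hsm := smooth_bound (A := 1) (by norm_num) hz4 (by rw [hlz]; nlinarith) hx1
      have hxr : ((L / q : ℕ) : ℝ) ≤ L / q := Nat.cast_div_le
      have hx1r : (1:ℝ) ≤ ((L / q : ℕ) : ℝ) := by exact_mod_cast hx1
      have hlow : (L:ℝ) / q ≤ 2 * ((L / q : ℕ) : ℝ) := by
        have h3 : L < (L / q + 1) * q := by
          have := Nat.lt_div_mul_add (a := L) hq0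
          linarith
        have h4 : (L:ℝ) < (((L / q : ℕ) : ℝ) + 1) * q := by exact_mod_cast h3
        have h5 : (L:ℝ) / q < ((L / q : ℕ) : ℝ) + 1 := by rw [div_lt_iff₀ hqr]; exact h4
        linarith
      have hlog : Real.log L - Real.log q ≤ Real.log 2 + Real.log ((L / q : ℕ) : ℝ) := by
        rw [← Real.log_div hLr.ne' hqr.ne', ← Real.log_mul (by norm_num) (by linarith)]
        exact Real.log_le_log (by positivity) hlow
      have hexp : Real.exp (-(1 * Real.log ((L / q : ℕ) : ℝ) / Real.log ((2 ^ Z : ℕ) : ℝ))) ≤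
          Real.exp 1 * Real.exp (-((Real.log L - Real.log q) / Real.log ((2 ^ Z : ℕ) : ℝ))) := by
        rw [← Real.exp_add]
        apply Real.exp_le_exp.mpr
        have h6 : (Real.log L - Real.log q) / Real.log ((2 ^ Z : ℕ) : ℝ) ≤
            (Real.log 2 + Real.log ((L / q : ℕ) : ℝ)) / Real.log ((2 ^ Z : ℕ) : ℝ) :=
          div_le_div_of_nonneg_right hlog hlz0.le
        rw [add_div] at h6
        have h7 : Real.log 2 / Real.log ((2 ^ Z : ℕ) : ℝ) ≤ 1 := by
          rw [div_le_one hlz0, hlz]; nlinarith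
        rw [one_mul]
        linarith
      unfold Sm CS
      calc _ ≤ _ := hsm
        _ ≤ (1 + Real.exp (12 * Real.exp (2 * 1))) * ((L:ℝ) / q) *
            (Real.exp 1 * Real.exp (-((Real.log L - Real.log q) / Real.log ((2 ^ Z : ℕ) : ℝ)))) := by
            apply mul_le_mul _ hexp (Real.exp_pos _).le (by positivity)
            exact mul_le_mul_of_nonneg_left hxr (by positivity)
    have hsum : ∑ q ∈ pr (2 ^ Z) y, (1 / (q:ℝ)) * Real.exp (-((Real.log L - Real.log q) / Real.log ((2 ^ Z : ℕ) : ℝ)))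
        ≤ Real.exp 1 * (16 / u) := by
      have hcover : pr (2 ^ Z) y ⊆ (Finset.range u).biUnion (fun v => pr (2 ^ ((v + 1) * Z)) (2 ^ ((v + 1) * Z + Z))) := by
        intro q hq
        rw [mem_pr] at hq
        rw [mem_biUnion]
        have hqL : q ≤ 2 ^ ((u + 1) * Z) := hq.2.1.trans (hyL.trans hL2)
        -- find the block
        have hex : ∃ v, q ≤ 2 ^ ((v + 1) * Z + Z) := ⟨u, hqL.trans (Nat.pow_le_pow_right (by norm_num) (by omega))⟩
        classical
        set v := Nat.find hex with hv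
        have hv1 := Nat.find_spec hex
        have hv2 : v < u := by
          by_contra h
          push Not at h
          have h3 : ¬ q ≤ 2 ^ ((u - 1 + 1) * Z + Z) := Nat.find_min hex (by omega)
          apply h3
          have e : (u - 1 + 1) * Z + Z = (u + 1) * Z := by
            have : u - 1 + 1 = u := by omega
            rw [this]; ring
          rw [e]; exact hqL
        refine ⟨v, mem_range.mpr hv2, ?_⟩
        rw [mem_pr]
        refine ⟨?_, hv1, hq.2.2⟩
        rcases Nat.eq_zero_or_pos v with h0 | h0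
        · rw [h0]; simpa using hq.1
        · have h3 : ¬ q ≤ 2 ^ ((v - 1 + 1) * Z + Z) := Nat.find_min hex (by omega)
          have e : (v - 1 + 1) * Z + Z = (v + 1) * Z := by
            have : v - 1 + 1 = v := by omega
            rw [this]; ring
          rw [e] at h3
          omega
      calc _ ≤ ∑ q ∈ (Finset.range u).biUnion (fun v => pr (2 ^ ((v + 1) * Z)) (2 ^ ((v + 1) * Z + Z))),
            (1 / (q:ℝ)) * Real.exp (-((Real.log L - Real.log q) / Real.log ((2 ^ Z : ℕ) : ℝ))) :=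
            Finset.sum_le_sum_of_subset_of_nonneg hcover (fun _ _ _ => by positivity)
        _ ≤ ∑ v ∈ Finset.range u, ∑ q ∈ pr (2 ^ ((v + 1) * Z)) (2 ^ ((v + 1) * Z + Z)),
            (1 / (q:ℝ)) * Real.exp (-((Real.log L - Real.log q) / Real.log ((2 ^ Z : ℕ) : ℝ))) := by
            apply sum_biUnion_le'
            intro _; positivity
        _ ≤ ∑ v ∈ Finset.range u, (4 * Real.exp 1) * (Real.exp (-((u:ℝ) - (v + 1))) * (1 / ((v:ℝ) + 1))) := by
            apply Finset.sum_le_sum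
            intro v _
            have hb := recip_block ((v + 1) * Z) Z (by nlinarith)
            have hb2 : 4 * (Z:ℝ) / (((v + 1) * Z : ℕ) : ℝ) = 4 / ((v:ℝ) + 1) := by
              push_cast; field_simp
            rw [hb2] at hb
            calc _ ≤ ∑ q ∈ pr (2 ^ ((v + 1) * Z)) (2 ^ ((v + 1) * Z + Z)),
                  (1 / (q:ℝ)) * (Real.exp 1 * Real.exp (-((u:ℝ) - (v + 1)))) := by
                  apply Finset.sum_le_sum
                  intro q hq
                  apply mul_le_mul_of_nonneg_left _ (by positivity)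
                  rw [← Real.exp_add]
                  apply Real.exp_le_exp.mpr
                  rw [mem_pr] at hq
                  have hq1 : Real.log q ≤ ((v:ℝ) + 2) * Real.log ((2 ^ Z : ℕ) : ℝ) := by
                    have h3 : Real.log q ≤ Real.log ((2 ^ ((v + 1) * Z + Z) : ℕ) : ℝ) :=
                      Real.log_le_log (by exact_mod_cast hq.2.2.pos) (by exact_mod_cast hq.2.1)
                    have h4 : Real.log ((2 ^ ((v + 1) * Z + Z) : ℕ) : ℝ) = ((v:ℝ) + 2) * Real.log ((2 ^ Z : ℕ) : ℝ) := by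
                      rw [hlz]; push_cast; rw [Real.log_pow]; push_cast; ring
                    rw [h4] at h3; exact h3
                  have hLl : u * Real.log ((2 ^ Z : ℕ) : ℝ) ≤ Real.log L := by
                    have h3 : Real.log ((2 ^ (u * Z) : ℕ) : ℝ) ≤ Real.log L :=
                      Real.log_le_log (by positivity) (by exact_mod_cast hL1)
                    have h4 : Real.log ((2 ^ (u * Z) : ℕ) : ℝ) = u * Real.log ((2 ^ Z : ℕ) : ℝ) := by
                      rw [hlz]; push_cast; rw [Real.log_pow]; push_cast; ring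
                    rw [h4] at h3; exact h3
                  have h5 : (u:ℝ) - (v + 2) ≤ (Real.log L - Real.log q) / Real.log ((2 ^ Z : ℕ) : ℝ) := by
                    rw [le_div_iff₀ hlz0]; linarith
                  linarith
              _ = (∑ q ∈ pr (2 ^ ((v + 1) * Z)) (2 ^ ((v + 1) * Z + Z)), 1 / (q:ℝ)) *
                  (Real.exp 1 * Real.exp (-((u:ℝ) - (v + 1)))) := by rw [Finset.sum_mul]
              _ ≤ (4 / ((v:ℝ) + 1)) * (Real.exp 1 * Real.exp (-((u:ℝ) - (v + 1)))) :=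
                  mul_le_mul_of_nonneg_right hb (by positivity)
              _ = _ := by ring
        _ = (4 * Real.exp 1) * ∑ v ∈ Finset.range u, (Real.exp (-((u:ℝ) - (v + 1))) * (1 / ((v:ℝ) + 1))) := by
            rw [Finset.mul_sum]
        _ ≤ (4 * Real.exp 1) * (4 / u) := mul_le_mul_of_nonneg_left (exp_conv_sum u hu) (by positivity)
        _ = _ := by ring
    calc _ ≤ ((∑ q ∈ pr (2 ^ Z) y, ((Sm (2 ^ Z) (L / q)).image (fun m => q * m)).card : ℕ) : ℝ) := by
          exact_mod_cast Finset.card_biUnion_le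
      _ ≤ ∑ q ∈ pr (2 ^ Z) y, (((Sm (2 ^ Z) (L / q)).card : ℕ) : ℝ) := by
          push_cast
          apply Finset.sum_le_sum
          intro q _
          exact_mod_cast Finset.card_image_le
      _ ≤ ∑ q ∈ pr (2 ^ Z) y, CS * (L / q) * (Real.exp 1 * Real.exp (-((Real.log L - Real.log q) / Real.log ((2 ^ Z : ℕ) : ℝ)))) :=
          Finset.sum_le_sum hterm
      _ = (CS * L * Real.exp 1) * ∑ q ∈ pr (2 ^ Z) y, (1 / (q:ℝ)) * Real.exp (-((Real.log L - Real.log q) / Real.log ((2 ^ Z : ℕ) : ℝ))) := by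
          rw [Finset.mul_sum]
          apply Finset.sum_congr rfl
          intro q _
          ring
      _ ≤ (CS * L * Real.exp 1) * (Real.exp 1 * (16 / u)) := by
          apply mul_le_mul_of_nonneg_left hsum
          have := CS_pos
          positivity
      _ ≤ _ := by
          have he : Real.exp 1 ≤ 2.7182818286 := Real.exp_one_lt_d9.le
          have he0 : 0 < Real.exp 1 := Real.exp_pos 1
          have h8 : Real.exp 1 * Real.exp 1 * 16 ≤ 150 := by nlinarith
          have h9 : 0 ≤ CS * L / u := by have := CS_pos; positivity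
          calc (CS * L * Real.exp 1) * (Real.exp 1 * (16 / u)) = (Real.exp 1 * Real.exp 1 * 16) * (CS * L / u) := by ring
            _ ≤ 150 * (CS * L / u) := mul_le_mul_of_nonneg_right h8 h9
            _ = _ := by ring
  calc ((A1 (2 ^ Z) y L).card : ℝ) ≤ (((((pr (2 ^ Z) y).biUnion (fun q => (Finset.Icc 1 L).filter (fun n => q * q ∣ n))).card +
      (Big y L).card + ((pr (2 ^ Z) y).biUnion (fun q => (Sm (2 ^ Z) (L / q)).image (fun m => q * m))).card : ℕ)) : ℝ) := by
        exact_mod_cast h2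
    _ ≤ L * (1 / 2 ^ Z) + L * (4 * k / a) + L * (150 * CS / u) := by
        push_cast
        push_cast at hsq hmain
        linarith
    _ = _ := by ring

/-- Bound for the integers without medium prime factors. -/
theorem A0_card {A : ℝ} (hA : 0 ≤ A) {u Z y L a k : ℕ} (hZ : 2 ≤ Z) (hZA : 4 * A ≤ Z * Real.log 2)
    (ha : 1 ≤ a) (hy : 2 ^ a ≤ y) (hL : L ≤ 2 ^ (a + k)) (hL1 : 2 ^ (u * Z) ≤ L) :
    ((A0 (2 ^ Z) y L).card : ℝ) ≤ L * ((1 + Real.exp (12 * Real.exp (2 * A))) * Real.exp (-(A * u)) + 4 * k / a) := by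
  have hL0 : 0 < L := lt_of_lt_of_le (by positivity) hL1
  have hLr : (0:ℝ) < L := by exact_mod_cast hL0
  have hl2 : 0.6931471803 < Real.log 2 := Real.log_two_gt_d9
  have hZ0 : (0:ℝ) < Z := by exact_mod_cast (by omega : 0 < Z)
  have hz4 : 4 ≤ 2 ^ Z := by
    calc 4 = 2 ^ 2 := by norm_num
      _ ≤ 2 ^ Z := Nat.pow_le_pow_right (by norm_num) (by omega)
  have hlz : Real.log ((2 ^ Z : ℕ) : ℝ) = Z * Real.log 2 := by push_cast; rw [Real.log_pow]
  have hlz0 : 0 < Real.log ((2 ^ Z : ℕ) : ℝ) := by rw [hlz]; positivity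
  have hsm := smooth_bound hA hz4 (by rw [hlz]; exact hZA) (x := L) hL0
  have hbig := Big_card ha hy hL
  have h1 := (Finset.card_le_card (A0_subset (2 ^ Z) y L)).trans (Finset.card_union_le _ _)
  have hexp : Real.exp (-(A * Real.log L / Real.log ((2 ^ Z : ℕ) : ℝ))) ≤ Real.exp (-(A * u)) := by
    apply Real.exp_le_exp.mpr
    have hLl : u * Real.log ((2 ^ Z : ℕ) : ℝ) ≤ Real.log L := by
      have h3 : Real.log ((2 ^ (u * Z) : ℕ) : ℝ) ≤ Real.log L :=
        Real.log_le_log (by positivity) (by exact_mod_cast hL1)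
      have h4 : Real.log ((2 ^ (u * Z) : ℕ) : ℝ) = u * Real.log ((2 ^ Z : ℕ) : ℝ) := by
        rw [hlz]; push_cast; rw [Real.log_pow]; push_cast; ring
      rw [h4] at h3; exact h3
    have : A * u ≤ A * Real.log L / Real.log ((2 ^ Z : ℕ) : ℝ) := by
      rw [mul_div_assoc]
      apply mul_le_mul_of_nonneg_left _ hA
      rw [le_div_iff₀ hlz0]; exact hLl
    linarith
  calc ((A0 (2 ^ Z) y L).card : ℝ) ≤ (((Sm (2 ^ Z) L).card + (Big y L).card : ℕ) : ℝ) := by exact_mod_cast h1
    _ ≤ (1 + Real.exp (12 * Real.exp (2 * A))) * L * Real.exp (-(A * Real.log L / Real.log ((2 ^ Z : ℕ) : ℝ))) + L * (4 * k / a) := by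
        push_cast
        push_cast at hsm
        exact add_le_add hsm hbig
    _ ≤ (1 + Real.exp (12 * Real.exp (2 * A))) * L * Real.exp (-(A * u)) + L * (4 * k / a) := by
        have := mul_le_mul_of_nonneg_left hexp (by positivity : 0 ≤ (1 + Real.exp (12 * Real.exp (2 * A))) * (L:ℝ))
        linarith
    _ = _ := by ring

end Pool.Agent.Helper52
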