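import Pool.Agent.Helper52.Expect
import Pool.Agent.Helper52.Exc
import Pool.Agent.Helper52.WBT

/-!
The core covering statement: random small primes, tuples for the large primes.
-/

set_option linter.unusedSectionVars false
set_option linter.unusedSimpArgs false

open Finset

namespace Pool.Agent.Helper52

/-- the small primes as an index type -/
abbrev SP (Z : ℕ) := {l : ℕ // l ∈ pr 0 (2 ^ Z)}

/-- the small primes -/
abbrev sp (Z : ℕ) : SP Z → ℕ := fun i => i.1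

theorem sp_prime {Z : ℕ} (i : SP Z) : (sp Z i).Prime := (mem_pr.mp i.2).2.2

theorem sp_inj (Z : ℕ) : Function.Injective (sp Z) := Subtype.val_injective

theorem sp_le {Z : ℕ} (i : SP Z) : sp Z i ≤ 2 ^ Z := (mem_pr.mp i.2).2.1

theorem prod_sp (Z : ℕ) (f : ℕ → ℝ) : ∏ i : SP Z, f (sp Z i) = ∏ q ∈ pr 0 (2 ^ Z), f q :=
  Finset.prod_coe_sort (pr 0 (2 ^ Z)) f

theorem sum_sp (Z : ℕ) (f : ℕ → ℝ) : ∑ i : SP Z, f (sp Z i) = ∑ q ∈ pr 0 (2 ^ Z), f q :=
  Finset.sum_coe_sort (pr 0 (2 ^ Z)) f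

theorem Qf_sp (Z w k : ℕ) : Qf (fun i : {i : SP Z // ¬ sp Z i ≤ w} => sp Z i) k =
    ∏ q ∈ pr w (2 ^ Z), (1 - (k:ℝ) / q) := by
  unfold Qf
  have h1 : ∏ i : {i : SP Z // ¬ sp Z i ≤ w}, (1 - (k:ℝ) / ((sp Z i : ℕ) : ℝ)) =
      ∏ i ∈ (univ : Finset (SP Z)).filter (fun i => ¬ sp Z i ≤ w), (1 - (k:ℝ) / ((sp Z i : ℕ) : ℝ)) :=
    (Finset.prod_subtype _ (by intro x; rw [mem_filter]; simp) (fun i : SP Z => (1 - (k:ℝ) / ((sp Z i : ℕ) : ℝ)))).symm
  rw [h1, Finset.prod_filter]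
  have h2 := prod_sp Z (fun q => if ¬ q ≤ w then (1 - (k:ℝ) / q) else 1)
  rw [h2, ← Finset.prod_filter]
  apply Finset.prod_congr _ (fun _ _ => rfl)
  ext q
  rw [mem_filter, mem_pr, mem_pr]
  constructor
  · rintro ⟨⟨_, h2, h3⟩, h4⟩; exact ⟨by omega, h2, h3⟩
  · rintro ⟨h1, h2, h3⟩; exact ⟨⟨h3.pos, h2, h3⟩, by omega⟩

/-- constants -/
noncomputable def C3 : ℝ := Real.exp 9 / Real.log 2

theorem C3_pos : 0 < C3 := by
  unfold C3
  have := Real.log_pos (by norm_num : (1:ℝ) < 2)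
  positivity

/-- constant of the covering exponent -/
noncomputable def kap : ℝ := 3 / (5120 * C3)

theorem kap_pos : 0 < kap := by unfold kap; have := C3_pos; positivity

theorem Qf_lower {a Z J : ℕ} (hZ : 1 ≤ Z) (hJ : 2 * J ≤ 2 ^ a) :
    Real.exp (-(2 * J * (Real.log Z + 8))) ≤ ∏ q ∈ pr (2 ^ a) (2 ^ Z), (1 - (J:ℝ) / q) := by
  have h1 : ∑ q ∈ pr (2 ^ a) (2 ^ Z), 1 / (q:ℝ) ≤ Real.log Z + 8 := by
    refine le_trans ?_ (mertens2 hZ)
    apply Finset.sum_le_sum_of_subset_of_nonneg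
    · intro q hq; rw [mem_pr] at hq ⊢; exact ⟨hq.2.2.pos, hq.2.1, hq.2.2⟩
    · intro _ _ _; positivity
  calc _ ≤ Real.exp (∑ q ∈ pr (2 ^ a) (2 ^ Z), (-(2 * J * (1 / (q:ℝ))))) := by
        apply Real.exp_le_exp.mpr
        rw [Finset.sum_neg_distrib, ← Finset.mul_sum]
        have : (0:ℝ) ≤ 2 * J := by positivity
        nlinarith
    _ = ∏ q ∈ pr (2 ^ a) (2 ^ Z), Real.exp (-(2 * J * (1 / (q:ℝ)))) := Real.exp_sum _ _
    _ ≤ _ := by
        apply Finset.prod_le_prod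
        · intro q _; positivity
        · intro q hq
          rw [mem_pr] at hq
          have hq0 : (0:ℝ) < q := by exact_mod_cast hq.2.2.pos
          have h2 : 2 * (J:ℝ) ≤ q := by
            have : 2 * J ≤ q := by omega
            exact_mod_cast this
          set x := (J:ℝ) / q with hx
          have hx0 : 0 ≤ x := by positivity
          have hx1 : x ≤ 1 / 2 := by rw [hx, div_le_iff₀ hq0]; linarith
          have e : 2 * (J:ℝ) * (1 / (q:ℝ)) = 2 * x := by rw [hx]; ring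
          rw [e, Real.exp_neg]
          have h3 : 1 + 2 * x ≤ Real.exp (2 * x) := by
            have := Real.add_one_le_exp (2 * x); linarith
          have h4 : (Real.exp (2 * x))⁻¹ ≤ (1 + 2 * x)⁻¹ := inv_anti₀ (by positivity) h3
          apply h4.trans
          rw [inv_le_comm₀ (by positivity) (by linarith)]
          rw [inv_le_iff_one_le_mul₀ (by linarith)]
          nlinarith

open scoped Classical in
/-- One scale with explicit parameters. -/
theorem scale_param : ∃ N0 : ℕ, ∀ u Z L i : ℕ, 3 ≤ u → 1 ≤ i → 16 * i ≤ Z → N0 ≤ 2 ^ Z → u + 1 ≤ Z →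
    2 ^ (u * Z) ≤ L → 2 * L ≤ 2 ^ ((u + 1) * Z) → 2 * 4 ^ i * (Real.log Z + 8) ≤ Z * Real.log 2 →
    ∃ w : Om (sp Z) → ℕ → ℤ → ℝ, (∀ a q n, 0 ≤ w a q n) ∧
      (∀ a, ∀ q ∈ pr (L / 4 ^ (i + 1)) (L / 4 ^ i), ∑ n ∈ Finset.Ioc (-(L:ℤ)) L, w a q n ≤ 1) ∧
      E (sp Z) (fun a => (((Finset.Icc (1:ℤ) L).filter (fun s => Avoid (sp Z) a s ∧
        ∑ q ∈ pr (L / 4 ^ (i + 1)) (L / 4 ^ i), hit (Finset.Ioc (-(L:ℤ)) L) (w a) q s <
          kap / ((u + 1) * i))).card : ℝ)) ≤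
        L * (C3 * (16 * i) / Z) * (4244 / 16 ^ i) := by
  obtain ⟨N1, hN1, hch⟩ := cheb_lower
  obtain ⟨N2, hbt⟩ := weak_bt
  refine ⟨max (max N1 N2) 65536, ?_⟩
  intro u Z L i hu hi hiZ hN0 huZ hL1 hL2 hlog
  have hNZ : N1 ≤ 2 ^ Z := (le_max_left _ _).trans ((le_max_left _ _).trans hN0)
  have hNZ2 : N2 ≤ 2 ^ Z := (le_max_right _ _).trans ((le_max_left _ _).trans hN0)
  have hZ16 : 16 ≤ Z := by omega
  have hZr : (16:ℝ) ≤ Z := by exact_mod_cast hZ16
  have hl2 : 0.6931471803 < Real.log 2 := Real.log_two_gt_d9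
  have hl2' : Real.log 2 < 0.6931471808 := Real.log_two_lt_d9
  set J := 4 ^ i with hJ
  set N := L / 4 ^ i with hN
  have hdiv : L / 4 ^ (i + 1) = N / 4 := by rw [hN, Nat.div_div_eq_div_mul, pow_succ]
  rw [hdiv]
  set Q := pr (N / 4) N with hQ
  have hJ8 : J ^ 8 = 2 ^ (16 * i) := by
    rw [hJ, show (4:ℕ) = 2 ^ 2 by norm_num, ← pow_mul, ← pow_mul]
    congr 1; ring
  have hJ4 : 4 ≤ J := by
    calc 4 = 4 ^ 1 := by norm_num
      _ ≤ 4 ^ i := Nat.pow_le_pow_right (by norm_num) hi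
  have hL0 : 0 < L := lt_of_lt_of_le (by positivity) hL1
  have hLr : (0:ℝ) < L := by exact_mod_cast hL0
  -- size of `N`
  have hJ2 : J = 2 ^ (2 * i) := by rw [hJ, show (4:ℕ) = 2 ^ 2 by norm_num, ← pow_mul]
  have h2i : 2 * i ≤ Z := by omega
  have hNbig : 2 ^ (u * Z - 2 * i) ≤ N := by
    rw [hN, Nat.le_div_iff_mul_le (by positivity)]
    have : 2 ^ (u * Z - 2 * i) * 4 ^ i = 2 ^ (u * Z) := by
      rw [show (4:ℕ) ^ i = 2 ^ (2 * i) by rw [pow_mul]; norm_num, ← pow_add]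
      congr 1
      have : 2 * i ≤ u * Z := by nlinarith
      omega
    rw [this]; exact hL1
  have hNbig2 : 2 ^ (2 * Z) ≤ N := by
    apply le_trans _ hNbig
    apply Nat.pow_le_pow_right (by norm_num)
    have : 3 * Z ≤ u * Z := Nat.mul_le_mul_right Z hu
    omega
  have hZpow : 4 * 2 ^ Z ≤ 2 ^ (2 * Z) := by
    rw [two_mul, pow_add]
    apply Nat.mul_le_mul_right
    calc 4 = 2 ^ 2 := by norm_num
      _ ≤ 2 ^ Z := Nat.pow_le_pow_right (by norm_num) (by omega)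
  have hN4 : 2 ^ Z ≤ N / 4 := by
    rw [Nat.le_div_iff_mul_le (by norm_num)]
    linarith
  have hNN1 : N1 ≤ N := by omega
  have hNN2 : N2 ≤ N := by omega
  have hN100 : 100 ≤ N := hN1.trans hNN1
  have hNr : (100:ℝ) ≤ N := by exact_mod_cast hN100
  have hcheb := hch N hNN1
  rw [← hQ] at hcheb
  -- `log N ≤ (u+1) Z`
  have hNL : N ≤ L := Nat.div_le_self _ _
  have hlogN : Real.log N ≤ ((u:ℝ) + 1) * Z := by
    have h1 : Real.log N ≤ Real.log ((2 ^ ((u + 1) * Z) : ℕ) : ℝ) :=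
      Real.log_le_log (by linarith) (by exact_mod_cast (by omega : N ≤ 2 ^ ((u + 1) * Z)))
    have h2 : Real.log ((2 ^ ((u + 1) * Z) : ℕ) : ℝ) = ((u:ℝ) + 1) * Z * Real.log 2 := by
      push_cast; rw [Real.log_pow]; push_cast; ring
    rw [h2] at h1
    have h3 : 0 ≤ ((u:ℝ) + 1) * Z := by positivity
    nlinarith
  have hlogN0 : 0 < Real.log N := Real.log_pos (by linarith)
  have huZ0 : 0 < ((u:ℝ) + 1) * Z := by positivity
  have hQlow : 3 / 10 * (N:ℝ) / (((u:ℝ) + 1) * Z) ≤ Q.card := by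
    apply le_trans _ hcheb
    apply div_le_div_of_nonneg_left (by positivity) hlogN0 hlogN
  -- `2^((u-1)Z) ≤ |Q|`
  have hZsq : 4 * ((u + 1) * Z) ≤ 2 ^ (Z - 2 * i) := by
    have h1 : (u + 1) * Z ≤ Z * Z := Nat.mul_le_mul_right Z huZ
    have h2 : 4 * (Z * Z) ≤ 2 ^ (Z - 2 * i) := by
      have h3 : Z - Z / 8 ≤ Z - 2 * i := by omega
      apply le_trans _ (Nat.pow_le_pow_right (by norm_num) h3)
      -- `4 Z^2 ≤ 2^(Z - Z/8)` for `Z ≥ 16`
      obtain ⟨m, r, hr, rfl⟩ : ∃ m r, r < 8 ∧ Z = 8 * m + r := ⟨Z / 8, Z % 8, Nat.mod_lt _ (by norm_num), by omega⟩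
      have e : 8 * m + r - (8 * m + r) / 8 = 7 * m + r := by omega
      rw [e]
      have hm : 2 ≤ m := by omega
      have h4 : ∀ m : ℕ, 2 ≤ m → 4 * ((8 * m + 7) * (8 * m + 7)) ≤ 2 ^ (7 * m) := by
        intro m hm
        induction m, hm using Nat.le_induction with
        | base => norm_num
        | succ m hm ih =>
          have : 2 ^ (7 * (m + 1)) = 128 * 2 ^ (7 * m) := by rw [mul_add, pow_add]; ring
          rw [this]
          nlinarith
      calc 4 * ((8 * m + r) * (8 * m + r)) ≤ 4 * ((8 * m + 7) * (8 * m + 7)) := by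
            apply Nat.mul_le_mul_left
            apply Nat.mul_le_mul <;> omega
        _ ≤ 2 ^ (7 * m) := h4 m hm
        _ ≤ _ := Nat.pow_le_pow_right (by norm_num) (by omega)
    omega
  have hQbig : (2:ℝ) ^ ((u - 1) * Z) ≤ Q.card := by
    apply le_trans _ hQlow
    rw [le_div_iff₀ huZ0]
    have h1 : 2 ^ ((u - 1) * Z) * (4 * ((u + 1) * Z)) ≤ N := by
      apply le_trans _ hNbig
      calc 2 ^ ((u - 1) * Z) * (4 * ((u + 1) * Z)) ≤ 2 ^ ((u - 1) * Z) * 2 ^ (Z - 2 * i) := Nat.mul_le_mul_left _ hZsq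
        _ = 2 ^ (u * Z - 2 * i) := by
            rw [← pow_add]
            congr 1
            have h2 : (u - 1) * Z + Z = u * Z := by
              have : u = (u - 1) + 1 := by omega
              conv_rhs => rw [this]
              ring
            omega
    have h2 : (2:ℝ) ^ ((u - 1) * Z) * (4 * (((u:ℝ) + 1) * Z)) ≤ N := by exact_mod_cast h1
    have h3 : 0 ≤ (2:ℝ) ^ ((u - 1) * Z) * (((u:ℝ) + 1) * Z) := by positivity
    nlinarith
  have h2Q : (2 * (L:ℝ)) ≤ (Q.card : ℝ) ^ 2 := by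
    have h1 : (2 * (L:ℝ)) ≤ (2:ℝ) ^ ((u + 1) * Z) := by exact_mod_cast hL2
    apply h1.trans
    calc (2:ℝ) ^ ((u + 1) * Z) ≤ (2:ℝ) ^ (((u - 1) * Z) * 2) := by
          apply pow_le_pow_right₀ (by norm_num)
          have : (u + 1) * Z ≤ (2 * (u - 1)) * Z := Nat.mul_le_mul_right Z (by omega)
          calc (u + 1) * Z ≤ (2 * (u - 1)) * Z := this
            _ = _ := by ring
      _ = ((2:ℝ) ^ ((u - 1) * Z)) ^ 2 := by rw [pow_mul]
      _ ≤ _ := by
          apply pow_le_pow_left₀ (by positivity) hQbig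
  -- lower bound for `Qf J`
  set QJ := Qf (fun i : {i : SP Z // ¬ sp Z i ≤ J ^ 8} => sp Z i) J with hQJ
  set Q1 := Qf (fun i : {i : SP Z // ¬ sp Z i ≤ J ^ 8} => sp Z i) 1 with hQ1
  have hQJlow : ((2:ℝ) ^ Z)⁻¹ ≤ QJ := by
    rw [hQJ, Qf_sp, hJ8]
    have h1 := Qf_lower (a := 16 * i) (Z := Z) (J := J) (by omega) (by
      rw [hJ2]
      calc 2 * 2 ^ (2 * i) = 2 ^ (2 * i + 1) := by ring
        _ ≤ 2 ^ (16 * i) := Nat.pow_le_pow_right (by norm_num) (by omega))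
    apply le_trans _ h1
    have h2 : ((2:ℝ) ^ Z)⁻¹ = Real.exp (-(Z * Real.log 2)) := by
      rw [Real.exp_neg, ← Real.log_pow, Real.exp_log (by positivity)]
    rw [h2]
    apply Real.exp_le_exp.mpr
    have h3 : 2 * (J:ℝ) * (Real.log Z + 8) ≤ Z * Real.log 2 := by
      rw [hJ]; push_cast; exact hlog
    linarith
  have hQ1up : Q1 ≤ C3 * (16 * i) / Z := by
    rw [hQ1, Qf_sp, hJ8]
    have h1 := prod_range_le (a := 16 * i) (b := Z) (by omega) hiZ
    unfold C3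
    push_cast at h1
    push_cast
    exact h1
  have h2Z0 : (0:ℝ) < 2 ^ Z := by positivity
  have hJr : (J:ℝ) = 2 ^ (2 * i) := by rw [hJ2]; push_cast; rfl
  have hQpos : (0:ℝ) ≤ Q.card := Nat.cast_nonneg _
  have hQQ : (J:ℝ) ^ 2 ≤ QJ * Q.card := by
    have h1 : (2:ℝ) ^ (2 * Z) ≤ Q.card := by
      apply le_trans _ hQbig
      apply pow_le_pow_right₀ (by norm_num)
      exact Nat.mul_le_mul_right Z (by omega)
    calc (J:ℝ) ^ 2 = 2 ^ (4 * i) := by rw [hJr, ← pow_mul]; congr 1; ring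
      _ ≤ 2 ^ Z := pow_le_pow_right₀ (by norm_num) (by omega)
      _ = ((2:ℝ) ^ Z)⁻¹ * 2 ^ (2 * Z) := by rw [two_mul, pow_add]; field_simp
      _ ≤ QJ * Q.card := mul_le_mul hQJlow h1 (by positivity) (le_trans (by positivity) hQJlow)
  have hQL : (J:ℝ) ^ 4 ≤ QJ * L := by
    have h1 : (2:ℝ) ^ (2 * Z) ≤ L := by
      have : 2 ^ (2 * Z) ≤ L := hNbig2.trans hNL
      exact_mod_cast this
    calc (J:ℝ) ^ 4 = 2 ^ (8 * i) := by rw [hJr, ← pow_mul]; congr 1; ring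
      _ ≤ 2 ^ Z := pow_le_pow_right₀ (by norm_num) (by omega)
      _ = ((2:ℝ) ^ Z)⁻¹ * 2 ^ (2 * Z) := by rw [two_mul, pow_add]; field_simp
      _ ≤ QJ * L := mul_le_mul hQJlow h1 (by positivity) (le_trans (by positivity) hQJlow)
  obtain ⟨w, hw0, hw1, hw2⟩ := scale_full (p := sp Z) (J := J) (L := L) (Q := Q) (C2 := 54)
    (by norm_num) hJ4 hL0 sp_prime (sp_inj Z) (fun q hq => (mem_pr.mp hq).2.2)
    (fun q hq i => by
      have h1 := (mem_pr.mp hq).1
      have h2 := sp_le i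
      omega)
    (fun q hq => by
      have h1 := (mem_pr.mp hq).2.1
      rw [hN, Nat.le_div_iff_mul_le (by positivity)] at h1
      exact h1)
    (fun d hd1 hd2 q0 hq0 => by
      apply hbt N hNN2 d _ _ q0 hq0
      · have : 8 ≤ J ^ 8 := by
          calc 8 ≤ 4 ^ 8 := by norm_num
            _ ≤ J ^ 8 := Nat.pow_le_pow_left hJ4 8
        omega
      · refine le_trans ?_ h2Q
        exact_mod_cast hd2)
    hQQ hQL
  have hQ1pos : 0 < Q1 := by
    have hh : ∀ i : {i : SP Z // ¬ sp Z i ≤ J ^ 8}, 1 < sp Z i := fun i => (sp_prime i.1).one_lt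
    exact Qf_pos (J := 1) hh le_rfl
  refine ⟨w, hw0, hw1, ?_⟩
  have hthr : kap / ((u + 1) * i) ≤ (Q.card : ℝ) * J / (16 * L * Q1) := by
    have hir : (0:ℝ) < i := by exact_mod_cast hi
    have hZ0 : (0:ℝ) < Z := by linarith
    have hJ0 : (0:ℝ) < J := by rw [hJr]; positivity
    -- `N J ≥ L/2`
    have hNJ : (L:ℝ) ≤ 2 * (N * J) := by
      have h1 : L < (N + 1) * J := by
        have := Nat.lt_div_mul_add (a := L) (b := 4 ^ i) (by positivity)
        rw [← hN, ← hJ] at this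
        linarith
      have h2 : (L:ℝ) < ((N:ℝ) + 1) * J := by exact_mod_cast h1
      have h3 : ((N:ℝ) + 1) * J ≤ (2 * N) * J := mul_le_mul_of_nonneg_right (by linarith) hJ0.le
      linarith
    have hC3 := C3_pos
    have h3 : (Q.card : ℝ) * J / (16 * L * Q1) ≥ (3 / 10 * (N:ℝ) / (((u:ℝ) + 1) * Z)) * J / (16 * L * (C3 * (16 * i) / Z)) := by
      apply div_le_div₀ (by positivity) _ (by positivity) _
      · exact mul_le_mul_of_nonneg_right hQlow hJ0.le
      · exact mul_le_mul_of_nonneg_left hQ1up (by positivity)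
    refine le_trans ?_ h3
    have h4 : (3 / 10 * (N:ℝ) / (((u:ℝ) + 1) * Z)) * J / (16 * L * (C3 * (16 * i) / Z)) =
        (3 * (N * J)) / (2560 * L * C3 * ((u + 1) * i)) := by
      field_simp
      ring
    rw [h4]
    unfold kap
    rw [div_div, div_le_div_iff₀ (by positivity) (by positivity)]
    have h5 : 0 < C3 * (((u:ℝ) + 1) * i) := by positivity
    nlinarith
  have h16 : (J:ℝ) ^ 2 = 16 ^ i := by
    rw [hJ]; push_cast; rw [← pow_mul, mul_comm i 2, pow_mul]; norm_num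
  calc _ ≤ E (sp Z) (fun a => (((Finset.Icc (1:ℤ) L).filter (fun s => Avoid (sp Z) a s ∧
        ∑ q ∈ Q, hit (Finset.Ioc (-(L:ℤ)) L) (w a) q s <
          (Q.card : ℝ) * J / (16 * L * Q1))).card : ℝ)) := by
        apply E_mono
        intro a
        have : (Finset.Icc (1:ℤ) L).filter (fun s => Avoid (sp Z) a s ∧
            ∑ q ∈ Q, hit (Finset.Ioc (-(L:ℤ)) L) (w a) q s < kap / ((u + 1) * i)) ⊆
            (Finset.Icc (1:ℤ) L).filter (fun s => Avoid (sp Z) a s ∧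
            ∑ q ∈ Q, hit (Finset.Ioc (-(L:ℤ)) L) (w a) q s < (Q.card : ℝ) * J / (16 * L * Q1)) := by
          intro s hs
          rw [mem_filter] at hs ⊢
          exact ⟨hs.1, hs.2.1, lt_of_lt_of_le hs.2.2 hthr⟩
        exact_mod_cast Finset.card_le_card this
    _ ≤ L * Q1 * ((64 * 54 + 788) / (J:ℝ) ^ 2) := hw2
    _ ≤ _ := by
        rw [h16]
        have h6 : (0:ℝ) ≤ 4244 / 16 ^ i := by positivity
        have h7 : ((64:ℝ) * 54 + 788) / 16 ^ i = 4244 / 16 ^ i := by norm_num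
        rw [h7]
        exact mul_le_mul_of_nonneg_right (mul_le_mul_of_nonneg_left hQ1up hLr.le) h6

end Pool.Agent.Helper52
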