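import Pool.Agent.Helper52.Good

/-!
From a good outcome to an interval free of integers with at most two prime factors.
-/

set_option linter.unusedSectionVars false
set_option linter.unusedSimpArgs false

open Finset

namespace Pool.Agent.Helper52

/-- Chinese remaindering for a set of primes. -/
theorem crt_primes (P : Finset ℕ) (hP : ∀ q ∈ P, q.Prime) (b : ℕ → ℤ) :
    ∃ x : ℕ, ∏ q ∈ P, q ≤ x ∧ x < 2 * ∏ q ∈ P, q ∧ ∀ q ∈ P, (q : ℤ) ∣ (x:ℤ) - b q := by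
  have hs : ∀ q ∈ P, id q ≠ 0 := fun q hq => (hP q hq).ne_zero
  have pp : Set.Pairwise (P : Set ℕ) (Function.onFun Nat.Coprime id) := by
    intro x hx y hy hxy
    exact (Nat.coprime_primes (hP x hx) (hP y hy)).mpr hxy
  set k := Nat.chineseRemainderOfFinset (fun q => (b q % (q:ℤ)).toNat) id P hs pp with hk
  have hlt := Nat.chineseRemainderOfFinset_lt_prod (a := fun q => (b q % (q:ℤ)).toNat) (s := id) (t := P) hs pp
  refine ⟨k.1 + ∏ q ∈ P, q, by omega, ?_, ?_⟩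
  · simp only [id] at hlt
    have : (k.1) < ∏ q ∈ P, q := hlt
    omega
  · intro q hq
    have h1 := k.2 q hq
    simp only [id] at h1
    have hq0 : (q:ℤ) ≠ 0 := by exact_mod_cast (hP q hq).ne_zero
    have h2 : (q:ℤ) ∣ (k.1:ℤ) - ((b q % (q:ℤ)).toNat : ℤ) := by
      have := (Nat.modEq_iff_dvd.mp h1.symm)
      exact this
    rw [Int.toNat_of_nonneg (Int.emod_nonneg _ hq0)] at h2
    have h3 : (q:ℤ) ∣ b q % (q:ℤ) - b q := by
      have := Int.emod_add_mul_ediv (b q) q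
      exact ⟨-(b q / q), by linarith⟩
    have h4 : (q:ℤ) ∣ ((∏ l ∈ P, l : ℕ) : ℤ) := by
      exact_mod_cast Finset.dvd_prod_of_mem (fun l => l) hq
    have h5 := dvd_add (dvd_add h2 h3) h4
    have e : ((k.1:ℤ) - b q % (q:ℤ) + (b q % (q:ℤ) - b q) + ((∏ l ∈ P, l : ℕ) : ℤ)) =
        ((k.1 + ∏ l ∈ P, l : ℕ) : ℤ) - b q := by push_cast; ring
    rw [e] at h5
    exact h5

/-- Three prime factors from two distinct small prime divisors of a large number. -/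
theorem three_le_length {m p1 p2 : ℕ} (h1 : p1.Prime) (h2 : p2.Prime) (hne : p1 ≠ p2) (hd1 : p1 ∣ m)
    (hd2 : p2 ∣ m) (hm : p1 * p2 < m) : 3 ≤ m.primeFactorsList.length := by
  have hcop : Nat.Coprime p1 p2 := (Nat.coprime_primes h1 h2).mpr hne
  obtain ⟨k, hk⟩ := hcop.mul_dvd_of_dvd_of_dvd hd1 hd2
  have hp12 : 0 < p1 * p2 := Nat.mul_pos h1.pos h2.pos
  have hk2 : 2 ≤ k := by
    rcases Nat.lt_or_ge k 2 with h | h
    · interval_cases k
      · rw [hk] at hm; simp at hm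
      · rw [hk] at hm; simp at hm
    · exact h
  rw [hk]
  have e1 := (Nat.perm_primeFactorsList_mul hp12.ne' (by omega : k ≠ 0)).length_eq
  have e2 := (Nat.perm_primeFactorsList_mul h1.ne_zero h2.ne_zero).length_eq
  rw [e1, List.length_append, e2, List.length_append, Nat.primeFactorsList_prime h1, Nat.primeFactorsList_prime h2]
  have hk1 : 1 ≤ k.primeFactorsList.length := by
    obtain ⟨q, hq, hqk⟩ := Nat.exists_prime_and_dvd (by omega : k ≠ 1)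
    have : q ∈ k.primeFactorsList := (Nat.mem_primeFactorsList (by omega)).mpr ⟨hq, hqk⟩
    exact List.length_pos_of_mem this
  simp only [List.length_cons, List.length_nil]
  omega

theorem exists_assign (S0 S1 T : Finset ℕ) (h : S1.card + 2 * S0.card ≤ T.card) :
    ∃ g : ℕ → ℕ, (∀ n ∈ S1, ∃ r ∈ T, g r = n) ∧
      (∀ n ∈ S0, ∃ r ∈ T, ∃ r' ∈ T, r ≠ r' ∧ g r = n ∧ g r' = n) := by
  classical
  set U : Finset (ℕ × ℕ) := S1 ×ˢ {0} ∪ S0 ×ˢ {1, 2} with hU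
  have hUcard : U.card ≤ T.card := by
    have h1 : U.card ≤ (S1 ×ˢ ({0} : Finset ℕ)).card + (S0 ×ˢ ({1, 2} : Finset ℕ)).card := by
      rw [hU]; exact Finset.card_union_le _ _
    rw [Finset.card_product, Finset.card_product] at h1
    have h2 : ({0} : Finset ℕ).card = 1 := rfl
    have h3 : ({1, 2} : Finset ℕ).card = 2 := rfl
    rw [h2, h3] at h1
    omega
  obtain ⟨f, hf1, hf2⟩ := Set.Finite.exists_injOn_of_encard_le (s := (U : Set (ℕ × ℕ))) (t := (T : Set ℕ))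
    (Finset.finite_toSet U) (by
      rw [Set.encard_coe_eq_coe_finsetCard, Set.encard_coe_eq_coe_finsetCard]
      exact_mod_cast hUcard)
  have hleft := hf2.leftInvOn_invFunOn
  refine ⟨fun r => (Function.invFunOn f (U : Set (ℕ × ℕ)) r).1, ?_, ?_⟩
  · intro n hn
    have hm : ((n, 0) : ℕ × ℕ) ∈ (U : Set (ℕ × ℕ)) := by
      rw [Finset.mem_coe, hU, mem_union, mem_product]; left; exact ⟨hn, by simp⟩
    refine ⟨f (n, 0), hf1 hm, ?_⟩
    simp only
    rw [hleft hm]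
  · intro n hn
    have hm1 : ((n, 1) : ℕ × ℕ) ∈ (U : Set (ℕ × ℕ)) := by
      rw [Finset.mem_coe, hU, mem_union, mem_product, mem_product]; right; exact ⟨hn, by simp⟩
    have hm2 : ((n, 2) : ℕ × ℕ) ∈ (U : Set (ℕ × ℕ)) := by
      rw [Finset.mem_coe, hU, mem_union, mem_product, mem_product]; right; exact ⟨hn, by simp⟩
    refine ⟨f (n, 1), hf1 hm1, f (n, 2), hf1 hm2, ?_, ?_, ?_⟩
    · intro h
      have := hf2 hm1 hm2 h
      simp at this
    · simp only; rw [hleft hm1]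
    · simp only; rw [hleft hm2]

/-- The covering theorem, conditionally on a good outcome. -/
theorem cover_of_good {Z L i0 i1 Y : ℕ} (hZy : 2 ^ Z ≤ L / 4 ^ i1) (hyY : L / 4 ^ i0 ≤ Y) (hi : i0 ≤ i1)
    (hY : 17 ≤ Y) (h3 : 3 ≤ (pr Y (4 * Y)).card)
    (a : Om (sp Z)) (c : ℕ → ℤ)
    (hcard : (U1 Z (L / 4 ^ i1) L ((Finset.Ico i0 i1).biUnion (Qs L)) a c).card +
      2 * (U0 Z (L / 4 ^ i1) L a).card ≤ (pr Y (4 * Y)).card) :
    ∃ x : ℕ, Y ≤ x ∧ x < 2 * 4 ^ (4 * Y) ∧ ∀ n, 1 ≤ n → n ≤ L → 3 ≤ (x + n).primeFactorsList.length := by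
  classical
  set y := L / 4 ^ i1 with hy
  set Q := (Finset.Ico i0 i1).biUnion (Qs L) with hQ
  obtain ⟨g, hg1, hg2⟩ := exists_assign _ _ _ hcard
  have hyY' : y ≤ Y := by
    apply le_trans _ hyY
    exact Nat.div_le_div_left (Nat.pow_le_pow_right (by norm_num) hi) (by positivity)
  -- location of the large primes
  have hQloc : ∀ q ∈ Q, y < q ∧ q ≤ Y ∧ q.Prime := by
    intro q hq
    rw [hQ, mem_biUnion] at hq
    obtain ⟨i, hi', hqi⟩ := hq
    rw [mem_Ico] at hi'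
    unfold Qs at hqi
    rw [mem_pr] at hqi
    refine ⟨?_, ?_, hqi.2.2⟩
    · apply lt_of_le_of_lt _ hqi.1
      exact Nat.div_le_div_left (Nat.pow_le_pow_right (by norm_num) hi'.2) (by positivity)
    · apply hqi.2.1.trans
      apply le_trans _ hyY
      exact Nat.div_le_div_left (Nat.pow_le_pow_right (by norm_num) hi'.1) (by positivity)
  set b : ℕ → ℤ := fun q => if h : q ∈ pr 0 (2 ^ Z) then -((a ⟨q, h⟩ : ℕ) : ℤ) else
    if q ≤ y then 0 else if q ≤ Y then -(c q) else -((g q : ℕ) : ℤ) with hb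
  obtain ⟨x, hx1, hx2, hx3⟩ := crt_primes (pr 0 (4 * Y)) (fun q hq => (mem_pr.mp hq).2.2) b
  have hprim : ∏ q ∈ pr 0 (4 * Y), q ≤ 4 ^ (4 * Y) := by
    have h := primorial_le_four_pow (4 * Y)
    refine le_trans (le_of_eq ?_) h
    unfold primorial
    apply Finset.prod_congr _ (fun _ _ => rfl)
    ext q
    rw [mem_pr, mem_filter, mem_range]
    constructor
    · rintro ⟨_, h1, h2⟩; exact ⟨by omega, h2⟩
    · rintro ⟨h1, h2⟩; exact ⟨h2.pos, by omega, h2⟩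
  have hbigM : 16 * Y ^ 2 < ∏ q ∈ pr 0 (4 * Y), q := by
    have h1 : Y ^ (pr Y (4 * Y)).card ≤ ∏ q ∈ pr Y (4 * Y), q :=
      Finset.pow_card_le_prod _ _ _ (fun q hq => (mem_pr.mp hq).1.le)
    have h2 : ∏ q ∈ pr Y (4 * Y), q ≤ ∏ q ∈ pr 0 (4 * Y), q := by
      apply Finset.prod_le_prod_of_subset_of_one_le'
      · intro q hq; rw [mem_pr] at hq ⊢; exact ⟨hq.2.2.pos, hq.2.1, hq.2.2⟩
      · intro q hq _; exact (mem_pr.mp hq).2.2.one_lt.le
    have h4 : Y ^ 3 ≤ Y ^ (pr Y (4 * Y)).card := Nat.pow_le_pow_right (by omega) h3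
    have h5 : 16 * Y ^ 2 < Y ^ 3 := by nlinarith [pow_pos (by omega : 0 < Y) 2]
    omega
  refine ⟨x, ?_, by omega, ?_⟩
  · have : Y ≤ 16 * Y ^ 2 := by nlinarith
    omega
  intro n hn1 hnL
  -- it suffices to find two distinct primes
  suffices hsuff : ∃ p1 ∈ pr 0 (4 * Y), ∃ p2 ∈ pr 0 (4 * Y), p1 ≠ p2 ∧ p1 ∣ x + n ∧ p2 ∣ x + n by
    obtain ⟨p1, hp1, p2, hp2, hne, hd1, hd2⟩ := hsuff
    rw [mem_pr] at hp1 hp2
    apply three_le_length hp1.2.2 hp2.2.2 hne hd1 hd2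
    have : p1 * p2 ≤ (4 * Y) * (4 * Y) := Nat.mul_le_mul hp1.2.1 hp2.2.1
    have e : (4 * Y) * (4 * Y) = 16 * Y ^ 2 := by ring
    omega
  have hdvd : ∀ q ∈ pr 0 (4 * Y), ∀ t : ℤ, b q = -t → (q:ℤ) ∣ (n:ℤ) - t → q ∣ x + n := by
    intro q hq t hbt hd
    have h1 := hx3 q hq
    rw [hbt] at h1
    have h2 := dvd_add h1 hd
    have e : (x:ℤ) - -t + ((n:ℤ) - t) = ((x + n : ℕ) : ℤ) := by push_cast; ring
    rw [e] at h2
    exact_mod_cast h2
  have h2ZY : 2 ^ Z ≤ Y := hZy.trans hyY'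
  -- small primes
  have hsmall : ∀ l : SP Z, (sp Z l : ℤ) ∣ (n:ℤ) - ((a l : ℕ) : ℤ) → l.1 ∈ pr 0 (4 * Y) ∧ l.1 ∣ x + n := by
    intro l hl
    have hl' := mem_pr.mp l.2
    have hmem : l.1 ∈ pr 0 (4 * Y) := mem_pr.mpr ⟨hl'.1, by omega, hl'.2.2⟩
    refine ⟨hmem, ?_⟩
    apply hdvd l.1 hmem ((a l : ℕ) : ℤ) _ hl
    rw [hb]
    simp only
    rw [dif_pos l.2]
  -- medium primes
  have hmed : ∀ q ∈ pr (2 ^ Z) y, q ∣ n → q ∈ pr 0 (4 * Y) ∧ q ∣ x + n := by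
    intro q hq hqn
    have hq' := mem_pr.mp hq
    have hmem : q ∈ pr 0 (4 * Y) := mem_pr.mpr ⟨hq'.2.2.pos, by omega, hq'.2.2⟩
    refine ⟨hmem, ?_⟩
    apply hdvd q hmem 0
    · rw [hb]
      simp only
      rw [dif_neg (by rw [mem_pr]; omega), if_pos hq'.2.1]
      simp
    · simpa using (by exact_mod_cast hqn : (q:ℤ) ∣ (n:ℤ))
  -- large primes
  have hlarge : ∀ q ∈ Q, (q:ℤ) ∣ (n:ℤ) - c q → q ∈ pr 0 (4 * Y) ∧ q ∣ x + n := by
    intro q hq hqn
    have hq' := hQloc q hq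
    have hmem : q ∈ pr 0 (4 * Y) := mem_pr.mpr ⟨hq'.2.2.pos, by omega, hq'.2.2⟩
    refine ⟨hmem, ?_⟩
    apply hdvd q hmem (c q) _ hqn
    rw [hb]
    simp only
    rw [dif_neg (by rw [mem_pr]; omega), if_neg (by omega), if_pos hq'.2.1]
  -- last primes
  have hlast : ∀ r ∈ pr Y (4 * Y), g r = n → r ∈ pr 0 (4 * Y) ∧ r ∣ x + n := by
    intro r hr hgr
    have hr' := mem_pr.mp hr
    have hmem : r ∈ pr 0 (4 * Y) := mem_pr.mpr ⟨hr'.2.2.pos, hr'.2.1, hr'.2.2⟩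
    refine ⟨hmem, ?_⟩
    apply hdvd r hmem (n:ℤ)
    · rw [hb]
      simp only
      rw [dif_neg (by rw [mem_pr]; omega), if_neg (by omega), if_neg (by omega), hgr]
    · simp
  by_cases h0 : ∀ q ∈ pr (2 ^ Z) y, ¬ q ∣ n
  · -- no medium prime
    have hA0 : n ∈ A0 (2 ^ Z) y L := by
      unfold A0; rw [mem_filter, mem_Icc]; exact ⟨⟨hn1, hnL⟩, h0⟩
    by_cases hc : cnt (sp Z) a (n:ℤ) ≤ 1
    · have hU0 : n ∈ U0 Z y L a := by unfold U0; rw [mem_filter]; exact ⟨hA0, hc⟩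
      obtain ⟨r, hr, r', hr', hne, hgr, hgr'⟩ := hg2 n hU0
      obtain ⟨k1, k2⟩ := hlast r hr hgr
      obtain ⟨k3, k4⟩ := hlast r' hr' hgr'
      exact ⟨r, k1, r', k3, hne, k2, k4⟩
    · push Not at hc
      unfold cnt at hc
      rw [Finset.one_lt_card] at hc
      obtain ⟨l, hl, l', hl', hne⟩ := hc
      rw [mem_filter] at hl hl'
      obtain ⟨k1, k2⟩ := hsmall l hl.2
      obtain ⟨k3, k4⟩ := hsmall l' hl'.2
      exact ⟨l.1, k1, l'.1, k3, fun h => hne (Subtype.ext h), k2, k4⟩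
  · push Not at h0
    obtain ⟨q, hq, hqn⟩ := h0
    obtain ⟨kq1, kq2⟩ := hmed q hq hqn
    have hq' := mem_pr.mp hq
    by_cases huniq : ∀ q' ∈ pr (2 ^ Z) y, q' ∣ n → q' = q
    · -- exactly one medium prime
      have hA1 : n ∈ A1 (2 ^ Z) y L := by
        unfold A1; rw [mem_filter, mem_Icc]; exact ⟨⟨hn1, hnL⟩, q, hq, hqn, huniq⟩
      by_cases hav : Avoid (sp Z) a (n:ℤ)
      · by_cases hl : ∀ l ∈ Q, ¬ ((l:ℤ) ∣ (n:ℤ) - c l)
        · have hU1 : n ∈ U1 Z y L Q a c := by unfold U1; rw [mem_filter]; exact ⟨hA1, hav, hl⟩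
          obtain ⟨r, hr, hgr⟩ := hg1 n hU1
          obtain ⟨k1, k2⟩ := hlast r hr hgr
          have hr' := mem_pr.mp hr
          exact ⟨q, kq1, r, k1, by omega, kq2, k2⟩
        · push Not at hl
          obtain ⟨l, hlQ, hld⟩ := hl
          obtain ⟨k1, k2⟩ := hlarge l hlQ hld
          have hl' := hQloc l hlQ
          exact ⟨q, kq1, l, k1, by omega, kq2, k2⟩
      · unfold Avoid at hav
        push Not at hav
        obtain ⟨l, hl⟩ := hav
        obtain ⟨k1, k2⟩ := hsmall l hl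
        have hl' := mem_pr.mp l.2
        exact ⟨q, kq1, l.1, k1, by omega, kq2, k2⟩
    · push Not at huniq
      obtain ⟨q', hq'm, hq'n, hne⟩ := huniq
      obtain ⟨k1, k2⟩ := hmed q' hq'm hq'n
      exact ⟨q, kq1, q', k1, hne.symm, kq2, k2⟩

end Pool.Agent.Helper52
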