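import Mathlib

/-!
Choosing residue classes one prime at a time (method of conditional expectations).
-/

set_option linter.unusedSectionVars false
set_option linter.unusedSimpArgs false

open Finset

namespace Pool.Agent.Helper52

/-- probability that `s` is hit -/
noncomputable def hit (I : Finset ℤ) (w : ℕ → ℤ → ℝ) (q : ℕ) (s : ℤ) : ℝ :=
  ∑ n ∈ I.filter (fun n => (q:ℤ) ∣ s - n), w q n

theorem hit_nonneg {I : Finset ℤ} {w : ℕ → ℤ → ℝ} (hw : ∀ q n, 0 ≤ w q n) (q : ℕ) (s : ℤ) :
    0 ≤ hit I w q s := Finset.sum_nonneg fun n _ => hw _ _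

theorem hit_le_one {I : Finset ℤ} {w : ℕ → ℤ → ℝ} (hw : ∀ q n, 0 ≤ w q n) {q : ℕ}
    (hs : ∑ n ∈ I, w q n ≤ 1) (s : ℤ) : hit I w q s ≤ 1 := by
  apply le_trans _ hs
  exact Finset.sum_le_sum_of_subset_of_nonneg (Finset.filter_subset _ _) fun n _ _ => hw _ _

theorem greedy (V : Finset ℤ) (I : Finset ℤ) (w : ℕ → ℤ → ℝ) (hw : ∀ q n, 0 ≤ w q n)
    (Q : Finset ℕ) (hsum : ∀ q ∈ Q, ∑ n ∈ I, w q n ≤ 1) :
    ∀ g : ℤ → ℝ, (∀ s, 0 ≤ g s) → ∃ c : ℕ → ℤ,
      ∑ s ∈ V.filter (fun s => ∀ q ∈ Q, ¬ ((q:ℤ) ∣ s - c q)), g s ≤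
        ∑ s ∈ V, g s * ∏ q ∈ Q, (1 - hit I w q s) := by
  induction Q using Finset.induction_on with
  | empty =>
    intro g _
    refine ⟨fun _ => 0, ?_⟩
    simp
  | insert q0 Q hq0 ih =>
    intro g hg
    have hsum' : ∀ q ∈ Q, ∑ n ∈ I, w q n ≤ 1 := fun q hq => hsum q (Finset.mem_insert_of_mem hq)
    have hs0 := hsum q0 (Finset.mem_insert_self _ _)
    set W : ℤ → ℝ := fun s => g s * ∏ q ∈ Q, (1 - hit I w q s) with hW
    have hW0 : ∀ s, 0 ≤ W s := by
      intro s
      apply mul_nonneg (hg s)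
      apply Finset.prod_nonneg
      intro q hq
      have := hit_le_one hw (hsum' q hq) s
      linarith
    set K : ℤ → ℝ := fun n => ∑ s ∈ V.filter (fun s => (q0:ℤ) ∣ s - n), W s with hK
    have hK0 : ∀ n, 0 ≤ K n := fun n => Finset.sum_nonneg fun s _ => hW0 s
    have hR : ∑ s ∈ V, W s * hit I w q0 s = ∑ n ∈ I, w q0 n * K n := by
      simp only [hK, hit, Finset.mul_sum]
      simp only [Finset.sum_filter]
      rw [Finset.sum_comm]
      apply Finset.sum_congr rfl
      intro n _
      apply Finset.sum_congr rfl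
      intro s _
      split_ifs <;> ring
    obtain ⟨c0, hc0⟩ : ∃ c0, ∑ s ∈ V, W s * hit I w q0 s ≤ K c0 := by
      rw [hR]
      rcases Finset.eq_empty_or_nonempty I with hI | hI
      · exact ⟨0, by rw [hI]; simpa using hK0 0⟩
      · obtain ⟨c0, _, hmax⟩ := Finset.exists_max_image I K hI
        refine ⟨c0, ?_⟩
        calc _ ≤ ∑ n ∈ I, w q0 n * K c0 := by
              apply Finset.sum_le_sum
              intro n hn
              exact mul_le_mul_of_nonneg_left (hmax n hn) (hw _ _)
          _ = (∑ n ∈ I, w q0 n) * K c0 := by rw [Finset.sum_mul]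
          _ ≤ 1 * K c0 := mul_le_mul_of_nonneg_right hs0 (hK0 c0)
          _ = K c0 := one_mul _
    obtain ⟨c', hc'⟩ := ih hsum' (fun s => if (q0:ℤ) ∣ s - c0 then 0 else g s)
      (fun s => by split_ifs; exact le_refl _; exact hg s)
    refine ⟨Function.update c' q0 c0, ?_⟩
    have h1 : ∑ s ∈ V.filter (fun s => ∀ q ∈ insert q0 Q, ¬ ((q:ℤ) ∣ s - Function.update c' q0 c0 q)), g s ≤
        ∑ s ∈ V.filter (fun s => ∀ q ∈ Q, ¬ ((q:ℤ) ∣ s - c' q)), (if (q0:ℤ) ∣ s - c0 then 0 else g s) := by
      calc _ = ∑ s ∈ V.filter (fun s => ∀ q ∈ insert q0 Q, ¬ ((q:ℤ) ∣ s - Function.update c' q0 c0 q)),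
            (if (q0:ℤ) ∣ s - c0 then 0 else g s) := by
            apply Finset.sum_congr rfl
            intro s hs
            rw [mem_filter] at hs
            have := hs.2 q0 (Finset.mem_insert_self _ _)
            rw [Function.update_self] at this
            rw [if_neg this]
        _ ≤ _ := by
            apply Finset.sum_le_sum_of_subset_of_nonneg
            · intro s hs
              rw [mem_filter] at hs ⊢
              refine ⟨hs.1, fun q hq => ?_⟩
              have := hs.2 q (Finset.mem_insert_of_mem hq)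
              rwa [Function.update_of_ne (by rintro rfl; exact hq0 hq)] at this
            · intro s _ _
              split_ifs
              · exact le_refl _
              · exact hg s
    apply h1.trans
    apply hc'.trans
    have h2 : ∑ s ∈ V, (if (q0:ℤ) ∣ s - c0 then 0 else g s) * ∏ q ∈ Q, (1 - hit I w q s) =
        ∑ s ∈ V, W s - K c0 := by
      simp only [hK]
      rw [Finset.sum_filter, ← Finset.sum_sub_distrib]
      apply Finset.sum_congr rfl
      intro s _
      split_ifs
      · simp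
      · simp [hW]
    have h3 : ∑ s ∈ V, g s * ∏ q ∈ insert q0 Q, (1 - hit I w q s) =
        ∑ s ∈ V, W s - ∑ s ∈ V, W s * hit I w q0 s := by
      rw [← Finset.sum_sub_distrib]
      apply Finset.sum_congr rfl
      intro s _
      rw [Finset.prod_insert hq0]
      simp only [hW]
      ring
    rw [h2, h3]
    linarith

/-- exponential form -/
theorem greedy_exp (V : Finset ℤ) (I : Finset ℤ) (w : ℕ → ℤ → ℝ) (hw : ∀ q n, 0 ≤ w q n)
    (Q : Finset ℕ) (hsum : ∀ q ∈ Q, ∑ n ∈ I, w q n ≤ 1) (lam : ℝ)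
    (hlam : ∀ s ∈ V, lam ≤ ∑ q ∈ Q, hit I w q s) :
    ∃ c : ℕ → ℤ, ((V.filter (fun s => ∀ q ∈ Q, ¬ ((q:ℤ) ∣ s - c q))).card : ℝ) ≤
      V.card * Real.exp (-lam) := by
  obtain ⟨c, hc⟩ := greedy V I w hw Q hsum (fun _ => 1) (fun _ => zero_le_one)
  refine ⟨c, ?_⟩
  rw [Finset.sum_const, nsmul_eq_mul, mul_one] at hc
  apply hc.trans
  calc _ ≤ ∑ s ∈ V, Real.exp (-lam) := by
        apply Finset.sum_le_sum
        intro s hs
        rw [one_mul]
        calc ∏ q ∈ Q, (1 - hit I w q s) ≤ ∏ q ∈ Q, Real.exp (-hit I w q s) := by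
              apply Finset.prod_le_prod
              · intro q hq
                have := hit_le_one hw (hsum q hq) s
                linarith
              · intro q _
                have := Real.add_one_le_exp (-hit I w q s)
                linarith
          _ = Real.exp (-∑ q ∈ Q, hit I w q s) := by
              rw [← Real.exp_sum, Finset.sum_neg_distrib]
          _ ≤ Real.exp (-lam) := by
              apply Real.exp_le_exp.mpr
              have := hlam s hs
              linarith
    _ = _ := by rw [Finset.sum_const, nsmul_eq_mul]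

end Pool.Agent.Helper52
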