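import Pool.Agent.Helper52.Scale4
import Pool.Agent.Helper52.Greedy

/-!
Splitting the expectation; probability of being covered at most once; the scale lemma for the
full family of small primes.
-/

set_option linter.unusedSectionVars false
set_option linter.unusedSimpArgs false

open Finset

namespace Pool.Agent.Helper52

variable {ι : Type*} [Fintype ι] [DecidableEq ι] {p : ι → ℕ}

theorem E_split (P : ι → Prop) [DecidablePred P] (f : Om p → ℝ) :
    E p f = E (fun i : {i // P i} => p i) (fun a1 => E (fun i : {i // ¬ P i} => p i)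
      (fun a2 => f ((Equiv.piEquivPiSubtypeProd P (fun i => Fin (p i))).symm (a1, a2)))) := by
  unfold E
  have h1 : ∑ a, f a = ∑ a1 : (∀ i : {i // P i}, Fin (p i)), ∑ a2 : (∀ i : {i // ¬ P i}, Fin (p i)),
      f ((Equiv.piEquivPiSubtypeProd P (fun i => Fin (p i))).symm (a1, a2)) := by
    rw [← Fintype.sum_prod_type']
    exact (Equiv.sum_comp (Equiv.piEquivPiSubtypeProd P (fun i => Fin (p i))).symm f).symm
  have h2 : ∏ i, (p i : ℝ) = (∏ i : {i // P i}, (p i : ℝ)) * ∏ i : {i // ¬ P i}, (p i : ℝ) := by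
    rw [Fintype.prod_subtype_mul_prod_subtype P (fun i => (p i : ℝ))]
  rw [h1, h2, Finset.sum_div, Finset.sum_div]
  apply Finset.sum_congr rfl
  intro a1 _
  rw [div_div, mul_comm]

/-- number of classes containing `n` -/
def cnt (p : ι → ℕ) (a : Om p) (n : ℤ) : ℕ :=
  (univ.filter (fun i => (p i : ℤ) ∣ n - ((a i : ℕ) : ℤ))).card

theorem sum_avoid_one (i : ι) (hp : 0 < p i) (n : ℤ) :
    ∑ x : Fin (p i), (if ¬ ((p i : ℤ) ∣ n - ((x : ℕ) : ℤ)) then (1:ℝ) else 0) = p i - 1 := by
  rw [Finset.sum_boole]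
  have h := card_avoid (p := p) i hp {n}
  have h2 : nu p i {n} = 1 := by unfold nu; simp
  rw [h2] at h
  simp only [mem_singleton, forall_eq] at h
  rw [h]; norm_num

theorem sum_hit_one (i : ι) (hp : 0 < p i) (n : ℤ) :
    ∑ x : Fin (p i), (if ((p i : ℤ) ∣ n - ((x : ℕ) : ℤ)) then (1:ℝ) else 0) = 1 := by
  have h1 := sum_avoid_one i hp n
  have h2 : ∑ x : Fin (p i), ((if ((p i : ℤ) ∣ n - ((x : ℕ) : ℤ)) then (1:ℝ) else 0) +
      (if ¬ ((p i : ℤ) ∣ n - ((x : ℕ) : ℤ)) then (1:ℝ) else 0)) = p i := by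
    have : ∀ x : Fin (p i), ((if ((p i : ℤ) ∣ n - ((x : ℕ) : ℤ)) then (1:ℝ) else 0) +
      (if ¬ ((p i : ℤ) ∣ n - ((x : ℕ) : ℤ)) then (1:ℝ) else 0)) = 1 := by
      intro x; split_ifs <;> norm_num
    simp only [this]
    simp
  rw [Finset.sum_add_distrib] at h2
  linarith

theorem cnt_prob (hpr : ∀ i, (p i).Prime) (n : ℤ) :
    E p (fun a => if cnt p a n ≤ 1 then (1:ℝ) else 0) ≤
      (∏ i, (1 - 1 / (p i : ℝ))) * (1 + 2 * ∑ i, 1 / (p i : ℝ)) := by
  have hp : ∀ i, 0 < p i := fun i => (hpr i).pos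
  set f : ι → (j : ι) → Fin (p j) → ℝ := fun i j x =>
    if j = i then (if ((p j : ℤ) ∣ n - ((x : ℕ) : ℤ)) then (1:ℝ) else 0)
    else (if ¬ ((p j : ℤ) ∣ n - ((x : ℕ) : ℤ)) then (1:ℝ) else 0) with hf
  have hf0 : ∀ i j x, 0 ≤ f i j x := by
    intro i j x; rw [hf]; simp only; split_ifs <;> norm_num
  have hpt : ∀ a, (if cnt p a n ≤ 1 then (1:ℝ) else 0) ≤ ind p {n} a + ∑ i, ∏ j, f i j (a j) := by
    intro a
    have hs0 : 0 ≤ ∑ i, ∏ j, f i j (a j) :=
      Finset.sum_nonneg fun i _ => Finset.prod_nonneg fun j _ => hf0 _ _ _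
    split_ifs with hc
    · rcases Nat.eq_zero_or_pos (cnt p a n) with h0 | h0
      · have hav : ∀ m ∈ ({n} : Finset ℤ), Avoid p a m := by
          intro m hm i hd
          rw [mem_singleton] at hm
          rw [hm] at hd
          unfold cnt at h0
          rw [Finset.card_eq_zero] at h0
          have : i ∈ univ.filter (fun i => (p i : ℤ) ∣ n - ((a i : ℕ) : ℤ)) := by
            rw [mem_filter]; exact ⟨mem_univ _, hd⟩
          rw [h0] at this
          simp at this
        rw [ind_of_avoid hav]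
        linarith
      · have h1 : cnt p a n = 1 := by omega
        unfold cnt at h1
        rw [Finset.card_eq_one] at h1
        obtain ⟨i, hi⟩ := h1
        have hi1 : (p i : ℤ) ∣ n - ((a i : ℕ) : ℤ) := by
          have : i ∈ univ.filter (fun i => (p i : ℤ) ∣ n - ((a i : ℕ) : ℤ)) := by rw [hi]; simp
          rw [mem_filter] at this; exact this.2
        have hi2 : ∀ j, j ≠ i → ¬ (p j : ℤ) ∣ n - ((a j : ℕ) : ℤ) := by
          intro j hj hd
          have : j ∈ univ.filter (fun i => (p i : ℤ) ∣ n - ((a i : ℕ) : ℤ)) := by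
            rw [mem_filter]; exact ⟨mem_univ _, hd⟩
          rw [hi, mem_singleton] at this
          exact hj this
        have hprod : ∏ j, f i j (a j) = 1 := by
          apply Finset.prod_eq_one
          intro j _
          rw [hf]; simp only
          by_cases hj : j = i
          · subst hj; rw [if_pos rfl, if_pos hi1]
          · rw [if_neg hj, if_pos (hi2 j hj)]
        have h2 : ∏ j, f i j (a j) ≤ ∑ i, ∏ j, f i j (a j) :=
          Finset.single_le_sum (f := fun i => ∏ j, f i j (a j))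
            (fun i _ => Finset.prod_nonneg fun j _ => hf0 _ _ _) (mem_univ i)
        have h3 := ind_nonneg {n} a
        rw [hprod] at h2
        linarith
    · have := ind_nonneg (p := p) {n} a
      linarith
  have h1 := E_mono (p := p) hpt
  rw [E_add, E_sum] at h1
  have h2 : E p (ind p {n}) = ∏ i, (1 - 1 / (p i : ℝ)) := by
    rw [E_ind hp]
    apply Finset.prod_congr rfl
    intro i _
    have : nu p i {n} = 1 := by unfold nu; simp
    rw [this]; norm_num
  set σ := ∏ i, (1 - 1 / (p i : ℝ)) with hσ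
  have hhalf : ∀ i, 1 / 2 ≤ 1 - 1 / (p i : ℝ) := by
    intro i
    have : (2:ℝ) ≤ p i := by exact_mod_cast (hpr i).two_le
    have : 1 / (p i : ℝ) ≤ 1 / 2 := one_div_le_one_div_of_le (by norm_num) this
    linarith
  have h3 : ∀ i ∈ (univ : Finset ι), E p (fun a => ∏ j, f i j (a j)) ≤ σ * (2 * (1 / (p i : ℝ))) := by
    intro i _
    rw [E_prod (f i)]
    have h4 : ∀ j, (∑ x, f i j x) / (p j : ℝ) = if j = i then 1 / (p j : ℝ) else 1 - 1 / (p j : ℝ) := by
      intro j
      have hpj : (0:ℝ) < p j := by exact_mod_cast hp j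
      by_cases hj : j = i
      · subst hj
        rw [if_pos rfl]
        have : ∑ x, f j j x = 1 := by
          rw [hf]; simp only [if_true]
          exact sum_hit_one j (hp j) n
        rw [this]
      · rw [if_neg hj]
        have : ∑ x, f i j x = p j - 1 := by
          rw [hf]; simp only [hj, if_false]
          exact sum_avoid_one j (hp j) n
        rw [this]; field_simp
    rw [Finset.prod_congr rfl (fun j _ => h4 j)]
    rw [← Finset.mul_prod_erase univ _ (mem_univ i), if_pos rfl]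
    have h5 : ∏ j ∈ univ.erase i, (if j = i then 1 / (p j : ℝ) else 1 - 1 / (p j : ℝ)) =
        ∏ j ∈ univ.erase i, (1 - 1 / (p j : ℝ)) := by
      apply Finset.prod_congr rfl
      intro j hj
      rw [if_neg (Finset.ne_of_mem_erase hj)]
    rw [h5]
    have h6 : σ = (1 - 1 / (p i : ℝ)) * ∏ j ∈ univ.erase i, (1 - 1 / (p j : ℝ)) := by
      rw [hσ, ← Finset.mul_prod_erase univ _ (mem_univ i)]
    have h7 : 0 ≤ ∏ j ∈ univ.erase i, (1 - 1 / (p j : ℝ)) :=
      Finset.prod_nonneg fun j _ => by have := hhalf j; linarith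
    have h8 : ∏ j ∈ univ.erase i, (1 - 1 / (p j : ℝ)) ≤ 2 * σ := by
      rw [h6]; have := hhalf i; nlinarith
    have h9 : 0 ≤ 1 / (p i : ℝ) := by positivity
    calc _ ≤ 1 / (p i : ℝ) * (2 * σ) := mul_le_mul_of_nonneg_left h8 h9
      _ = _ := by ring
  calc _ ≤ _ := h1
    _ ≤ σ + ∑ i, σ * (2 * (1 / (p i : ℝ))) := by
        rw [h2]
        have := Finset.sum_le_sum h3
        linarith
    _ = _ := by rw [← Finset.mul_sum, ← Finset.mul_sum]; ring

open scoped Classical in
/-- The scale lemma relative to the whole family of small primes. -/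
theorem scale_full {J L : ℕ} {Q : Finset ℕ} {C2 : ℝ} (hC2 : 0 ≤ C2) (hJ4 : 4 ≤ J) (hL : 0 < L)
    (hpr : ∀ i, (p i).Prime) (hinj : Function.Injective p)
    (hQpr : ∀ q ∈ Q, q.Prime) (hpq : ∀ q ∈ Q, ∀ i, p i < q) (hqJ : ∀ q ∈ Q, q * J ≤ L)
    (hBT : ∀ d : ℕ, J ^ 8 < d → d ≤ 2 * L → ∀ q0 ∈ Q,
      ((Q.filter (fun q : ℕ => (d : ℤ) ∣ (q : ℤ) - (q0 : ℤ))).card : ℝ) ≤ C2 * Q.card / √(d : ℝ))
    (hQQ : (J:ℝ) ^ 2 ≤ Qf (fun i : {i // ¬ p i ≤ J ^ 8} => p i) J * Q.card)
    (hQL : (J:ℝ) ^ 4 ≤ Qf (fun i : {i // ¬ p i ≤ J ^ 8} => p i) J * L) :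
    ∃ w : Om p → ℕ → ℤ → ℝ, (∀ a q n, 0 ≤ w a q n) ∧
      (∀ a, ∀ q ∈ Q, ∑ n ∈ Finset.Ioc (-(L:ℤ)) L, w a q n ≤ 1) ∧
      E p (fun a => (((Finset.Icc (1:ℤ) L).filter (fun s => Avoid p a s ∧
        ∑ q ∈ Q, hit (Finset.Ioc (-(L:ℤ)) L) (w a) q s <
          (Q.card : ℝ) * J / (16 * L * Qf (fun i : {i // ¬ p i ≤ J ^ 8} => p i) 1))).card : ℝ)) ≤
        L * Qf (fun i : {i // ¬ p i ≤ J ^ 8} => p i) 1 * ((64 * C2 + 788) / (J:ℝ) ^ 2) := by
  set P : ι → Prop := fun i => p i ≤ J ^ 8 with hP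
  set p1 : {i // P i} → ℕ := fun i => p i with hp1
  set p2 : {i // ¬ P i} → ℕ := fun i => p i with hp2
  have hw := fun a1 : Om p1 => scale_lemma (p := p2) (J := J) (L := L) (fun s => Avoid p1 a1 s) (Q := Q)
    hC2 hJ4 hL (fun i => hpr i) (fun i j hij => Subtype.ext (hinj hij)) (fun i => not_le.mp i.2)
    hQpr (fun q hq i => hpq q hq i) hqJ hBT hQQ hQL
  choose w hw0 hw1 hw2 using hw
  set e := Equiv.piEquivPiSubtypeProd P (fun i => Fin (p i)) with he
  refine ⟨fun a => w (e a).1 (e a).2, fun a q n => hw0 _ _ _ _, fun a q hq => hw1 _ _ q hq, ?_⟩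
  rw [E_split P]
  have hgoal : ∀ a1 : Om p1, E p2 (fun a2 => (((Finset.Icc (1:ℤ) L).filter (fun s => Avoid p (e.symm (a1, a2)) s ∧
        ∑ q ∈ Q, hit (Finset.Ioc (-(L:ℤ)) L) (w (e (e.symm (a1, a2))).1 (e (e.symm (a1, a2))).2) q s <
          (Q.card : ℝ) * J / (16 * L * Qf p2 1))).card : ℝ)) ≤
        L * Qf p2 1 * ((64 * C2 + 788) / (J:ℝ) ^ 2) := by
    intro a1
    refine le_trans (le_of_eq ?_) (hw2 a1)
    congr 1
    funext a2
    congr 2
    ext s
    rw [mem_filter, mem_filter]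
    apply and_congr_right
    intro _
    rw [Equiv.apply_symm_apply]
    have hav : Avoid p (e.symm (a1, a2)) s ↔ Avoid p1 a1 s ∧ Avoid p2 a2 s := by
      unfold Avoid
      constructor
      · intro h
        constructor
        · intro i
          have := h i.1
          rw [he, Equiv.piEquivPiSubtypeProd_symm_apply] at this
          simp only [i.2, dif_pos] at this
          exact this
        · intro i
          have := h i.1
          rw [he, Equiv.piEquivPiSubtypeProd_symm_apply] at this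
          simp only [i.2, dif_neg, not_false_eq_true] at this
          exact this
      · rintro ⟨h1, h2⟩ i
        rw [he, Equiv.piEquivPiSubtypeProd_symm_apply]
        by_cases hi : P i
        · simp only [hi, dif_pos]
          exact h1 ⟨i, hi⟩
        · simp only [hi, dif_neg, not_false_eq_true]
          exact h2 ⟨i, hi⟩
    rw [hav]
    unfold hit
    rw [and_assoc]
  exact le_trans (E_mono (p := p1) hgoal) (le_of_eq (E_const (p := p1) (fun i => (hpr i.1).pos) _))

end Pool.Agent.Helper52
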