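import Pool.Agent.Helper52.Core

/-!
Existence of a good outcome.
-/

set_option linter.unusedSectionVars false
set_option linter.unusedSimpArgs false

open Finset

namespace Pool.Agent.Helper52

/-- primes of scale `i` -/
def Qs (L i : ℕ) : Finset ℕ := pr (L / 4 ^ (i + 1)) (L / 4 ^ i)

theorem Qs_disj {L i j q : ℕ} (hij : i ≠ j) (hi : q ∈ Qs L i) : q ∉ Qs L j := by
  intro hj
  unfold Qs at hi hj
  rw [mem_pr] at hi hj
  rcases lt_or_gt_of_ne hij with h | h
  · have : L / 4 ^ j ≤ L / 4 ^ (i + 1) := Nat.div_le_div_left (Nat.pow_le_pow_right (by norm_num) h) (by positivity)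
    omega
  · have : L / 4 ^ i ≤ L / 4 ^ (j + 1) := Nat.div_le_div_left (Nat.pow_le_pow_right (by norm_num) h) (by positivity)
    omega

open scoped Classical in
/-- uncovered integers with exactly one medium prime factor -/
noncomputable def U1 (Z y L : ℕ) (Q : Finset ℕ) (a : Om (sp Z)) (c : ℕ → ℤ) : Finset ℕ :=
  (A1 (2 ^ Z) y L).filter (fun n => Avoid (sp Z) a (n:ℤ) ∧ ∀ q ∈ Q, ¬ ((q:ℤ) ∣ (n:ℤ) - c q))

/-- integers without medium prime factor covered at most once by the small primes -/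
def U0 (Z y L : ℕ) (a : Om (sp Z)) : Finset ℕ :=
  (A0 (2 ^ Z) y L).filter (fun n => cnt (sp Z) a (n:ℤ) ≤ 1)

theorem exists_le_of_E_le {ι : Type*} [Fintype ι] [DecidableEq ι] {p : ι → ℕ} (hp : ∀ i, 0 < p i)
    (f : Om p → ℝ) {R : ℝ} (h : E p f ≤ R) : ∃ a, f a ≤ R := by
  by_contra hcon
  push Not at hcon
  have hne : Nonempty (Om p) := ⟨fun i => ⟨0, hp i⟩⟩
  have h1 : ∑ a : Om p, R < ∑ a : Om p, f a :=
    Finset.sum_lt_sum_of_nonempty Finset.univ_nonempty fun a _ => hcon a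
  have h2 : E p (fun _ => R) < E p f := by
    unfold E
    exact div_lt_div_of_pos_right h1 (prod_pos_of hp)
  rw [E_const hp] at h2
  linarith

open scoped Classical in
theorem exists_good : ∃ N0 : ℕ, ∀ u Z L y i0 i1 : ℕ, 3 ≤ u → 1 ≤ i0 → 16 * i1 ≤ Z → N0 ≤ 2 ^ Z → u + 1 ≤ Z →
    2 ^ (u * Z) ≤ L → 2 * L ≤ 2 ^ ((u + 1) * Z) → 2 * 4 ^ i1 * (Real.log Z + 8) ≤ Z * Real.log 2 →
    ∃ (a : Om (sp Z)) (c : ℕ → ℤ),
      ((U1 Z y L ((Finset.Ico i0 i1).biUnion (Qs L)) a c).card : ℝ) + 2 * ((U0 Z y L a).card : ℝ) ≤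
        Real.exp (-(kap / (u + 1) * ∑ i ∈ Finset.Ico i0 i1, 1 / (i:ℝ))) * (((A1 (2 ^ Z) y L).card : ℝ) / (Z * Real.log 2)) +
        ∑ i ∈ Finset.Ico i0 i1, L * (C3 * (16 * i) / Z) * (4244 / 16 ^ i) +
        2 * (((A0 (2 ^ Z) y L).card : ℝ) * (1 / (Z * Real.log 2) * (17 + 2 * Real.log Z))) := by
  obtain ⟨N0, hsc⟩ := scale_param
  refine ⟨N0, ?_⟩
  intro u Z L y i0 i1 hu hi0 hi1Z hN0 huZ hL1 hL2 hlog
  have hZ1 : 1 ≤ Z := by omega
  have hZr : (0:ℝ) < Z := by exact_mod_cast (by omega : 0 < Z)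
  have hl2 : 0 < Real.log 2 := Real.log_pos (by norm_num)
  set S := Finset.Ico i0 i1 with hS
  set I := Finset.Ioc (-(L:ℤ)) L with hI
  have hex : ∀ i ∈ S, ∃ w : Om (sp Z) → ℕ → ℤ → ℝ, (∀ a q n, 0 ≤ w a q n) ∧
      (∀ a, ∀ q ∈ Qs L i, ∑ n ∈ I, w a q n ≤ 1) ∧
      E (sp Z) (fun a => (((Finset.Icc (1:ℤ) L).filter (fun s => Avoid (sp Z) a s ∧
        ∑ q ∈ Qs L i, hit I (w a) q s < kap / ((u + 1) * i))).card : ℝ)) ≤
        L * (C3 * (16 * i) / Z) * (4244 / 16 ^ i) := by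
    intro i hi
    rw [hS, mem_Ico] at hi
    apply hsc u Z L i hu (by omega) (by omega) hN0 huZ hL1 hL2
    apply le_trans _ hlog
    have h1 : (4:ℝ) ^ i ≤ 4 ^ i1 := pow_le_pow_right₀ (by norm_num) hi.2.le
    have h2 : 0 ≤ Real.log Z + 8 := by have := Real.log_natCast_nonneg Z; linarith
    have h3 : 2 * (4:ℝ) ^ i ≤ 2 * 4 ^ i1 := by linarith
    exact mul_le_mul_of_nonneg_right h3 h2
  choose! w hw0 hw1 hw2 using hex
  -- combined weights
  set W : Om (sp Z) → ℕ → ℤ → ℝ := fun a q n => ∑ i ∈ S, if q ∈ Qs L i then w i a q n else 0 with hW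
  have hWeq : ∀ i ∈ S, ∀ q ∈ Qs L i, ∀ a n, W a q n = w i a q n := by
    intro i hi q hq a n
    rw [hW]
    simp only
    rw [Finset.sum_eq_single i]
    · rw [if_pos hq]
    · intro j _ hji
      rw [if_neg (Qs_disj hji.symm hq)]
    · intro h; exact absurd hi h
  have hWhit : ∀ i ∈ S, ∀ q ∈ Qs L i, ∀ a s, hit I (W a) q s = hit I (w i a) q s := by
    intro i hi q hq a s
    unfold hit
    apply Finset.sum_congr rfl
    intro n _
    exact hWeq i hi q hq a n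
  have hW0 : ∀ a q n, 0 ≤ W a q n := by
    intro a q n
    apply Finset.sum_nonneg
    intro i hi
    split_ifs
    · exact hw0 i hi a q n
    · exact le_refl _
  have hW1 : ∀ a, ∀ q ∈ S.biUnion (Qs L), ∑ n ∈ I, W a q n ≤ 1 := by
    intro a q hq
    rw [mem_biUnion] at hq
    obtain ⟨i, hi, hqi⟩ := hq
    rw [Finset.sum_congr rfl (fun n _ => hWeq i hi q hqi a n)]
    exact hw1 i hi a q hqi
  have hWsum : ∀ a s, ∑ q ∈ S.biUnion (Qs L), hit I (W a) q s = ∑ i ∈ S, ∑ q ∈ Qs L i, hit I (w i a) q s := by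
    intro a s
    rw [Finset.sum_biUnion]
    · apply Finset.sum_congr rfl
      intro i hi
      apply Finset.sum_congr rfl
      intro q hq
      exact hWhit i hi q hq a s
    · intro i _ j _ hij
      rw [Function.onFun, Finset.disjoint_left]
      intro q hqi
      exact Qs_disj hij hqi
  set Bad : ℕ → Om (sp Z) → Finset ℤ := fun i a => (Finset.Icc (1:ℤ) L).filter (fun s => Avoid (sp Z) a s ∧
        ∑ q ∈ Qs L i, hit I (w i a) q s < kap / ((u + 1) * i)) with hBad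
  set lam : ℝ := kap / (u + 1) * ∑ i ∈ S, 1 / (i:ℝ) with hlam
  set T1 : Om (sp Z) → Finset ℕ := fun a => (A1 (2 ^ Z) y L).filter (fun n => Avoid (sp Z) a (n:ℤ)) with hT1
  -- deterministic choice of the large classes
  have hdet : ∀ a, ∃ c : ℕ → ℤ, ((U1 Z y L (S.biUnion (Qs L)) a c).card : ℝ) ≤
      Real.exp (-lam) * ((T1 a).card : ℝ) + ∑ i ∈ S, ((Bad i a).card : ℝ) := by
    intro a
    set V : Finset ℤ := ((T1 a).image (fun n : ℕ => (n:ℤ))) \ S.biUnion (fun i => Bad i a) with hV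
    have hVlam : ∀ s ∈ V, lam ≤ ∑ q ∈ S.biUnion (Qs L), hit I (W a) q s := by
      intro s hs
      rw [hV, mem_sdiff, mem_image] at hs
      obtain ⟨⟨n, hn, rfl⟩, hnb⟩ := hs
      rw [hT1, mem_filter] at hn
      have hnA := hn.1
      unfold A1 at hnA
      rw [mem_filter, mem_Icc] at hnA
      rw [hWsum, hlam, Finset.mul_sum]
      apply Finset.sum_le_sum
      intro i hi
      by_contra hlt
      push Not at hlt
      apply hnb
      rw [mem_biUnion]
      refine ⟨i, hi, ?_⟩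
      rw [hBad, mem_filter, mem_Icc]
      refine ⟨⟨by exact_mod_cast hnA.1.1, by exact_mod_cast hnA.1.2⟩, hn.2, ?_⟩
      apply lt_of_lt_of_eq hlt
      rw [div_mul_div_comm, mul_one]
    obtain ⟨c, hc⟩ := greedy_exp V I (W a) (hW0 a) (S.biUnion (Qs L)) (hW1 a) lam hVlam
    refine ⟨c, ?_⟩
    have hsub : (U1 Z y L (S.biUnion (Qs L)) a c).image (fun n : ℕ => (n:ℤ)) ⊆
        (V.filter (fun s => ∀ q ∈ S.biUnion (Qs L), ¬ ((q:ℤ) ∣ s - c q))) ∪ S.biUnion (fun i => Bad i a) := by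
      intro s hs
      rw [mem_image] at hs
      obtain ⟨n, hn, rfl⟩ := hs
      unfold U1 at hn
      rw [mem_filter] at hn
      rw [mem_union]
      by_cases hb : (n:ℤ) ∈ S.biUnion (fun i => Bad i a)
      · right; exact hb
      · left
        rw [mem_filter]
        refine ⟨?_, hn.2.2⟩
        rw [hV, mem_sdiff, mem_image]
        refine ⟨⟨n, ?_, rfl⟩, hb⟩
        rw [hT1, mem_filter]
        exact ⟨hn.1, hn.2.1⟩
    have hcard1 : (U1 Z y L (S.biUnion (Qs L)) a c).card = ((U1 Z y L (S.biUnion (Qs L)) a c).image (fun n : ℕ => (n:ℤ))).card := by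
      rw [Finset.card_image_of_injective _ Nat.cast_injective]
    have hcard2 : ((U1 Z y L (S.biUnion (Qs L)) a c).card : ℝ) ≤
        ((V.filter (fun s => ∀ q ∈ S.biUnion (Qs L), ¬ ((q:ℤ) ∣ s - c q))).card : ℝ) + ∑ i ∈ S, ((Bad i a).card : ℝ) := by
      rw [hcard1]
      have h1 := (Finset.card_le_card hsub).trans ((Finset.card_union_le _ _).trans (Nat.add_le_add_left Finset.card_biUnion_le _))
      exact_mod_cast h1
    have hVcard : (V.card : ℝ) ≤ (T1 a).card := by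
      have h1 : V.card ≤ ((T1 a).image (fun n : ℕ => (n:ℤ))).card := Finset.card_le_card Finset.sdiff_subset
      exact_mod_cast h1.trans Finset.card_image_le
    calc _ ≤ _ := hcard2
      _ ≤ V.card * Real.exp (-lam) + ∑ i ∈ S, ((Bad i a).card : ℝ) := by linarith
      _ ≤ _ := by
          have := mul_le_mul_of_nonneg_right hVcard (Real.exp_pos (-lam)).le
          linarith
  -- expectations
  have hσ : ∏ i : SP Z, (1 - 1 / ((sp Z i : ℕ) : ℝ)) ≤ 1 / (Z * Real.log 2) := by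
    rw [prod_sp Z (fun q => 1 - 1 / (q:ℝ))]
    exact prod_upper hZ1
  have hσ0 : 0 ≤ ∏ i : SP Z, (1 - 1 / ((sp Z i : ℕ) : ℝ)) := by
    apply Finset.prod_nonneg
    intro i _
    have : (2:ℝ) ≤ ((sp Z i : ℕ) : ℝ) := by exact_mod_cast (sp_prime i).two_le
    have : 1 / ((sp Z i : ℕ) : ℝ) ≤ 1 := by rw [div_le_one (by linarith)]; linarith
    linarith
  have hET1 : E (sp Z) (fun a => ((T1 a).card : ℝ)) ≤ ((A1 (2 ^ Z) y L).card : ℝ) / (Z * Real.log 2) := by
    have e1 : (fun a => ((T1 a).card : ℝ)) = fun a => ∑ n ∈ A1 (2 ^ Z) y L, ind (sp Z) {(n:ℤ)} a := by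
      funext a
      rw [hT1]
      simp only
      rw [Finset.card_filter]
      push_cast
      apply Finset.sum_congr rfl
      intro n _
      by_cases hA : Avoid (sp Z) a (n:ℤ)
      · rw [if_pos hA, ind_of_avoid (by intro m hm; rw [mem_singleton] at hm; rw [hm]; exact hA)]
      · rw [if_neg hA, ind_of_not (by intro h; exact hA (h n (mem_singleton_self _)))]
    rw [e1, E_sum]
    have h1 : ∀ n ∈ A1 (2 ^ Z) y L, E (sp Z) (ind (sp Z) {(n:ℤ)}) ≤ 1 / (Z * Real.log 2) := by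
      intro n _
      rw [E_ind (fun i => (sp_prime i).pos)]
      refine le_trans (le_of_eq ?_) hσ
      apply Finset.prod_congr rfl
      intro i _
      have : nu (sp Z) i {(n:ℤ)} = 1 := by unfold nu; simp
      rw [this]; norm_num
    calc _ ≤ ∑ n ∈ A1 (2 ^ Z) y L, 1 / (Z * Real.log 2) := Finset.sum_le_sum h1
      _ = _ := by rw [Finset.sum_const, nsmul_eq_mul]; ring
  have hEU0 : E (sp Z) (fun a => ((U0 Z y L a).card : ℝ)) ≤
      ((A0 (2 ^ Z) y L).card : ℝ) * (1 / (Z * Real.log 2) * (17 + 2 * Real.log Z)) := by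
    have e1 : (fun a => ((U0 Z y L a).card : ℝ)) = fun a => ∑ n ∈ A0 (2 ^ Z) y L, (if cnt (sp Z) a (n:ℤ) ≤ 1 then (1:ℝ) else 0) := by
      funext a
      unfold U0
      rw [Finset.card_filter]
      push_cast
      rfl
    rw [e1, E_sum]
    have hm : ∑ i : SP Z, 1 / ((sp Z i : ℕ) : ℝ) ≤ Real.log Z + 8 := by
      rw [sum_sp Z (fun q => 1 / (q:ℝ))]
      exact mertens2 hZ1
    have hm0 : 0 ≤ ∑ i : SP Z, 1 / ((sp Z i : ℕ) : ℝ) := Finset.sum_nonneg fun _ _ => by positivity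
    have h1 : ∀ n ∈ A0 (2 ^ Z) y L, E (sp Z) (fun a => if cnt (sp Z) a (n:ℤ) ≤ 1 then (1:ℝ) else 0) ≤
        1 / (Z * Real.log 2) * (17 + 2 * Real.log Z) := by
      intro n _
      apply (cnt_prob sp_prime (n:ℤ)).trans
      apply mul_le_mul hσ (by linarith) (by linarith) (by positivity)
    calc _ ≤ ∑ n ∈ A0 (2 ^ Z) y L, 1 / (Z * Real.log 2) * (17 + 2 * Real.log Z) := Finset.sum_le_sum h1
      _ = _ := by rw [Finset.sum_const, nsmul_eq_mul]
  have hEtot : E (sp Z) (fun a => (Real.exp (-lam) * ((T1 a).card : ℝ) + ∑ i ∈ S, ((Bad i a).card : ℝ)) +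
      2 * ((U0 Z y L a).card : ℝ)) ≤
        Real.exp (-lam) * (((A1 (2 ^ Z) y L).card : ℝ) / (Z * Real.log 2)) +
        ∑ i ∈ S, L * (C3 * (16 * i) / Z) * (4244 / 16 ^ i) +
        2 * (((A0 (2 ^ Z) y L).card : ℝ) * (1 / (Z * Real.log 2) * (17 + 2 * Real.log Z))) := by
    rw [E_add, E_add, E_mul_left, E_mul_left, E_sum]
    apply add_le_add
    · apply add_le_add
      · exact mul_le_mul_of_nonneg_left hET1 (Real.exp_pos _).le
      · exact Finset.sum_le_sum fun i hi => hw2 i hi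
    · exact mul_le_mul_of_nonneg_left hEU0 (by norm_num)
  obtain ⟨a, ha⟩ := exists_le_of_E_le (fun i => (sp_prime i).pos) _ hEtot
  obtain ⟨c, hc⟩ := hdet a
  refine ⟨a, c, ?_⟩
  linarith

end Pool.Agent.Helper52
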