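import Pool.Agent.Helper52.Pair

/-!
Moment bounds for sums over primes dividing values.
-/

set_option linter.unusedSectionVars false
set_option linter.unusedSimpArgs false

open Finset

namespace Pool.Agent.Helper52

variable {ι : Type*} [Fintype ι] [DecidableEq ι]

/-- exponential weight -/
noncomputable def Phi (p : ι → ℕ) (J : ℕ) (m : ℤ) : ℝ := Real.exp (2 * (J:ℝ) ^ 2 * G p m)

variable {p : ι → ℕ}

theorem exp_le_one_add_two_mul {x : ℝ} (h0 : 0 ≤ x) (h1 : x ≤ 1 / 2) : Real.exp x ≤ 1 + 2 * x := by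
  have h := Real.exp_bound_div_one_sub_of_interval h0 (by linarith : x < 1)
  apply h.trans
  rw [div_le_iff₀ (by linarith)]
  nlinarith

theorem Phi_le_prod {J : ℕ} (hp : ∀ i, 0 < p i) (hJ : ∀ i, 4 * J ^ 2 ≤ p i) (m : ℤ) :
    Phi p J m ≤ ∏ i, (1 + if (p i : ℤ) ∣ m then 4 * (J:ℝ) ^ 2 / (p i : ℝ) else 0) := by
  unfold Phi G
  rw [Finset.mul_sum, Real.exp_sum]
  apply Finset.prod_le_prod
  · intro i _; positivity
  · intro i _
    have hpi : (0:ℝ) < p i := by exact_mod_cast hp i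
    have hJi : 4 * (J:ℝ) ^ 2 ≤ p i := by exact_mod_cast hJ i
    split_ifs with hd
    · have h := exp_le_one_add_two_mul (x := 2 * (J:ℝ) ^ 2 * (1 / (p i : ℝ))) (by positivity)
        (by rw [mul_one_div, div_le_iff₀ hpi]; linarith)
      apply h.trans
      apply le_of_eq
      ring
    · simp

theorem gm {κ : Type*} (F : Finset κ) (f : κ → ℤ) {N Cc : ℝ}
    (hN : (F.card : ℝ) ≤ N)
    (hcount : ∀ D : Finset ι, D.Nonempty →
      ((F.filter (fun x => ∀ i ∈ D, (p i : ℤ) ∣ f x)).card : ℝ) ≤ Cc * N * ∏ i ∈ D, (1 / √(p i : ℝ)))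
    {c : ι → ℝ} (hc : ∀ i, 0 ≤ c i) :
    ∑ x ∈ F, ∏ i, (1 + if (p i : ℤ) ∣ f x then c i else 0) ≤
      N * (1 + Cc * (∏ i, (1 + c i * (1 / √(p i : ℝ))) - 1)) := by
  have h1 : ∀ x, ∏ i, (1 + if (p i : ℤ) ∣ f x then c i else 0) =
      ∑ D ∈ (univ : Finset ι).powerset, (if ∀ i ∈ D, (p i : ℤ) ∣ f x then (1:ℝ) else 0) * ∏ i ∈ D, c i := by
    intro x
    rw [Finset.prod_one_add]
    apply Finset.sum_congr rfl
    intro D _
    rw [Finset.prod_ite_zero]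
    split_ifs <;> simp
  simp only [h1]
  rw [Finset.sum_comm]
  simp only [← Finset.sum_mul, Finset.sum_boole]
  rw [← Finset.insert_erase (Finset.empty_mem_powerset (univ : Finset ι)), Finset.sum_insert (by simp)]
  have h2 : ∏ i, (1 + c i * (1 / √(p i : ℝ))) = 1 + ∑ D ∈ (univ : Finset ι).powerset.erase ∅,
      ∏ i ∈ D, (c i * (1 / √(p i : ℝ))) := by
    rw [Finset.prod_one_add]
    rw [← Finset.add_sum_erase _ _ (Finset.empty_mem_powerset (univ : Finset ι))]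
    simp
  rw [h2]
  have h3 : ∑ D ∈ (univ : Finset ι).powerset.erase ∅,
      ((F.filter (fun x => ∀ i ∈ D, (p i : ℤ) ∣ f x)).card : ℝ) * ∏ i ∈ D, c i ≤
      ∑ D ∈ (univ : Finset ι).powerset.erase ∅, N * Cc * ∏ i ∈ D, (c i * (1 / √(p i : ℝ))) := by
    apply Finset.sum_le_sum
    intro D hD
    have hDne : D.Nonempty := by
      rw [Finset.mem_erase] at hD
      exact Finset.nonempty_iff_ne_empty.mpr hD.1
    rw [Finset.prod_mul_distrib]
    have := hcount D hDne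
    have hc0 : 0 ≤ ∏ i ∈ D, c i := Finset.prod_nonneg fun i _ => hc i
    calc _ ≤ (Cc * N * ∏ i ∈ D, (1 / √(p i : ℝ))) * ∏ i ∈ D, c i :=
          mul_le_mul_of_nonneg_right this hc0
      _ = _ := by ring
  rw [← Finset.mul_sum] at h3
  simp only [Finset.notMem_empty, false_imp_iff, implies_true, Finset.filter_true, Finset.prod_empty,
    mul_one]
  calc _ ≤ N + N * Cc * ∑ D ∈ (univ : Finset ι).powerset.erase ∅, ∏ i ∈ D, (c i * (1 / √(p i : ℝ))) :=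
        add_le_add hN h3
    _ = _ := by ring

theorem tele_term {n : ℕ} (hn : 2 ≤ n) :
    1 / ((n:ℝ) * √(n:ℝ)) ≤ 2 * (1 / √((n:ℝ) - 1) - 1 / √(n:ℝ)) := by
  have hn' : (2:ℝ) ≤ n := by exact_mod_cast hn
  set x := √(n:ℝ) with hx
  set y := √((n:ℝ) - 1) with hy
  have hx0 : 0 < x := Real.sqrt_pos.mpr (by linarith)
  have hy0 : 0 < y := Real.sqrt_pos.mpr (by linarith)
  have hx2 : x ^ 2 = n := Real.sq_sqrt (by linarith)
  have hy2 : y ^ 2 = n - 1 := Real.sq_sqrt (by linarith)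
  have hyx : y ≤ x := Real.sqrt_le_sqrt (by linarith)
  rw [← hx2]
  have h1 : 1 / y - 1 / x = 1 / (x * y * (x + y)) := by
    have : x - y = 1 / (x + y) := by
      field_simp
      nlinarith
    field_simp
    nlinarith
  rw [h1, mul_one_div, div_le_div_iff₀ (by positivity) (by positivity)]
  nlinarith [mul_pos hx0 hy0, mul_nonneg hx0.le (sub_nonneg.mpr hyx), mul_nonneg (mul_pos hx0 hy0).le (sub_nonneg.mpr hyx), mul_nonneg (mul_pos hx0 hx0).le (sub_nonneg.mpr hyx)]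

theorem tele_sum {w : ℕ} (hw : 1 ≤ w) (N : ℕ) :
    ∑ n ∈ Finset.Ioc w (w + N), 1 / ((n:ℝ) * √(n:ℝ)) ≤ 2 * (1 / √(w:ℝ) - 1 / √((w + N : ℕ):ℝ)) := by
  induction N with
  | zero => simp
  | succ N ih =>
    rw [← Nat.add_assoc, ← Finset.insert_Ioc_right_eq_Ioc_add_one (by omega : w ≤ w + N), Finset.sum_insert (by simp)]
    have h := tele_term (n := w + N + 1) (by omega)
    have e : (((w + N + 1 : ℕ) : ℝ) - 1) = ((w + N : ℕ) : ℝ) := by push_cast; ring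
    rw [e] at h
    linarith

theorem sum_inv_le {w : ℕ} (hw : 1 ≤ w) (hinj : Function.Injective p) (hpw : ∀ i, w < p i) :
    ∑ i, 1 / ((p i : ℝ) * √(p i : ℝ)) ≤ 2 / √(w:ℝ) := by
  obtain ⟨N, hN⟩ : ∃ N, ∀ i, p i ≤ w + N := by
    refine ⟨∑ i, p i, fun i => ?_⟩
    have := Finset.single_le_sum (f := p) (fun j _ => Nat.zero_le _) (Finset.mem_univ i)
    omega
  have h1 : ∑ i, 1 / ((p i : ℝ) * √(p i : ℝ)) = ∑ n ∈ (univ.image p), 1 / ((n : ℝ) * √(n : ℝ)) := by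
    rw [Finset.sum_image]
    intro x _ y _ hxy
    exact hinj hxy
  rw [h1]
  have h2 : univ.image p ⊆ Finset.Ioc w (w + N) := by
    intro n hn
    rw [mem_image] at hn
    obtain ⟨i, _, rfl⟩ := hn
    rw [mem_Ioc]
    exact ⟨hpw i, hN i⟩
  have h3 : ∑ n ∈ (univ.image p), 1 / ((n : ℝ) * √(n : ℝ)) ≤ ∑ n ∈ Finset.Ioc w (w + N), 1 / ((n:ℝ) * √(n:ℝ)) :=
    Finset.sum_le_sum_of_subset_of_nonneg h2 (fun n _ _ => by positivity)
  have h4 := tele_sum hw N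
  have h5 : 0 ≤ 1 / √((w + N : ℕ):ℝ) := by positivity
  calc _ ≤ _ := h3
    _ ≤ _ := h4
    _ ≤ 2 * (1 / √(w:ℝ)) := by linarith
    _ = _ := by ring

theorem moment {κ : Type*} (F : Finset κ) (f : κ → ℤ) {N Cc : ℝ} {J : ℕ} (hJ : 4 ≤ J)
    (hinj : Function.Injective p) (hpJ : ∀ i, J ^ 8 < p i) (hC : 0 ≤ Cc) (hN0 : 0 ≤ N)
    (hN : (F.card : ℝ) ≤ N)
    (hcount : ∀ D : Finset ι, D.Nonempty →
      ((F.filter (fun x => ∀ i ∈ D, (p i : ℤ) ∣ f x)).card : ℝ) ≤ Cc * N * ∏ i ∈ D, (1 / √(p i : ℝ))) :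
    ∑ x ∈ F, Phi p J (f x) ≤ N * (1 + Cc * (16 / (J:ℝ) ^ 2)) := by
  have hJr : (4:ℝ) ≤ J := by exact_mod_cast hJ
  have hJ8 : ∀ i, 4 * J ^ 2 ≤ p i := by
    intro i
    have h1 := hpJ i
    have h2 : 4 * J ^ 2 ≤ J ^ 8 := by
      calc 4 * J ^ 2 ≤ J ^ 6 * J ^ 2 := by
            apply Nat.mul_le_mul_right
            calc 4 ≤ J := hJ
              _ = J ^ 1 := by ring
              _ ≤ J ^ 6 := Nat.pow_le_pow_right (by omega) (by norm_num)
        _ = J ^ 8 := by ring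
    omega
  have hp : ∀ i, 0 < p i := fun i => by have := hpJ i; omega
  have h1 : ∑ x ∈ F, Phi p J (f x) ≤
      ∑ x ∈ F, ∏ i, (1 + if (p i : ℤ) ∣ f x then 4 * (J:ℝ) ^ 2 / (p i : ℝ) else 0) :=
    Finset.sum_le_sum fun x _ => Phi_le_prod hp hJ8 (f x)
  have h2 := gm F f hN hcount (c := fun i => 4 * (J:ℝ) ^ 2 / (p i : ℝ)) (fun i => by positivity)
  apply h1.trans (h2.trans _)
  apply mul_le_mul_of_nonneg_left _ hN0
  have h3 : ∏ i, (1 + 4 * (J:ℝ) ^ 2 / (p i : ℝ) * (1 / √(p i : ℝ))) ≤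
      Real.exp (4 * (J:ℝ) ^ 2 * ∑ i, 1 / ((p i : ℝ) * √(p i : ℝ))) := by
    rw [Finset.mul_sum, Real.exp_sum]
    apply Finset.prod_le_prod
    · intro i _; positivity
    · intro i _
      have := Real.add_one_le_exp (4 * (J:ℝ) ^ 2 * (1 / ((p i : ℝ) * √(p i : ℝ))))
      have hpi : (0:ℝ) < p i := by exact_mod_cast hp i
      have e : 4 * (J:ℝ) ^ 2 / (p i : ℝ) * (1 / √(p i : ℝ)) = 4 * (J:ℝ) ^ 2 * (1 / ((p i : ℝ) * √(p i : ℝ))) := by
        field_simp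
      rw [e]
      linarith
  have h4 : ∑ i, 1 / ((p i : ℝ) * √(p i : ℝ)) ≤ 2 / (J:ℝ) ^ 4 := by
    have := sum_inv_le (w := J ^ 8) (Nat.one_le_iff_ne_zero.mpr (by positivity)) hinj hpJ
    have e : √((J ^ 8 : ℕ) : ℝ) = (J:ℝ) ^ 4 := by
      push_cast
      rw [show (J:ℝ) ^ 8 = ((J:ℝ) ^ 4) ^ 2 by ring]
      exact Real.sqrt_sq (by positivity)
    rw [e] at this
    exact this
  have h5 : 4 * (J:ℝ) ^ 2 * ∑ i, 1 / ((p i : ℝ) * √(p i : ℝ)) ≤ 8 / (J:ℝ) ^ 2 := by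
    calc _ ≤ 4 * (J:ℝ) ^ 2 * (2 / (J:ℝ) ^ 4) := mul_le_mul_of_nonneg_left h4 (by positivity)
      _ = _ := by field_simp; ring
  have h6 : Real.exp (4 * (J:ℝ) ^ 2 * ∑ i, 1 / ((p i : ℝ) * √(p i : ℝ))) ≤ 1 + 2 * (8 / (J:ℝ) ^ 2) := by
    apply (Real.exp_le_exp.mpr h5).trans
    apply exp_le_one_add_two_mul (by positivity)
    rw [div_le_iff₀ (by positivity)]
    nlinarith
  have h7 : ∏ i, (1 + 4 * (J:ℝ) ^ 2 / (p i : ℝ) * (1 / √(p i : ℝ))) - 1 ≤ 16 / (J:ℝ) ^ 2 := by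
    have : 2 * (8 / (J:ℝ) ^ 2) = 16 / (J:ℝ) ^ 2 := by ring
    linarith
  have := mul_le_mul_of_nonneg_left h7 hC
  linarith

/-- product of the `p i`, `i ∈ D`, divides as soon as each does -/
theorem prod_dvd_of (hinj : Function.Injective p) (hpr : ∀ i, (p i).Prime) {D : Finset ι} {m : ℤ}
    (h : ∀ i ∈ D, (p i : ℤ) ∣ m) : ((∏ i ∈ D, p i : ℕ) : ℤ) ∣ m := by
  push_cast
  apply Finset.prod_dvd_of_coprime
  · intro i _ j _ hij
    simp only [Function.onFun]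
    rw [Nat.isCoprime_iff_coprime]
    exact (Nat.coprime_primes (hpr i) (hpr j)).mpr fun h => hij (hinj h)
  · exact h

theorem count_mult (M d : ℕ) (hd : 0 < d) :
    ((Finset.Icc (-(M:ℤ)) M).filter (fun m => m ≠ 0 ∧ (d:ℤ) ∣ m)).card ≤ 2 * (M / d) := by
  have h1 : ((Finset.Icc (-(M:ℤ)) M).filter (fun m => m ≠ 0 ∧ (d:ℤ) ∣ m)) ⊆
      ((Finset.Icc (-((M / d : ℕ):ℤ)) (M / d : ℕ)).erase 0).image (fun k => k * (d:ℤ)) := by
    intro m hm
    rw [mem_filter, mem_Icc] at hm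
    obtain ⟨⟨h1, h2⟩, h0, k, rfl⟩ := hm
    rw [mem_image]
    have hdz : (0:ℤ) < d := by exact_mod_cast hd
    refine ⟨k, ?_, by ring⟩
    rw [mem_erase, mem_Icc]
    have h3 : k ≤ (M:ℤ) / d := by
      rw [Int.le_ediv_iff_mul_le hdz]; linarith
    have h4 : -k ≤ (M:ℤ) / d := by
      rw [Int.le_ediv_iff_mul_le hdz]; linarith
    push_cast
    refine ⟨?_, by linarith, h3⟩
    rintro rfl
    simp at h0
  apply (Finset.card_le_card h1).trans
  apply Finset.card_image_le.trans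
  rw [Finset.card_erase_of_mem]
  · rw [Int.card_Icc]; omega
  · have h9 : (0:ℤ) ≤ ((M / d : ℕ) : ℤ) := Int.natCast_nonneg _
    rw [mem_Icc]
    exact ⟨by linarith, h9⟩

end Pool.Agent.Helper52
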