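import Pool.Agent.Helper52.Avoid

/-!
Pair correlation bounds.
-/

set_option linter.unusedSectionVars false
set_option linter.unusedSimpArgs false

open Finset

namespace Pool.Agent.Helper52

variable {ι : Type*} [Fintype ι] [DecidableEq ι]

/-- survival probability of a set of `k` integers distinct modulo all the `p i` -/
noncomputable def Qf (p : ι → ℕ) (k : ℕ) : ℝ := ∏ i, (1 - (k : ℝ) / (p i : ℝ))

/-- sum of reciprocals of the `p i` dividing `m` -/
noncomputable def G (p : ι → ℕ) (m : ℤ) : ℝ := ∑ i, if (p i : ℤ) ∣ m then 1 / (p i : ℝ) else 0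

/-- elements of `S` are pairwise incongruent modulo each `p i` -/
def InjMod (p : ι → ℕ) (S : Finset ℤ) : Prop :=
  ∀ i, ∀ x ∈ S, ∀ y ∈ S, (p i : ℤ) ∣ x - y → x = y

variable {p : ι → ℕ}

theorem G_nonneg (m : ℤ) : 0 ≤ G p m := by
  unfold G
  apply Finset.sum_nonneg
  intro i _
  split_ifs
  · positivity
  · exact le_refl _

theorem G_neg (m : ℤ) : G p (-m) = G p m := by
  unfold G
  apply Finset.sum_congr rfl
  intro i _
  simp only [dvd_neg]

theorem nu_le_card (i : ι) (S : Finset ℤ) : nu p i S ≤ S.card := by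
  unfold nu; exact Finset.card_image_le

theorem nu_of_inj {S : Finset ℤ} (h : InjMod p S) (i : ι) : nu p i S = S.card := by
  unfold nu
  apply Finset.card_image_of_injOn
  intro x hx y hy hxy
  simp only at hxy
  exact h i x (by exact_mod_cast hx) y (by exact_mod_cast hy)
    (Int.ModEq.dvd (Eq.symm hxy))

theorem E_ind_inj (hp : ∀ i, 0 < p i) {S : Finset ℤ} (h : InjMod p S) :
    E p (ind p S) = Qf p S.card := by
  rw [E_ind hp]
  unfold Qf
  apply Finset.prod_congr rfl
  intro i _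
  rw [nu_of_inj h]

theorem nu_union_ge {S S' : Finset ℤ} (h : InjMod p S) (h' : InjMod p S') (i : ι) :
    S.card + S'.card ≤ nu p i (S ∪ S') +
      ((S ×ˢ S').filter (fun x => (p i : ℤ) ∣ x.1 - x.2)).card := by
  have e1 : nu p i (S ∪ S') = (S.image (fun n => n % (p i : ℤ)) ∪ S'.image (fun n => n % (p i : ℤ))).card := by
    unfold nu; rw [Finset.image_union]
  have e2 := Finset.card_union_add_card_inter (S.image (fun n => n % (p i : ℤ))) (S'.image (fun n => n % (p i : ℤ)))
  have e3 : (S.image (fun n => n % (p i : ℤ))).card = S.card := nu_of_inj h i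
  have e4 : (S'.image (fun n => n % (p i : ℤ))).card = S'.card := nu_of_inj h' i
  have e5 : (S.image (fun n => n % (p i : ℤ)) ∩ S'.image (fun n => n % (p i : ℤ))).card ≤
      ((S ×ˢ S').filter (fun x => (p i : ℤ) ∣ x.1 - x.2)).card := by
    have : S.image (fun n => n % (p i : ℤ)) ∩ S'.image (fun n => n % (p i : ℤ)) ⊆
        ((S ×ˢ S').filter (fun x => (p i : ℤ) ∣ x.1 - x.2)).image (fun x => x.1 % (p i : ℤ)) := by
      intro r hr
      rw [mem_inter, mem_image, mem_image] at hr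
      obtain ⟨⟨x, hx, hxr⟩, ⟨y, hy, hyr⟩⟩ := hr
      rw [mem_image]
      refine ⟨(x, y), ?_, hxr⟩
      rw [mem_filter, mem_product]
      refine ⟨⟨hx, hy⟩, ?_⟩
      apply Int.ModEq.dvd
      exact hyr.trans hxr.symm
    exact (Finset.card_le_card this).trans Finset.card_image_le
  omega

theorem fac1 {k k' κ ν P : ℝ} (hk : 0 ≤ k) (hk' : 0 ≤ k') (hκ : 0 ≤ κ) (hP : 0 < P)
    (h4 : 2 * (k + k') ≤ P) (hν : k + k' ≤ ν + κ) :
    1 - ν / P ≤ (1 - k / P) * (1 - k' / P) * (1 + 2 * κ / P) := by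
  have h1 : 1 - ν / P ≤ 1 - (k + k') / P + κ / P := by
    have : (k + k') / P ≤ (ν + κ) / P := div_le_div_of_nonneg_right hν hP.le
    rw [add_div ν κ P] at this
    linarith
  have hX : 1 / 2 ≤ 1 - (k + k') / P := by
    have : (k + k') / P ≤ 1 / 2 := by
      rw [div_le_iff₀ hP]; linarith
    linarith
  have hY : 1 - (k + k') / P ≤ (1 - k / P) * (1 - k' / P) := by
    have : (1 - k / P) * (1 - k' / P) = 1 - (k + k') / P + (k / P) * (k' / P) := by
      field_simp; ring
    rw [this]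
    have : 0 ≤ (k / P) * (k' / P) := by positivity
    linarith
  have hκP : 0 ≤ κ / P := by positivity
  have h5 : (1 - k / P) * (1 - k' / P) * (1 + 2 * κ / P)
      = (1 - k / P) * (1 - k' / P) + 2 * ((1 - k / P) * (1 - k' / P)) * (κ / P) := by ring
  rw [h5]
  nlinarith

theorem fac2 {k k' κ ν P : ℝ} (hk : 1 ≤ k) (hk' : 1 ≤ k') (hκ : 0 ≤ κ) (hP : 1 ≤ P)
    (h4 : 2 * (k + k') ≤ P) (hν : k + k' ≤ ν + κ + 1) :
    (1 - 1 / P) * (1 - ν / P) ≤ (1 - k / P) * (1 - k' / P) * (1 + 2 * κ / P) := by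
  have hP0 : 0 < P := by linarith
  have h1 : 1 - ν / P ≤ 1 - (k + k' - 1) / P + κ / P := by
    have : (k + k' - 1) / P ≤ (ν + κ) / P := div_le_div_of_nonneg_right (by linarith) hP0.le
    rw [add_div ν κ P] at this
    linarith
  have hX : 1 / 2 ≤ 1 - (k + k') / P := by
    have : (k + k') / P ≤ 1 / 2 := by
      rw [div_le_iff₀ hP0]; linarith
    linarith
  have hinv : 0 ≤ 1 - 1 / P := by
    have : 1 / P ≤ 1 := by rw [div_le_one hP0]; exact hP
    linarith
  have hinv1 : 1 - 1 / P ≤ 1 := by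
    have : 0 ≤ 1 / P := by positivity
    linarith
  have hκP : 0 ≤ κ / P := by positivity
  have hY : (1 - 1 / P) * (1 - (k + k' - 1) / P) ≤ (1 - k / P) * (1 - k' / P) := by
    have e1 : (1 - k / P) * (1 - k' / P) - (1 - 1 / P) * (1 - (k + k' - 1) / P)
      = (k - 1) * (k' - 1) / (P * P) := by
      field_simp; ring
    have : 0 ≤ (k - 1) * (k' - 1) / (P * P) := by
      apply div_nonneg
      · exact mul_nonneg (by linarith) (by linarith)
      · positivity
    linarith
  have hY2 : 1 / 2 ≤ (1 - k / P) * (1 - k' / P) := by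
    have : (1 - k / P) * (1 - k' / P) = 1 - (k + k') / P + (k / P) * (k' / P) := by
      field_simp; ring
    rw [this]
    have : 0 ≤ (k / P) * (k' / P) := by positivity
    linarith
  have h5 : (1 - k / P) * (1 - k' / P) * (1 + 2 * κ / P)
      = (1 - k / P) * (1 - k' / P) + 2 * ((1 - k / P) * (1 - k' / P)) * (κ / P) := by ring
  rw [h5]
  have h6 : (1 - 1 / P) * (1 - ν / P) ≤ (1 - 1 / P) * (1 - (k + k' - 1) / P + κ / P) :=
    mul_le_mul_of_nonneg_left h1 hinv
  nlinarith

theorem sum_card_div (S : Finset (ℤ × ℤ)) :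
    ∑ i, ((S.filter (fun x => (p i : ℤ) ∣ x.1 - x.2)).card : ℝ) / (p i : ℝ)
      = ∑ x ∈ S, G p (x.1 - x.2) := by
  unfold G
  rw [Finset.sum_comm]
  apply Finset.sum_congr rfl
  intro i _
  rw [← Finset.sum_filter, Finset.sum_const, nsmul_eq_mul]
  ring

theorem one_sub_nonneg {S : Finset ℤ} {k : ℕ} (hp : ∀ i, 0 < p i) (hk : S.card ≤ k)
    (h : ∀ i, k ≤ p i) (i : ι) : 0 ≤ 1 - (nu p i S : ℝ) / (p i : ℝ) := by
  have hpi : (0:ℝ) < p i := by exact_mod_cast hp i
  have h1 : nu p i S ≤ p i := (nu_le_card i S).trans (hk.trans (h i))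
  have : (nu p i S : ℝ) / (p i : ℝ) ≤ 1 := by
    rw [div_le_one hpi]; exact_mod_cast h1
  linarith

theorem pair1 {J : ℕ} (hp : ∀ i, 0 < p i) (hJ : ∀ i, 4 * J ≤ p i) {S S' : Finset ℤ}
    (h : InjMod p S) (h' : InjMod p S') (hS : S.card ≤ J) (hS' : S'.card ≤ J) :
    E p (ind p (S ∪ S')) ≤ Qf p S.card * Qf p S'.card *
      Real.exp (2 * ∑ x ∈ S ×ˢ S', G p (x.1 - x.2)) := by
  rw [E_ind hp, ← sum_card_div, Finset.mul_sum, Real.exp_sum]
  unfold Qf
  rw [← Finset.prod_mul_distrib, ← Finset.prod_mul_distrib]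
  apply Finset.prod_le_prod
  · intro i _
    apply one_sub_nonneg hp (k := 2 * J) _ _ i
    · have := Finset.card_union_le S S'
      omega
    · intro i; have := hJ i; omega
  · intro i _
    have hpi : (0:ℝ) < p i := by exact_mod_cast hp i
    have hJi : 4 * (J:ℝ) ≤ p i := by exact_mod_cast hJ i
    have hSr : (S.card : ℝ) ≤ J := by exact_mod_cast hS
    have hSr' : (S'.card : ℝ) ≤ J := by exact_mod_cast hS'
    have hf := fac1 (k := S.card) (k' := S'.card)
      (κ := (((S ×ˢ S').filter (fun x => (p i : ℤ) ∣ x.1 - x.2)).card : ℝ))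
      (ν := nu p i (S ∪ S')) (P := p i) (by positivity) (by positivity) (by positivity) hpi
      (by linarith) (by exact_mod_cast nu_union_ge h h' i)
    apply hf.trans
    apply mul_le_mul_of_nonneg_left
    · have := Real.add_one_le_exp (2 * ((((S ×ˢ S').filter (fun x => (p i : ℤ) ∣ x.1 - x.2)).card : ℝ) / (p i : ℝ)))
      have e : 2 * (((S ×ˢ S').filter (fun x => (p i : ℤ) ∣ x.1 - x.2)).card : ℝ) / (p i : ℝ)
        = 2 * ((((S ×ˢ S').filter (fun x => (p i : ℤ) ∣ x.1 - x.2)).card : ℝ) / (p i : ℝ)) := by ring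
      rw [e]
      linarith
    · apply mul_nonneg
      · have : (S.card : ℝ) / (p i : ℝ) ≤ 1 := by
          rw [div_le_one hpi]; nlinarith
        linarith
      · have : (S'.card : ℝ) / (p i : ℝ) ≤ 1 := by
          rw [div_le_one hpi]; nlinarith
        linarith

theorem pair2 {J : ℕ} (hp : ∀ i, 0 < p i) (hJ : ∀ i, 4 * J ≤ p i) {S S' : Finset ℤ}
    (h : InjMod p S) (h' : InjMod p S') (hS : S.card ≤ J) (hS' : S'.card ≤ J)
    {s : ℤ} (hs : s ∈ S) (hs' : s ∈ S') :
    Qf p 1 * E p (ind p (S ∪ S')) ≤ Qf p S.card * Qf p S'.card *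
      Real.exp (2 * ∑ x ∈ (S ×ˢ S').erase (s, s), G p (x.1 - x.2)) := by
  have hS1 : 1 ≤ S.card := Finset.card_pos.mpr ⟨s, hs⟩
  have hS1' : 1 ≤ S'.card := Finset.card_pos.mpr ⟨s, hs'⟩
  rw [E_ind hp, ← sum_card_div, Finset.mul_sum, Real.exp_sum]
  unfold Qf
  rw [← Finset.prod_mul_distrib, ← Finset.prod_mul_distrib, ← Finset.prod_mul_distrib]
  apply Finset.prod_le_prod
  · intro i _
    apply mul_nonneg
    · have hpi : (1:ℝ) ≤ p i := by exact_mod_cast hp i
      have : ((1:ℕ):ℝ) / (p i : ℝ) ≤ 1 := by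
        rw [div_le_one (by linarith)]; push_cast; exact hpi
      linarith
    apply one_sub_nonneg hp (k := 2 * J) _ _ i
    · have := Finset.card_union_le S S'
      omega
    · intro i; have := hJ i; omega
  · intro i _
    have hpi : (1:ℝ) ≤ p i := by exact_mod_cast hp i
    have hpi0 : (0:ℝ) < p i := by linarith
    have hJi : 4 * (J:ℝ) ≤ p i := by exact_mod_cast hJ i
    have hSr : (S.card : ℝ) ≤ J := by exact_mod_cast hS
    have hSr' : (S'.card : ℝ) ≤ J := by exact_mod_cast hS'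
    have hcard : ((S ×ˢ S').filter (fun x => (p i : ℤ) ∣ x.1 - x.2)).card =
        (((S ×ˢ S').erase (s, s)).filter (fun x => (p i : ℤ) ∣ x.1 - x.2)).card + 1 := by
      rw [Finset.filter_erase, Finset.card_erase_add_one]
      rw [mem_filter, mem_product]
      refine ⟨⟨hs, hs'⟩, ?_⟩
      simp
    have hnu := nu_union_ge h h' i
    rw [hcard] at hnu
    have hf := fac2 (k := S.card) (k' := S'.card)
      (κ := ((((S ×ˢ S').erase (s, s)).filter (fun x => (p i : ℤ) ∣ x.1 - x.2)).card : ℝ))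
      (ν := nu p i (S ∪ S')) (P := p i) (by exact_mod_cast hS1) (by exact_mod_cast hS1')
      (by positivity) hpi
      (by linarith) (by
        have : ((S.card + S'.card : ℕ) : ℝ) ≤ ((nu p i (S ∪ S') + ((((S ×ˢ S').erase (s, s)).filter (fun x => (p i : ℤ) ∣ x.1 - x.2)).card + 1) : ℕ) : ℝ) := by
          exact_mod_cast hnu
        push_cast at this
        linarith)
    have e0 : ((1:ℕ):ℝ) = 1 := by norm_num
    rw [e0]
    apply hf.trans
    apply mul_le_mul_of_nonneg_left
    · have := Real.add_one_le_exp (2 * (((((S ×ˢ S').erase (s, s)).filter (fun x => (p i : ℤ) ∣ x.1 - x.2)).card : ℝ) / (p i : ℝ)))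
      have e : 2 * ((((S ×ˢ S').erase (s, s)).filter (fun x => (p i : ℤ) ∣ x.1 - x.2)).card : ℝ) / (p i : ℝ)
        = 2 * (((((S ×ˢ S').erase (s, s)).filter (fun x => (p i : ℤ) ∣ x.1 - x.2)).card : ℝ) / (p i : ℝ)) := by ring
      rw [e]
      linarith
    · apply mul_nonneg
      · have : (S.card : ℝ) / (p i : ℝ) ≤ 1 := by
          rw [div_le_one hpi0]; nlinarith
        linarith
      · have : (S'.card : ℝ) / (p i : ℝ) ≤ 1 := by
          rw [div_le_one hpi0]; nlinarith
        linarith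

end Pool.Agent.Helper52
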