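import Pool.Agent.Helper52.Cover

/-!
Choice of parameters.
-/

set_option linter.unusedSectionVars false
set_option linter.unusedSimpArgs false

open Finset

namespace Pool.Agent.Helper52

theorem log_le_sum_Ico {a b : ℕ} (ha : 1 ≤ a) (hab : a ≤ b) :
    Real.log b - Real.log a ≤ ∑ i ∈ Finset.Ico a b, 1 / (i:ℝ) := by
  induction b, hab using Nat.le_induction with
  | base => simp
  | succ b hb ih =>
    rw [Finset.sum_Ico_succ_top hb]
    have hbr : (0:ℝ) < b := by exact_mod_cast (by omega : 0 < b)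
    have h1 : Real.log ((b + 1 : ℕ) : ℝ) - Real.log b ≤ 1 / b := by
      rw [← Real.log_div (by positivity) hbr.ne']
      have := Real.log_le_sub_one_of_pos (by positivity : (0:ℝ) < ((b + 1 : ℕ) : ℝ) / b)
      have e : ((b + 1 : ℕ) : ℝ) / b - 1 = 1 / b := by push_cast; field_simp; ring
      linarith
    linarith

theorem i_cubed {i : ℕ} (hi : 2 ≤ i) : 34560 * i ^ 3 ≤ 2 ^ (10 * i) := by
  induction i, hi using Nat.le_induction with
  | base => norm_num
  | succ i hi ih =>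
    have : 2 ^ (10 * (i + 1)) = 1024 * 2 ^ (10 * i) := by rw [mul_add, pow_add]; ring
    rw [this]
    nlinarith [pow_pos (by omega : 0 < i) 2, pow_pos (by omega : 0 < i) 3]

theorem sum_geom_tail (i0 i1 : ℕ) : ∑ i ∈ Finset.Ico i0 i1, (i:ℝ) / 16 ^ i ≤ 2 / 4 ^ i0 := by
  have h1 : ∀ i : ℕ, (i:ℝ) / 16 ^ i ≤ 1 / 4 ^ i := by
    intro i
    rw [div_le_div_iff₀ (by positivity) (by positivity), one_mul]
    have h2 : (i:ℝ) ≤ 4 ^ i := by
      have : i < 4 ^ i := Nat.lt_pow_self (by norm_num)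
      exact_mod_cast this.le
    calc (i:ℝ) * 4 ^ i ≤ 4 ^ i * 4 ^ i := mul_le_mul_of_nonneg_right h2 (by positivity)
      _ = 16 ^ i := by rw [← mul_pow]; norm_num
  rcases le_or_gt i1 i0 with h | h
  · rw [Finset.Ico_eq_empty (by omega), Finset.sum_empty]; positivity
  · have h3 : ∀ n, ∑ i ∈ Finset.Ico i0 (i0 + n), (1:ℝ) / 4 ^ i ≤ 4 / 3 * (1 / 4 ^ i0) - 4 / 3 * (1 / 4 ^ (i0 + n)) := by
      intro n
      induction n with
      | zero => simp
      | succ n ih =>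
        rw [← Nat.add_assoc, Finset.sum_Ico_succ_top (by omega)]
        have e : (1:ℝ) / 4 ^ (i0 + n + 1) = (1 / 4) * (1 / 4 ^ (i0 + n)) := by rw [pow_succ]; field_simp
        rw [e]
        linarith
    obtain ⟨n, rfl⟩ : ∃ n, i1 = i0 + n := ⟨i1 - i0, by omega⟩
    calc _ ≤ ∑ i ∈ Finset.Ico i0 (i0 + n), (1:ℝ) / 4 ^ i := Finset.sum_le_sum fun i _ => h1 i
      _ ≤ _ := h3 n
      _ ≤ _ := by
          have h5 : (0:ℝ) < 1 / 4 ^ (i0 + n) := by positivity
          have h6 : (0:ℝ) < 1 / 4 ^ i0 := by positivity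
          have h7 : (2:ℝ) / 4 ^ i0 = 2 * (1 / 4 ^ i0) := by ring
          rw [h7]
          linarith

/-- All the numerical requirements on the parameters, for one value of `u`. -/
theorem cover_param {C : ℕ} (hC : 1 ≤ C) (K : ℕ) : ∃ Y x : ℕ, K ≤ Y ∧ Y ≤ x ∧ x < 2 * 4 ^ (4 * Y) ∧
    ∀ n, 1 ≤ n → n ≤ C * Y → 3 ≤ (x + n).primeFactorsList.length := by
  obtain ⟨N0, hgood⟩ := exists_good
  obtain ⟨N1, hN1, hch⟩ := cheb_lower
  have hl2 : 0.6931471803 < Real.log 2 := Real.log_two_gt_d9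
  have hl2' : Real.log 2 < 0.6931471808 := Real.log_two_lt_d9
  have hkap := kap_pos
  have hC3 := C3_pos
  have hCS := CS_pos
  have hCr : (1:ℝ) ≤ C := by exact_mod_cast hC
  -- choice of `M`
  obtain ⟨M, hM2, hM⟩ : ∃ M : ℕ, 2 ≤ M ∧
      Real.exp (-(kap / 2 * Real.log M)) * (C * (2 + 150 * CS) / Real.log 2) ≤ 1 / 4 := by
    have ht : Filter.Tendsto (fun M : ℕ => Real.exp (-(kap / 2 * Real.log (M:ℝ))) * (C * (2 + 150 * CS) / Real.log 2))
        Filter.atTop (nhds (0 * (C * (2 + 150 * CS) / Real.log 2))) := by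
      apply Filter.Tendsto.mul_const
      apply Real.tendsto_exp_neg_atTop_nhds_zero.comp
      apply Filter.Tendsto.const_mul_atTop (by positivity)
      exact Real.tendsto_log_atTop.comp tendsto_natCast_atTop_atTop
    rw [zero_mul] at ht
    have h1 := (ht.eventually (gt_mem_nhds (by norm_num : (0:ℝ) < 1 / 4))).and (Filter.eventually_ge_atTop 2)
    obtain ⟨M, hM⟩ := h1.exists
    exact ⟨M, hM.2, hM.1.le⟩
  have hMr : (2:ℝ) ≤ M := by exact_mod_cast hM2
  have hM0 : (0:ℝ) < M := by linarith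
  have hlM : 0 < Real.log M := Real.log_pos (by linarith)
  set A : ℝ := 2 * Real.log M + 1 with hA
  have hA0 : 0 ≤ A := by positivity
  set CA : ℝ := 1 + Real.exp (12 * Real.exp (2 * A)) with hCA
  have hCA0 : 0 < CA := by positivity
  -- choice of `u`
  obtain ⟨u, hu⟩ : ∃ u : ℕ, (3 ≤ u ∧ K ≤ u ∧ N0 ≤ u ∧ N1 ≤ u ∧ 2 * C ≤ u ∧ 4 * A ≤ u / 2) ∧
      720 * C * CA * ((u:ℝ) * Real.exp (-(u:ℝ))) ≤ 1 ∧ C * C3 * 543232 * ((u:ℝ) * Real.exp (-(u:ℝ))) ≤ 1 := by
    have ht0 : Filter.Tendsto (fun u : ℕ => (u:ℝ) * Real.exp (-(u:ℝ))) Filter.atTop (nhds 0) := by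
      have h1 := Real.tendsto_pow_mul_exp_neg_atTop_nhds_zero 1
      simp only [pow_one] at h1
      exact h1.comp tendsto_natCast_atTop_atTop
    have ht1 : Filter.Tendsto (fun u : ℕ => 720 * C * CA * ((u:ℝ) * Real.exp (-(u:ℝ)))) Filter.atTop (nhds 0) := by
      simpa using ht0.const_mul (720 * C * CA)
    have ht2 : Filter.Tendsto (fun u : ℕ => C * C3 * 543232 * ((u:ℝ) * Real.exp (-(u:ℝ)))) Filter.atTop (nhds 0) := by
      simpa using ht0.const_mul (C * C3 * 543232)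
    have e1 := ht1.eventually (ge_mem_nhds (by norm_num : (0:ℝ) < 1))
    have e2 := ht2.eventually (ge_mem_nhds (by norm_num : (0:ℝ) < 1))
    have e3 : ∀ᶠ u : ℕ in Filter.atTop, 4 * A ≤ (u:ℝ) / 2 := by
      filter_upwards [Filter.eventually_ge_atTop ⌈8 * A⌉₊] with u hu
      have := (Nat.le_ceil (8 * A)).trans (by exact_mod_cast hu : ((⌈8 * A⌉₊ : ℕ) : ℝ) ≤ u)
      linarith
    obtain ⟨u, hu⟩ := ((e1.and e2).and (e3.and ((Filter.eventually_ge_atTop 3).and ((Filter.eventually_ge_atTop K).and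
      ((Filter.eventually_ge_atTop N0).and ((Filter.eventually_ge_atTop N1).and
        (Filter.eventually_ge_atTop (2 * C)))))))).exists
    obtain ⟨⟨h1, h2⟩, h3, h4, h5, h6, h7, h8⟩ := hu
    exact ⟨u, ⟨h4, h5, h6, h7, h8, h3⟩, h1, h2⟩
  obtain ⟨⟨hu3, huK, huN0, huN1, huC, huA⟩, hE1, hE2⟩ := hu
  have hur : (3:ℝ) ≤ u := by exact_mod_cast hu3
  set i0 := M ^ u with hi0
  set i1 := M ^ (2 * u) with hi1
  set Z := 2 ^ (10 * i1) with hZ
  -- basic size facts
  have hui0 : u < i0 := by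
    calc u < 2 ^ u := Nat.lt_two_pow_self
      _ ≤ M ^ u := Nat.pow_le_pow_left hM2 u
  have hi01 : i0 ≤ i1 := Nat.pow_le_pow_right (by omega) (by omega)
  have hi1u : u < i1 := by omega
  have hi1_3 : 3 < i1 := by omega
  have hcub := i_cubed (i := i1) (by omega)
  rw [← hZ] at hcub
  have hZi : 34560 * i1 ≤ Z := by
    apply le_trans _ hcub
    apply Nat.mul_le_mul_left
    calc i1 = i1 ^ 1 := (pow_one _).symm
      _ ≤ i1 ^ 3 := Nat.pow_le_pow_right (by omega) (by norm_num)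
  have hZlt : Z < 2 ^ Z := Nat.lt_two_pow_self
  have hZr : (0:ℝ) < Z := by exact_mod_cast (by omega : 0 < Z)
  have hi1r : (3:ℝ) < i1 := by exact_mod_cast hi1_3
  have hi1ur : (u:ℝ) < i1 := by exact_mod_cast hi1u
  have hi1Cr : (C:ℝ) ≤ i1 := by exact_mod_cast (by omega : C ≤ i1)
  have hcubr : 34560 * (i1:ℝ) ^ 3 ≤ Z := by exact_mod_cast hcub
  have hlogZ : Real.log Z = 10 * i1 * Real.log 2 := by
    rw [hZ]; push_cast; rw [Real.log_pow]; push_cast; ring
  set Y := 2 ^ (u * Z) with hY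
  set L := C * Y with hL
  have hYpos : 0 < Y := by positivity
  have hYr : (0:ℝ) < Y := by exact_mod_cast hYpos
  have hLr : (L:ℝ) = C * Y := by rw [hL]; push_cast; ring
  have hLr0 : (0:ℝ) < L := by rw [hLr]; positivity
  have hL1 : 2 ^ (u * Z) ≤ L := by
    rw [hL, ← hY]; exact Nat.le_mul_of_pos_left _ hC
  have hC2Z : 2 * C ≤ 2 ^ Z := by omega
  have hsplit : 2 ^ ((u + 1) * Z) = 2 ^ Z * Y := by rw [hY, ← pow_add]; congr 1; ring
  have hL2 : 2 * L ≤ 2 ^ ((u + 1) * Z) := by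
    rw [hsplit, hL, ← mul_assoc]; exact Nat.mul_le_mul_right Y hC2Z
  -- condition on the logarithm
  have hpow : (4:ℝ) ^ i1 * 4 ^ i1 * 4 ^ i1 * 4 ^ i1 * 4 ^ i1 = Z := by
    rw [hZ]; push_cast
    rw [pow_mul, ← mul_pow, ← mul_pow, ← mul_pow, ← mul_pow]; norm_num
  have h4i : 20 * (i1:ℝ) ≤ 4 ^ i1 * 4 ^ i1 := by
    have h1 : ∀ n : ℕ, 3 ≤ n → 20 * n ≤ 4 ^ n * 4 ^ n := by
      intro n hn
      induction n, hn using Nat.le_induction with
      | base => norm_num
      | succ n hn ih =>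
        have : 4 ^ (n + 1) * 4 ^ (n + 1) = 16 * (4 ^ n * 4 ^ n) := by ring
        rw [this]; omega
    exact_mod_cast h1 i1 hi1_3.le
  have h4one : (1:ℝ) ≤ 4 ^ i1 := one_le_pow₀ (by norm_num)
  have h4sixty : (4:ℝ) ≤ 4 ^ i1 := by
    calc (4:ℝ) = 4 ^ 1 := by norm_num
      _ ≤ 4 ^ i1 := pow_le_pow_right₀ (by norm_num) (by omega)
  have hlog : 2 * (4:ℝ) ^ i1 * (Real.log Z + 8) ≤ Z * Real.log 2 := by
    rw [hlogZ]
    have h1 : 10 * (i1:ℝ) * Real.log 2 + 8 ≤ 20 * i1 := by nlinarith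
    have h2 : (10 * (i1:ℝ) * Real.log 2 + 8) ≤ 4 ^ i1 * 4 ^ i1 := h1.trans h4i
    have h3 : 2 * (4:ℝ) ^ i1 * (10 * i1 * Real.log 2 + 8) ≤ 2 * 4 ^ i1 * (4 ^ i1 * 4 ^ i1) :=
      mul_le_mul_of_nonneg_left h2 (by positivity)
    have h5 : 2 * (4:ℝ) ^ i1 * (4 ^ i1 * 4 ^ i1) ≤ Z * Real.log 2 := by
      rw [← hpow]
      have h6 : (0:ℝ) < 4 ^ i1 * 4 ^ i1 * 4 ^ i1 := by positivity
      have h7 : (16:ℝ) ≤ 4 ^ i1 * 4 ^ i1 := by nlinarith
      calc 2 * (4:ℝ) ^ i1 * (4 ^ i1 * 4 ^ i1) = (4 ^ i1 * 4 ^ i1 * 4 ^ i1) * 2 := by ring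
        _ ≤ (4 ^ i1 * 4 ^ i1 * 4 ^ i1) * ((4 ^ i1 * 4 ^ i1) * Real.log 2) := by
            apply mul_le_mul_of_nonneg_left _ h6.le
            nlinarith
        _ = _ := by ring
    exact h3.trans h5
  obtain ⟨a, c, hac⟩ := hgood u Z L (L / 4 ^ i1) i0 i1 hu3 (by omega) (by omega) (by omega) (by omega)
    hL1 hL2 hlog
  -- exponents for the medium range
  have hNN2 : 2 * i1 ≤ Z := by omega
  have huZ : Z ≤ u * Z := Nat.le_mul_of_pos_left _ (by omega)
  set al := u * Z - 2 * i1 with hal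
  set k := 2 * i1 + C with hk
  have hal1 : 1 ≤ al := by omega
  have h4pow : (4:ℕ) ^ i1 = 2 ^ (2 * i1) := by rw [pow_mul]; norm_num
  have hy1 : 2 ^ al ≤ L / 4 ^ i1 := by
    rw [Nat.le_div_iff_mul_le (by positivity), h4pow, ← pow_add]
    have : al + 2 * i1 = u * Z := by omega
    rw [this]; exact hL1
  have hLk : L ≤ 2 ^ (al + k) := by
    have e : al + k = C + u * Z := by omega
    rw [e, pow_add, hL, ← hY]
    exact Nat.mul_le_mul_right _ Nat.lt_two_pow_self.le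
  have hyL : L / 4 ^ i1 ≤ L := Nat.div_le_self _ _
  have hLZ2 : L ≤ 2 ^ ((u + 1) * Z) := by omega
  have hA1 := A1_card (u := u) (Z := Z) (y := L / 4 ^ i1) (L := L) (a := al) (k := k) (by omega) (by omega)
    hal1 hy1 hyL hLk hL1 hLZ2
  have hZ10 : 8 * A ≤ Z := by
    have : (u:ℝ) ≤ Z := by exact_mod_cast (by omega : u ≤ Z)
    linarith
  have hA0c := A0_card (A := A) hA0 (u := u) (Z := Z) (y := L / 4 ^ i1) (L := L) (a := al) (k := k) (by omega)
    (by nlinarith) hal1 hy1 hLk hL1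
  -- `4 k / al`
  have halr : (u:ℝ) * Z / 2 ≤ al := by
    have h1 : (al:ℝ) = u * Z - 2 * i1 := by
      rw [hal, Nat.cast_sub (by omega)]; push_cast; ring
    rw [h1]
    have h2 : 4 * (i1:ℝ) ≤ Z := by exact_mod_cast (by omega : 4 * i1 ≤ Z)
    have h3 : (Z:ℝ) ≤ u * Z := by exact_mod_cast huZ
    linarith
  have hkr : (k:ℝ) ≤ 3 * i1 := by
    have : k ≤ 3 * i1 := by omega
    exact_mod_cast this
  have huZr : 0 < (u:ℝ) * Z := by positivity
  have hka : 4 * (k:ℝ) / al ≤ 24 * i1 / (u * Z) := by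
    calc 4 * (k:ℝ) / al ≤ 4 * (3 * i1) / (u * Z / 2) := by
          apply div_le_div₀ (by positivity) (by linarith) (by positivity) halr
      _ = _ := by field_simp; ring
  -- bound for `A1`
  have hA1' : ((A1 (2 ^ Z) (L / 4 ^ i1) L).card : ℝ) ≤ L * ((2 + 150 * CS) / u) := by
    apply hA1.trans
    apply mul_le_mul_of_nonneg_left _ hLr0.le
    have h1 : 1 / (2:ℝ) ^ Z ≤ 1 / u := by
      apply one_div_le_one_div_of_le (by positivity)
      have : u ≤ 2 ^ Z := by omega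
      exact_mod_cast this
    have h2 : 4 * (k:ℝ) / al ≤ 1 / u := by
      apply hka.trans
      rw [div_le_div_iff₀ huZr (by positivity)]
      have h3 : 24 * (i1:ℝ) ≤ Z := by exact_mod_cast (by omega : 24 * i1 ≤ Z)
      nlinarith
    calc 1 / (2:ℝ) ^ Z + 4 * k / al + 150 * CS / u ≤ 1 / u + 1 / u + 150 * CS / u := by linarith
      _ = _ := by ring
  -- R1
  have hlamlow : kap / 2 * Real.log M ≤ kap / (u + 1) * ∑ i ∈ Finset.Ico i0 i1, 1 / (i:ℝ) := by
    have h1 := log_le_sum_Ico (a := i0) (b := i1) (by omega) hi01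
    have h2 : Real.log (i1:ℝ) - Real.log (i0:ℝ) = u * Real.log M := by
      rw [hi0, hi1]; push_cast; rw [Real.log_pow, Real.log_pow]; push_cast; ring
    rw [h2] at h1
    have h3 : 0 < kap / ((u:ℝ) + 1) := by positivity
    calc kap / 2 * Real.log M ≤ kap / (u + 1) * (u * Real.log M) := by
          rw [div_mul_eq_mul_div, div_mul_eq_mul_div, div_le_div_iff₀ (by norm_num) (by positivity)]
          have h4 : 0 < kap * Real.log M := by positivity
          nlinarith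
      _ ≤ _ := mul_le_mul_of_nonneg_left h1 h3.le
  set R1 := Real.exp (-(kap / (u + 1) * ∑ i ∈ Finset.Ico i0 i1, 1 / (i:ℝ))) *
      (((A1 (2 ^ Z) (L / 4 ^ i1) L).card : ℝ) / (Z * Real.log 2)) with hR1
  have hR1' : R1 ≤ 1 / 4 * (Y / (u * Z)) := by
    have h1 : Real.exp (-(kap / (u + 1) * ∑ i ∈ Finset.Ico i0 i1, 1 / (i:ℝ))) ≤ Real.exp (-(kap / 2 * Real.log M)) := by
      apply Real.exp_le_exp.mpr; linarith
    have hZl : 0 < Z * Real.log 2 := by positivity
    have h2 : ((A1 (2 ^ Z) (L / 4 ^ i1) L).card : ℝ) / (Z * Real.log 2) ≤ (C * (2 + 150 * CS) / Real.log 2) * (Y / (u * Z)) := by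
      calc _ ≤ (L * ((2 + 150 * CS) / u)) / (Z * Real.log 2) := div_le_div_of_nonneg_right hA1' hZl.le
        _ = _ := by rw [hLr]; field_simp
    calc R1 ≤ Real.exp (-(kap / 2 * Real.log M)) * ((C * (2 + 150 * CS) / Real.log 2) * (Y / (u * Z))) := by
          rw [hR1]
          exact mul_le_mul h1 h2 (by positivity) (Real.exp_pos _).le
      _ = (Real.exp (-(kap / 2 * Real.log M)) * (C * (2 + 150 * CS) / Real.log 2)) * (Y / (u * Z)) := by ring
      _ ≤ _ := mul_le_mul_of_nonneg_right hM (by positivity)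
  -- R2
  set R2 := ∑ i ∈ Finset.Ico i0 i1, (L:ℝ) * (C3 * (16 * i) / Z) * (4244 / 16 ^ i) with hR2
  have hR2' : R2 ≤ 1 / 4 * (Y / (u * Z)) := by
    have h1 : R2 = (L * C3 * 67904 / Z) * ∑ i ∈ Finset.Ico i0 i1, (i:ℝ) / 16 ^ i := by
      rw [hR2, Finset.mul_sum]
      apply Finset.sum_congr rfl
      intro i _
      ring
    have h2 := sum_geom_tail i0 i1
    have h3 : Real.exp u ≤ 4 ^ i0 := by
      calc Real.exp u = Real.exp 1 ^ u := by rw [← Real.exp_nat_mul]; simp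
        _ ≤ 4 ^ u := by
            apply pow_le_pow_left₀ (Real.exp_pos 1).le
            have := Real.exp_one_lt_d9; linarith
        _ ≤ 4 ^ i0 := pow_le_pow_right₀ (by norm_num) hui0.le
    have h4 : 2 / (4:ℝ) ^ i0 ≤ 2 * Real.exp (-(u:ℝ)) := by
      rw [Real.exp_neg, ← div_eq_mul_inv]
      exact div_le_div_of_nonneg_left (by norm_num) (Real.exp_pos _) h3
    have h5 : 0 ≤ L * C3 * 67904 / Z := by positivity
    calc R2 ≤ (L * C3 * 67904 / Z) * (2 * Real.exp (-(u:ℝ))) := by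
          rw [h1]; exact mul_le_mul_of_nonneg_left (h2.trans h4) h5
      _ = (C * C3 * 543232 * (u * Real.exp (-(u:ℝ)))) * (1 / 4 * (Y / (u * Z))) := by
          rw [hLr]; field_simp; ring
      _ ≤ 1 * (1 / 4 * (Y / (u * Z))) := mul_le_mul_of_nonneg_right hE2 (by positivity)
      _ = _ := one_mul _
  -- R3
  set R3 := 2 * (((A0 (2 ^ Z) (L / 4 ^ i1) L).card : ℝ) * (1 / (Z * Real.log 2) * (17 + 2 * Real.log Z))) with hR3
  have hR3' : R3 ≤ 1 / 4 * (Y / (u * Z)) := by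
    have h1 : 17 + 2 * Real.log Z ≤ 20 * i1 := by rw [hlogZ]; nlinarith
    have h2 : 0 ≤ 17 + 2 * Real.log Z := by have := Real.log_natCast_nonneg Z; linarith
    have h3 : 1 / (Z * Real.log 2) * (17 + 2 * Real.log Z) ≤ 30 * i1 / Z := by
      calc 1 / (Z * Real.log 2) * (17 + 2 * Real.log Z) ≤ 1 / (Z * Real.log 2) * (20 * i1) :=
            mul_le_mul_of_nonneg_left h1 (by positivity)
        _ = (20 / Real.log 2) * (i1 / Z) := by field_simp
        _ ≤ 30 * (i1 / Z) := by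
            apply mul_le_mul_of_nonneg_right _ (by positivity)
            rw [div_le_iff₀ (by linarith)]; linarith
        _ = _ := by ring
    have h4 : (i1:ℝ) * Real.exp (-(A * u)) = Real.exp (-(u:ℝ)) := by
      have e : (i1:ℝ) = Real.exp (2 * u * Real.log M) := by
        rw [hi1]; push_cast
        rw [← Real.rpow_natCast, Real.rpow_def_of_pos hM0]
        congr 1; push_cast; ring
      rw [e, ← Real.exp_add, hA]
      congr 1; ring
    have h5 : 24 * (i1:ℝ) / (u * Z) * (i1 * u * C) ≤ 1 / 1440 := by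
      have h6 : 24 * (i1:ℝ) / (u * Z) * (i1 * u * C) = 24 * (i1 * i1 * C) / Z := by field_simp
      rw [h6, div_le_iff₀ hZr]
      have h7 : (i1:ℝ) * i1 * C ≤ i1 ^ 3 := by
        calc (i1:ℝ) * i1 * C ≤ i1 * i1 * i1 := mul_le_mul_of_nonneg_left hi1Cr (by positivity)
          _ = _ := by ring
      linarith
    have h6 : ((A0 (2 ^ Z) (L / 4 ^ i1) L).card : ℝ) ≤ L * (CA * Real.exp (-(A * u)) + 24 * i1 / (u * Z)) := by
      apply hA0c.trans
      apply mul_le_mul_of_nonneg_left _ hLr0.le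
      linarith
    calc R3 ≤ 2 * ((L * (CA * Real.exp (-(A * u)) + 24 * i1 / (u * Z))) * (30 * i1 / Z)) := by
          rw [hR3]
          apply mul_le_mul_of_nonneg_left _ (by norm_num)
          exact mul_le_mul h6 h3 (mul_nonneg (by positivity) h2) (by positivity)
      _ = (240 * (C * CA * (u * (i1 * Real.exp (-(A * u))))) + 240 * (24 * i1 / (u * Z) * (i1 * u * C))) * (1 / 4 * (Y / (u * Z))) := by
          rw [hLr]; field_simp; ring
      _ = (240 * (C * CA * (u * Real.exp (-(u:ℝ)))) + 240 * (24 * i1 / (u * Z) * (i1 * u * C))) * (1 / 4 * (Y / (u * Z))) := by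
          rw [h4]
      _ ≤ 1 * (1 / 4 * (Y / (u * Z))) := by
          apply mul_le_mul_of_nonneg_right _ (by positivity)
          linarith
      _ = _ := one_mul _
  -- number of last primes
  have hlastcard : (Y:ℝ) / (u * Z) ≤ ((pr Y (4 * Y)).card : ℝ) := by
    have h1 := hch (4 * Y) (by
      have : u ≤ Y := by
        calc u ≤ u * Z := Nat.le_mul_of_pos_right _ (by omega)
          _ ≤ 2 ^ (u * Z) := Nat.lt_two_pow_self.le
      omega)
    have e : 4 * Y / 4 = Y := by omega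
    rw [e] at h1
    apply le_trans _ h1
    push_cast
    have h2 : Real.log (4 * (Y:ℝ)) = (u * Z + 2) * Real.log 2 := by
      rw [hY]; push_cast
      rw [show (4:ℝ) * 2 ^ (u * Z) = 2 ^ (u * Z + 2) by rw [pow_add]; ring, Real.log_pow]
      push_cast; ring
    rw [h2]
    have h3 : (9:ℝ) ≤ u * Z := by
      have : (3:ℝ) ≤ Z := by exact_mod_cast (by omega : 3 ≤ Z)
      nlinarith
    rw [div_le_div_iff₀ huZr (by positivity)]
    have h4 : ((u:ℝ) * Z + 2) * Real.log 2 ≤ 1.2 * (u * Z) := by nlinarith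
    nlinarith
  have hfin : (((U1 Z (L / 4 ^ i1) L ((Finset.Ico i0 i1).biUnion (Qs L)) a c).card +
      2 * (U0 Z (L / 4 ^ i1) L a).card : ℕ) : ℝ) ≤ ((pr Y (4 * Y)).card : ℝ) := by
    push_cast
    have hYZ : 0 ≤ (Y:ℝ) / (u * Z) := by positivity
    linarith
  have hfin' : (U1 Z (L / 4 ^ i1) L ((Finset.Ico i0 i1).biUnion (Qs L)) a c).card +
      2 * (U0 Z (L / 4 ^ i1) L a).card ≤ (pr Y (4 * Y)).card := by exact_mod_cast hfin
  have huY : u * Z < Y := Nat.lt_two_pow_self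
  have huuZ : u ≤ u * Z := Nat.le_mul_of_pos_right _ (by omega)
  have hcov := cover_of_good (Z := Z) (L := L) (i0 := i0) (i1 := i1) (Y := Y) (by
      apply le_trans _ hy1
      apply Nat.pow_le_pow_right (by norm_num)
      have : 3 * Z ≤ u * Z := Nat.mul_le_mul_right Z hu3
      omega) (by
      -- `C ≤ 4^{i0}`
      rw [hL]
      have h1 : C ≤ 4 ^ i0 := by
        calc C ≤ i0 := by omega
          _ ≤ 4 ^ i0 := (Nat.lt_pow_self (by norm_num)).le
      calc C * Y / 4 ^ i0 ≤ 4 ^ i0 * Y / 4 ^ i0 := Nat.div_le_div_right (Nat.mul_le_mul_right Y h1)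
        _ = Y := Nat.mul_div_cancel_left _ (by positivity)) hi01 (by omega) (by
      -- at least three primes
      have h1 : (3:ℝ) ≤ (Y:ℝ) / (u * Z) := by
        rw [le_div_iff₀ huZr]
        have h2 : ∀ n : ℕ, 9 ≤ n → 3 * n ≤ 2 ^ n := by
          intro n hn
          induction n, hn using Nat.le_induction with
          | base => norm_num
          | succ n hn ih => rw [pow_succ]; omega
        have h3 : 9 ≤ u * Z := by
          have : 3 * 3 ≤ u * Z := Nat.mul_le_mul hu3 (by omega)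
          omega
        have h5 := h2 _ h3
        rw [← hY] at h5
        exact_mod_cast h5
      have h2 := h1.trans hlastcard
      exact_mod_cast h2) a c hfin'
  obtain ⟨x, hx1, hx2, hx3⟩ := hcov
  refine ⟨Y, x, by omega, hx1, hx2, ?_⟩
  intro n hn1 hn2
  exact hx3 n hn1 (by rw [hL]; exact hn2)

end Pool.Agent.Helper52
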