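import Pool.Agent.Helper52.Moment

/-!
Single scale: tuples and their normalised indicators.
-/

set_option linter.unusedSectionVars false
set_option linter.unusedSimpArgs false

open Finset

namespace Pool.Agent.Helper52

open scoped Classical in
/-- those members of the progression `n + q h`, `1 ≤ h ≤ J`, lying in `T1` -/
noncomputable def tup (J : ℕ) (T1 : ℤ → Prop) (q : ℕ) (n : ℤ) : Finset ℤ :=
  ((Finset.Icc 1 J).image (fun h : ℕ => n + q * h)).filter T1

open scoped Classical in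
theorem tup_card_le (J : ℕ) (T1 : ℤ → Prop) (q : ℕ) (n : ℤ) : (tup J T1 q n).card ≤ J := by
  unfold tup
  apply (Finset.card_filter_le _ _).trans
  apply Finset.card_image_le.trans
  simp

open scoped Classical in
theorem mem_tup {J : ℕ} {T1 : ℤ → Prop} {q : ℕ} {n m : ℤ} :
    m ∈ tup J T1 q n ↔ (∃ h : ℕ, 1 ≤ h ∧ h ≤ J ∧ n + q * h = m) ∧ T1 m := by
  unfold tup
  rw [mem_filter, mem_image]
  constructor
  · rintro ⟨⟨h, hh, rfl⟩, ht⟩
    rw [mem_Icc] at hh
    exact ⟨⟨h, hh.1, hh.2, rfl⟩, ht⟩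
  · rintro ⟨⟨h, h1, h2, rfl⟩, ht⟩
    exact ⟨⟨h, mem_Icc.mpr ⟨h1, h2⟩, rfl⟩, ht⟩

variable {ι : Type*} [Fintype ι] [DecidableEq ι]

/-- normalised indicator that the whole tuple survives -/
noncomputable def X (p : ι → ℕ) (J : ℕ) (T1 : ℤ → Prop) (q : ℕ) (n : ℤ) (a : Om p) : ℝ :=
  ind p (tup J T1 q n) a / Qf p (tup J T1 q n).card

variable {p : ι → ℕ}

theorem Qf_pos {J k : ℕ} (hJ : ∀ i, J < p i) (hk : k ≤ J) : 0 < Qf p k := by
  unfold Qf
  apply Finset.prod_pos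
  intro i _
  have h1 : k < p i := lt_of_le_of_lt hk (hJ i)
  have hpi : (0:ℝ) < p i := by exact_mod_cast (Nat.zero_le k).trans_lt h1
  have : (k:ℝ) / (p i : ℝ) < 1 := by
    rw [div_lt_one hpi]; exact_mod_cast h1
  linarith

theorem Qf_le_one {J k : ℕ} (hJ : ∀ i, J < p i) (hk : k ≤ J) : Qf p k ≤ 1 := by
  unfold Qf
  apply Finset.prod_le_one
  · intro i _
    have h1 : k < p i := lt_of_le_of_lt hk (hJ i)
    have hpi : (0:ℝ) < p i := by exact_mod_cast (Nat.zero_le k).trans_lt h1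
    have : (k:ℝ) / (p i : ℝ) < 1 := by
      rw [div_lt_one hpi]; exact_mod_cast h1
    linarith
  · intro i _
    have : 0 ≤ (k:ℝ) / (p i : ℝ) := by positivity
    linarith

theorem Qf_anti {J k l : ℕ} (hJ : ∀ i, J < p i) (hk : k ≤ l) (hl : l ≤ J) : Qf p l ≤ Qf p k := by
  unfold Qf
  apply Finset.prod_le_prod
  · intro i _
    have h1 : l < p i := lt_of_le_of_lt hl (hJ i)
    have hpi : (0:ℝ) < p i := by exact_mod_cast (Nat.zero_le l).trans_lt h1
    have : (l:ℝ) / (p i : ℝ) < 1 := by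
      rw [div_lt_one hpi]; exact_mod_cast h1
    linarith
  · intro i _
    have h1 : l < p i := lt_of_le_of_lt hl (hJ i)
    have hpi : (0:ℝ) < p i := by exact_mod_cast (Nat.zero_le l).trans_lt h1
    have : (k:ℝ) / (p i : ℝ) ≤ (l:ℝ) / (p i : ℝ) :=
      div_le_div_of_nonneg_right (by exact_mod_cast hk) hpi.le
    linarith

theorem not_dvd_of_small {P q : ℕ} {h : ℤ} {J : ℕ} (hP : P.Prime) (hq : q.Prime) (hPq : P < q)
    (hJP : J < P) (h0 : h ≠ 0) (hJ : |h| ≤ J) : ¬ ((P : ℤ) ∣ q * h) := by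
  intro hd
  have hPp : Prime (P : ℤ) := Nat.prime_iff_prime_int.mp hP
  rcases hPp.dvd_or_dvd hd with h1 | h1
  · have h2 : P ∣ q := by exact_mod_cast h1
    rcases (Nat.dvd_prime hq).mp h2 with h3 | h3
    · exact hP.one_lt.ne' h3
    · omega
  · have h2 : (P : ℤ) ≤ |h| := Int.le_of_dvd (abs_pos.mpr h0) ((dvd_abs _ _).mpr h1)
    have : (J:ℤ) < P := by exact_mod_cast hJP
    linarith

theorem tup_inj {J : ℕ} {T1 : ℤ → Prop} {q : ℕ} (hpr : ∀ i, (p i).Prime) (hq : q.Prime)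
    (hpq : ∀ i, p i < q) (hJ : ∀ i, J < p i) (n : ℤ) : InjMod p (tup J T1 q n) := by
  intro i x hx y hy hd
  rw [mem_tup] at hx hy
  obtain ⟨⟨h, h1, h2, rfl⟩, _⟩ := hx
  obtain ⟨⟨h', h1', h2', rfl⟩, _⟩ := hy
  by_contra hne
  have hne' : (h:ℤ) - h' ≠ 0 := by
    intro h0
    apply hne
    have : (h:ℤ) = h' := by linarith
    rw [this]
  have e : n + (q:ℤ) * h - (n + q * h') = q * ((h:ℤ) - h') := by ring
  rw [e] at hd
  apply not_dvd_of_small (hpr i) hq (hpq i) (hJ i) hne' _ hd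
  rw [abs_le]
  constructor <;> omega

theorem X_nonneg {J : ℕ} {T1 : ℤ → Prop} {q : ℕ} (hJ : ∀ i, J < p i) (n : ℤ) (a : Om p) :
    0 ≤ X p J T1 q n a := by
  unfold X
  exact div_nonneg (ind_nonneg _ _) (Qf_pos hJ (tup_card_le _ _ _ _)).le

theorem E_X {J : ℕ} {T1 : ℤ → Prop} {q : ℕ} (hpr : ∀ i, (p i).Prime) (hq : q.Prime)
    (hpq : ∀ i, p i < q) (hJ : ∀ i, J < p i) (n : ℤ) : E p (X p J T1 q n) = 1 := by
  have h1 : E p (X p J T1 q n) = E p (ind p (tup J T1 q n)) / Qf p (tup J T1 q n).card := by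
    unfold X; exact E_div _ _
  rw [h1, E_ind_inj (fun i => (hpr i).pos) (tup_inj hpr hq hpq hJ n)]
  exact div_self (Qf_pos hJ (tup_card_le _ _ _ _)).ne'

theorem E_XX_eq {J : ℕ} {T1 : ℤ → Prop} {q q' : ℕ} (n n' : ℤ) :
    E p (fun a => X p J T1 q n a * X p J T1 q' n' a) =
      E p (ind p (tup J T1 q n ∪ tup J T1 q' n')) /
        (Qf p (tup J T1 q n).card * Qf p (tup J T1 q' n').card) := by
  have : (fun a => X p J T1 q n a * X p J T1 q' n' a) =
      fun a => ind p (tup J T1 q n ∪ tup J T1 q' n') a / (Qf p (tup J T1 q n).card * Qf p (tup J T1 q' n').card) := by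
    funext a
    unfold X
    rw [← ind_mul]
    rw [div_mul_div_comm]
  rw [this, E_div]

theorem E_XX_trivial {J : ℕ} {T1 : ℤ → Prop} {q q' : ℕ} (hpr : ∀ i, (p i).Prime) (hq : q.Prime)
    (hpq : ∀ i, p i < q) (hJ : ∀ i, J < p i) (n n' : ℤ) :
    E p (fun a => X p J T1 q n a * X p J T1 q' n' a) ≤ 1 / Qf p J := by
  rw [E_XX_eq]
  have h0 := Qf_pos hJ (tup_card_le J T1 q n)
  have h0' := Qf_pos hJ (tup_card_le J T1 q' n')
  have h1 : E p (ind p (tup J T1 q n ∪ tup J T1 q' n')) ≤ Qf p (tup J T1 q n).card := by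
    rw [← E_ind_inj (fun i => (hpr i).pos) (tup_inj hpr hq hpq hJ n)]
    exact E_mono fun a => ind_antitone Finset.subset_union_left a
  have h2 : Qf p J ≤ Qf p (tup J T1 q' n').card := Qf_anti hJ (tup_card_le _ _ _ _) le_rfl
  have h3 := Qf_pos (p := p) hJ le_rfl
  rw [div_le_div_iff₀ (by positivity) h3]
  calc _ ≤ Qf p (tup J T1 q n).card * Qf p J := mul_le_mul_of_nonneg_right h1 h3.le
    _ ≤ Qf p (tup J T1 q n).card * Qf p (tup J T1 q' n').card := mul_le_mul_of_nonneg_left h2 h0.le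
    _ = _ := by ring

/-- Jensen / AM-GM for the exponential -/
theorem exp_jensen {κ : Type*} (A : Finset κ) (g : κ → ℝ) (hA : A.Nonempty) :
    Real.exp (2 * ∑ x ∈ A, g x) ≤ (1 / (A.card : ℝ)) * ∑ x ∈ A, Real.exp (2 * (A.card : ℝ) * g x) := by
  have hK : (0:ℝ) < A.card := by exact_mod_cast Finset.card_pos.mpr hA
  have h := convexOn_exp.map_sum_le (t := A) (w := fun _ => 1 / (A.card : ℝ))
    (p := fun x => 2 * (A.card : ℝ) * g x) (fun i _ => by positivity)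
    (by rw [Finset.sum_const, nsmul_eq_mul]; field_simp) (fun i _ => Set.mem_univ _)
  simp only [smul_eq_mul] at h
  rw [← Finset.mul_sum, ← Finset.mul_sum] at h
  rw [← Finset.mul_sum] at h
  have e : 1 / (A.card : ℝ) * (2 * (A.card : ℝ) * ∑ x ∈ A, g x) = 2 * ∑ x ∈ A, g x := by
    field_simp
  rw [e] at h
  exact h

theorem E_XX_same {J : ℕ} {T1 : ℤ → Prop} {q : ℕ} (hJ1 : 1 ≤ J) (hpr : ∀ i, (p i).Prime) (hq : q.Prime)
    (hpq : ∀ i, p i < q) (hJ : ∀ i, 4 * J ≤ p i) (n n' : ℤ) :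
    E p (fun a => X p J T1 q n a * X p J T1 q n' a) ≤
      (1 / (J:ℝ) ^ 2) * ∑ x ∈ (Finset.Icc 1 J) ×ˢ (Finset.Icc 1 J),
        Phi p J (n - n' + q * ((x.1 : ℤ) - x.2)) := by
  have hJ' : ∀ i, J < p i := fun i => by have := hJ i; omega
  rw [E_XX_eq]
  have h0 := Qf_pos hJ' (tup_card_le J T1 q n)
  have h0' := Qf_pos hJ' (tup_card_le J T1 q n')
  rw [div_le_iff₀ (by positivity)]
  have h1 := pair1 (fun i => (hpr i).pos) hJ (tup_inj (T1 := T1) hpr hq hpq hJ' n)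
    (tup_inj (T1 := T1) hpr hq hpq hJ' n') (tup_card_le _ _ _ _) (tup_card_le _ _ _ _)
  apply h1.trans
  rw [mul_comm]
  apply mul_le_mul_of_nonneg_right _ (by positivity)
  set A := (Finset.Icc 1 J) ×ˢ (Finset.Icc 1 J) with hA
  have hAcard : A.card = J ^ 2 := by rw [hA, card_product]; simp; ring
  have hAne : A.Nonempty := by
    rw [← Finset.card_pos, hAcard]; positivity
  have h2 : ∑ x ∈ tup J T1 q n ×ˢ tup J T1 q n', G p (x.1 - x.2) ≤
      ∑ x ∈ A, G p (n - n' + q * ((x.1 : ℤ) - x.2)) := by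
    have hqz : (q:ℤ) ≠ 0 := by exact_mod_cast hq.ne_zero
    have e1 : ∑ x ∈ A, G p (n - n' + q * ((x.1 : ℤ) - x.2)) =
        ∑ y ∈ A.image (fun x : ℕ × ℕ => ((n + q * x.1, n' + q * x.2) : ℤ × ℤ)), G p (y.1 - y.2) := by
      rw [Finset.sum_image]
      · apply Finset.sum_congr rfl
        intro x _
        congr 1
        ring
      · intro x _ y _ hxy
        simp only [Prod.mk.injEq, add_right_inj, mul_eq_mul_left_iff] at hxy
        ext
        · have := hxy.1; simp [hqz] at this; omega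
        · have := hxy.2; simp [hqz] at this; omega
    rw [e1]
    apply Finset.sum_le_sum_of_subset_of_nonneg
    · intro y hy
      rw [mem_product, mem_tup, mem_tup] at hy
      obtain ⟨⟨⟨h, h1, h2, h3⟩, _⟩, ⟨⟨h', h1', h2', h3'⟩, _⟩⟩ := hy
      rw [mem_image]
      refine ⟨(h, h'), ?_, ?_⟩
      · rw [hA, mem_product, mem_Icc, mem_Icc]
        exact ⟨⟨h1, h2⟩, ⟨h1', h2'⟩⟩
      · ext
        · exact h3
        · exact h3'
    · intro y _ _
      exact G_nonneg _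
  have h3 := exp_jensen A (fun x => G p (n - n' + q * ((x.1 : ℤ) - x.2))) hAne
  calc Real.exp (2 * ∑ x ∈ tup J T1 q n ×ˢ tup J T1 q n', G p (x.1 - x.2)) ≤
        Real.exp (2 * ∑ x ∈ A, G p (n - n' + q * ((x.1 : ℤ) - x.2))) := by
          apply Real.exp_le_exp.mpr; linarith
    _ ≤ _ := h3
    _ = _ := by
      rw [hAcard]
      unfold Phi
      push_cast
      rfl

end Pool.Agent.Helper52
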