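import Pool.Agent.Helper52.Scale1

/-!
Single scale: second moments.
-/

set_option linter.unusedSectionVars false
set_option linter.unusedSimpArgs false

open Finset

namespace Pool.Agent.Helper52

variable {ι : Type*} [Fintype ι] [DecidableEq ι] {p : ι → ℕ}

theorem G_zero_of {P : ℤ} (h : ∀ i, ¬ ((p i : ℤ) ∣ P)) : G p P = 0 := by
  unfold G
  apply Finset.sum_eq_zero
  intro i _
  rw [if_neg (h i)]

theorem E_XX_cross {J : ℕ} {T1 : ℤ → Prop} {q q' : ℕ} (hJ1 : 1 ≤ J) (hpr : ∀ i, (p i).Prime)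
    (hq : q.Prime) (hq' : q'.Prime)
    (hpq : ∀ i, p i < q) (hpq' : ∀ i, p i < q') (hJ : ∀ i, 4 * J ≤ p i) {s : ℤ} (hs : T1 s)
    {h h' : ℕ} (hh : h ∈ Finset.Icc 1 J) (hh' : h' ∈ Finset.Icc 1 J) :
    Qf p 1 * E p (fun a => X p J T1 q (s - q * h) a * X p J T1 q' (s - q' * h') a) ≤
      (1 / (J:ℝ) ^ 2) * ∑ x ∈ (Finset.Icc 1 J) ×ˢ (Finset.Icc 1 J),
        (if x.1 ≠ h ∧ x.2 ≠ h' then Phi p J (q * ((x.1 : ℤ) - h) - q' * ((x.2 : ℤ) - h')) else 1) := by
  have hJ' : ∀ i, J < p i := fun i => by have := hJ i; omega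
  have hh1 := mem_Icc.mp hh
  have hh1' := mem_Icc.mp hh'
  rw [E_XX_eq]
  have h0 := Qf_pos hJ' (tup_card_le J T1 q (s - q * h))
  have h0' := Qf_pos hJ' (tup_card_le J T1 q' (s - q' * h'))
  rw [mul_div_assoc', div_le_iff₀ (by positivity)]
  have hmem : s ∈ tup J T1 q (s - q * h) := mem_tup.mpr ⟨⟨h, hh1.1, hh1.2, by ring⟩, hs⟩
  have hmem' : s ∈ tup J T1 q' (s - q' * h') := mem_tup.mpr ⟨⟨h', hh1'.1, hh1'.2, by ring⟩, hs⟩
  have h1 := pair2 (fun i => (hpr i).pos) hJ (tup_inj (T1 := T1) hpr hq hpq hJ' (s - q * h))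
    (tup_inj (T1 := T1) hpr hq' hpq' hJ' (s - q' * h')) (tup_card_le _ _ _ _) (tup_card_le _ _ _ _)
    hmem hmem'
  apply h1.trans
  rw [mul_comm]
  apply mul_le_mul_of_nonneg_right _ (by positivity)
  set A := (Finset.Icc 1 J) ×ˢ (Finset.Icc 1 J) with hA
  have hAcard : A.card = J ^ 2 := by rw [hA, card_product]; simp; ring
  have hAne : A.Nonempty := by
    rw [← Finset.card_pos, hAcard]; positivity
  have hhA : (h, h') ∈ A := by rw [hA, mem_product]; exact ⟨hh, hh'⟩
  set g : ℕ × ℕ → ℝ := fun x => if x.1 ≠ h ∧ x.2 ≠ h' then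
    G p (q * ((x.1 : ℤ) - h) - q' * ((x.2 : ℤ) - h')) else 0 with hg
  have hg0 : ∀ x, 0 ≤ g x := by
    intro x; rw [hg]; simp only; split_ifs
    · exact G_nonneg _
    · exact le_refl _
  have h2 : ∑ x ∈ (tup J T1 q (s - q * h) ×ˢ tup J T1 q' (s - q' * h')).erase (s, s), G p (x.1 - x.2) ≤
      ∑ x ∈ A, g x := by
    have hqz : (q:ℤ) ≠ 0 := by exact_mod_cast hq.ne_zero
    have hqz' : (q':ℤ) ≠ 0 := by exact_mod_cast hq'.ne_zero
    have e1 : ∑ x ∈ A.erase (h, h'), g x =
        ∑ y ∈ (A.erase (h, h')).image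
          (fun x : ℕ × ℕ => ((s - q * h + q * x.1, s - q' * h' + q' * x.2) : ℤ × ℤ)), G p (y.1 - y.2) := by
      rw [Finset.sum_image]
      · apply Finset.sum_congr rfl
        intro x hx
        rw [mem_erase, hA, mem_product, mem_Icc, mem_Icc] at hx
        obtain ⟨hx1, hx2, hx3⟩ := hx
        have e : s - (q:ℤ) * h + q * x.1 - (s - q' * h' + q' * x.2) =
          q * ((x.1 : ℤ) - h) - q' * ((x.2 : ℤ) - h') := by ring
        rw [e, hg]
        simp only
        split_ifs with hc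
        · rfl
        · symm
          apply G_zero_of
          intro i
          by_cases hc1 : x.1 = h
          · have hc2 : x.2 ≠ h' := by
              intro hc2; apply hx1; ext
              · exact hc1
              · exact hc2
            rw [hc1]
            have e2 : (q:ℤ) * ((h:ℤ) - h) - q' * ((x.2 : ℤ) - h') = -(q' * ((x.2 : ℤ) - h')) := by ring
            rw [e2, dvd_neg]
            apply not_dvd_of_small (hpr i) hq' (hpq' i) (hJ' i)
            · intro h5; apply hc2; omega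
            · rw [abs_le]; constructor <;> omega
          · have hc2 : x.2 = h' := by
              by_contra hc2; exact hc ⟨hc1, hc2⟩
            rw [hc2]
            have e2 : (q:ℤ) * ((x.1:ℤ) - h) - q' * ((h' : ℤ) - h') = q * ((x.1 : ℤ) - h) := by ring
            rw [e2]
            apply not_dvd_of_small (hpr i) hq (hpq i) (hJ' i)
            · intro h5; apply hc1; omega
            · rw [abs_le]; constructor <;> omega
      · intro x _ y _ hxy
        simp only [Prod.mk.injEq, add_right_inj, mul_eq_mul_left_iff] at hxy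
        ext
        · have := hxy.1; simp [hqz] at this; omega
        · have := hxy.2; simp [hqz'] at this; omega
    have e2 : ∑ x ∈ A.erase (h, h'), g x ≤ ∑ x ∈ A, g x :=
      Finset.sum_le_sum_of_subset_of_nonneg (Finset.erase_subset _ _) (fun x _ _ => hg0 x)
    apply le_trans _ e2
    rw [e1]
    apply Finset.sum_le_sum_of_subset_of_nonneg
    · intro y hy
      rw [mem_erase, mem_product, mem_tup, mem_tup] at hy
      obtain ⟨hne, ⟨⟨k, h1, h2, h3⟩, _⟩, ⟨⟨k', h1', h2', h3'⟩, _⟩⟩ := hy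
      rw [mem_image]
      refine ⟨(k, k'), ?_, ?_⟩
      · rw [mem_erase, hA, mem_product, mem_Icc, mem_Icc]
        refine ⟨?_, ⟨h1, h2⟩, ⟨h1', h2'⟩⟩
        intro hkk
        simp only [Prod.mk.injEq] at hkk
        apply hne
        ext
        · simp only
          rw [← h3, hkk.1]; ring
        · simp only
          rw [← h3', hkk.2]; ring
      · ext
        · exact h3
        · exact h3'
    · intro y _ _
      exact G_nonneg _
  have h3 := exp_jensen A g hAne
  calc Real.exp (2 * ∑ x ∈ (tup J T1 q (s - q * h) ×ˢ tup J T1 q' (s - q' * h')).erase (s, s), G p (x.1 - x.2))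
      ≤ Real.exp (2 * ∑ x ∈ A, g x) := by
          apply Real.exp_le_exp.mpr; linarith
    _ ≤ _ := h3
    _ = _ := by
      rw [hAcard]
      push_cast
      congr 1
      apply Finset.sum_congr rfl
      intro x _
      rw [hg]
      simp only
      split_ifs
      · unfold Phi; rfl
      · simp

/-- bound for products over a nonempty set `D` -/
theorem inv_le_prod_sqrt (hp : ∀ i, 0 < p i) (D : Finset ι) :
    1 / ((∏ i ∈ D, p i : ℕ) : ℝ) ≤ ∏ i ∈ D, (1 / √(p i : ℝ)) := by
  push_cast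
  rw [one_div, ← Finset.prod_inv_distrib]
  apply Finset.prod_le_prod
  · intro i _; positivity
  · intro i _
    have hpi : (1:ℝ) ≤ p i := by exact_mod_cast hp i
    rw [← one_div]
    apply one_div_le_one_div_of_le (Real.sqrt_pos.mpr (by linarith))
    rw [Real.sqrt_le_left (by linarith)]
    nlinarith

/-- second moment of the normalised number of surviving tuples along an interval -/
theorem NN_moment {J L : ℕ} {T1 : ℤ → Prop} {q : ℕ} (hJ4 : 4 ≤ J) (hpr : ∀ i, (p i).Prime)
    (hinj : Function.Injective p) (hq : q.Prime)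
    (hpq : ∀ i, p i < q) (hpJ : ∀ i, J ^ 8 < p i) (hqJ : q * J ≤ L)
    (hQ : (J:ℝ) ^ 4 ≤ Qf p J * L) :
    E p (fun a => (∑ n ∈ Finset.Ioc (-(L:ℤ)) L, X p J T1 q n a - 2 * L) ^ 2) ≤
      (2 * (L:ℝ)) ^ 2 * (49 / (J:ℝ) ^ 2) := by
  have hJ8 : ∀ i, 4 * J ≤ p i := by
    intro i
    have h1 := hpJ i
    have h2 : 4 * J ≤ J ^ 8 := by
      calc 4 * J ≤ J ^ 7 * J := by
            apply Nat.mul_le_mul_right
            calc 4 ≤ J := hJ4
              _ = J ^ 1 := by ring
              _ ≤ J ^ 7 := Nat.pow_le_pow_right (by omega) (by norm_num)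
        _ = J ^ 8 := by ring
    omega
  have hJ' : ∀ i, J < p i := fun i => by have := hJ8 i; omega
  set I := Finset.Ioc (-(L:ℤ)) L with hI
  have hIcard : (I.card : ℝ) = 2 * L := by
    rw [hI, Int.card_Ioc]
    have : ((L:ℤ) - -(L:ℤ)).toNat = 2 * L := by omega
    rw [this]; push_cast; ring
  have hJr : (4:ℝ) ≤ J := by exact_mod_cast hJ4
  have hQJ := Qf_pos (p := p) hJ' le_rfl
  have hL0 : (0:ℝ) ≤ L := Nat.cast_nonneg _
  -- mean
  have hmean : E p (fun a => ∑ n ∈ I, X p J T1 q n a) = 2 * L := by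
    rw [E_sum]
    rw [Finset.sum_congr rfl (fun n _ => E_X hpr hq hpq hJ' n)]
    rw [Finset.sum_const, nsmul_eq_mul, mul_one, hIcard]
  -- second moment
  have hsecond : E p (fun a => (∑ n ∈ I, X p J T1 q n a) * (∑ n ∈ I, X p J T1 q n a)) ≤
      (2 * (L:ℝ)) * ((J:ℝ) ^ 2 * (1 / Qf p J) + 2 * L * (1 + 3 * (16 / (J:ℝ) ^ 2))) := by
    have e1 : (fun a => (∑ n ∈ I, X p J T1 q n a) * (∑ n ∈ I, X p J T1 q n a)) =
        fun a => ∑ n ∈ I, ∑ n' ∈ I, X p J T1 q n a * X p J T1 q n' a := by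
      funext a; rw [Finset.sum_mul_sum]
    rw [e1, E_sum]
    have hn : ∀ n ∈ I, E p (fun a => ∑ n' ∈ I, X p J T1 q n a * X p J T1 q n' a) ≤
        (J:ℝ) ^ 2 * (1 / Qf p J) + 2 * L * (1 + 3 * (16 / (J:ℝ) ^ 2)) := by
      intro n hnI
      rw [hI, mem_Ioc] at hnI
      rw [E_sum]
      set A := (Finset.Icc 1 J) ×ˢ (Finset.Icc 1 J) with hA
      have hAcard : A.card = J ^ 2 := by rw [hA, card_product]; simp; ring
      rw [← Finset.sum_filter_add_sum_filter_not I
        (fun n' => ∃ x ∈ A, n - n' + q * ((x.1 : ℤ) - x.2) = 0)]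
      apply add_le_add
      · -- diagonal
        have hcard : (I.filter (fun n' => ∃ x ∈ A, n - n' + q * ((x.1 : ℤ) - x.2) = 0)).card ≤ J ^ 2 := by
          have hsub : I.filter (fun n' => ∃ x ∈ A, n - n' + q * ((x.1 : ℤ) - x.2) = 0) ⊆
              A.image (fun x : ℕ × ℕ => n + q * ((x.1 : ℤ) - x.2)) := by
            intro m hm
            rw [mem_filter] at hm
            obtain ⟨_, x, hx, hx2⟩ := hm
            rw [mem_image]
            exact ⟨x, hx, by linarith⟩
          rw [← hAcard]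
          exact (Finset.card_le_card hsub).trans Finset.card_image_le
        calc _ ≤ ∑ n' ∈ I.filter (fun n' => ∃ x ∈ A, n - n' + q * ((x.1 : ℤ) - x.2) = 0), 1 / Qf p J :=
              Finset.sum_le_sum fun n' _ => E_XX_trivial hpr hq hpq hJ' n n'
          _ = ((I.filter (fun n' => ∃ x ∈ A, n - n' + q * ((x.1 : ℤ) - x.2) = 0)).card : ℝ) * (1 / Qf p J) := by
              rw [Finset.sum_const, nsmul_eq_mul]
          _ ≤ _ := by
              apply mul_le_mul_of_nonneg_right _ (by positivity)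
              exact_mod_cast hcard
      · -- off-diagonal
        set R := I.filter (fun n' => ¬ ∃ x ∈ A, n - n' + q * ((x.1 : ℤ) - x.2) = 0) with hR
        have hRcard : (R.card : ℝ) ≤ 2 * L := by
          rw [← hIcard]
          exact_mod_cast Finset.card_filter_le _ _
        have hx : ∀ x ∈ A, ∑ n' ∈ R, Phi p J (n - n' + q * ((x.1 : ℤ) - x.2)) ≤
            2 * L * (1 + 3 * (16 / (J:ℝ) ^ 2)) := by
          intro x hxA
          have hxA' := hxA
          rw [hA, mem_product, mem_Icc, mem_Icc] at hxA'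
          apply moment R (fun n' => n - n' + q * ((x.1 : ℤ) - x.2)) hJ4 hinj hpJ (by norm_num)
            (by positivity) hRcard
          intro D hD
          set d := ∏ i ∈ D, p i with hd
          have hdpos : 0 < d := Finset.prod_pos fun i _ => (hpr i).pos
          have hsub : ((R.filter (fun n' => ∀ i ∈ D, (p i : ℤ) ∣ n - n' + q * ((x.1 : ℤ) - x.2))).image
              (fun n' => n - n' + q * ((x.1 : ℤ) - x.2))) ⊆
              (Finset.Icc (-((3 * L : ℕ):ℤ)) ((3 * L : ℕ))).filter (fun m => m ≠ 0 ∧ (d:ℤ) ∣ m) := by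
            intro m hm
            rw [mem_image] at hm
            obtain ⟨n', hn', rfl⟩ := hm
            rw [mem_filter, hR, mem_filter, hI, mem_Ioc] at hn'
            obtain ⟨⟨hn1, hn2⟩, hn3⟩ := hn'
            rw [mem_filter, mem_Icc]
            have hqJz : (q:ℤ) * J ≤ L := by exact_mod_cast hqJ
            have hb1 : (q:ℤ) * ((x.1 : ℤ) - x.2) ≤ L := by
              have : (x.1 : ℤ) - x.2 ≤ J := by omega
              nlinarith [Int.natCast_nonneg q]
            have hb2 : -(L:ℤ) ≤ (q:ℤ) * ((x.1 : ℤ) - x.2) := by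
              have : -(J:ℤ) ≤ (x.1 : ℤ) - x.2 := by omega
              nlinarith [Int.natCast_nonneg q]
            refine ⟨⟨?_, ?_⟩, ?_, ?_⟩
            · push_cast; linarith
            · push_cast; linarith
            · intro h0; exact hn2 ⟨x, hxA, h0⟩
            · exact prod_dvd_of hinj hpr hn3
          have hcard : (R.filter (fun n' => ∀ i ∈ D, (p i : ℤ) ∣ n - n' + q * ((x.1 : ℤ) - x.2))).card ≤
              2 * (3 * L / d) := by
            rw [← Finset.card_image_of_injective (f := fun n' : ℤ => n - n' + q * ((x.1 : ℤ) - x.2))]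
            · exact (Finset.card_le_card hsub).trans (count_mult _ _ hdpos)
            · intro u v huv
              simp only at huv
              linarith
          have hdr : (0:ℝ) < d := by exact_mod_cast hdpos
          calc ((R.filter (fun n' => ∀ i ∈ D, (p i : ℤ) ∣ n - n' + q * ((x.1 : ℤ) - x.2))).card : ℝ)
              ≤ ((2 * (3 * L / d) : ℕ) : ℝ) := by exact_mod_cast hcard
            _ = 2 * ((3 * L / d : ℕ) : ℝ) := by push_cast; ring
            _ ≤ 2 * ((3 * L : ℕ) / d : ℝ) := by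
                apply mul_le_mul_of_nonneg_left _ (by norm_num)
                exact Nat.cast_div_le
            _ = 3 * (2 * L) * (1 / (d:ℝ)) := by push_cast; ring
            _ ≤ 3 * (2 * L) * ∏ i ∈ D, (1 / √(p i : ℝ)) := by
                apply mul_le_mul_of_nonneg_left _ (by positivity)
                exact inv_le_prod_sqrt (fun i => (hpr i).pos) D
        calc ∑ n' ∈ R, E p (fun a => X p J T1 q n a * X p J T1 q n' a)
            ≤ ∑ n' ∈ R, (1 / (J:ℝ) ^ 2) * ∑ x ∈ A, Phi p J (n - n' + q * ((x.1 : ℤ) - x.2)) :=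
              Finset.sum_le_sum fun n' _ => E_XX_same (by omega) hpr hq hpq hJ8 n n'
          _ = (1 / (J:ℝ) ^ 2) * ∑ x ∈ A, ∑ n' ∈ R, Phi p J (n - n' + q * ((x.1 : ℤ) - x.2)) := by
              rw [← Finset.mul_sum, Finset.sum_comm]
          _ ≤ (1 / (J:ℝ) ^ 2) * ∑ x ∈ A, 2 * L * (1 + 3 * (16 / (J:ℝ) ^ 2)) := by
              apply mul_le_mul_of_nonneg_left _ (by positivity)
              exact Finset.sum_le_sum hx
          _ = _ := by
              rw [Finset.sum_const, hAcard, nsmul_eq_mul]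
              push_cast
              field_simp
    calc _ ≤ ∑ n ∈ I, ((J:ℝ) ^ 2 * (1 / Qf p J) + 2 * L * (1 + 3 * (16 / (J:ℝ) ^ 2))) :=
          Finset.sum_le_sum hn
      _ = _ := by rw [Finset.sum_const, nsmul_eq_mul, hIcard]
  have hexp : E p (fun a => (∑ n ∈ I, X p J T1 q n a - 2 * L) ^ 2) =
      E p (fun a => (∑ n ∈ I, X p J T1 q n a) * (∑ n ∈ I, X p J T1 q n a)) - (2 * L) ^ 2 := by
    have e : (fun a => (∑ n ∈ I, X p J T1 q n a - 2 * L) ^ 2) = fun a =>
        ((∑ n ∈ I, X p J T1 q n a) * (∑ n ∈ I, X p J T1 q n a) - 4 * L * (∑ n ∈ I, X p J T1 q n a)) + (2 * L) ^ 2 := by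
      funext a; ring
    rw [e, E_add, E_sub, E_mul_left, hmean, E_const (fun i => (hpr i).pos)]
    ring
  rw [hexp]
  have hQ2 : (J:ℝ) ^ 2 * (1 / Qf p J) ≤ L / (J:ℝ) ^ 2 := by
    rw [mul_one_div, div_le_div_iff₀ hQJ (by positivity)]
    calc (J:ℝ) ^ 2 * (J:ℝ) ^ 2 = (J:ℝ) ^ 4 := by ring
      _ ≤ Qf p J * L := hQ
      _ = _ := by ring
  have h5 : (2 * (L:ℝ)) * ((J:ℝ) ^ 2 * (1 / Qf p J) + 2 * L * (1 + 3 * (16 / (J:ℝ) ^ 2))) ≤
      (2 * (L:ℝ)) * (L / (J:ℝ) ^ 2 + 2 * L * (1 + 3 * (16 / (J:ℝ) ^ 2))) := by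
    apply mul_le_mul_of_nonneg_left _ (by positivity)
    linarith
  have h6 : (2 * (L:ℝ)) * (L / (J:ℝ) ^ 2 + 2 * L * (1 + 3 * (16 / (J:ℝ) ^ 2))) - (2 * L) ^ 2 =
      (2 * (L:ℝ)) ^ 2 * (48.5 / (J:ℝ) ^ 2) := by
    field_simp
    ring
  have h7 : (2 * (L:ℝ)) ^ 2 * (48.5 / (J:ℝ) ^ 2) ≤ (2 * (L:ℝ)) ^ 2 * (49 / (J:ℝ) ^ 2) := by
    apply mul_le_mul_of_nonneg_left _ (by positivity)
    apply div_le_div_of_nonneg_right (by norm_num) (by positivity)
  linarith

end Pool.Agent.Helper52
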