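import Pool.Agent.Helper52.Scale2

/-!
Single scale: second moment of the covering weight of a fixed point.
-/

set_option linter.unusedSectionVars false
set_option linter.unusedSimpArgs false

open Finset

namespace Pool.Agent.Helper52

variable {ι : Type*} [Fintype ι] [DecidableEq ι] {p : ι → ℕ}

theorem prod_inv_sqrt (D : Finset ι) :
    ∏ i ∈ D, (1 / √(p i : ℝ)) = 1 / √((∏ i ∈ D, p i : ℕ) : ℝ) := by
  induction D using Finset.induction_on with
  | empty => simp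
  | insert i D hi ih =>
    rw [Finset.prod_insert hi, ih, Finset.prod_insert hi]
    push_cast
    rw [Real.sqrt_mul (by positivity)]
    field_simp

/-- number of pairs of distinct primes with a given linear congruence -/
theorem pair_count {J L : ℕ} {Q : Finset ℕ} {C2 : ℝ} (hC2 : 0 ≤ C2) (hpr : ∀ i, (p i).Prime)
    (hinj : Function.Injective p) (hJ' : ∀ i, J < p i) (hpJ : ∀ i, J ^ 8 < p i)
    (hQpr : ∀ q ∈ Q, q.Prime) (hpq : ∀ q ∈ Q, ∀ i, p i < q) (hqJ : ∀ q ∈ Q, q * J ≤ L)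
    (hBT : ∀ d : ℕ, J ^ 8 < d → d ≤ 2 * L → ∀ q0 ∈ Q,
      ((Q.filter (fun q : ℕ => (d : ℤ) ∣ (q : ℤ) - (q0 : ℤ))).card : ℝ) ≤ C2 * Q.card / √(d : ℝ))
    {u v : ℤ} (hu : u ≠ 0) (hv : v ≠ 0) (hu' : |u| ≤ J) (hv' : |v| ≤ J) {D : Finset ι} (hD : D.Nonempty) :
    ((Q.offDiag.filter (fun x => ∀ i ∈ D, (p i : ℤ) ∣ x.1 * u - x.2 * v)).card : ℝ) ≤
      C2 * (Q.card : ℝ) ^ 2 * ∏ i ∈ D, (1 / √(p i : ℝ)) := by
  classical
  set d := ∏ i ∈ D, p i with hd
  have hdpos : 0 < d := Finset.prod_pos fun i _ => (hpr i).pos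
  obtain ⟨i0, hi0⟩ := hD
  have hJi0 := hJ' i0
  have hd8 : J ^ 8 < d := by
    apply lt_of_lt_of_le (hpJ i0)
    exact Nat.le_of_dvd hdpos (Finset.dvd_prod_of_mem _ hi0)
  rw [prod_inv_sqrt, ← hd]
  -- fibres
  set S : ℕ → Finset ℕ := fun q' => Q.filter (fun q => q ≠ q' ∧ ∀ i ∈ D, (p i : ℤ) ∣ q * u - q' * v) with hS
  have hsub : Q.offDiag.filter (fun x => ∀ i ∈ D, (p i : ℤ) ∣ x.1 * u - x.2 * v) ⊆
      Q.biUnion (fun q' => (S q').image (fun q => (q, q'))) := by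
    intro x hx
    rw [mem_filter, mem_offDiag] at hx
    obtain ⟨⟨h1, h2, h3⟩, h4⟩ := hx
    rw [mem_biUnion]
    refine ⟨x.2, h2, ?_⟩
    rw [mem_image]
    refine ⟨x.1, ?_, rfl⟩
    rw [hS, mem_filter]
    exact ⟨h1, h3, h4⟩
  have hfib : ∀ q' ∈ Q, ((S q').card : ℝ) ≤ C2 * Q.card / √(d : ℝ) := by
    intro q' hq'
    rcases Finset.eq_empty_or_nonempty (S q') with h0 | ⟨q0, hq0⟩
    · rw [h0]; simp; positivity
    · rw [hS, mem_filter] at hq0
      obtain ⟨hq0Q, hne, hdv⟩ := hq0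
      have hq0p := hQpr q0 hq0Q
      have hq'p := hQpr q' hq'
      have hJq0 : J < q0 := hJi0.trans (hpq q0 hq0Q i0)
      have hne0 : (q0:ℤ) * u - q' * v ≠ 0 := by
        intro h0
        have h1 : (q0:ℤ) * u = q' * v := by linarith
        have h2 : (q0:ℤ) ∣ q' * v := ⟨u, by linarith⟩
        have hp0 : Prime (q0 : ℤ) := Nat.prime_iff_prime_int.mp hq0p
        rcases hp0.dvd_or_dvd h2 with h3 | h3
        · have h4 : q0 ∣ q' := by exact_mod_cast h3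
          rcases (Nat.dvd_prime hq'p).mp h4 with h5 | h5
          · exact hq0p.one_lt.ne' h5
          · exact hne h5
        · have h4 : (q0 : ℤ) ≤ |v| := Int.le_of_dvd (abs_pos.mpr hv) ((dvd_abs _ _).mpr h3)
          have : (J:ℤ) < q0 := by exact_mod_cast hJq0
          linarith
      have hdz : (d:ℤ) ∣ (q0:ℤ) * u - q' * v := prod_dvd_of hinj hpr hdv
      have hdL : d ≤ 2 * L := by
        have h1 : (d:ℤ) ≤ |(q0:ℤ) * u - q' * v| := Int.le_of_dvd (abs_pos.mpr hne0) ((dvd_abs _ _).mpr hdz)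
        have h2 : |(q0:ℤ) * u - q' * v| ≤ |(q0:ℤ) * u| + |(q':ℤ) * v| := abs_sub _ _
        have h3 : |(q0:ℤ) * u| ≤ L := by
          rw [abs_mul, Nat.abs_cast]
          have : (q0:ℤ) * J ≤ L := by exact_mod_cast hqJ q0 hq0Q
          nlinarith [Int.natCast_nonneg q0]
        have h4 : |(q':ℤ) * v| ≤ L := by
          rw [abs_mul, Nat.abs_cast]
          have : (q':ℤ) * J ≤ L := by exact_mod_cast hqJ q' hq'
          nlinarith [Int.natCast_nonneg q']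
        have h5 : (d:ℤ) ≤ 2 * L := by linarith
        exact_mod_cast h5
      have h6 := hBT d hd8 hdL q0 hq0Q
      have h7 : (S q').card ≤ (Q.filter (fun q : ℕ => (d : ℤ) ∣ (q : ℤ) - (q0 : ℤ))).card := by
        apply Finset.card_le_card
        intro q hq
        rw [hS, mem_filter] at hq
        rw [mem_filter]
        refine ⟨hq.1, ?_⟩
        apply prod_dvd_of hinj hpr
        intro i hi
        have h8 : (p i : ℤ) ∣ ((q:ℤ) - q0) * u := by
          have := dvd_sub (hq.2.2 i hi) (hdv i hi)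
          have e : (q:ℤ) * u - q' * v - (q0 * u - q' * v) = ((q:ℤ) - q0) * u := by ring
          rwa [e] at this
        have hpp : Prime (p i : ℤ) := Nat.prime_iff_prime_int.mp (hpr i)
        rcases hpp.dvd_or_dvd h8 with h9 | h9
        · exact h9
        · exfalso
          have h10 : (p i : ℤ) ≤ |u| := Int.le_of_dvd (abs_pos.mpr hu) ((dvd_abs _ _).mpr h9)
          have : (J:ℤ) < p i := by exact_mod_cast hJ' i
          linarith
      calc ((S q').card : ℝ) ≤ ((Q.filter (fun q : ℕ => (d : ℤ) ∣ (q : ℤ) - (q0 : ℤ))).card : ℝ) := by exact_mod_cast h7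
        _ ≤ _ := h6
  calc ((Q.offDiag.filter (fun x => ∀ i ∈ D, (p i : ℤ) ∣ x.1 * u - x.2 * v)).card : ℝ)
      ≤ ((Q.biUnion (fun q' => (S q').image (fun q => (q, q')))).card : ℝ) := by
        exact_mod_cast Finset.card_le_card hsub
    _ ≤ ((∑ q' ∈ Q, ((S q').image (fun q => (q, q'))).card : ℕ) : ℝ) := by
        exact_mod_cast Finset.card_biUnion_le
    _ ≤ ∑ q' ∈ Q, ((S q').card : ℝ) := by
        push_cast
        apply Finset.sum_le_sum
        intro q' _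
        exact_mod_cast Finset.card_image_le
    _ ≤ ∑ q' ∈ Q, C2 * Q.card / √(d : ℝ) := Finset.sum_le_sum hfib
    _ = _ := by rw [Finset.sum_const, nsmul_eq_mul]; ring

/-- second moment of the total covering weight at a point `s ∈ T1` -/
theorem FF_moment {J L : ℕ} {T1 : ℤ → Prop} {Q : Finset ℕ} {C2 : ℝ} (hC2 : 0 ≤ C2) (hJ4 : 4 ≤ J)
    (hpr : ∀ i, (p i).Prime) (hinj : Function.Injective p) (hpJ : ∀ i, J ^ 8 < p i)
    (hQpr : ∀ q ∈ Q, q.Prime) (hpq : ∀ q ∈ Q, ∀ i, p i < q) (hqJ : ∀ q ∈ Q, q * J ≤ L)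
    (hBT : ∀ d : ℕ, J ^ 8 < d → d ≤ 2 * L → ∀ q0 ∈ Q,
      ((Q.filter (fun q : ℕ => (d : ℤ) ∣ (q : ℤ) - (q0 : ℤ))).card : ℝ) ≤ C2 * Q.card / √(d : ℝ))
    (hQQ : (J:ℝ) ^ 2 ≤ Qf p J * Q.card) {s : ℤ} (hs : T1 s) :
    Qf p 1 * E p (fun a => (∑ q ∈ Q, ∑ h ∈ Finset.Icc 1 J, X p J T1 q (s - q * h) a) ^ 2) ≤
      ((Q.card : ℝ) * J) ^ 2 * (1 + (16 * C2 + 1) / (J:ℝ) ^ 2) := by
  have hJ8 : ∀ i, 4 * J ≤ p i := by
    intro i
    have h1 := hpJ i
    have h2 : 4 * J ≤ J ^ 8 := by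
      calc 4 * J ≤ J ^ 7 * J := by
            apply Nat.mul_le_mul_right
            calc 4 ≤ J := hJ4
              _ = J ^ 1 := by ring
              _ ≤ J ^ 7 := Nat.pow_le_pow_right (by omega) (by norm_num)
        _ = J ^ 8 := by ring
    omega
  have hJ' : ∀ i, J < p i := fun i => by have := hJ8 i; omega
  have hJr : (4:ℝ) ≤ J := by exact_mod_cast hJ4
  have hQJ := Qf_pos (p := p) hJ' le_rfl
  have hQ1 := Qf_pos (p := p) hJ' (k := 1) (by omega)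
  have hQ1' := Qf_le_one (p := p) hJ' (k := 1) (by omega)
  set H := Finset.Icc 1 J with hH
  have hHcard : (H.card : ℝ) = J := by rw [hH]; simp
  set A := H ×ˢ H with hA
  have hAcard : (A.card : ℝ) = (J:ℝ) ^ 2 := by rw [hA, card_product]; push_cast; rw [hHcard]; ring
  have e1 : (fun a => (∑ q ∈ Q, ∑ h ∈ H, X p J T1 q (s - q * h) a) ^ 2) =
      fun a => ∑ x ∈ Q ×ˢ Q, ∑ y ∈ A, X p J T1 x.1 (s - x.1 * y.1) a * X p J T1 x.2 (s - x.2 * y.2) a := by
    funext a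
    rw [sq, Finset.sum_mul_sum, ← Finset.sum_product']
    apply Finset.sum_congr rfl
    intro x _
    rw [Finset.sum_mul_sum, ← Finset.sum_product']
  rw [e1, E_sum]
  have e2 : ∀ x : ℕ × ℕ, E p (fun a => ∑ y ∈ A, X p J T1 x.1 (s - x.1 * y.1) a * X p J T1 x.2 (s - x.2 * y.2) a) =
      ∑ y ∈ A, E p (fun a => X p J T1 x.1 (s - x.1 * y.1) a * X p J T1 x.2 (s - x.2 * y.2) a) := by
    intro x; rw [E_sum]
  simp only [e2]
  rw [← Finset.diag_union_offDiag Q, Finset.sum_union (Finset.disjoint_diag_offDiag Q), mul_add]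
  -- diagonal part
  have hdiag : Qf p 1 * ∑ x ∈ Q.diag, ∑ y ∈ A,
      E p (fun a => X p J T1 x.1 (s - x.1 * y.1) a * X p J T1 x.2 (s - x.2 * y.2) a) ≤
      ((Q.card : ℝ) * J) ^ 2 * (1 / (J:ℝ) ^ 2) := by
    have h1 : ∑ x ∈ Q.diag, ∑ y ∈ A,
        E p (fun a => X p J T1 x.1 (s - x.1 * y.1) a * X p J T1 x.2 (s - x.2 * y.2) a) ≤
        ∑ x ∈ Q.diag, ∑ y ∈ A, 1 / Qf p J := by
      apply Finset.sum_le_sum
      intro x hx
      rw [mem_diag] at hx
      apply Finset.sum_le_sum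
      intro y _
      exact E_XX_trivial (hpr) (hQpr _ hx.1) (hpq _ hx.1) hJ' _ _
    have h2 : ∑ x ∈ Q.diag, ∑ y ∈ A, 1 / Qf p J = (Q.card : ℝ) * ((J:ℝ) ^ 2 * (1 / Qf p J)) := by
      rw [Finset.sum_const, Finset.sum_const, Finset.diag_card, nsmul_eq_mul, nsmul_eq_mul, hAcard]
    have h3 : 0 ≤ ∑ x ∈ Q.diag, ∑ y ∈ A,
        E p (fun a => X p J T1 x.1 (s - x.1 * y.1) a * X p J T1 x.2 (s - x.2 * y.2) a) := by
      apply Finset.sum_nonneg; intro x _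
      apply Finset.sum_nonneg; intro y _
      apply E_nonneg; intro a
      exact mul_nonneg (X_nonneg hJ' _ _) (X_nonneg hJ' _ _)
    have h4 : (J:ℝ) ^ 2 * (1 / Qf p J) ≤ Q.card := by
      rw [mul_one_div, div_le_iff₀ hQJ]; linarith
    calc _ ≤ 1 * ∑ x ∈ Q.diag, ∑ y ∈ A,
        E p (fun a => X p J T1 x.1 (s - x.1 * y.1) a * X p J T1 x.2 (s - x.2 * y.2) a) :=
          mul_le_mul_of_nonneg_right hQ1' h3
      _ ≤ (Q.card : ℝ) * ((J:ℝ) ^ 2 * (1 / Qf p J)) := by rw [one_mul]; linarith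
      _ ≤ (Q.card : ℝ) * Q.card := mul_le_mul_of_nonneg_left h4 (Nat.cast_nonneg _)
      _ = _ := by field_simp
  -- off-diagonal part
  have hoff : Qf p 1 * ∑ x ∈ Q.offDiag, ∑ y ∈ A,
      E p (fun a => X p J T1 x.1 (s - x.1 * y.1) a * X p J T1 x.2 (s - x.2 * y.2) a) ≤
      ((Q.card : ℝ) * J) ^ 2 * (1 + 16 * C2 / (J:ℝ) ^ 2) := by
    have h1 : Qf p 1 * ∑ x ∈ Q.offDiag, ∑ y ∈ A,
        E p (fun a => X p J T1 x.1 (s - x.1 * y.1) a * X p J T1 x.2 (s - x.2 * y.2) a) ≤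
        ∑ x ∈ Q.offDiag, ∑ y ∈ A, (1 / (J:ℝ) ^ 2) * ∑ z ∈ A,
          (if z.1 ≠ y.1 ∧ z.2 ≠ y.2 then
            Phi p J (x.1 * ((z.1 : ℤ) - y.1) - x.2 * ((z.2 : ℤ) - y.2)) else 1) := by
      rw [Finset.mul_sum]
      apply Finset.sum_le_sum
      intro x hx
      rw [mem_offDiag] at hx
      rw [Finset.mul_sum]
      apply Finset.sum_le_sum
      intro y hy
      rw [hA, mem_product] at hy
      exact E_XX_cross (by omega) hpr (hQpr _ hx.1) (hQpr _ hx.2.1) (hpq _ hx.1) (hpq _ hx.2.1)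
        hJ8 hs hy.1 hy.2
    apply h1.trans
    have h2 : ∑ x ∈ Q.offDiag, ∑ y ∈ A, (1 / (J:ℝ) ^ 2) * ∑ z ∈ A,
          (if z.1 ≠ y.1 ∧ z.2 ≠ y.2 then
            Phi p J (x.1 * ((z.1 : ℤ) - y.1) - x.2 * ((z.2 : ℤ) - y.2)) else 1) =
        (1 / (J:ℝ) ^ 2) * ∑ y ∈ A, ∑ z ∈ A, ∑ x ∈ Q.offDiag,
          (if z.1 ≠ y.1 ∧ z.2 ≠ y.2 then
            Phi p J (x.1 * ((z.1 : ℤ) - y.1) - x.2 * ((z.2 : ℤ) - y.2)) else 1) := by
      rw [Finset.sum_comm, Finset.mul_sum]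
      apply Finset.sum_congr rfl
      intro y _
      rw [← Finset.mul_sum, Finset.sum_comm]
    rw [h2]
    have hoffcard : ((Q.offDiag).card : ℝ) ≤ (Q.card : ℝ) ^ 2 := by
      rw [Finset.offDiag_card]
      have : Q.card * Q.card - Q.card ≤ Q.card * Q.card := Nat.sub_le _ _
      calc ((Q.card * Q.card - Q.card : ℕ) : ℝ) ≤ ((Q.card * Q.card : ℕ) : ℝ) := by exact_mod_cast this
        _ = _ := by push_cast; ring
    have h3 : ∀ y ∈ A, ∀ z ∈ A, ∑ x ∈ Q.offDiag,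
          (if z.1 ≠ y.1 ∧ z.2 ≠ y.2 then
            Phi p J (x.1 * ((z.1 : ℤ) - y.1) - x.2 * ((z.2 : ℤ) - y.2)) else 1) ≤
          (Q.card : ℝ) ^ 2 * (1 + C2 * (16 / (J:ℝ) ^ 2)) := by
      intro y hy z hz
      rw [hA, mem_product, hH, mem_Icc, mem_Icc] at hy hz
      by_cases hc : z.1 ≠ y.1 ∧ z.2 ≠ y.2
      · simp only [hc, ne_eq, not_false_eq_true, and_self, if_true]
        apply moment Q.offDiag (fun x : ℕ × ℕ => (x.1:ℤ) * ((z.1 : ℤ) - y.1) - x.2 * ((z.2 : ℤ) - y.2))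
          hJ4 hinj hpJ hC2 (by positivity) hoffcard
        intro D hD
        apply pair_count hC2 hpr hinj hJ' hpJ hQpr hpq hqJ hBT _ _ _ _ hD
        · intro h0; apply hc.1; omega
        · intro h0; apply hc.2; omega
        · rw [abs_le]; constructor <;> omega
        · rw [abs_le]; constructor <;> omega
      · simp only [hc, if_false]
        rw [Finset.sum_const, nsmul_eq_mul, mul_one]
        apply hoffcard.trans
        have : 0 ≤ (Q.card : ℝ) ^ 2 * (C2 * (16 / (J:ℝ) ^ 2)) := by positivity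
        linarith
    calc _ ≤ (1 / (J:ℝ) ^ 2) * ∑ y ∈ A, ∑ z ∈ A, (Q.card : ℝ) ^ 2 * (1 + C2 * (16 / (J:ℝ) ^ 2)) := by
          apply mul_le_mul_of_nonneg_left _ (by positivity)
          exact Finset.sum_le_sum fun y hy => Finset.sum_le_sum fun z hz => h3 y hy z hz
      _ = _ := by
          rw [Finset.sum_const, Finset.sum_const, nsmul_eq_mul, nsmul_eq_mul, hAcard]
          field_simp
  calc _ ≤ ((Q.card : ℝ) * J) ^ 2 * (1 / (J:ℝ) ^ 2) + ((Q.card : ℝ) * J) ^ 2 * (1 + 16 * C2 / (J:ℝ) ^ 2) :=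
        add_le_add hdiag hoff
    _ = _ := by ring

end Pool.Agent.Helper52
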