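import Pool.Agent.Helper52.Scale3

/-!
Single scale lemma.
-/

set_option linter.unusedSectionVars false
set_option linter.unusedSimpArgs false

open Finset

namespace Pool.Agent.Helper52

variable {ι : Type*} [Fintype ι] [DecidableEq ι] {p : ι → ℕ}

open scoped Classical in
/-- The single scale lemma. -/
theorem scale_lemma {J L : ℕ} (T1 : ℤ → Prop) {Q : Finset ℕ} {C2 : ℝ} (hC2 : 0 ≤ C2) (hJ4 : 4 ≤ J)
    (hL : 0 < L)
    (hpr : ∀ i, (p i).Prime) (hinj : Function.Injective p) (hpJ : ∀ i, J ^ 8 < p i)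
    (hQpr : ∀ q ∈ Q, q.Prime) (hpq : ∀ q ∈ Q, ∀ i, p i < q) (hqJ : ∀ q ∈ Q, q * J ≤ L)
    (hBT : ∀ d : ℕ, J ^ 8 < d → d ≤ 2 * L → ∀ q0 ∈ Q,
      ((Q.filter (fun q : ℕ => (d : ℤ) ∣ (q : ℤ) - (q0 : ℤ))).card : ℝ) ≤ C2 * Q.card / √(d : ℝ))
    (hQQ : (J:ℝ) ^ 2 ≤ Qf p J * Q.card) (hQL : (J:ℝ) ^ 4 ≤ Qf p J * L) :
    ∃ w : Om p → ℕ → ℤ → ℝ, (∀ a q n, 0 ≤ w a q n) ∧
      (∀ a, ∀ q ∈ Q, ∑ n ∈ Finset.Ioc (-(L:ℤ)) L, w a q n ≤ 1) ∧
      E p (fun a => (((Finset.Icc (1:ℤ) L).filter (fun s => T1 s ∧ Avoid p a s ∧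
        ∑ q ∈ Q, ∑ n ∈ (Finset.Ioc (-(L:ℤ)) L).filter (fun n => (q:ℤ) ∣ s - n), w a q n <
          (Q.card : ℝ) * J / (16 * L * Qf p 1))).card : ℝ)) ≤
        L * Qf p 1 * ((64 * C2 + 788) / (J:ℝ) ^ 2) := by
  have hJ8 : ∀ i, 4 * J ≤ p i := by
    intro i
    have h1 := hpJ i
    have h2 : 4 * J ≤ J ^ 8 := by
      calc 4 * J ≤ J ^ 7 * J := by
            apply Nat.mul_le_mul_right
            calc 4 ≤ J := hJ4
              _ = J ^ 1 := by ring
              _ ≤ J ^ 7 := Nat.pow_le_pow_right (by omega) (by norm_num)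
        _ = J ^ 8 := by ring
    omega
  have hJ' : ∀ i, J < p i := fun i => by have := hJ8 i; omega
  have hJr : (4:ℝ) ≤ J := by exact_mod_cast hJ4
  have hQJ := Qf_pos (p := p) hJ' le_rfl
  have hQ1 := Qf_pos (p := p) hJ' (k := 1) (by omega)
  have hLr : (0:ℝ) < L := by exact_mod_cast hL
  have hQc : (0:ℝ) < Q.card := by
    by_contra h
    have h0 : (Q.card : ℝ) = 0 := le_antisymm (not_lt.mp h) (Nat.cast_nonneg _)
    rw [h0, mul_zero] at hQQ
    nlinarith
  set μ : ℝ := (Q.card : ℝ) * J / Qf p 1 with hμ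
  have hμ0 : 0 < μ := by rw [hμ]; positivity
  have hμQ : μ * Qf p 1 = (Q.card : ℝ) * J := by rw [hμ]; field_simp
  set I := Finset.Ioc (-(L:ℤ)) L with hI
  set NN : Om p → ℕ → ℝ := fun a q => ∑ n ∈ I, X p J T1 q n a with hNN
  set F : Om p → ℕ → ℤ → ℝ := fun a q s => ∑ h ∈ Finset.Icc 1 J, X p J T1 q (s - q * h) a with hF
  have hXn : ∀ q n a, 0 ≤ X p J T1 q n a := fun q n a => X_nonneg hJ' n a
  have hNN0 : ∀ a q, 0 ≤ NN a q := fun a q => Finset.sum_nonneg fun n _ => hXn _ _ _
  have hF0 : ∀ a q s, 0 ≤ F a q s := fun a q s => Finset.sum_nonneg fun n _ => hXn _ _ _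
  -- injection of `h ↦ s - q h` into `I`
  have hinI : ∀ q ∈ Q, ∀ s ∈ Finset.Icc (1:ℤ) L, ∀ h ∈ Finset.Icc 1 J, s - (q:ℤ) * h ∈ I := by
    intro q hq s hs h hh
    rw [mem_Icc] at hs hh
    rw [hI, mem_Ioc]
    have h1 : q * h ≤ L := (Nat.mul_le_mul_left q hh.2).trans (hqJ q hq)
    have h2 : (q:ℤ) * h ≤ L := by exact_mod_cast h1
    have h3 : (0:ℤ) ≤ (q:ℤ) * h := by positivity
    constructor <;> linarith
  refine ⟨fun a q n => X p J T1 q n a / NN a q, ?_, ?_, ?_⟩
  · intro a q n
    exact div_nonneg (hXn _ _ _) (hNN0 _ _)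
  · intro a q _
    rw [← Finset.sum_div]
    exact div_self_le_one _
  -- main estimate
  set c : ℝ := (16 * C2 + 1) / (J:ℝ) ^ 2 with hc
  have hc0 : 0 ≤ c := by rw [hc]; positivity
  set bad1 : Om p → ℤ → Prop := fun a s => Avoid p a s ∧ ∑ q ∈ Q, F a q s < μ / 2 with hbad1
  set bad2 : Om p → ℤ → Prop := fun a s => μ / 4 ≤ ∑ q ∈ Q.filter (fun q => 4 * (L:ℝ) < NN a q), F a q s with hbad2
  set V := (Finset.Icc (1:ℤ) L).filter T1 with hV
  have hVcard : (V.card : ℝ) ≤ L := by
    have h1 : V.card ≤ (Finset.Icc (1:ℤ) L).card := Finset.card_filter_le _ _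
    have h2 : (Finset.Icc (1:ℤ) L).card = L := by rw [Int.card_Icc]; omega
    rw [h2] at h1
    exact_mod_cast h1
  -- bad1
  have hb1 : ∀ s ∈ V, E p (fun a => if bad1 a s then (1:ℝ) else 0) ≤ 4 * Qf p 1 * c := by
    intro s hs
    rw [hV, mem_filter] at hs
    have hT : T1 s := hs.2
    set FF : Om p → ℝ := fun a => ∑ q ∈ Q, F a q s with hFF
    have hmeanF : E p FF = (Q.card : ℝ) * J := by
      rw [hFF, E_sum]
      have : ∀ q ∈ Q, E p (fun a => F a q s) = J := by
        intro q hq
        simp only [hF]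
        rw [E_sum, Finset.sum_congr rfl (fun h _ => E_X (hpr) (hQpr q hq) (hpq q hq) hJ' _)]
        simp
      rw [Finset.sum_congr rfl this, Finset.sum_const, nsmul_eq_mul]
    have hsecF : Qf p 1 * E p (fun a => FF a ^ 2) ≤ ((Q.card : ℝ) * J) ^ 2 * (1 + c) := by
      have := FF_moment hC2 hJ4 hpr hinj hpJ hQpr hpq hqJ hBT hQQ hT
      rw [hc]
      exact this
    have hinds : E p (ind p {s}) = Qf p 1 := by
      rw [E_ind_inj (fun i => (hpr i).pos)]
      · simp
      · intro i x hx y hy _
        rw [mem_singleton] at hx hy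
        rw [hx, hy]
    have hFind : ∀ a, FF a * ind p {s} a = FF a := by
      intro a
      by_cases hA : Avoid p a s
      · rw [ind_of_avoid (by intro n hn; rw [mem_singleton] at hn; rw [hn]; exact hA), mul_one]
      · have h0 : FF a = 0 := by
          rw [hFF]
          apply Finset.sum_eq_zero
          intro q hq
          simp only [hF]
          apply Finset.sum_eq_zero
          intro h hh
          unfold X
          rw [ind_of_not, zero_div]
          intro hall
          apply hA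
          apply hall
          rw [mem_tup]
          rw [mem_Icc] at hh
          exact ⟨⟨h, hh.1, hh.2, by ring⟩, hT⟩
        rw [h0, zero_mul]
    have hpt : ∀ a, (if bad1 a s then (1:ℝ) else 0) * (μ / 2) ^ 2 ≤
        (FF a ^ 2 - 2 * μ * FF a) + μ ^ 2 * ind p {s} a := by
      intro a
      by_cases hA : Avoid p a s
      · have hi : ind p {s} a = 1 := ind_of_avoid (by intro n hn; rw [mem_singleton] at hn; rw [hn]; exact hA)
        rw [hi]
        by_cases hb : bad1 a s
        · rw [if_pos hb]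
          have h2 : FF a < μ / 2 := hb.2
          nlinarith
        · rw [if_neg hb]
          nlinarith [sq_nonneg (FF a - μ)]
      · have hi : ind p {s} a = 0 := ind_of_not (by intro h; exact hA (h s (mem_singleton_self s)))
        have h0 : FF a = 0 := by have := hFind a; rw [hi, mul_zero] at this; exact this.symm
        have hb : ¬ bad1 a s := fun h => hA h.1
        rw [if_neg hb, hi, h0]
        simp
    have h3 := E_mono (p := p) hpt
    rw [E_mul_right, E_add, E_sub, E_mul_left, E_mul_left, hmeanF, hinds] at h3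
    have h4 : E p (fun a => FF a ^ 2) ≤ μ ^ 2 * Qf p 1 * (1 + c) := by
      have h5 : Qf p 1 * E p (fun a => FF a ^ 2) ≤ Qf p 1 * (μ ^ 2 * Qf p 1 * (1 + c)) := by
        calc _ ≤ _ := hsecF
          _ = _ := by rw [← hμQ]; ring
      exact le_of_mul_le_mul_left h5 hQ1
    have h5 : E p (fun a => if bad1 a s then (1:ℝ) else 0) * (μ / 2) ^ 2 ≤ (4 * Qf p 1 * c) * (μ / 2) ^ 2 := by
      calc _ ≤ _ := h3
        _ ≤ μ ^ 2 * Qf p 1 * (1 + c) - 2 * μ * ((Q.card : ℝ) * J) + μ ^ 2 * Qf p 1 := by linarith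
        _ = _ := by rw [← hμQ]; ring
    exact le_of_mul_le_mul_right h5 (by positivity)
  -- bad2
  have hb2 : E p (fun a => ((V.filter (fun s => bad2 a s)).card : ℝ)) ≤ L * Qf p 1 * (784 / (J:ℝ) ^ 2) := by
    have hpt : ∀ a, ((V.filter (fun s => bad2 a s)).card : ℝ) * (μ / 4) ≤
        ∑ q ∈ Q, (J:ℝ) / L * (NN a q - 2 * L) ^ 2 := by
      intro a
      set Qb := Q.filter (fun q => 4 * (L:ℝ) < NN a q) with hQb
      calc ((V.filter (fun s => bad2 a s)).card : ℝ) * (μ / 4)
          = ∑ s ∈ V.filter (fun s => bad2 a s), μ / 4 := by rw [Finset.sum_const, nsmul_eq_mul]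
        _ ≤ ∑ s ∈ V.filter (fun s => bad2 a s), ∑ q ∈ Qb, F a q s := by
            apply Finset.sum_le_sum
            intro s hs
            rw [mem_filter] at hs
            exact hs.2
        _ ≤ ∑ s ∈ Finset.Icc (1:ℤ) L, ∑ q ∈ Qb, F a q s := by
            apply Finset.sum_le_sum_of_subset_of_nonneg
            · intro s hs
              rw [mem_filter, hV, mem_filter] at hs
              exact hs.1.1
            · intro s _ _
              exact Finset.sum_nonneg fun q _ => hF0 _ _ _
        _ = ∑ q ∈ Qb, ∑ s ∈ Finset.Icc (1:ℤ) L, F a q s := Finset.sum_comm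
        _ ≤ ∑ q ∈ Qb, (J:ℝ) / L * (NN a q - 2 * L) ^ 2 := by
            apply Finset.sum_le_sum
            intro q hq
            rw [hQb, mem_filter] at hq
            have h1 : ∑ s ∈ Finset.Icc (1:ℤ) L, F a q s ≤ J * NN a q := by
              simp only [hF]
              rw [Finset.sum_comm]
              calc _ ≤ ∑ h ∈ Finset.Icc 1 J, NN a q := by
                    apply Finset.sum_le_sum
                    intro h hh
                    have e : ∑ s ∈ Finset.Icc (1:ℤ) L, X p J T1 q (s - q * h) a =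
                        ∑ n ∈ (Finset.Icc (1:ℤ) L).image (fun s => s - (q:ℤ) * h), X p J T1 q n a := by
                      rw [Finset.sum_image]
                      intro x _ y _ hxy
                      simp only at hxy
                      linarith
                    rw [e]
                    apply Finset.sum_le_sum_of_subset_of_nonneg
                    · intro n hn
                      rw [mem_image] at hn
                      obtain ⟨s, hs, rfl⟩ := hn
                      exact hinI q hq.1 s hs h hh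
                    · intro n _ _
                      exact hXn _ _ _
                _ = _ := by simp
            apply h1.trans
            have h2 := hq.2
            rw [div_mul_eq_mul_div, le_div_iff₀ hLr]
            have h3 : NN a q * L ≤ (NN a q - 2 * L) ^ 2 := by nlinarith
            have hJ0 : (0:ℝ) ≤ J := Nat.cast_nonneg _
            nlinarith
        _ ≤ _ := by
            apply Finset.sum_le_sum_of_subset_of_nonneg (Finset.filter_subset _ _)
            intro q _ _
            positivity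
    have h1 := E_mono (p := p) hpt
    rw [E_mul_right, E_sum] at h1
    have h2 : ∀ q ∈ Q, E p (fun a => (J:ℝ) / L * (NN a q - 2 * L) ^ 2) ≤ (J:ℝ) / L * ((2 * (L:ℝ)) ^ 2 * (49 / (J:ℝ) ^ 2)) := by
      intro q hq
      rw [E_mul_left]
      apply mul_le_mul_of_nonneg_left _ (by positivity)
      exact NN_moment hJ4 hpr hinj (hQpr q hq) (hpq q hq) hpJ (hqJ q hq) hQL
    have h3 := Finset.sum_le_sum h2
    rw [Finset.sum_const, nsmul_eq_mul] at h3
    have h4 : E p (fun a => ((V.filter (fun s => bad2 a s)).card : ℝ)) * (μ / 4) ≤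
        (L * Qf p 1 * (784 / (J:ℝ) ^ 2)) * (μ / 4) := by
      calc _ ≤ _ := h1
        _ ≤ _ := h3
        _ = ((Q.card : ℝ) * J) * (196 * L / (J:ℝ) ^ 2) := by field_simp; ring
        _ = _ := by rw [← hμQ]; field_simp; ring
    exact le_of_mul_le_mul_right h4 (by positivity)
  -- combine
  have hcomb : ∀ a, (((Finset.Icc (1:ℤ) L).filter (fun s => T1 s ∧ Avoid p a s ∧
        ∑ q ∈ Q, ∑ n ∈ I.filter (fun n => (q:ℤ) ∣ s - n), X p J T1 q n a / NN a q <
          (Q.card : ℝ) * J / (16 * L * Qf p 1))).card : ℝ) ≤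
        ∑ s ∈ V, (if bad1 a s then (1:ℝ) else 0) + ((V.filter (fun s => bad2 a s)).card : ℝ) := by
    intro a
    have hsub : (Finset.Icc (1:ℤ) L).filter (fun s => T1 s ∧ Avoid p a s ∧
        ∑ q ∈ Q, ∑ n ∈ I.filter (fun n => (q:ℤ) ∣ s - n), X p J T1 q n a / NN a q <
          (Q.card : ℝ) * J / (16 * L * Qf p 1)) ⊆ V.filter (fun s => bad1 a s) ∪ V.filter (fun s => bad2 a s) := by
      intro s hs
      rw [mem_filter] at hs
      obtain ⟨hsI, hT, hA, hlt⟩ := hs
      have hsV : s ∈ V := by rw [hV, mem_filter]; exact ⟨hsI, hT⟩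
      by_contra hcon
      have hn1 : ¬ bad1 a s := fun h => hcon (mem_union_left _ (mem_filter.mpr ⟨hsV, h⟩))
      have hn2 : ¬ bad2 a s := fun h => hcon (mem_union_right _ (mem_filter.mpr ⟨hsV, h⟩))
      have h1 : μ / 2 ≤ ∑ q ∈ Q, F a q s := by
        by_contra h; push Not at h
        exact hn1 ⟨hA, h⟩
      have h2 : ∑ q ∈ Q.filter (fun q => 4 * (L:ℝ) < NN a q), F a q s < μ / 4 := by
        by_contra h; push Not at h
        exact hn2 h
      rw [← Finset.sum_filter_add_sum_filter_not Q (fun q => 4 * (L:ℝ) < NN a q)] at h1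
      have h3 : μ / 4 ≤ ∑ q ∈ Q.filter (fun q => ¬ 4 * (L:ℝ) < NN a q), F a q s := by linarith
      have hr : ∀ q ∈ Q, F a q s / NN a q ≤
          ∑ n ∈ I.filter (fun n => (q:ℤ) ∣ s - n), X p J T1 q n a / NN a q := by
        intro q hq
        rw [← Finset.sum_div]
        apply div_le_div_of_nonneg_right _ (hNN0 _ _)
        have hqz : (q:ℤ) ≠ 0 := by exact_mod_cast (hQpr q hq).ne_zero
        have e : F a q s = ∑ n ∈ (Finset.Icc 1 J).image (fun h : ℕ => s - (q:ℤ) * h), X p J T1 q n a := by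
          rw [Finset.sum_image]
          intro x _ y _ hxy
          simp only at hxy
          have : (q:ℤ) * x = q * y := by linarith
          have := mul_left_cancel₀ hqz this
          exact_mod_cast this
        rw [e]
        apply Finset.sum_le_sum_of_subset_of_nonneg
        · intro n hn
          rw [mem_image] at hn
          obtain ⟨h, hh, rfl⟩ := hn
          rw [mem_filter]
          refine ⟨hinI q hq s hsI h hh, ?_⟩
          exact ⟨h, by ring⟩
        · intro n _ _
          exact hXn _ _ _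
      have hFN : ∀ q ∈ Q, F a q s ≤ NN a q := by
        intro q hq
        have hqz : (q:ℤ) ≠ 0 := by exact_mod_cast (hQpr q hq).ne_zero
        have e : F a q s = ∑ n ∈ (Finset.Icc 1 J).image (fun h : ℕ => s - (q:ℤ) * h), X p J T1 q n a := by
          rw [Finset.sum_image]
          intro x _ y _ hxy
          simp only at hxy
          have : (q:ℤ) * x = q * y := by linarith
          have := mul_left_cancel₀ hqz this
          exact_mod_cast this
        rw [e]
        apply Finset.sum_le_sum_of_subset_of_nonneg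
        · intro n hn
          rw [mem_image] at hn
          obtain ⟨h, hh, rfl⟩ := hn
          exact hinI q hq s hsI h hh
        · intro n _ _
          exact hXn _ _ _
      have h4 : ∀ q ∈ Q.filter (fun q => ¬ 4 * (L:ℝ) < NN a q), F a q s / (4 * L) ≤
          ∑ n ∈ I.filter (fun n => (q:ℤ) ∣ s - n), X p J T1 q n a / NN a q := by
        intro q hq
        rw [mem_filter] at hq
        apply le_trans _ (hr q hq.1)
        rcases (hNN0 a q).lt_or_eq with hpos | hzero
        · apply div_le_div_of_nonneg_left (hF0 _ _ _) hpos (not_lt.mp hq.2)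
        · have : F a q s = 0 := le_antisymm (by rw [hzero]; exact hFN q hq.1) (hF0 _ _ _)
          rw [this]; simp
      have h5 : μ / (16 * L) ≤ ∑ q ∈ Q, ∑ n ∈ I.filter (fun n => (q:ℤ) ∣ s - n), X p J T1 q n a / NN a q := by
        calc μ / (16 * L) = (μ / 4) / (4 * L) := by field_simp; ring
          _ ≤ (∑ q ∈ Q.filter (fun q => ¬ 4 * (L:ℝ) < NN a q), F a q s) / (4 * L) :=
              div_le_div_of_nonneg_right h3 (by positivity)
          _ = ∑ q ∈ Q.filter (fun q => ¬ 4 * (L:ℝ) < NN a q), F a q s / (4 * L) := by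
              rw [Finset.sum_div]
          _ ≤ ∑ q ∈ Q.filter (fun q => ¬ 4 * (L:ℝ) < NN a q),
              ∑ n ∈ I.filter (fun n => (q:ℤ) ∣ s - n), X p J T1 q n a / NN a q := Finset.sum_le_sum h4
          _ ≤ _ := by
              apply Finset.sum_le_sum_of_subset_of_nonneg (Finset.filter_subset _ _)
              intro q _ _
              exact Finset.sum_nonneg fun n _ => div_nonneg (hXn _ _ _) (hNN0 _ _)
      have h6 : μ / (16 * L) = (Q.card : ℝ) * J / (16 * L * Qf p 1) := by
        rw [hμ]; field_simp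
      linarith
    have h1 := Finset.card_le_card hsub
    have h2 := h1.trans (Finset.card_union_le _ _)
    have h3 : ((V.filter (fun s => bad1 a s)).card : ℝ) = ∑ s ∈ V, (if bad1 a s then (1:ℝ) else 0) := by
      rw [Finset.sum_boole]
    rw [← h3]
    exact_mod_cast h2
  have h1 := E_mono (p := p) hcomb
  rw [E_add, E_sum] at h1
  have h2 : ∑ s ∈ V, E p (fun a => if bad1 a s then (1:ℝ) else 0) ≤ L * (4 * Qf p 1 * c) := by
    calc _ ≤ ∑ s ∈ V, 4 * Qf p 1 * c := Finset.sum_le_sum hb1
      _ = V.card * (4 * Qf p 1 * c) := by rw [Finset.sum_const, nsmul_eq_mul]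
      _ ≤ _ := mul_le_mul_of_nonneg_right hVcard (by positivity)
  calc _ ≤ _ := h1
    _ ≤ L * (4 * Qf p 1 * c) + L * Qf p 1 * (784 / (J:ℝ) ^ 2) := add_le_add h2 hb2
    _ = _ := by rw [hc]; ring

end Pool.Agent.Helper52
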