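import Pool.Agent.Helper52.PrimeSums

/-!
Smooth numbers: a Rankin type bound.
-/

set_option linter.unusedSectionVars false
set_option linter.unusedSimpArgs false

open Finset

namespace Pool.Agent.Helper52

/-- multiplicative weight supported on the primes of `P` -/
noncomputable def gP (P : Finset ℕ) (r : ℕ → ℝ) (n : ℕ) : ℝ := ∏ q ∈ P, r q ^ (n.factorization q)

theorem gP_nonneg {P : Finset ℕ} {r : ℕ → ℝ} (hr : ∀ q ∈ P, 0 ≤ r q) (n : ℕ) : 0 ≤ gP P r n :=
  Finset.prod_nonneg fun q hq => pow_nonneg (hr q hq) _

theorem gP_mul_prime {P : Finset ℕ} {r : ℕ → ℝ} {q m : ℕ} (hq : q.Prime) (hqP : q ∉ P) (hm : m ≠ 0) :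
    gP P r (q * m) = gP P r m := by
  unfold gP
  apply Finset.prod_congr rfl
  intro l hl
  have hne : q ≠ l := by rintro rfl; exact hqP hl
  rw [Nat.factorization_mul hq.ne_zero hm, Finsupp.add_apply, hq.factorization,
    Finsupp.single_eq_of_ne hne.symm, zero_add]

theorem sum_dvd_eq (F : ℕ → ℝ) {q : ℕ} (hq : 0 < q) (x : ℕ) :
    ∑ n ∈ (Finset.Icc 1 x).filter (fun n => q ∣ n), F n = ∑ m ∈ Finset.Icc 1 (x / q), F (q * m) := by
  have h : (Finset.Icc 1 x).filter (fun n => q ∣ n) = (Finset.Icc 1 (x / q)).image (fun m => q * m) := by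
    ext n
    rw [mem_filter, mem_image, mem_Icc]
    constructor
    · rintro ⟨⟨h1, h2⟩, m, rfl⟩
      refine ⟨m, ?_, rfl⟩
      rw [mem_Icc]
      constructor
      · rcases Nat.eq_zero_or_pos m with h | h
        · rw [h] at h1; simp at h1
        · exact h
      · rw [Nat.le_div_iff_mul_le hq]; linarith
    · rintro ⟨m, hm, rfl⟩
      rw [mem_Icc, Nat.le_div_iff_mul_le hq] at hm
      exact ⟨⟨Nat.mul_pos hq hm.1, by linarith⟩, dvd_mul_right _ _⟩
  rw [h, Finset.sum_image]
  intro a _ b _ hab
  exact Nat.eq_of_mul_eq_mul_left hq hab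

theorem gP_sum_le (P : Finset ℕ) (r : ℕ → ℝ) (hP : ∀ q ∈ P, q.Prime) (hr1 : ∀ q ∈ P, 1 ≤ r q)
    (hr2 : ∀ q ∈ P, r q < q) :
    ∀ x : ℕ, ∑ n ∈ Finset.Icc 1 x, gP P r n ≤ x * ∏ q ∈ P, (1 + (r q - 1) / (q - r q)) := by
  induction P using Finset.induction_on with
  | empty =>
    intro x
    simp [gP]
  | insert q P hqP ih =>
    have ih' := ih (fun l hl => hP l (mem_insert_of_mem hl)) (fun l hl => hr1 l (mem_insert_of_mem hl))
      (fun l hl => hr2 l (mem_insert_of_mem hl))
    have hq := hP q (mem_insert_self _ _)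
    have hrq1 := hr1 q (mem_insert_self _ _)
    have hrq2 := hr2 q (mem_insert_self _ _)
    set C := ∏ l ∈ P, (1 + (r l - 1) / (l - r l)) with hC
    have hC0 : 0 ≤ C := by
      apply Finset.prod_nonneg
      intro l hl
      have h1 := hr1 l (mem_insert_of_mem hl)
      have h2 := hr2 l (mem_insert_of_mem hl)
      have : 0 ≤ (r l - 1) / (l - r l) := div_nonneg (by linarith) (by linarith)
      linarith
    set τ := (r q - 1) / (q - r q) with hτ
    have hqr : (0:ℝ) < q := by exact_mod_cast hq.pos
    have hqr2 : 0 < (q:ℝ) - r q := by linarith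
    have hτ0 : 0 ≤ τ := div_nonneg (by linarith) (by linarith)
    -- recursion for the excess
    have hT : ∀ x : ℕ, ∑ n ∈ Finset.Icc 1 x, (r q ^ (n.factorization q) - 1) * gP P r n ≤ C * τ * x := by
      intro x
      induction x using Nat.strong_induction_on with
      | _ x ihx =>
        rcases Nat.eq_zero_or_pos x with hx | hx
        · rw [hx]; simp
        · have h1 : ∑ n ∈ Finset.Icc 1 x, (r q ^ (n.factorization q) - 1) * gP P r n =
              ∑ n ∈ (Finset.Icc 1 x).filter (fun n => q ∣ n), (r q ^ (n.factorization q) - 1) * gP P r n := by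
            rw [Finset.sum_filter]
            apply Finset.sum_congr rfl
            intro n _
            split_ifs with hd
            · rfl
            · rw [Nat.factorization_eq_zero_of_not_dvd hd]; simp
          rw [h1, sum_dvd_eq _ hq.pos]
          have h2 : ∑ m ∈ Finset.Icc 1 (x / q), (r q ^ ((q * m).factorization q) - 1) * gP P r (q * m) =
              r q * ∑ m ∈ Finset.Icc 1 (x / q), (r q ^ (m.factorization q) - 1) * gP P r m +
              (r q - 1) * ∑ m ∈ Finset.Icc 1 (x / q), gP P r m := by
            rw [Finset.mul_sum, Finset.mul_sum, ← Finset.sum_add_distrib]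
            apply Finset.sum_congr rfl
            intro m hm
            rw [mem_Icc] at hm
            have hm0 : m ≠ 0 := by omega
            rw [gP_mul_prime hq hqP hm0, Nat.factorization_mul hq.ne_zero hm0, Finsupp.add_apply,
              hq.factorization, Finsupp.single_eq_same, pow_add, pow_one]
            ring
          rw [h2]
          have h3 := ihx (x / q) (Nat.div_lt_self hx hq.one_lt)
          have h4 := ih' (x / q)
          have h5 : ((x / q : ℕ) : ℝ) ≤ x / q := Nat.cast_div_le
          calc _ ≤ r q * (C * τ * ((x / q : ℕ) : ℝ)) + (r q - 1) * (((x / q : ℕ) : ℝ) * C) := by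
                apply add_le_add
                · exact mul_le_mul_of_nonneg_left h3 (by linarith)
                · exact mul_le_mul_of_nonneg_left h4 (by linarith)
            _ = (C * (r q * τ + (r q - 1))) * ((x / q : ℕ) : ℝ) := by ring
            _ ≤ (C * (r q * τ + (r q - 1))) * (x / q) := by
                apply mul_le_mul_of_nonneg_left h5
                apply mul_nonneg hC0
                have : 0 ≤ r q * τ := mul_nonneg (by linarith) hτ0
                linarith
            _ = C * τ * x := by
                rw [hτ]; field_simp; ring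
    intro x
    rw [Finset.prod_insert hqP]
    have h6 : ∑ n ∈ Finset.Icc 1 x, gP (insert q P) r n =
        ∑ n ∈ Finset.Icc 1 x, (r q ^ (n.factorization q) - 1) * gP P r n + ∑ n ∈ Finset.Icc 1 x, gP P r n := by
      rw [← Finset.sum_add_distrib]
      apply Finset.sum_congr rfl
      intro n _
      unfold gP
      rw [Finset.prod_insert hqP]
      ring
    rw [h6]
    calc _ ≤ C * τ * x + x * C := add_le_add (hT x) (ih' x)
      _ = _ := by ring

/-- Rankin type bound for smooth numbers, uniform in `x`. -/
theorem smooth_bound {A : ℝ} (hA : 0 ≤ A) {z : ℕ} (hz : 4 ≤ z) (hzA : 4 * A ≤ Real.log z) {x : ℕ} (hx : 1 ≤ x) :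
    (((Finset.Icc 1 x).filter (fun n : ℕ => ∀ q ∈ n.primeFactors, q ≤ z)).card : ℝ) ≤
      (1 + Real.exp (12 * Real.exp (2 * A))) * x * Real.exp (-(A * Real.log x / Real.log z)) := by
  have hzr : (4:ℝ) ≤ z := by exact_mod_cast hz
  have hlz4 : Real.log 4 ≤ Real.log z := Real.log_le_log (by norm_num) hzr
  have hl4 : 1 < Real.log 4 := by
    have : Real.log 4 = 2 * Real.log 2 := by
      rw [show (4:ℝ) = 2 ^ 2 by norm_num, Real.log_pow]; norm_num
    have := Real.log_two_gt_d9
    linarith
  have hlz : 0 < Real.log z := by linarith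
  have hxr : (1:ℝ) ≤ x := by exact_mod_cast hx
  have hlx : 0 ≤ Real.log x := Real.log_nonneg hxr
  set r : ℕ → ℝ := fun q => Real.exp (2 * A * Real.log q / Real.log z) with hr
  set P := pr 0 z with hP
  have hPpr : ∀ q ∈ P, q.Prime := fun q hq => (mem_pr.mp hq).2.2
  have hr1 : ∀ q ∈ P, 1 ≤ r q := by
    intro q hq
    apply Real.one_le_exp
    have := Real.log_natCast_nonneg q
    positivity
  have hr34 : ∀ q ∈ P, r q ≤ 3 / 4 * q := by
    intro q hq
    have hqp := hPpr q hq
    have hq2 : (2:ℝ) ≤ q := by exact_mod_cast hqp.two_le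
    have hlq : 0 ≤ Real.log q := Real.log_natCast_nonneg q
    have h1 : 2 * A * Real.log q / Real.log z ≤ Real.log q / 2 := by
      rw [div_le_iff₀ hlz]
      nlinarith
    have h2 : r q ≤ √(q:ℝ) := by
      calc r q ≤ Real.exp (Real.log q / 2) := Real.exp_le_exp.mpr h1
        _ = √(q:ℝ) := by
          rw [← Real.log_sqrt (by linarith), Real.exp_log (Real.sqrt_pos.mpr (by linarith))]
    apply h2.trans
    rw [Real.sqrt_le_left (by positivity)]
    nlinarith
  have hr2 : ∀ q ∈ P, r q < q := by
    intro q hq
    have hqp := hPpr q hq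
    have hq2 : (2:ℝ) ≤ q := by exact_mod_cast hqp.two_le
    have := hr34 q hq
    linarith
  have hsum := gP_sum_le P r hPpr hr1 hr2 x
  -- the product is bounded
  have hprod : ∏ q ∈ P, (1 + (r q - 1) / (q - r q)) ≤ Real.exp (12 * Real.exp (2 * A)) := by
    have h1 : ∀ q ∈ P, 1 + (r q - 1) / (q - r q) ≤
        Real.exp (4 * (Real.exp (2 * A)) / Real.log z * (Real.log q / q)) := by
      intro q hq
      have hqp := hPpr q hq
      have hq2 : (2:ℝ) ≤ q := by exact_mod_cast hqp.two_le
      have hqz : (q:ℝ) ≤ z := by exact_mod_cast (mem_pr.mp hq).2.1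
      have h34 := hr34 q hq
      have hq1 := hr1 q hq
      have hlq : 0 ≤ Real.log q := Real.log_natCast_nonneg q
      have ht : Real.log q / Real.log z ≤ 1 := by
        rw [div_le_one hlz]; exact Real.log_le_log (by linarith) hqz
      have ht0 : 0 ≤ Real.log q / Real.log z := by positivity
      have hconv : r q ≤ (1 - Real.log q / Real.log z) * 1 + (Real.log q / Real.log z) * Real.exp (2 * A) := by
        have := convexOn_exp.2 (Set.mem_univ (0:ℝ)) (Set.mem_univ (2 * A))
          (by linarith : 0 ≤ 1 - Real.log q / Real.log z) ht0 (by ring)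
        simp only [smul_eq_mul, mul_zero, zero_add, Real.exp_zero] at this
        calc r q = Real.exp (Real.log q / Real.log z * (2 * A)) := by rw [hr]; simp only; congr 1; ring
          _ ≤ _ := this
      have h5 : (r q - 1) / (q - r q) ≤ 4 * (Real.exp (2 * A)) / Real.log z * (Real.log q / q) := by
        have h6 : r q - 1 ≤ (Real.log q / Real.log z) * Real.exp (2 * A) := by
          nlinarith [Real.exp_pos (2 * A)]
        calc (r q - 1) / (q - r q) ≤ (r q - 1) / (q / 4) := by
              apply div_le_div_of_nonneg_left (by linarith) (by linarith) (by linarith)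
          _ ≤ ((Real.log q / Real.log z) * Real.exp (2 * A)) / (q / 4) := by
              apply div_le_div_of_nonneg_right h6 (by linarith)
          _ = _ := by field_simp
      have h7 := Real.add_one_le_exp (4 * (Real.exp (2 * A)) / Real.log z * (Real.log q / q))
      linarith
    calc _ ≤ ∏ q ∈ P, Real.exp (4 * (Real.exp (2 * A)) / Real.log z * (Real.log q / q)) := by
          apply Finset.prod_le_prod
          · intro q hq
            have h1 := hr1 q hq
            have h2 := hr2 q hq
            have : 0 ≤ (r q - 1) / (q - r q) := div_nonneg (by linarith) (by linarith)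
            linarith
          · exact h1
      _ = Real.exp (4 * (Real.exp (2 * A)) / Real.log z * ∑ q ∈ P, Real.log q / q) := by
          rw [← Real.exp_sum, Finset.mul_sum]
      _ ≤ Real.exp (12 * Real.exp (2 * A)) := by
          apply Real.exp_le_exp.mpr
          have h8 := mertens1 (n := z) (by omega)
          have h9 : ∑ q ∈ P, Real.log q / q ≤ 3 * Real.log z := by
            rw [hP]; linarith
          calc _ ≤ 4 * (Real.exp (2 * A)) / Real.log z * (3 * Real.log z) :=
                mul_le_mul_of_nonneg_left h9 (by positivity)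
            _ = _ := by field_simp; ring
  -- counting
  set F := (Finset.Icc 1 x).filter (fun n : ℕ => ∀ q ∈ n.primeFactors, q ≤ z) with hF
  set ε := Real.exp (-(A * Real.log x / Real.log z)) with hε
  have hεpos : 0 < ε := Real.exp_pos _
  have hg : ∀ n ∈ F, √(x:ℝ) < n → 1 ≤ ε * gP P r n := by
    intro n hn hnx
    rw [hF, mem_filter, mem_Icc] at hn
    obtain ⟨⟨hn1, hn2⟩, hsm⟩ := hn
    have hgn : gP P r n = Real.exp (2 * A / Real.log z * Real.log n) := by
      rw [Real.log_nat_eq_sum_factorization n, Finsupp.sum]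
      have hsub : n.factorization.support ⊆ P := by
        intro q hq
        rw [Nat.support_factorization, Nat.mem_primeFactors] at hq
        rw [hP, mem_pr]
        exact ⟨hq.1.pos, hsm q (Nat.mem_primeFactors.mpr hq), hq.1⟩
      rw [Finset.sum_subset hsub, Finset.mul_sum, Real.exp_sum]
      · unfold gP
        apply Finset.prod_congr rfl
        intro q _
        rw [hr]
        simp only
        rw [← Real.exp_nat_mul]
        congr 1
        ring
      · intro q _ hq
        rw [Finsupp.notMem_support_iff] at hq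
        rw [hq]; simp
    rw [hgn, hε, ← Real.exp_add]
    apply Real.one_le_exp
    have h1 : Real.log x / 2 ≤ Real.log n := by
      rw [← Real.log_sqrt (by linarith)]
      apply Real.log_le_log (Real.sqrt_pos.mpr (by linarith)) hnx.le
    have h2 : A * Real.log x / Real.log z ≤ 2 * A / Real.log z * Real.log n := by
      calc A * Real.log x / Real.log z = 2 * A / Real.log z * (Real.log x / 2) := by ring
        _ ≤ _ := mul_le_mul_of_nonneg_left h1 (by positivity)
    linarith
  have hsplit : (F.card : ℝ) ≤ √(x:ℝ) + ε * ∑ n ∈ Finset.Icc 1 x, gP P r n := by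
    rw [← Finset.card_filter_add_card_filter_not (s := F) (fun n : ℕ => (n:ℝ) ≤ √(x:ℝ))]
    push_cast
    apply add_le_add
    · have hsub : F.filter (fun n : ℕ => (n:ℝ) ≤ √(x:ℝ)) ⊆ Finset.Icc 1 ⌊√(x:ℝ)⌋₊ := by
        intro n hn
        rw [mem_filter, hF, mem_filter, mem_Icc] at hn
        rw [mem_Icc]
        exact ⟨hn.1.1.1, Nat.le_floor hn.2⟩
      have := Finset.card_le_card hsub
      rw [Nat.card_Icc] at this
      calc ((F.filter (fun n : ℕ => (n:ℝ) ≤ √(x:ℝ))).card : ℝ) ≤ ((⌊√(x:ℝ)⌋₊ : ℕ) : ℝ) := by
            exact_mod_cast (by omega : (F.filter (fun n : ℕ => (n:ℝ) ≤ √(x:ℝ))).card ≤ ⌊√(x:ℝ)⌋₊)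
        _ ≤ √(x:ℝ) := Nat.floor_le (Real.sqrt_nonneg _)
    · rw [Finset.mul_sum]
      calc ((F.filter (fun n : ℕ => ¬ (n:ℝ) ≤ √(x:ℝ))).card : ℝ)
          = ∑ n ∈ F.filter (fun n : ℕ => ¬ (n:ℝ) ≤ √(x:ℝ)), (1:ℝ) := by simp
        _ ≤ ∑ n ∈ F.filter (fun n : ℕ => ¬ (n:ℝ) ≤ √(x:ℝ)), ε * gP P r n := by
            apply Finset.sum_le_sum
            intro n hn
            rw [mem_filter] at hn
            exact hg n hn.1 (not_le.mp hn.2)
        _ ≤ ∑ n ∈ Finset.Icc 1 x, ε * gP P r n := by
            apply Finset.sum_le_sum_of_subset_of_nonneg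
            · intro n hn
              rw [mem_filter, hF, mem_filter] at hn
              exact hn.1.1
            · intro n _ _
              exact mul_nonneg hεpos.le (gP_nonneg (fun q hq => by have := hr1 q hq; linarith) n)
  have hsqrt : √(x:ℝ) ≤ x * ε := by
    have h1 : √(x:ℝ) = Real.exp (Real.log x / 2) := by
      rw [← Real.log_sqrt (by linarith), Real.exp_log (Real.sqrt_pos.mpr (by linarith))]
    have h2 : (x:ℝ) * ε = Real.exp (Real.log x + -(A * Real.log x / Real.log z)) := by
      rw [Real.exp_add, Real.exp_log (by linarith)]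
    rw [h1, h2]
    apply Real.exp_le_exp.mpr
    have h3 : A * Real.log x / Real.log z ≤ Real.log x / 4 := by
      rw [div_le_iff₀ hlz]; nlinarith
    linarith
  calc (F.card : ℝ) ≤ _ := hsplit
    _ ≤ x * ε + ε * (x * Real.exp (12 * Real.exp (2 * A))) := by
        apply add_le_add hsqrt
        apply mul_le_mul_of_nonneg_left _ hεpos.le
        apply hsum.trans
        exact mul_le_mul_of_nonneg_left hprod (by linarith)
    _ = _ := by ring

end Pool.Agent.Helper52
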