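import Mathlib

/-!
Subset sums in `ZMod q` cover everything, by characters.
-/

open Finset

namespace Pool.Agent.Helper52

theorem norm_one_add_char {q : ℕ} [NeZero q] (x : ZMod q) :
    ‖(1 : ℂ) + ZMod.stdAddChar x‖ ≤ 2 * Real.exp (-(2 * ((x.valMinAbs : ℝ) / q) ^ 2)) := by
  have hq : (0:ℝ) < q := by exact_mod_cast Nat.pos_of_ne_zero (NeZero.ne q)
  set v : ℤ := x.valMinAbs with hv
  have hx : ((v : ℤ) : ZMod q) = x := ZMod.coe_valMinAbs x
  set φ : ℝ := 2 * Real.pi * ((v : ℝ) / q) with hφ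
  have h1 : (ZMod.stdAddChar x : ℂ) = Complex.exp (φ * Complex.I) := by
    rw [← hx, ZMod.stdAddChar_coe]
    congr 1
    rw [hφ]
    push_cast
    ring
  have hvq : |(v : ℝ) / q| ≤ 1 / 2 := by
    have h2 : v.natAbs ≤ q / 2 := ZMod.natAbs_valMinAbs_le x
    have h3 : ((v.natAbs : ℕ) : ℝ) ≤ q / 2 := by
      have h4 : ((v.natAbs : ℕ) : ℝ) ≤ ((q / 2 : ℕ) : ℝ) := by exact_mod_cast h2
      have h5 : ((q / 2 : ℕ) : ℝ) ≤ (q : ℝ) / 2 := by
        have := Nat.cast_div_le (α := ℝ) (m := q) (n := 2)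
        simpa using this
      linarith
    have h6 : ((v.natAbs : ℕ) : ℝ) = |(v : ℝ)| := by
      rw [Nat.cast_natAbs]; push_cast; rfl
    rw [abs_div, abs_of_pos hq, div_le_iff₀ hq, ← h6]
    linarith
  have hφpi : |φ| ≤ Real.pi := by
    rw [hφ, abs_mul, abs_of_pos (by positivity : (0:ℝ) < 2 * Real.pi)]
    have := Real.pi_pos
    nlinarith
  have hcos := Real.cos_le_one_sub_mul_cos_sq hφpi
  have hsq : 2 / Real.pi ^ 2 * φ ^ 2 = 8 * ((v : ℝ) / q) ^ 2 := by
    rw [hφ]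
    have := Real.pi_pos
    field_simp
    ring
  rw [hsq] at hcos
  set w : ℝ := ((v : ℝ) / q) ^ 2 with hw
  have hnorm : ‖(1 : ℂ) + ZMod.stdAddChar x‖ ^ 2 = 2 + 2 * Real.cos φ := by
    rw [h1, Complex.exp_mul_I, Complex.sq_norm, Complex.normSq_apply]
    simp only [Complex.add_re, Complex.one_re, Complex.mul_re, Complex.I_re, Complex.I_im,
      Complex.add_im, Complex.one_im, Complex.mul_im, ← Complex.ofReal_cos, ← Complex.ofReal_sin,
      Complex.ofReal_re, Complex.ofReal_im]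
    have := Real.sin_sq_add_cos_sq φ
    nlinarith
  have hexp : 1 - 4 * w ≤ Real.exp (-(4 * w)) := by
    have := Real.add_one_le_exp (-(4 * w))
    linarith
  have h2 : ‖(1 : ℂ) + ZMod.stdAddChar x‖ ^ 2 ≤ (2 * Real.exp (-(2 * w))) ^ 2 := by
    rw [hnorm, mul_pow, ← Real.exp_nat_mul]
    have e : ((2 : ℕ) : ℝ) * (-(2 * w)) = -(4 * w) := by push_cast; ring
    rw [e]
    linarith
  exact le_of_sq_le_sq h2 (by positivity)

theorem addChar_sum {q : ℕ} [NeZero q] {ι : Type*} (χ : AddChar (ZMod q) ℂ) (S : Finset ι) (f : ι → ZMod q) :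
    χ (∑ i ∈ S, f i) = ∏ i ∈ S, χ (f i) := by
  classical
  induction S using Finset.induction_on with
  | empty => simp
  | insert a s ha ih => rw [Finset.sum_insert ha, Finset.prod_insert ha, AddChar.map_add_eq_mul, ih]

/-- If all the nontrivial characters have small products then all the residues are subset sums. -/
theorem fourier_cover {q : ℕ} [NeZero q] {ι : Type*} (T : Finset ι) (a : ι → ZMod q)
    (h : ∀ t : ZMod q, t ≠ 0 → ∏ i ∈ T, ‖(1 : ℂ) + ZMod.stdAddChar (t * a i)‖ < 2 ^ T.card / q)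
    (r : ZMod q) : ∃ S ⊆ T, ∑ i ∈ S, a i = r := by
  classical
  by_contra hcon
  push Not at hcon
  have hq : (0:ℝ) < q := by exact_mod_cast Nat.pos_of_ne_zero (NeZero.ne q)
  have hmain : ∑ t : ZMod q, ZMod.stdAddChar (t * (-r)) * ∏ i ∈ T, ((1 : ℂ) + ZMod.stdAddChar (t * a i)) = 0 := by
    have h1 : ∀ t : ZMod q, ZMod.stdAddChar (t * (-r)) * ∏ i ∈ T, ((1 : ℂ) + ZMod.stdAddChar (t * a i)) =
        ∑ S ∈ T.powerset, (ZMod.stdAddChar (t * ((∑ i ∈ S, a i) - r)) : ℂ) := by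
      intro t
      rw [Finset.prod_one_add, Finset.mul_sum]
      apply Finset.sum_congr rfl
      intro S _
      have h2 : ∏ i ∈ S, (ZMod.stdAddChar (t * a i) : ℂ) = ZMod.stdAddChar (∑ i ∈ S, t * a i) := by
        exact (addChar_sum _ _ _).symm
      rw [h2, ← AddChar.map_add_eq_mul]
      congr 1
      rw [← Finset.mul_sum]
      ring
    simp_rw [h1]
    rw [Finset.sum_comm]
    apply Finset.sum_eq_zero
    intro S hS
    rw [AddChar.sum_mulShift _ (ZMod.isPrimitive_stdAddChar q), if_neg]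
    · simp
    · intro h0
      exact hcon S (Finset.mem_powerset.mp hS) (sub_eq_zero.mp h0)
  rw [← Finset.add_sum_erase _ _ (Finset.mem_univ (0 : ZMod q))] at hmain
  have h0 : (ZMod.stdAddChar ((0 : ZMod q) * (-r)) : ℂ) * ∏ i ∈ T, ((1 : ℂ) + ZMod.stdAddChar ((0 : ZMod q) * a i)) = 2 ^ T.card := by
    simp only [zero_mul, AddChar.map_zero_eq_one, one_mul, Finset.prod_const]
    norm_num
  rw [h0] at hmain
  have h3 : (2:ℂ) ^ T.card = -∑ t ∈ Finset.univ.erase (0 : ZMod q), (ZMod.stdAddChar (t * (-r)) : ℂ) *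
      ∏ i ∈ T, ((1 : ℂ) + ZMod.stdAddChar (t * a i)) := by
    linear_combination hmain
  have h4 : (2:ℝ) ^ T.card ≤ ∑ t ∈ Finset.univ.erase (0 : ZMod q), ∏ i ∈ T, ‖(1 : ℂ) + ZMod.stdAddChar (t * a i)‖ := by
    have h5 : ‖(2:ℂ) ^ T.card‖ = 2 ^ T.card := by
      rw [norm_pow]; norm_num
    rw [← h5, h3, norm_neg]
    apply (norm_sum_le _ _).trans
    apply Finset.sum_le_sum
    intro t _
    rw [norm_mul, norm_prod]
    have h6 : ‖(ZMod.stdAddChar (t * (-r)) : ℂ)‖ = 1 := by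
      rw [ZMod.stdAddChar_apply]; exact Circle.norm_coe _
    rw [h6, one_mul]
  have h7 : ∑ t ∈ Finset.univ.erase (0 : ZMod q), ∏ i ∈ T, ‖(1 : ℂ) + ZMod.stdAddChar (t * a i)‖ ≤
      ∑ t ∈ Finset.univ.erase (0 : ZMod q), (2:ℝ) ^ T.card / q := by
    apply Finset.sum_le_sum
    intro t ht
    exact (h t (Finset.ne_of_mem_erase ht)).le
  rw [Finset.sum_const, Finset.card_erase_of_mem (Finset.mem_univ _), Finset.card_univ, ZMod.card, nsmul_eq_mul] at h7
  have h8 : ((q - 1 : ℕ) : ℝ) * (2 ^ T.card / q) < 2 ^ T.card := by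
    have h9 : ((q - 1 : ℕ) : ℝ) < q := by
      have : q - 1 < q := Nat.sub_lt (Nat.pos_of_ne_zero (NeZero.ne q)) one_pos
      exact_mod_cast this
    calc ((q - 1 : ℕ) : ℝ) * (2 ^ T.card / q) < q * (2 ^ T.card / q) :=
          mul_lt_mul_of_pos_right h9 (by positivity)
      _ = _ := by field_simp
  linarith

end Pool.Agent.Helper52
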