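import Pool.Agent.Helper52.UF1
import Pool.Agent.Helper52.WBT

/-!
Subset sums of inverses of few primes cover `ZMod q`.
-/

open Finset

namespace Pool.Agent.Helper52

theorem prime_divisors_bound {a : ℕ} (ha : a ≠ 0) {B e : ℕ} (hB : 1 < B) (F : Finset ℕ)
    (hF : ∀ l ∈ F, l.Prime ∧ B < l ∧ l ∣ a) (hle : a < B ^ e) : F.card < e := by
  have h1 : ∏ l ∈ F, l ∣ a := by
    apply Finset.prod_primes_dvd a
    · intro l hl; exact (hF l hl).1.prime
    · intro l hl; exact (hF l hl).2.2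
  have h2 : B ^ F.card ≤ ∏ l ∈ F, l := by
    rw [← Finset.prod_const]
    apply Finset.prod_le_prod'
    intro l hl
    exact (hF l hl).2.1.le
  have h3 : ∏ l ∈ F, l ≤ a := Nat.le_of_dvd (Nat.pos_of_ne_zero ha) h1
  have h4 : B ^ F.card < B ^ e := by omega
  exact (Nat.pow_lt_pow_iff_right hB).mp h4

theorem bad_card {q i h K : ℕ} [Fact q.Prime] (T : Finset ℕ)
    (hT : ∀ l ∈ T, l.Prime ∧ 16 ^ i / 4 < l ∧ l ≤ 16 ^ i) (hq1 : 16 ^ i ≤ q)
    (hq2 : q ≤ 16 ^ (h * i)) (t : ZMod q) (ht : t ≠ 0) (hi : 2 ≤ i) (hK : 1 ≤ K) :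
    (T.filter (fun l : ℕ => (t * (l : ZMod q)⁻¹).valMinAbs.natAbs * (K * 2 ^ i) < q)).card ≤
      (2 * (8 ^ i / K + 1) + 1) * (2 * h + 2) := by
  have hqp : q.Prime := Fact.out
  set J : ℕ := 8 ^ i / K + 1 with hJ
  have htv : t.val ≠ 0 := by
    rw [Ne, ZMod.val_eq_zero]; exact ht
  have htq : t.val < q := ZMod.val_lt t
  have h16 : 16 ^ i = 2 ^ i * 8 ^ i := by rw [← mul_pow]; norm_num
  have hsub : T.filter (fun l : ℕ => (t * (l : ZMod q)⁻¹).valMinAbs.natAbs * (K * 2 ^ i) < q) ⊆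
      (Finset.Icc (-(J:ℤ)) J).biUnion (fun j => T.filter (fun l : ℕ => l ∣ ((t.val : ℤ) + j * q).natAbs)) := by
    intro l hl
    rw [mem_filter] at hl
    obtain ⟨hlT, hlt⟩ := hl
    obtain ⟨hlp, hl1, hl2⟩ := hT l hlT
    have hlq : l ≠ q := by
      intro h0
      have h1 : l = 16 ^ i := by omega
      have h2 : ¬ (16 ^ i).Prime := by
        intro h3
        have h5 := Nat.Prime.eq_one_of_pow (x := 16) (n := i) h3
        omega
      exact h2 (h1 ▸ hlp)
    have hl0 : ((l : ℕ) : ZMod q) ≠ 0 := by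
      intro h0
      rw [ZMod.natCast_eq_zero_iff] at h0
      rcases (Nat.dvd_prime hlp).mp h0 with h1 | h1
      · exact hqp.one_lt.ne' h1
      · exact hlq h1.symm
    set v : ℤ := (t * (l : ZMod q)⁻¹).valMinAbs with hv
    have hvc : ((v : ℤ) : ZMod q) = t * (l : ZMod q)⁻¹ := ZMod.coe_valMinAbs _
    have hvl : ((v * l - t.val : ℤ) : ZMod q) = 0 := by
      push_cast
      rw [hvc, mul_assoc, inv_mul_cancel₀ hl0, mul_one, ZMod.natCast_zmod_val, sub_self]
    rw [ZMod.intCast_zmod_eq_zero_iff_dvd] at hvl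
    obtain ⟨j, hj⟩ := hvl
    rw [mem_biUnion]
    refine ⟨j, ?_, ?_⟩
    · have hq0 : (0:ℤ) < q := by exact_mod_cast hqp.pos
      have hK0 : (0:ℤ) < K := by exact_mod_cast hK
      have h1 : (q:ℤ) * |j| ≤ |v| * l + t.val := by
        calc (q:ℤ) * |j| = |(q:ℤ) * j| := by rw [abs_mul, abs_of_pos hq0]
          _ = |v * l - t.val| := by rw [hj]
          _ ≤ |v * l| + |(t.val : ℤ)| := abs_sub _ _
          _ = |v| * l + t.val := by rw [abs_mul, Nat.abs_cast, Nat.abs_cast]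
      have h2 : |v| * (K * 2 ^ i) < q := by
        have : ((v.natAbs * (K * 2 ^ i) : ℕ) : ℤ) < (q : ℤ) := by exact_mod_cast hlt
        push_cast at this
        exact this
      have h3 : |v| * l ≤ |v| * (2 ^ i * 8 ^ i) := by
        apply mul_le_mul_of_nonneg_left _ (abs_nonneg v)
        rw [h16] at hl2
        exact_mod_cast hl2
      have h8 : (0:ℤ) < 8 ^ i := by positivity
      have h4 : (K:ℤ) * (|v| * l) ≤ q * 8 ^ i := by
        calc (K:ℤ) * (|v| * l) ≤ K * (|v| * (2 ^ i * 8 ^ i)) := mul_le_mul_of_nonneg_left h3 hK0.le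
          _ = (|v| * (K * 2 ^ i)) * 8 ^ i := by ring
          _ ≤ q * 8 ^ i := mul_le_mul_of_nonneg_right h2.le h8.le
      have h5 : (K:ℤ) * t.val < K * q := by
        apply mul_lt_mul_of_pos_left _ hK0
        exact_mod_cast htq
      have h6 : (q:ℤ) * (|j| * K) < q * (8 ^ i + K) := by
        calc (q:ℤ) * (|j| * K) = K * (q * |j|) := by ring
          _ ≤ K * (|v| * l + t.val) := mul_le_mul_of_nonneg_left h1 hK0.le
          _ = K * (|v| * l) + K * t.val := by ring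
          _ < q * 8 ^ i + K * q := by linarith
          _ = _ := by ring
      have h7 : |j| * K < 8 ^ i + K := lt_of_mul_lt_mul_left h6 hq0.le
      have h9 : j.natAbs * K < 8 ^ i + K := by
        have : ((j.natAbs * K : ℕ) : ℤ) < ((8 ^ i + K : ℕ) : ℤ) := by
          push_cast; exact h7
        exact_mod_cast this
      have h10 : j.natAbs ≤ J := by
        rw [hJ]
        have h11 : 8 ^ i < (8 ^ i / K + 1) * K := by
          have := Nat.lt_div_mul_add (a := 8 ^ i) (b := K) (by omega)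
          linarith
        have h12 : j.natAbs * K < (8 ^ i / K + 2) * K := by nlinarith
        have h13 := Nat.lt_of_mul_lt_mul_right h12
        omega
      rw [mem_Icc]
      omega
    · rw [mem_filter]
      refine ⟨hlT, ?_⟩
      have h1 : (t.val : ℤ) + j * q = v * l := by linarith
      rw [h1, Int.natAbs_mul, Int.natAbs_natCast]
      exact Dvd.intro_left _ rfl
  apply (Finset.card_le_card hsub).trans
  apply Finset.card_biUnion_le.trans
  have hcard : (Finset.Icc (-(J:ℤ)) J).card = 2 * J + 1 := by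
    rw [Int.card_Icc]; omega
  have hJle : J + 1 ≤ 16 ^ i := by
    have h1 : 8 ^ i / K ≤ 8 ^ i := Nat.div_le_self _ _
    have h2 : 4 ≤ 2 ^ i := by
      calc 4 = 2 ^ 2 := by norm_num
        _ ≤ 2 ^ i := Nat.pow_le_pow_right (by norm_num) hi
    have h3 : 64 ≤ 8 ^ i := by
      calc 64 = 8 ^ 2 := by norm_num
        _ ≤ 8 ^ i := Nat.pow_le_pow_right (by norm_num) hi
    rw [h16, hJ]
    nlinarith
  calc ∑ j ∈ Finset.Icc (-(J:ℤ)) J, (T.filter (fun l : ℕ => l ∣ ((t.val : ℤ) + j * q).natAbs)).card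
      ≤ ∑ j ∈ Finset.Icc (-(J:ℤ)) J, (2 * h + 2) := by
        apply Finset.sum_le_sum
        intro j hj
        rw [mem_Icc] at hj
        have ha : ((t.val : ℤ) + j * q).natAbs ≠ 0 := by
          rw [Int.natAbs_ne_zero]
          intro h0
          have h1 : (q : ℤ) ∣ t.val := ⟨-j, by linarith⟩
          have h2 : q ∣ t.val := by exact_mod_cast h1
          have h3 := Nat.le_of_dvd (Nat.pos_of_ne_zero htv) h2
          omega
        have hB : 1 < 4 ^ (2 * i - 1) := Nat.one_lt_pow (by omega) (by norm_num)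
        have hBe : 16 ^ i / 4 = 4 ^ (2 * i - 1) := by
          have : 16 ^ i = 4 ^ (2 * i - 1) * 4 := by
            rw [← pow_succ, show 2 * i - 1 + 1 = 2 * i by omega, pow_mul]; norm_num
          rw [this, Nat.mul_div_cancel _ (by norm_num)]
        have hlt : ((t.val : ℤ) + j * q).natAbs < (4 ^ (2 * i - 1)) ^ (2 * h + 3) := by
          have h1 : ((t.val : ℤ) + j * q).natAbs ≤ q * (J + 1) := by
            have h2 : |(t.val : ℤ) + j * q| ≤ q * (J + 1) := by
              have hq0 : (0:ℤ) < q := by exact_mod_cast hqp.pos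
              have h4 : (t.val : ℤ) < q := by exact_mod_cast htq
              have h5 : (0:ℤ) ≤ t.val := by positivity
              rw [abs_le]
              constructor
              · nlinarith [hj.1]
              · nlinarith [hj.2]
            have h3 : ((((t.val : ℤ) + j * q).natAbs : ℕ) : ℤ) ≤ ((q * (J + 1) : ℕ) : ℤ) := by
              rw [Int.natCast_natAbs]; push_cast; exact h2
            exact_mod_cast h3
          have h4 : q * (J + 1) ≤ 16 ^ (h * i) * 16 ^ i := Nat.mul_le_mul hq2 hJle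
          have h5 : 16 ^ (h * i) * 16 ^ i = 4 ^ (2 * (h * i + i)) := by
            rw [← pow_add, pow_mul]; norm_num
          have h6 : 4 ^ (2 * (h * i + i)) < (4 ^ (2 * i - 1)) ^ (2 * h + 3) := by
            rw [← pow_mul]
            apply Nat.pow_lt_pow_right (by norm_num)
            obtain ⟨i', rfl⟩ : ∃ i', i = i' + 2 := ⟨i - 2, by omega⟩
            have : 2 * (i' + 2) - 1 = 2 * i' + 3 := by omega
            rw [this]
            nlinarith
          omega
        have := prime_divisors_bound (e := 2 * h + 3) ha hB (T.filter (fun l : ℕ => l ∣ ((t.val : ℤ) + j * q).natAbs)) (by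
          intro l hl
          rw [mem_filter] at hl
          obtain ⟨h1, h2, h3⟩ := hT l hl.1
          exact ⟨h1, by rw [← hBe]; exact h2, hl.2⟩) hlt
        omega
    _ = (2 * J + 1) * (2 * h + 2) := by rw [Finset.sum_const, hcard, smul_eq_mul]

/-- For `i` large there are `8^i` primes in `(16^i/4, 16^i]` whose inverses have
subset sums covering `ZMod q` for all primes `q` in `[16^i, 16^(h i)]`. -/
theorem good_T (h : ℕ) : ∃ i1 : ℕ, 2 ≤ i1 ∧ ∀ i, i1 ≤ i → ∃ T : Finset ℕ, T.card = 8 ^ i ∧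
    (∀ l ∈ T, l.Prime ∧ 16 ^ i / 4 < l ∧ l < 16 ^ i) ∧
    ∀ q : ℕ, q.Prime → 16 ^ i ≤ q → q ≤ 16 ^ (h * i) → ∀ r : ZMod q, ∃ S ⊆ T, ∑ l ∈ S, ((l : ZMod q))⁻¹ = r := by
  obtain ⟨N0, hN0, hch⟩ := cheb_lower
  set K : ℕ := 16 * (h + 1) with hK
  -- largeness
  obtain ⟨i1, hi1⟩ : ∃ i1 : ℕ, ∀ i, i1 ≤ i → (10 * (K ^ 2 * (h + 1) * 3) * (i:ℝ)) < 2 ^ i := by
    have h1 := tendsto_pow_const_div_const_pow_of_one_lt 1 (by norm_num : (1:ℝ) < 2)
    have hC : (0:ℝ) < 10 * ((K:ℝ) ^ 2 * (h + 1) * 3) := by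
      have : (0:ℝ) < K := by rw [hK]; positivity
      positivity
    have h2 := (h1.eventually (gt_mem_nhds (by positivity : (0:ℝ) < 1 / (10 * (K ^ 2 * (h + 1) * 3)))))
    rw [Filter.eventually_atTop] at h2
    obtain ⟨i1, hi1⟩ := h2
    refine ⟨i1, ?_⟩
    intro i hi
    have h3 := hi1 i hi
    rw [pow_one, div_lt_div_iff₀ (by positivity) hC] at h3
    linarith
  have hKr : (16:ℝ) * (h + 1) = K := by rw [hK]; push_cast; ring
  refine ⟨max (max i1 N0) 4, by omega, ?_⟩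
  intro i hi
  have hi4 : 4 ≤ i := by omega
  have hiN : N0 ≤ i := by omega
  have hii := hi1 i (by omega)
  have hir : (4:ℝ) ≤ i := by exact_mod_cast hi4
  have hh0 : (0:ℝ) ≤ h := Nat.cast_nonneg h
  have hK16 : (16:ℝ) ≤ K := by rw [← hKr]; nlinarith
  have hl2 : Real.log 2 < 0.6931471808 := Real.log_two_lt_d9
  have hl2' : 0 < Real.log 2 := Real.log_pos (by norm_num)
  have hl16 : Real.log 16 = 4 * Real.log 2 := by
    rw [show (16:ℝ) = 2 ^ 4 by norm_num, Real.log_pow]; norm_num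
  have hl16' : Real.log 16 < 3 := by rw [hl16]; linarith
  have hl160 : 0 < Real.log 16 := by rw [hl16]; positivity
  -- the set `T`
  have hcount : 8 ^ i ≤ (pr (16 ^ i / 4) (16 ^ i)).card := by
    have h1 := hch (16 ^ i) (by
      have : i < 16 ^ i := Nat.lt_pow_self (by norm_num)
      omega)
    have h2 : ((8 ^ i : ℕ) : ℝ) ≤ 3 / 10 * ((16 ^ i : ℕ) : ℝ) / Real.log ((16 ^ i : ℕ) : ℝ) := by
      push_cast
      rw [Real.log_pow, le_div_iff₀ (by positivity)]
      have e : (16:ℝ) ^ i = 2 ^ i * 8 ^ i := by rw [← mul_pow]; norm_num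
      rw [e]
      have h3 : (i:ℝ) * Real.log 16 ≤ 3 / 10 * 2 ^ i := by
        have h4 : (10 * (i:ℝ)) ≤ 2 ^ i := by
          have : (10:ℝ) * i ≤ 10 * (K ^ 2 * (h + 1) * 3) * i := by
            apply mul_le_mul_of_nonneg_right _ (by linarith)
            nlinarith [mul_nonneg (mul_nonneg (by linarith : (0:ℝ) ≤ K) (by linarith : (0:ℝ) ≤ K)) hh0]
          linarith
        nlinarith
      calc (8:ℝ) ^ i * (i * Real.log 16) ≤ 8 ^ i * (3 / 10 * 2 ^ i) := mul_le_mul_of_nonneg_left h3 (by positivity)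
        _ = _ := by ring
    exact_mod_cast h2.trans h1
  obtain ⟨T, hTsub, hTcard⟩ := Finset.exists_subset_card_eq hcount
  have hTp : ∀ l ∈ T, l.Prime ∧ 16 ^ i / 4 < l ∧ l ≤ 16 ^ i := by
    intro l hl
    have := mem_pr.mp (hTsub hl)
    exact ⟨this.2.2, this.1, this.2.1⟩
  refine ⟨T, hTcard, ?_, ?_⟩
  · intro l hl
    obtain ⟨h1, h2, h3⟩ := hTp l hl
    refine ⟨h1, h2, lt_of_le_of_ne h3 ?_⟩
    intro h4
    rw [h4] at h1
    have h5 := Nat.Prime.eq_one_of_pow (x := 16) (n := i) h1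
    omega
  intro q hq hq1 hq2 r
  haveI : Fact q.Prime := ⟨hq⟩
  haveI : NeZero q := ⟨hq.ne_zero⟩
  have hqr : (0:ℝ) < q := by exact_mod_cast hq.pos
  apply fourier_cover T (fun l : ℕ => ((l : ZMod q))⁻¹) _ r
  intro t ht
  have hbad := bad_card (K := K) T hTp hq1 hq2 t ht (by omega) (by rw [hK]; omega)
  set Bad := T.filter (fun l : ℕ => (t * (l : ZMod q)⁻¹).valMinAbs.natAbs * (K * 2 ^ i) < q) with hBad
  set Good := T.filter (fun l : ℕ => ¬ ((t * (l : ZMod q)⁻¹).valMinAbs.natAbs * (K * 2 ^ i) < q)) with hGood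
  have hsplit : Bad.card + Good.card = 8 ^ i := by
    rw [hBad, hGood, Finset.card_filter_add_card_filter_not, hTcard]
  have hbad2 : (Bad.card : ℝ) ≤ 8 ^ i / 2 := by
    have h1 : ((8 ^ i / K : ℕ) : ℝ) ≤ 8 ^ i / K := by
      have := Nat.cast_div_le (α := ℝ) (m := 8 ^ i) (n := K)
      push_cast at this
      exact this
    have h2 : (Bad.card : ℝ) ≤ (2 * ((8 ^ i / K : ℕ) + 1) + 1) * (2 * h + 2) := by exact_mod_cast hbad
    have h3 : (2 * ((8:ℝ) ^ i / K + 1) + 1) * (2 * h + 2) ≤ 8 ^ i / 2 := by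
      have h4 : (8:ℝ) ^ i / K * (16 * (h + 1)) = 8 ^ i := by
        rw [hKr]; field_simp
      have h5 : (2 * ((8:ℝ) ^ i / K + 1) + 1) * (2 * h + 2) = (8:ℝ) ^ i / K * (16 * (h + 1)) / 4 + 6 * (h + 1) := by ring
      rw [h5, h4]
      have h6 : 24 * ((h:ℝ) + 1) ≤ 8 ^ i := by
        have h7 : (2:ℝ) ^ i ≤ 8 ^ i := pow_le_pow_left₀ (by norm_num) (by norm_num) i
        have h8 : 24 * ((h:ℝ) + 1) ≤ 10 * (K ^ 2 * (h + 1) * 3) * i := by
          have h9 : (1:ℝ) ≤ K ^ 2 := by nlinarith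
          have h10 : (h:ℝ) + 1 ≤ K ^ 2 * (h + 1) := by nlinarith
          nlinarith
        linarith
      linarith
    calc (Bad.card : ℝ) ≤ (2 * ((8 ^ i / K : ℕ) + 1) + 1) * (2 * h + 2) := h2
      _ ≤ (2 * ((8:ℝ) ^ i / K + 1) + 1) * (2 * h + 2) := by
          apply mul_le_mul_of_nonneg_right _ (by positivity)
          linarith
      _ ≤ _ := h3
  have hgood2 : (8:ℝ) ^ i / 2 ≤ Good.card := by
    have : (Bad.card : ℝ) + Good.card = 8 ^ i := by exact_mod_cast hsplit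
    linarith
  -- bound of the product
  have hprod : ∏ l ∈ T, ‖(1 : ℂ) + ZMod.stdAddChar (t * (l : ZMod q)⁻¹)‖ ≤
      2 ^ T.card * Real.exp (-(2 ^ i / K ^ 2)) := by
    have hs : T = Bad ∪ Good := (Finset.filter_union_filter_not_eq _ T).symm
    have hd : Disjoint Bad Good := Finset.disjoint_filter_filter_not _ _ _
    have h1 : ∏ l ∈ T, ‖(1 : ℂ) + ZMod.stdAddChar (t * (l : ZMod q)⁻¹)‖ =
        (∏ l ∈ Bad, ‖(1 : ℂ) + ZMod.stdAddChar (t * (l : ZMod q)⁻¹)‖) * ∏ l ∈ Good, ‖(1 : ℂ) + ZMod.stdAddChar (t * (l : ZMod q)⁻¹)‖ := by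
      rw [← Finset.prod_union hd, ← hs]
    rw [h1]
    have h2 : ∏ l ∈ Bad, ‖(1 : ℂ) + ZMod.stdAddChar (t * (l : ZMod q)⁻¹)‖ ≤ 2 ^ Bad.card := by
      rw [← Finset.prod_const]
      apply Finset.prod_le_prod (fun _ _ => norm_nonneg _)
      intro l _
      apply (norm_one_add_char _).trans
      have : Real.exp (-(2 * ((((t * (l : ZMod q)⁻¹).valMinAbs : ℤ) : ℝ) / q) ^ 2)) ≤ 1 := by
        rw [Real.exp_le_one_iff]
        have := sq_nonneg ((((t * (l : ZMod q)⁻¹).valMinAbs : ℤ) : ℝ) / q)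
        linarith
      linarith
    have h3 : ∏ l ∈ Good, ‖(1 : ℂ) + ZMod.stdAddChar (t * (l : ZMod q)⁻¹)‖ ≤
        (2 * Real.exp (-(2 * (1 / (K * 2 ^ i)) ^ 2))) ^ Good.card := by
      rw [← Finset.prod_const]
      apply Finset.prod_le_prod (fun _ _ => norm_nonneg _)
      intro l hl
      apply (norm_one_add_char _).trans
      rw [hGood, mem_filter] at hl
      have h4 := hl.2
      push Not at h4
      set v := (t * (l : ZMod q)⁻¹).valMinAbs with hv
      have h5 : (q:ℝ) ≤ |(v:ℝ)| * (K * 2 ^ i) := by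
        have h6 : (q:ℝ) ≤ ((v.natAbs * (K * 2 ^ i) : ℕ) : ℝ) := by exact_mod_cast h4
        push_cast at h6
        rw [Nat.cast_natAbs] at h6
        push_cast at h6
        exact h6
      have hKi : (0:ℝ) < K * 2 ^ i := by
        have : (0:ℝ) < K := by linarith
        positivity
      have h7 : 1 / ((K:ℝ) * 2 ^ i) ≤ |(v:ℝ) / q| := by
        rw [abs_div, abs_of_pos hqr, div_le_div_iff₀ hKi hqr]
        linarith
      have h8 : (1 / ((K:ℝ) * 2 ^ i)) ^ 2 ≤ ((v:ℝ) / q) ^ 2 := by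
        rw [← sq_abs ((v:ℝ) / q)]
        exact pow_le_pow_left₀ (by positivity) h7 2
      have h9 : Real.exp (-(2 * ((v:ℝ) / q) ^ 2)) ≤ Real.exp (-(2 * (1 / ((K:ℝ) * 2 ^ i)) ^ 2)) := by
        apply Real.exp_le_exp.mpr; linarith
      linarith
    have h4 : (2 * Real.exp (-(2 * (1 / ((K:ℝ) * 2 ^ i)) ^ 2))) ^ Good.card ≤ 2 ^ Good.card * Real.exp (-(2 ^ i / K ^ 2)) := by
      rw [mul_pow]
      apply mul_le_mul_of_nonneg_left _ (by positivity)
      rw [← Real.exp_nat_mul]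
      apply Real.exp_le_exp.mpr
      have hK0 : (0:ℝ) < K := by linarith
      have h5 : (1 / ((K:ℝ) * 2 ^ i)) ^ 2 = 1 / (K ^ 2 * 4 ^ i) := by
        rw [div_pow, one_pow, mul_pow, ← pow_mul, mul_comm i 2, pow_mul]; norm_num
      rw [h5]
      have h6 : (2:ℝ) ^ i / K ^ 2 = (8 ^ i / 2) * (2 * (1 / (K ^ 2 * 4 ^ i))) := by
        have : (8:ℝ) ^ i = 2 ^ i * 4 ^ i := by rw [← mul_pow]; norm_num
        rw [this]
        field_simp
      rw [h6]
      have h7 : (8:ℝ) ^ i / 2 * (2 * (1 / (K ^ 2 * 4 ^ i))) ≤ Good.card * (2 * (1 / (K ^ 2 * 4 ^ i))) :=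
        mul_le_mul_of_nonneg_right hgood2 (by positivity)
      linarith
    calc (∏ l ∈ Bad, ‖(1 : ℂ) + ZMod.stdAddChar (t * (l : ZMod q)⁻¹)‖) * ∏ l ∈ Good, ‖(1 : ℂ) + ZMod.stdAddChar (t * (l : ZMod q)⁻¹)‖
        ≤ 2 ^ Bad.card * (2 ^ Good.card * Real.exp (-(2 ^ i / K ^ 2))) := by
          apply mul_le_mul h2 (h3.trans h4) (Finset.prod_nonneg fun _ _ => norm_nonneg _) (by positivity)
      _ = 2 ^ T.card * Real.exp (-(2 ^ i / K ^ 2)) := by
          rw [hTcard, ← hsplit, pow_add]; ring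
  apply lt_of_le_of_lt hprod
  rw [div_eq_mul_inv]
  apply mul_lt_mul_of_pos_left _ (by positivity)
  have h1 : Real.exp (-(2 ^ i / (K:ℝ) ^ 2)) < Real.exp (-Real.log q) := by
    apply Real.exp_lt_exp.mpr
    have hK0 : (0:ℝ) < K := by linarith
    have h2 : Real.log q ≤ h * i * Real.log 16 := by
      have h3 : (q:ℝ) ≤ (16:ℝ) ^ (h * i) := by exact_mod_cast hq2
      have h4 := Real.log_le_log hqr h3
      rw [Real.log_pow] at h4
      push_cast at h4
      exact h4
    have h5 : (h:ℝ) * i * Real.log 16 ≤ h * i * 3 := mul_le_mul_of_nonneg_left hl16'.le (by positivity)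
    have h6 : (h:ℝ) * i * 3 < 2 ^ i / K ^ 2 := by
      rw [lt_div_iff₀ (by positivity)]
      have h7 : (h:ℝ) * i * 3 * K ^ 2 ≤ 10 * (K ^ 2 * (h + 1) * 3) * i := by
        have h8 : 0 ≤ (i:ℝ) * K ^ 2 := by positivity
        nlinarith
      linarith
    linarith
  rw [Real.exp_neg (Real.log q), Real.exp_log hqr] at h1
  exact h1

end Pool.Agent.Helper52
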