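import Pool.Agent.Helper52.PrimeSums

/-!
Removing large primes from a denominator, one prime at a time, and Egyptian fractions with
denominators dividing a fixed number times a power of two.
-/

open Finset

namespace Pool.Agent.Helper52

/-- reciprocal sum -/
def R (A : Finset ℕ) : ℚ := ∑ n ∈ A, 1 / (n : ℚ)

theorem R_nonneg (A : Finset ℕ) : 0 ≤ R A := Finset.sum_nonneg fun n _ => by positivity

theorem R_union {A B : Finset ℕ} (h : Disjoint A B) : R (A ∪ B) = R A + R B := by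
  unfold R; exact Finset.sum_union h

theorem R_mono {A B : Finset ℕ} (h : A ⊆ B) : R A ≤ R B :=
  Finset.sum_le_sum_of_subset_of_nonneg h fun n _ _ => by positivity

/-- the common denominator -/
def DD (Bs : Finset ℕ) (W k Z : ℕ) : ℕ := ∏ q ∈ (pr 0 Z).filter (· ∉ Bs), q ^ (if q ≤ W then k else 1)

theorem DD_pos (Bs : Finset ℕ) (W k Z : ℕ) : 0 < DD Bs W k Z := by
  unfold DD
  apply Finset.prod_pos
  intro q hq
  rw [mem_filter, mem_pr] at hq
  exact pow_pos hq.1.1 _

theorem DD_succ_not {Bs : Finset ℕ} {W k Z : ℕ} (h : ¬ (Z + 1).Prime) : DD Bs W k (Z + 1) = DD Bs W k Z := by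
  unfold DD
  congr 1
  ext q
  rw [mem_filter, mem_filter, mem_pr, mem_pr]
  constructor
  · rintro ⟨⟨h1, h2, h3⟩, h4⟩
    refine ⟨⟨h1, ?_, h3⟩, h4⟩
    have : q ≠ Z + 1 := by rintro rfl; exact h h3
    omega
  · rintro ⟨⟨h1, h2, h3⟩, h4⟩
    exact ⟨⟨h1, by omega, h3⟩, h4⟩

theorem DD_succ {Bs : Finset ℕ} {W k Z : ℕ} (h : (Z + 1).Prime) (hW : W < Z + 1) (hB : Z + 1 ∉ Bs) :
    DD Bs W k (Z + 1) = DD Bs W k Z * (Z + 1) := by
  unfold DD
  have h1 : (pr 0 (Z + 1)).filter (· ∉ Bs) = insert (Z + 1) ((pr 0 Z).filter (· ∉ Bs)) := by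
    ext q
    rw [mem_insert, mem_filter, mem_filter, mem_pr, mem_pr]
    constructor
    · rintro ⟨⟨h1, h2, h3⟩, h4⟩
      by_cases h5 : q = Z + 1
      · left; exact h5
      · right; exact ⟨⟨h1, by omega, h3⟩, h4⟩
    · rintro (rfl | ⟨⟨h1, h2, h3⟩, h4⟩)
      · exact ⟨⟨by omega, le_refl _, h⟩, hB⟩
      · exact ⟨⟨h1, by omega, h3⟩, h4⟩
  rw [h1, Finset.prod_insert, if_neg (by omega), pow_one, mul_comm]
  rw [mem_filter, mem_pr]
  rintro ⟨⟨_, h2, _⟩, _⟩
  omega

theorem dvd_DD {Bs : Finset ℕ} {W k Z l : ℕ} (hk : 1 ≤ k) (hl : l.Prime) (hlZ : l ≤ Z) (hB : l ∉ Bs) :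
    l ∣ DD Bs W k Z := by
  unfold DD
  have h1 : l ∈ (pr 0 Z).filter (· ∉ Bs) := by
    rw [mem_filter, mem_pr]; exact ⟨⟨hl.pos, hlZ, hl⟩, hB⟩
  apply Dvd.dvd.trans _ (Finset.dvd_prod_of_mem _ h1)
  apply dvd_pow_self
  split_ifs <;> omega

theorem coprime_DD {Bs : Finset ℕ} {W k Z q : ℕ} (hq : q.Prime) (hZ : Z < q ∨ q ∈ Bs) :
    ¬ q ∣ DD Bs W k Z := by
  unfold DD
  intro hd
  rw [Prime.dvd_finsetProd_iff hq.prime] at hd
  obtain ⟨p, hp, hd⟩ := hd
  rw [mem_filter, mem_pr] at hp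
  have h1 := hq.dvd_of_dvd_pow hd
  have h2 := (Nat.prime_dvd_prime_iff_eq hq hp.1.2.2).mp h1
  subst h2
  rcases hZ with h | h
  · omega
  · exact hp.2 h

/-- Primes above `W` can be removed from the denominator by subtracting unit fractions. -/
theorem elim {Bs : Finset ℕ} {W k Z0 : ℕ} (hk : 1 ≤ k) (hB : ∀ p ∈ Bs, p ≤ W) (T : ℕ → Finset ℕ)
    (hT1 : ∀ q, q.Prime → W < q → q ≤ Z0 → ∀ l ∈ T q, l.Prime ∧ l < q ∧ l ∉ Bs)
    (hT2 : ∀ q, q.Prime → W < q → q ≤ Z0 → ∀ r : ZMod q, ∃ S ⊆ T q, ∑ l ∈ S, ((l : ZMod q))⁻¹ = r) :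
    ∀ Z, W ≤ Z → Z ≤ Z0 → ∀ x : ℚ, (∃ a : ℤ, x * (DD Bs W k Z : ℚ) = a) →
      ∃ E : Finset ℕ, (∀ n ∈ E, ∃ q l, q.Prime ∧ W < q ∧ q ≤ Z ∧ l ∈ T q ∧ n = q * l) ∧
        (∃ a : ℤ, (x - R E) * (DD Bs W k W : ℚ) = a) ∧
        R E ≤ ∑ q ∈ pr W Z, (1 / (q : ℚ)) * R (T q) := by
  intro Z hWZ
  induction Z, hWZ using Nat.le_induction with
  | base =>
    intro _ x hx
    refine ⟨∅, by simp, ?_, ?_⟩
    · simpa [R] using hx
    · rw [show R ∅ = 0 by simp [R]]
      exact Finset.sum_nonneg fun q _ => mul_nonneg (by positivity) (R_nonneg _)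
  | succ Z hWZ ih =>
    intro hZ0 x hx
    have hih := ih (by omega)
    by_cases hp : (Z + 1).Prime
    · -- the step at the prime `Z + 1`
      set q := Z + 1 with hq
      have hqB : q ∉ Bs := fun h => by have := hB q h; omega
      have hfact : Fact q.Prime := ⟨hp⟩
      obtain ⟨a, ha⟩ := hx
      rw [hq, DD_succ hp (by omega) hqB, ← hq] at ha
      have hu : ((DD Bs W k Z : ℕ) : ZMod q) ≠ 0 := by
        rw [Ne, ZMod.natCast_eq_zero_iff]
        exact coprime_DD hp (Or.inl (by omega))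
      obtain ⟨S, hS, hSsum⟩ := hT2 q hp (by omega) hZ0 ((a : ZMod q) * ((DD Bs W k Z : ℕ) : ZMod q)⁻¹)
      have hSp : ∀ l ∈ S, l.Prime ∧ l < q ∧ l ∣ DD Bs W k Z := by
        intro l hl
        obtain ⟨h1, h2, h3⟩ := hT1 q hp (by omega) hZ0 l (hS hl)
        exact ⟨h1, h2, dvd_DD hk h1 (by omega) h3⟩
      set E' := S.image (fun l => q * l) with hE'
      have hRE' : R E' = ∑ l ∈ S, 1 / ((q : ℚ) * l) := by
        rw [hE', R, Finset.sum_image]
        · apply Finset.sum_congr rfl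
          intro l _
          push_cast; rfl
        · intro x _ y _ hxy
          exact Nat.eq_of_mul_eq_mul_left hp.pos hxy
      obtain ⟨s, hs⟩ : ∃ s : ℕ, s = ∑ l ∈ S, DD Bs W k Z / l := ⟨_, rfl⟩
      have hdiv : ((a - (s : ℤ) : ℤ) : ZMod q) = 0 := by
        rw [Int.cast_sub, Int.cast_natCast, hs, Nat.cast_sum]
        have h1 : ∀ l ∈ S, ((DD Bs W k Z / l : ℕ) : ZMod q) = ((DD Bs W k Z : ℕ) : ZMod q) * ((l : ZMod q))⁻¹ := by
          intro l hl
          obtain ⟨h1, h2, h3⟩ := hSp l hl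
          have hl0 : ((l : ℕ) : ZMod q) ≠ 0 := by
            rw [Ne, ZMod.natCast_eq_zero_iff]
            intro h4
            have := Nat.le_of_dvd h1.pos h4
            omega
          obtain ⟨c, hc⟩ := h3
          rw [hc, Nat.mul_div_cancel_left _ h1.pos]
          push_cast
          rw [mul_comm ((l : ℕ) : ZMod q), mul_assoc, mul_inv_cancel₀ hl0, mul_one]
        rw [Finset.sum_congr rfl h1, ← Finset.mul_sum, hSsum]
        rw [mul_comm (a : ZMod q), ← mul_assoc, mul_inv_cancel₀ hu, one_mul, sub_self]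
      rw [ZMod.intCast_zmod_eq_zero_iff_dvd] at hdiv
      obtain ⟨b, hb⟩ := hdiv
      have hx' : (x - R E') * (DD Bs W k Z : ℚ) = b := by
        have hq0 : (q : ℚ) ≠ 0 := by exact_mod_cast hp.ne_zero
        have h1 : (x - R E') * (DD Bs W k Z : ℚ) * q = b * q := by
          have h2 : R E' * (DD Bs W k Z : ℚ) * q = ∑ l ∈ S, ((DD Bs W k Z / l : ℕ) : ℚ) := by
            rw [hRE', Finset.sum_mul, Finset.sum_mul]
            apply Finset.sum_congr rfl
            intro l hl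
            obtain ⟨h1, h2, h3⟩ := hSp l hl
            obtain ⟨c, hc⟩ := h3
            rw [hc, Nat.mul_div_cancel_left _ h1.pos]
            have hl0 : (l : ℚ) ≠ 0 := by exact_mod_cast h1.ne_zero
            push_cast
            field_simp
          have h3 : (((a - (s : ℤ)) : ℤ) : ℚ) = ((q * b : ℤ) : ℚ) := by rw [hb]
          rw [Int.cast_sub, Int.cast_natCast, hs, Nat.cast_sum, Int.cast_mul, Int.cast_natCast] at h3
          rw [Nat.cast_mul] at ha
          calc (x - R E') * (DD Bs W k Z : ℚ) * q = x * ((DD Bs W k Z : ℚ) * q) - R E' * (DD Bs W k Z : ℚ) * q := by ring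
            _ = a - ∑ l ∈ S, ((DD Bs W k Z / l : ℕ) : ℚ) := by rw [h2, ha]
            _ = b * q := by rw [h3]; ring
        exact mul_right_cancel₀ hq0 h1
      obtain ⟨E, hE1, hE2, hE3⟩ := hih (x - R E') ⟨b, hx'⟩
      have hdisj : Disjoint E E' := by
        rw [Finset.disjoint_left]
        intro n hn hn'
        obtain ⟨q', l', hq'p, hq'W, hq'Z, hl', rfl⟩ := hE1 n hn
        rw [hE', mem_image] at hn'
        obtain ⟨l, hl, hll⟩ := hn'
        obtain ⟨g1, g2, g3⟩ := hT1 q' hq'p hq'W (by omega) l' hl'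
        have h1 : q ∣ q' * l' := ⟨l, hll.symm⟩
        rcases hp.dvd_mul.mp h1 with h2 | h2
        · have := Nat.le_of_dvd hq'p.pos h2; omega
        · have := Nat.le_of_dvd g1.pos h2; omega
      refine ⟨E ∪ E', ?_, ?_, ?_⟩
      · intro n hn
        rcases mem_union.mp hn with h | h
        · obtain ⟨q', l', h1, h2, h3, h4, h5⟩ := hE1 n h
          exact ⟨q', l', h1, h2, by omega, h4, h5⟩
        · rw [hE', mem_image] at h
          obtain ⟨l, hl, rfl⟩ := h
          exact ⟨q, l, hp, by omega, le_refl _, hS hl, rfl⟩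
      · rw [R_union hdisj]
        obtain ⟨c, hc⟩ := hE2
        exact ⟨c, by rw [← hc]; ring⟩
      · rw [R_union hdisj]
        have hpr : pr W q = insert q (pr W Z) := by
          ext n
          rw [mem_insert, mem_pr, mem_pr]
          constructor
          · rintro ⟨h1, h2, h3⟩
            by_cases h5 : n = q
            · left; exact h5
            · right; exact ⟨h1, by omega, h3⟩
          · rintro (rfl | ⟨h1, h2, h3⟩)
            · exact ⟨by omega, le_refl _, hp⟩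
            · exact ⟨h1, by omega, h3⟩
        rw [hpr, Finset.sum_insert (by rw [mem_pr]; rintro ⟨_, h, _⟩; omega)]
        have h1 : R E' ≤ 1 / (q:ℚ) * R (T q) := by
          rw [hRE', R, Finset.mul_sum]
          calc ∑ l ∈ S, 1 / ((q : ℚ) * l) ≤ ∑ l ∈ T q, 1 / ((q : ℚ) * l) :=
                Finset.sum_le_sum_of_subset_of_nonneg hS fun l _ _ => by positivity
            _ = _ := by
                apply Finset.sum_congr rfl
                intro l _
                rw [one_div_mul_one_div]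
        linarith
    · rw [DD_succ_not hp] at hx
      obtain ⟨E, hE1, hE2, hE3⟩ := hih x hx
      refine ⟨E, ?_, hE2, ?_⟩
      · intro n hn
        obtain ⟨q', l', h1, h2, h3, h4, h5⟩ := hE1 n hn
        exact ⟨q', l', h1, h2, by omega, h4, h5⟩
      · have hpr : pr W (Z + 1) = pr W Z := by
          ext n
          rw [mem_pr, mem_pr]
          constructor
          · rintro ⟨h1, h2, h3⟩
            have : n ≠ Z + 1 := by rintro rfl; exact hp h3
            exact ⟨h1, by omega, h3⟩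
          · rintro ⟨h1, h2, h3⟩
            exact ⟨h1, by omega, h3⟩
        rw [hpr]; exact hE3

/-- Egyptian fractions with denominators dividing `C * 2 ^ C`. -/
theorem egypt {C : ℕ} (hC : 0 < C) (hC2 : ∀ i, C ≠ 2 ^ i) {x : ℚ} (hx0 : 0 < x) (hx1 : x < 1)
    (hx : ∃ a : ℤ, x * (C : ℚ) = a) : ∃ F : Finset ℕ, R F = x ∧ ∀ n ∈ F, 0 < n ∧ n ∣ C * 2 ^ C := by
  obtain ⟨a, ha⟩ := hx
  have hCq : (0:ℚ) < C := by exact_mod_cast hC
  have ha0 : 0 < a := by
    have : (0:ℚ) < a := by rw [← ha]; positivity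
    exact_mod_cast this
  have haC : a < C := by
    have : (a:ℚ) < C := by rw [← ha]; nlinarith
    exact_mod_cast this
  obtain ⟨m, rfl⟩ : ∃ m : ℕ, a = m := ⟨a.toNat, by omega⟩
  have hmC : m < C := by exact_mod_cast haC
  obtain ⟨e, he⟩ : ∃ e, e = C := ⟨C, rfl⟩
  set A1 := m * 2 ^ e / C with hA1
  set b := m * 2 ^ e % C with hb
  have hdm : C * A1 + b = m * 2 ^ e := Nat.div_add_mod _ _
  have hbC : b < C := Nat.mod_lt _ hC
  have hCe : C < 2 ^ e := by rw [he]; exact Nat.lt_two_pow_self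
  have hA1e : A1 < 2 ^ e := by
    rw [hA1, Nat.div_lt_iff_lt_mul hC]
    calc m * 2 ^ e < C * 2 ^ e := Nat.mul_lt_mul_of_pos_right hmC (by positivity)
      _ = 2 ^ e * C := by ring
  set I1 := A1.bitIndices.toFinset with hI1
  set I2 := b.bitIndices.toFinset with hI2
  have hs1 : ∑ i ∈ I1, 2 ^ i = A1 := Finset.sum_toFinset_bitIndices_two_pow A1
  have hs2 : ∑ i ∈ I2, 2 ^ i = b := Finset.sum_toFinset_bitIndices_two_pow b
  have hlt1 : ∀ i ∈ I1, i < e := by
    intro i hi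
    have h1 : 2 ^ i ≤ ∑ i ∈ I1, 2 ^ i := Finset.single_le_sum (f := fun i => 2 ^ i) (fun _ _ => Nat.zero_le _) hi
    rw [hs1] at h1
    exact (Nat.pow_lt_pow_iff_right (by norm_num : 1 < 2)).mp (by omega)
  have hlt2 : ∀ i ∈ I2, i < e := by
    intro i hi
    have h1 : 2 ^ i ≤ ∑ i ∈ I2, 2 ^ i := Finset.single_le_sum (f := fun i => 2 ^ i) (fun _ _ => Nat.zero_le _) hi
    rw [hs2] at h1
    exact (Nat.pow_lt_pow_iff_right (by norm_num : 1 < 2)).mp (by omega)
  set F1 := I1.image (fun i => 2 ^ (e - i)) with hF1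
  set F2 := I2.image (fun i => C * 2 ^ (e - i)) with hF2
  have hR1 : R F1 = A1 / 2 ^ e := by
    rw [hF1, R, Finset.sum_image]
    · have h1 : ∀ i ∈ I1, 1 / (((2 ^ (e - i) : ℕ)) : ℚ) = 2 ^ i / 2 ^ e := by
        intro i hi
        have h2 : (2:ℚ) ^ e = 2 ^ (e - i) * 2 ^ i := by
          rw [← pow_add]; congr 1; have := hlt1 i hi; omega
        rw [h2]; push_cast; field_simp
      rw [Finset.sum_congr rfl h1, ← Finset.sum_div]
      congr 1
      rw [← hs1]; push_cast; rfl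
    · intro x hx y hy hxy
      have h1 := Nat.pow_right_injective (le_refl 2) hxy
      have := hlt1 x hx
      have := hlt1 y hy
      omega
  have hR2 : R F2 = b / (C * 2 ^ e) := by
    rw [hF2, R, Finset.sum_image]
    · have h1 : ∀ i ∈ I2, 1 / (((C * 2 ^ (e - i) : ℕ)) : ℚ) = 2 ^ i / (C * 2 ^ e) := by
        intro i hi
        have h2 : (2:ℚ) ^ e = 2 ^ (e - i) * 2 ^ i := by
          rw [← pow_add]; congr 1; have := hlt2 i hi; omega
        rw [h2]; push_cast; field_simp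
      rw [Finset.sum_congr rfl h1, ← Finset.sum_div]
      congr 1
      rw [← hs2]; push_cast; rfl
    · intro x hx y hy hxy
      have h0 : 2 ^ (e - x) = 2 ^ (e - y) := Nat.eq_of_mul_eq_mul_left hC hxy
      have h1 := Nat.pow_right_injective (le_refl 2) h0
      have := hlt2 x hx
      have := hlt2 y hy
      omega
  have hdisj : Disjoint F1 F2 := by
    rw [Finset.disjoint_left]
    intro n h1 h2
    rw [hF1, mem_image] at h1
    rw [hF2, mem_image] at h2
    obtain ⟨i, _, rfl⟩ := h1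
    obtain ⟨j, _, hj⟩ := h2
    have h3 : C ∣ 2 ^ (e - i) := ⟨_, hj.symm⟩
    obtain ⟨t, _, ht⟩ := (Nat.dvd_prime_pow Nat.prime_two).mp h3
    exact hC2 t ht
  refine ⟨F1 ∪ F2, ?_, ?_⟩
  · rw [R_union hdisj, hR1, hR2]
    have h1 : ((C * A1 + b : ℕ) : ℚ) = ((m * 2 ^ e : ℕ) : ℚ) := by rw [hdm]
    push_cast at h1
    have h2 : x = m / C := by
      rw [eq_div_iff hCq.ne', ha]; push_cast; rfl
    rw [h2]
    field_simp
    linarith
  · intro n hn
    rcases mem_union.mp hn with h | h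
    · rw [hF1, mem_image] at h
      obtain ⟨i, _, rfl⟩ := h
      exact ⟨by positivity, Dvd.dvd.mul_left (pow_dvd_pow 2 (by omega)) _⟩
    · rw [hF2, mem_image] at h
      obtain ⟨i, _, rfl⟩ := h
      exact ⟨by positivity, Nat.mul_dvd_mul_left C (pow_dvd_pow 2 (by omega))⟩

end Pool.Agent.Helper52
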