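import Pool.Agent.Helper52.UF3

/-!
The gadget: a finite set of integers with large reciprocal sum such that no proper nonempty
subset has a reciprocal sum integral at all the primes of a thin set.
-/

open Finset

namespace Pool.Agent.Helper52

/-- `x` is integral at `p` -/
def PInt (p : ℕ) (x : ℚ) : Prop := ¬ p ∣ x.den

theorem PInt.add {p : ℕ} (hp : p.Prime) {x y : ℚ} (hx : PInt p x) (hy : PInt p y) : PInt p (x + y) := by
  intro h
  have h1 := h.trans (Rat.add_den_dvd x y)
  rcases hp.dvd_mul.mp h1 with h2 | h2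
  · exact hx h2
  · exact hy h2

theorem PInt.sub {p : ℕ} (hp : p.Prime) {x y : ℚ} (hx : PInt p x) (hy : PInt p y) : PInt p (x - y) := by
  intro h
  have h1 := h.trans (Rat.sub_den_dvd x y)
  rcases hp.dvd_mul.mp h1 with h2 | h2
  · exact hx h2
  · exact hy h2

theorem PInt.zero {p : ℕ} (hp : p.Prime) : PInt p 0 := by
  intro h
  simp at h
  exact hp.one_lt.ne' h

theorem PInt.sum {p : ℕ} (hp : p.Prime) {ι : Type*} (s : Finset ι) (f : ι → ℚ)
    (h : ∀ i ∈ s, PInt p (f i)) : PInt p (∑ i ∈ s, f i) := by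
  classical
  induction s using Finset.induction_on with
  | empty => simpa using PInt.zero hp
  | insert a s ha ih =>
    rw [Finset.sum_insert ha]
    exact PInt.add hp (h a (mem_insert_self a s)) (ih fun i hi => h i (mem_insert_of_mem hi))

theorem PInt.of_mul {p b : ℕ} {x : ℚ} (hb : ¬ p ∣ b) (h : ∃ a : ℤ, x * b = a) : PInt p x := by
  obtain ⟨a, ha⟩ := h
  have hb0 : b ≠ 0 := by rintro rfl; exact hb (dvd_zero p)
  have hbq : (b:ℚ) ≠ 0 := by exact_mod_cast hb0
  intro hd
  apply hb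
  apply hd.trans
  have h1 : x = (Rat.divInt a (b : ℤ)) := by
    rw [Rat.divInt_eq_div, eq_div_iff (by exact_mod_cast hb0), Int.cast_natCast]
    exact ha
  have h2 := Rat.den_dvd a (b : ℤ)
  rw [← h1] at h2
  exact_mod_cast h2

theorem PInt.dvd_of_mul {p M : ℕ} (hp : p.Prime) {x : ℚ} (hx : PInt p x) {a : ℕ}
    (h : x * (p * M) = a) : p ∣ a := by
  have h1 : x * x.den = x.num := Rat.mul_den_eq_num x
  have h2 : (x.num : ℚ) * (p * M) = a * x.den := by
    rw [← h, ← h1]; ring
  have h3 : x.num * ((p : ℤ) * M) = (a : ℤ) * x.den := by exact_mod_cast h2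
  have h4 : (p : ℤ) ∣ (a : ℤ) * x.den := ⟨x.num * M, by rw [← h3]; ring⟩
  have h5 : p ∣ a * x.den := by exact_mod_cast h4
  rcases hp.dvd_mul.mp h5 with h6 | h6
  · exact h6
  · exact absurd h6 hx

/-- integer value of `z! * R S` for `S` inside `[1, z]` -/
theorem R_mul_factorial {z : ℕ} {S : Finset ℕ} (hS : S ⊆ Finset.Icc 1 z) :
    R S * (z.factorial : ℚ) = ((∑ m ∈ S, z.factorial / m : ℕ) : ℚ) := by
  unfold R
  rw [Finset.sum_mul, Nat.cast_sum]
  apply Finset.sum_congr rfl
  intro m hm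
  have h1 := mem_Icc.mp (hS hm)
  obtain ⟨c, hc⟩ := Nat.dvd_factorial h1.1 h1.2
  have hm0 : (m : ℚ) ≠ 0 := by exact_mod_cast (by omega : m ≠ 0)
  rw [hc, Nat.mul_div_cancel_left _ (by omega)]
  push_cast
  field_simp

theorem sum_factorial_le {z : ℕ} {S : Finset ℕ} (hS : S ⊆ Finset.Icc 1 z) :
    ∑ m ∈ S, z.factorial / m ≤ z * z.factorial := by
  calc ∑ m ∈ S, z.factorial / m ≤ ∑ m ∈ S, z.factorial := Finset.sum_le_sum fun m _ => Nat.div_le_self _ _
    _ = S.card * z.factorial := by rw [Finset.sum_const, smul_eq_mul]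
    _ ≤ z * z.factorial := by
        apply Nat.mul_le_mul_right
        have := Finset.card_le_card hS
        simpa using this

theorem sum_factorial_pos {z : ℕ} {S : Finset ℕ} (hS : S ⊆ Finset.Icc 1 z) (hne : S.Nonempty) :
    0 < ∑ m ∈ S, z.factorial / m := by
  apply Finset.sum_pos _ hne
  intro m hm
  have h1 := mem_Icc.mp (hS hm)
  exact Nat.div_pos (Nat.le_of_dvd (Nat.factorial_pos z) (Nat.dvd_factorial h1.1 h1.2)) (by omega)

/-- the gadget, for given parameters `z` and a set of primes `Bs` -/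
theorem gadget_core {z : ℕ} (hz : 1 ≤ z) (Bs : Finset ℕ) (hBs : ∀ p ∈ Bs, p.Prime ∧ z * z.factorial < p) :
    ∃ (P : Finset ℕ) (n0 : ℕ), 0 < n0 ∧ R P = R Bs * R (Finset.Icc 1 z) + 1 / (n0 : ℚ) ∧
      (∀ n ∈ P, 0 < n) ∧ (Bs.Nonempty → ∀ n ∈ P, ∃ p ∈ Bs, p ∣ n) ∧ (∀ p ∈ Bs, PInt p (R P)) ∧
      (∀ P' ⊆ P, P'.Nonempty → P' ≠ P → ∃ p ∈ Bs, ¬ PInt p (R P')) := by
  classical
  have hzf : z ≤ z * z.factorial := Nat.le_mul_of_pos_right _ (Nat.factorial_pos z)
  have hzf' : z.factorial ≤ z * z.factorial := Nat.le_mul_of_pos_left _ hz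
  obtain ⟨h, hh⟩ : ∃ h : ℕ, h = ∑ m ∈ Finset.Icc 1 z, z.factorial / m := ⟨_, rfl⟩
  have hh1 : R (Finset.Icc 1 z) * (z.factorial : ℚ) = (h : ℚ) := by
    rw [hh]; exact R_mul_factorial (le_refl _)
  have hhpos : 0 < h := by
    rw [hh]; exact sum_factorial_pos (le_refl _) ⟨1, by rw [mem_Icc]; omega⟩
  have hhle : h ≤ z * z.factorial := by rw [hh]; exact sum_factorial_le (le_refl _)
  have hzfq : (z.factorial : ℚ) ≠ 0 := by exact_mod_cast Nat.factorial_ne_zero z
  -- the Chinese remainder theorem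
  set c : ℕ → ℕ := fun p => ∏ p' ∈ Bs.erase p, p' with hc
  have hcp : ∀ p ∈ Bs, ¬ p ∣ c p := by
    intro p hp hd
    simp only [hc] at hd
    rw [Prime.dvd_finsetProd_iff (hBs p hp).1.prime] at hd
    obtain ⟨p', hp', hd⟩ := hd
    rw [mem_erase] at hp'
    have := (Nat.prime_dvd_prime_iff_eq (hBs p hp).1 (hBs p' hp'.2).1).mp hd
    exact hp'.1 this.symm
  have hprodc : ∀ p ∈ Bs, ∏ p' ∈ Bs, p' = p * c p := by
    intro p hp
    exact (Finset.mul_prod_erase Bs (fun x => x) hp).symm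
  have hpp : Set.Pairwise (Bs : Set ℕ) (Function.onFun Nat.Coprime id) := by
    intro x hx y hy hxy
    exact (Nat.coprime_primes (hBs x hx).1 (hBs y hy).1).mpr hxy
  obtain ⟨m0, hm0z, hm0⟩ : ∃ m0 : ℕ, z < m0 ∧ ∀ p ∈ Bs, p ∣ z.factorial + h * m0 * c p := by
    set k := Nat.chineseRemainderOfFinset (fun p => (-((z.factorial : ℕ) : ZMod p) * (((h * c p : ℕ)) : ZMod p)⁻¹).val) id Bs
      (fun p hp => (hBs p hp).1.ne_zero) hpp with hk
    refine ⟨k.1 + (z + 1) * ∏ p' ∈ Bs, p', ?_, ?_⟩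
    · have h1 : 0 < ∏ p' ∈ Bs, p' := Finset.prod_pos fun p hp => (hBs p hp).1.pos
      nlinarith
    · intro p hp
      have hpP := (hBs p hp).1
      have hfact : Fact p.Prime := ⟨hpP⟩
      have h1 := k.2 p hp
      simp only [id] at h1
      rw [← ZMod.natCast_eq_natCast_iff, ZMod.natCast_zmod_val] at h1
      rw [← ZMod.natCast_eq_zero_iff, hprodc p hp]
      have hpz : ((p : ℕ) : ZMod p) = 0 := ZMod.natCast_self p
      have hhc : (((h * c p : ℕ)) : ZMod p) ≠ 0 := by
        rw [Ne, ZMod.natCast_eq_zero_iff]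
        intro hd
        rcases hpP.dvd_mul.mp hd with h2 | h2
        · have := Nat.le_of_dvd hhpos h2
          have := (hBs p hp).2
          omega
        · exact hcp p hp h2
      have e : ((z.factorial + h * (k.1 + (z + 1) * (p * c p)) * c p : ℕ) : ZMod p) =
          (z.factorial : ZMod p) + ((h * c p : ℕ) : ZMod p) * ((k.1 : ℕ) : ZMod p) + ((p : ℕ) : ZMod p) * (h * (z + 1) * c p * c p) := by
        push_cast; ring
      rw [e, hpz, h1]
      rw [mul_comm (-((z.factorial : ℕ) : ZMod p)), ← mul_assoc, mul_inv_cancel₀ hhc]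
      ring
  have hm0p : ∀ p ∈ Bs, ¬ p ∣ m0 := by
    intro p hp hd
    have h1 := hm0 p hp
    have h2 : p ∣ h * m0 * c p := Dvd.dvd.mul_right (Dvd.dvd.mul_left hd _) _
    have h3 : p ∣ z.factorial := (Nat.dvd_add_left h2).mp h1
    have := Nat.le_of_dvd (Nat.factorial_pos z) h3
    have := (hBs p hp).2
    omega
  set n0 := m0 * ∏ p' ∈ Bs, p' with hn0
  have hPB : 0 < ∏ p' ∈ Bs, p' := Finset.prod_pos fun p hp => (hBs p hp).1.pos
  have hm0pos : 0 < m0 := by omega
  have hn0pos : 0 < n0 := Nat.mul_pos hm0pos hPB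
  set P1 := Bs.biUnion (fun p => (Finset.Icc 1 z).image (fun m => p * m)) with hP1
  have hmemP1 : ∀ n, n ∈ P1 ↔ ∃ p ∈ Bs, ∃ m, 1 ≤ m ∧ m ≤ z ∧ p * m = n := by
    intro n
    rw [hP1, mem_biUnion]
    constructor
    · rintro ⟨p, hp, hn⟩
      rw [mem_image] at hn
      obtain ⟨m, hm, hn⟩ := hn
      rw [mem_Icc] at hm
      exact ⟨p, hp, m, hm.1, hm.2, hn⟩
    · rintro ⟨p, hp, m, h1, h2, h3⟩
      exact ⟨p, hp, mem_image.mpr ⟨m, mem_Icc.mpr ⟨h1, h2⟩, h3⟩⟩
  have hpdvd : ∀ p ∈ Bs, ∀ p' ∈ Bs, ∀ m, 1 ≤ m → m ≤ z → p ∣ p' * m → p = p' := by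
    intro p hp p' hp' m h1 h2 hd
    rcases (hBs p hp).1.dvd_mul.mp hd with h3 | h3
    · exact (Nat.prime_dvd_prime_iff_eq (hBs p hp).1 (hBs p' hp').1).mp h3
    · have := Nat.le_of_dvd (by omega) h3
      have := (hBs p hp).2
      omega
  have hn0P1 : n0 ∉ P1 := by
    intro hn
    rw [hmemP1] at hn
    obtain ⟨p, hp, m, h1, h2, h3⟩ := hn
    rw [hn0, hprodc p hp] at h3
    have h4 : m = m0 * c p := by
      apply Nat.eq_of_mul_eq_mul_left (hBs p hp).1.pos
      rw [h3]; ring
    have h5 : 0 < c p := Nat.pos_of_ne_zero (by intro h0; exact hcp p hp (h0 ▸ dvd_zero p))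
    have h6 : m0 ≤ m0 * c p := Nat.le_mul_of_pos_right _ h5
    omega
  -- reciprocal sum of `P1`
  have hRimage : ∀ p ∈ Bs, ∀ S : Finset ℕ, R (S.image (fun m => p * m)) = 1 / (p:ℚ) * R S := by
    intro p hp S
    unfold R
    rw [Finset.sum_image]
    · rw [Finset.mul_sum]
      apply Finset.sum_congr rfl
      intro m _
      push_cast
      rw [one_div_mul_one_div]
    · intro x _ y _ hxy
      exact Nat.eq_of_mul_eq_mul_left (hBs p hp).1.pos hxy
  have hRP1 : R P1 = R Bs * R (Finset.Icc 1 z) := by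
    have h1 : R P1 = ∑ p ∈ Bs, R ((Finset.Icc 1 z).image (fun m => p * m)) := by
      rw [hP1, R, Finset.sum_biUnion]
      · rfl
      · intro p hp p' hp' hne
        change Disjoint _ _
        rw [Finset.disjoint_left]
        intro n hn hn'
        rw [mem_image] at hn hn'
        obtain ⟨m, hm, rfl⟩ := hn
        obtain ⟨m', hm', hmm⟩ := hn'
        rw [mem_Icc] at hm hm'
        have hd : p ∣ p' * m' := ⟨m, hmm⟩
        exact hne (hpdvd p hp p' hp' m' hm'.1 hm'.2 hd)
    rw [h1, R, Finset.sum_mul]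
    apply Finset.sum_congr rfl
    intro p hp
    exact hRimage p hp _
  set P := insert n0 P1 with hP
  have hRP : R P = R Bs * R (Finset.Icc 1 z) + 1 / (n0 : ℚ) := by
    rw [hP, R, Finset.sum_insert hn0P1, ← hRP1, add_comm]; rfl
  have hint : ∀ p ∈ Bs, PInt p (R P) := by
    intro p hp
    have hpP := (hBs p hp).1
    have hpz : ¬ p ∣ z.factorial := by
      intro hd
      have := Nat.le_of_dvd (Nat.factorial_pos z) hd
      have := (hBs p hp).2
      omega
    have hp0 : (p : ℚ) ≠ 0 := by exact_mod_cast hpP.ne_zero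
    have hsplit : R Bs = 1 / (p:ℚ) + ∑ p' ∈ Bs.erase p, 1 / (p' : ℚ) :=
      (Finset.add_sum_erase Bs (fun n => 1 / (n : ℚ)) hp).symm
    have e : R P = (1 / (p:ℚ) * R (Finset.Icc 1 z) + 1 / (n0 : ℚ)) + ∑ p' ∈ Bs.erase p, (1 / (p' : ℚ) * R (Finset.Icc 1 z)) := by
      rw [hRP, hsplit, ← Finset.sum_mul]; ring
    rw [e]
    apply PInt.add hpP
    · obtain ⟨b, hb⟩ := hm0 p hp
      apply PInt.of_mul (b := m0 * c p * z.factorial)
      · intro hd
        rcases hpP.dvd_mul.mp hd with h1 | h1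
        · rcases hpP.dvd_mul.mp h1 with h2 | h2
          · exact hm0p p hp h2
          · exact hcp p hp h2
        · exact hpz h1
      · refine ⟨(b : ℤ), ?_⟩
        have hn0' : (n0 : ℚ) = m0 * (p * c p) := by
          rw [hn0, hprodc p hp]; push_cast; ring
        have hm0q : (m0 : ℚ) ≠ 0 := by exact_mod_cast hm0pos.ne'
        have hcq : (c p : ℚ) ≠ 0 := by
          intro h0
          have h0' : c p = 0 := by exact_mod_cast h0
          exact hcp p hp (h0' ▸ dvd_zero p)
        have hbq : ((z.factorial : ℚ) + h * m0 * c p) = p * b := by exact_mod_cast hb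
        rw [hn0']
        have hR : R (Finset.Icc 1 z) = h / z.factorial := by
          rw [eq_div_iff hzfq]; exact hh1
        rw [hR]
        push_cast
        have h2 : (1 / (p:ℚ) * (h / z.factorial) + 1 / (m0 * (p * c p))) * (m0 * c p * z.factorial) =
            (z.factorial + h * m0 * c p) / p := by
          field_simp
          ring
        rw [h2, hbq]
        field_simp
    · apply PInt.sum hpP
      intro p' hp'
      rw [mem_erase] at hp'
      have hp'0 : (p' : ℚ) ≠ 0 := by exact_mod_cast (hBs p' hp'.2).1.ne_zero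
      apply PInt.of_mul (b := p' * z.factorial)
      · intro hd
        rcases hpP.dvd_mul.mp hd with h1 | h1
        · exact hp'.1 ((Nat.prime_dvd_prime_iff_eq hpP (hBs p' hp'.2).1).mp h1).symm
        · exact hpz h1
      · refine ⟨(h : ℤ), ?_⟩
        push_cast
        rw [← hh1]
        field_simp
  -- no zero-sum subset avoiding `n0`
  have hkey : ∀ P' ⊆ P1, P'.Nonempty → ∃ p ∈ Bs, ¬ PInt p (R P') := by
    intro P' hP' hne
    obtain ⟨n, hn⟩ := hne
    obtain ⟨p, hp, m, hm1, hm2, rfl⟩ := (hmemP1 n).mp (hP' hn)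
    refine ⟨p, hp, ?_⟩
    intro hcon
    have hpP := (hBs p hp).1
    have hp0 : (p : ℚ) ≠ 0 := by exact_mod_cast hpP.ne_zero
    set S := (Finset.Icc 1 z).filter (fun m => p * m ∈ P') with hS
    have hSne : S.Nonempty := ⟨m, by rw [hS, mem_filter, mem_Icc]; exact ⟨⟨hm1, hm2⟩, hn⟩⟩
    have hSsub : S ⊆ Finset.Icc 1 z := Finset.filter_subset _ _
    have hfilter : P'.filter (fun n => p ∣ n) = S.image (fun m => p * m) := by
      ext n'
      rw [mem_filter, mem_image]
      constructor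
      · rintro ⟨h1, h2⟩
        obtain ⟨p', hp', m', hm1', hm2', rfl⟩ := (hmemP1 n').mp (hP' h1)
        have := hpdvd p hp p' hp' m' hm1' hm2' h2
        subst this
        exact ⟨m', by rw [hS, mem_filter, mem_Icc]; exact ⟨⟨hm1', hm2'⟩, h1⟩, rfl⟩
      · rintro ⟨m', hm', rfl⟩
        rw [hS, mem_filter] at hm'
        exact ⟨hm'.2, Dvd.intro _ rfl⟩
    have hsplit : R P' = 1 / (p:ℚ) * R S + R (P'.filter (fun n => ¬ p ∣ n)) := by
      rw [← hRimage p hp S, ← hfilter]
      unfold R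
      rw [Finset.sum_filter_add_sum_filter_not]
    have hrest : PInt p (R (P'.filter (fun n => ¬ p ∣ n))) := by
      apply PInt.sum hpP
      intro n' hn'
      rw [mem_filter] at hn'
      apply PInt.of_mul (b := n') hn'.2
      refine ⟨1, ?_⟩
      have : (n' : ℚ) ≠ 0 := by
        intro h0
        have h0' : n' = 0 := by exact_mod_cast h0
        exact hn'.2 (h0' ▸ dvd_zero p)
      field_simp
      norm_num
    have h1 : PInt p (1 / (p:ℚ) * R S) := by
      have : 1 / (p:ℚ) * R S = R P' - R (P'.filter (fun n => ¬ p ∣ n)) := by rw [hsplit]; ring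
      rw [this]
      exact PInt.sub hpP hcon hrest
    have h2 : p ∣ ∑ m ∈ S, z.factorial / m := by
      apply PInt.dvd_of_mul hpP h1 (M := z.factorial)
      rw [← R_mul_factorial hSsub]
      field_simp
    have h3 := Nat.le_of_dvd (sum_factorial_pos hSsub hSne) h2
    have h4 := sum_factorial_le hSsub
    have := (hBs p hp).2
    omega
  refine ⟨P, n0, hn0pos, hRP, ?_, ?_, hint, ?_⟩
  · intro n hn
    rw [hP, mem_insert] at hn
    rcases hn with rfl | hn
    · exact hn0pos
    · obtain ⟨p, hp, m, h1, h2, rfl⟩ := (hmemP1 n).mp hn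
      exact Nat.mul_pos (hBs p hp).1.pos h1
  · rintro ⟨p0, hp0⟩ n hn
    rw [hP, mem_insert] at hn
    rcases hn with rfl | hn
    · exact ⟨p0, hp0, by rw [hn0, hprodc p0 hp0]; exact Dvd.dvd.mul_left (Dvd.intro _ rfl) _⟩
    · obtain ⟨p, hp, m, h1, h2, rfl⟩ := (hmemP1 n).mp hn
      exact ⟨p, hp, Dvd.intro _ rfl⟩
  · intro P' hP' hne hneq
    by_cases hn : n0 ∈ P'
    · -- pass to the complement
      have hsub : P \ P' ⊆ P1 := by
        intro n hn'
        rw [mem_sdiff, hP, mem_insert] at hn'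
        rcases hn'.1 with rfl | h1
        · exact absurd hn hn'.2
        · exact h1
      have hne' : (P \ P').Nonempty := by
        rw [Finset.nonempty_iff_ne_empty]
        intro h0
        rw [Finset.sdiff_eq_empty_iff_subset] at h0
        exact hneq (Finset.Subset.antisymm hP' h0)
      obtain ⟨p, hp, hnot⟩ := hkey _ hsub hne'
      refine ⟨p, hp, ?_⟩
      intro hcon
      apply hnot
      have : R (P \ P') = R P - R P' := by
        have h1 := Finset.sum_sdiff (f := fun n : ℕ => 1 / (n : ℚ)) hP'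
        unfold R
        linarith
      rw [this]
      exact PInt.sub (hBs p hp).1 (hint p hp) hcon
    · apply hkey P' _ hne
      intro n hn'
      have h1 := hP' hn'
      rw [hP, mem_insert] at h1
      rcases h1 with rfl | h1
      · exact absurd hn' hn
      · exact h1

end Pool.Agent.Helper52
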