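import Pool.Agent.Helper52.UF4

/-!
Choice of the parameters of the gadget.
-/

open Finset

namespace Pool.Agent.Helper52

theorem pr_sum_unbounded (y : ℕ) : ∀ j : ℕ, ∃ n, y ≤ n ∧ (j:ℚ) / 2 ≤ R (pr y n) := by
  intro j
  induction j with
  | zero => exact ⟨y, le_refl _, by simpa using R_nonneg _⟩
  | succ j ih =>
    obtain ⟨n, hn1, hn2⟩ := ih
    have h := one_half_le_sum_primes_ge_one_div (n + 1)
    set N' := (4 ^ ((n + 1).primesBelow.card + 1)) with hN'
    refine ⟨max n N', le_max_of_le_left hn1, ?_⟩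
    have hsub : pr y n ∪ ((N'.succ.primesBelow) \ (n + 1).primesBelow) ⊆ pr y (max n N') := by
      intro q hq
      rw [mem_union, mem_sdiff, Nat.mem_primesBelow, Nat.mem_primesBelow, mem_pr] at hq
      rw [mem_pr]
      rcases hq with h1 | ⟨⟨h1, h2⟩, h3⟩
      · exact ⟨h1.1, le_max_of_le_left h1.2.1, h1.2.2⟩
      · have h4 : n + 1 ≤ q := by
          by_contra h5
          exact h3 ⟨by omega, h2⟩
        exact ⟨by omega, le_max_of_le_right (by omega), h2⟩
    have hdisj : Disjoint (pr y n) ((N'.succ.primesBelow) \ (n + 1).primesBelow) := by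
      rw [Finset.disjoint_left]
      intro q h1 h2
      rw [mem_pr] at h1
      rw [mem_sdiff, Nat.mem_primesBelow, Nat.mem_primesBelow] at h2
      exact h2.2 ⟨by omega, h1.2.2⟩
    have h1 : (1:ℚ) / 2 ≤ R ((N'.succ.primesBelow) \ (n + 1).primesBelow) := by
      unfold R
      have : ((1:ℚ) / 2 : ℝ) ≤ ((∑ n ∈ ((N'.succ.primesBelow) \ (n + 1).primesBelow), 1 / (n : ℚ) : ℚ) : ℝ) := by
        push_cast
        exact h
      exact_mod_cast this
    calc ((j + 1 : ℕ) : ℚ) / 2 = j / 2 + 1 / 2 := by push_cast; ring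
      _ ≤ R (pr y n) + R ((N'.succ.primesBelow) \ (n + 1).primesBelow) := add_le_add hn2 h1
      _ = R (pr y n ∪ ((N'.succ.primesBelow) \ (n + 1).primesBelow)) := (R_union hdisj).symm
      _ ≤ _ := R_mono hsub

theorem harmonic_unbounded (B : ℝ) : ∃ z : ℕ, 1 ≤ z ∧ B ≤ ((R (Finset.Icc 1 z) : ℚ) : ℝ) := by
  refine ⟨⌈Real.exp B⌉₊ + 1, by omega, ?_⟩
  have h := log_add_one_le_harmonic (⌈Real.exp B⌉₊ + 1)
  have e : harmonic (⌈Real.exp B⌉₊ + 1) = R (Finset.Icc 1 (⌈Real.exp B⌉₊ + 1)) := by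
    rw [harmonic_eq_sum_Icc, R]
    apply Finset.sum_congr rfl
    intro i _
    rw [one_div]
  rw [← e]
  refine le_trans ?_ h
  rw [Real.le_log_iff_exp_le (by positivity)]
  have := Nat.le_ceil (Real.exp B)
  push_cast
  linarith

theorem gadget {s : ℕ} (hs : 1 ≤ s) {ε : ℝ} (hε : 0 < ε) (y : ℕ) : ∃ Bs P : Finset ℕ,
    (∀ p ∈ Bs, p.Prime ∧ y < p) ∧ ((R Bs : ℚ) : ℝ) ≤ ε ∧ (s : ℚ) ≤ R P ∧ R P ≤ s + 2 ∧
    (∀ n ∈ P, 0 < n) ∧ (∀ n ∈ P, ∃ p ∈ Bs, p ∣ n) ∧ (∀ p ∈ Bs, PInt p (R P)) ∧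
    (∀ P' ⊆ P, P'.Nonempty → P' ≠ P → ∃ p ∈ Bs, ¬ PInt p (R P')) := by
  classical
  obtain ⟨z, hz, hzH⟩ := harmonic_unbounded (max 1 ((s + 1) / ε))
  set H := R (Finset.Icc 1 z) with hH
  have hH1 : (1:ℝ) ≤ (H : ℝ) := (le_max_left _ _).trans hzH
  have hH2 : ((s:ℝ) + 1) / ε ≤ (H : ℝ) := (le_max_right _ _).trans hzH
  have hH1q : (1:ℚ) ≤ H := by exact_mod_cast hH1
  have hHz : H ≤ z := by
    rw [hH, R]
    calc ∑ n ∈ Finset.Icc 1 z, 1 / (n:ℚ) ≤ ∑ n ∈ Finset.Icc 1 z, (1:ℚ) := by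
          apply Finset.sum_le_sum
          intro n hn
          rw [mem_Icc] at hn
          have : (1:ℚ) ≤ n := by exact_mod_cast hn.1
          rw [div_le_one (by linarith)]
          exact this
      _ = z := by simp
  set y' := max y (z * z.factorial) with hy'
  have hzy : z ≤ y' := le_trans (Nat.le_mul_of_pos_right _ (Nat.factorial_pos z)) (le_max_right _ _)
  have hex : ∃ n, y' ≤ n ∧ (s:ℚ) ≤ R (pr y' n) * H := by
    obtain ⟨n, hn1, hn2⟩ := pr_sum_unbounded y' (2 * s)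
    refine ⟨n, hn1, ?_⟩
    have h1 : (s:ℚ) ≤ R (pr y' n) := by
      have : ((2 * s : ℕ) : ℚ) / 2 = s := by push_cast; ring
      rw [← this]; exact hn2
    have h2 := R_nonneg (pr y' n)
    nlinarith
  set n := Nat.find hex with hn
  obtain ⟨hn1, hn2⟩ := Nat.find_spec hex
  rw [← hn] at hn1 hn2
  have hny : y' < n := by
    rcases Nat.lt_or_ge y' n with h | h
    · exact h
    · exfalso
      have h1 : pr y' n = ∅ := by
        ext q; rw [mem_pr]; simp only [Finset.notMem_empty, iff_false]; rintro ⟨a, b, _⟩; omega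
      rw [h1] at hn2
      simp only [R, Finset.sum_empty, zero_mul] at hn2
      have : (1:ℚ) ≤ s := by exact_mod_cast hs
      linarith
  have hprev : R (pr y' (n - 1)) * H < s := by
    have h1 := Nat.find_min hex (m := n - 1) (by rw [← hn]; omega)
    by_contra h2
    exact h1 ⟨by omega, not_lt.mp h2⟩
  have hnq : (0:ℚ) < n := by exact_mod_cast (by omega : 0 < n)
  have hstep : R (pr y' n) ≤ R (pr y' (n - 1)) + 1 / (n:ℚ) := by
    have h1 : pr y' n ⊆ pr y' (n - 1) ∪ {n} := by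
      intro q hq
      rw [mem_pr] at hq
      rw [mem_union, mem_pr, mem_singleton]
      by_cases h : q = n
      · right; exact h
      · left; exact ⟨hq.1, by omega, hq.2.2⟩
    have h2 : Disjoint (pr y' (n - 1)) {n} := by
      rw [Finset.disjoint_singleton_right, mem_pr]
      rintro ⟨_, h, _⟩
      omega
    calc R (pr y' n) ≤ R (pr y' (n - 1) ∪ {n}) := R_mono h1
      _ = R (pr y' (n - 1)) + R {n} := R_union h2
      _ = _ := by simp [R]
  have hup : R (pr y' n) * H ≤ s + 1 := by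
    have h1 : 1 / (n:ℚ) * H ≤ 1 := by
      rw [div_mul_eq_mul_div, one_mul, div_le_one hnq]
      have : (z:ℚ) ≤ n := by exact_mod_cast (by omega : z ≤ n)
      linarith
    calc R (pr y' n) * H ≤ (R (pr y' (n - 1)) + 1 / (n:ℚ)) * H := mul_le_mul_of_nonneg_right hstep (by linarith)
      _ = R (pr y' (n - 1)) * H + 1 / (n:ℚ) * H := by ring
      _ ≤ _ := by linarith
  obtain ⟨P, n0, hn0, hRP, hP1, hP2, hP3, hP4⟩ := gadget_core hz (pr y' n) (by
    intro p hp
    rw [mem_pr] at hp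
    exact ⟨hp.2.2, lt_of_le_of_lt (le_max_right _ _) hp.1⟩)
  have hne : (pr y' n).Nonempty := by
    rw [Finset.nonempty_iff_ne_empty]
    intro h0
    rw [h0] at hn2
    simp only [R, Finset.sum_empty, zero_mul] at hn2
    have : (1:ℚ) ≤ s := by exact_mod_cast hs
    linarith
  have hn0q : (1:ℚ) ≤ n0 := by exact_mod_cast hn0
  refine ⟨pr y' n, P, ?_, ?_, ?_, ?_, hP1, hP2 hne, hP3, hP4⟩
  · intro p hp
    rw [mem_pr] at hp
    exact ⟨hp.2.2, lt_of_le_of_lt (le_max_left _ _) hp.1⟩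
  · have h1 : ((R (pr y' n) : ℚ) : ℝ) * (H : ℝ) ≤ s + 1 := by exact_mod_cast hup
    have h2 : ((s:ℝ) + 1) ≤ ε * H := by
      rw [div_le_iff₀ hε] at hH2; linarith
    have h3 : ((R (pr y' n) : ℚ) : ℝ) * (H : ℝ) ≤ ε * H := h1.trans h2
    exact le_of_mul_le_mul_right h3 (by linarith)
  · rw [hRP]
    have : 0 < 1 / (n0:ℚ) := by positivity
    linarith
  · rw [hRP]
    have : 1 / (n0:ℚ) ≤ 1 := by rw [div_le_one (by linarith)]; exact hn0q
    linarith

end Pool.Agent.Helper52
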