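import Pool.Agent.Helper52.UF5

/-!
Counting the integers not dividing `DD`.
-/

open Finset

namespace Pool.Agent.Helper52

theorem bad_cases {Bs : Finset ℕ} {W k Z N n : ℕ} (hn0 : 0 < n) (hnN : n ≤ N)
    (hnd : ¬ n ∣ DD Bs W k Z) : (∃ p ∈ Bs, p ∣ n) ∨ (∃ p ∈ pr 0 W, p ^ (k + 1) ∣ n) ∨
      (∃ p ∈ pr W Z, p ^ 2 ∣ n) ∨ (∃ p ∈ pr Z N, p ∣ n) := by
  rw [Nat.dvd_iff_prime_pow_dvd_dvd] at hnd
  push Not at hnd
  obtain ⟨p, j, hp, hj1, hj2⟩ := hnd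
  have hj0 : j ≠ 0 := by rintro rfl; exact hj2 (by simp)
  have hpn : p ∣ n := (dvd_pow_self p hj0).trans hj1
  have hpN : p ≤ N := (Nat.le_of_dvd hn0 hpn).trans hnN
  by_cases hpB : p ∈ Bs
  · left; exact ⟨p, hpB, hpn⟩
  right
  by_cases hpZ : Z < p
  · right; right; exact ⟨p, mem_pr.mpr ⟨hpZ, hpN, hp⟩, hpn⟩
  have hmem : p ∈ (pr 0 Z).filter (· ∉ Bs) := by
    rw [mem_filter, mem_pr]; exact ⟨⟨hp.pos, by omega, hp⟩, hpB⟩
  by_cases hpW : p ≤ W
  · left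
    refine ⟨p, mem_pr.mpr ⟨hp.pos, hpW, hp⟩, ?_⟩
    have h1 : p ^ k ∣ DD Bs W k Z := by
      unfold DD
      have := Finset.dvd_prod_of_mem (fun q => q ^ (if q ≤ W then k else 1)) hmem
      simp only [if_pos hpW] at this
      exact this
    have h2 : k < j := by
      by_contra h3
      exact hj2 ((pow_dvd_pow p (by omega)).trans h1)
    exact (pow_dvd_pow p (by omega)).trans hj1
  · right; left
    refine ⟨p, mem_pr.mpr ⟨by omega, by omega, hp⟩, ?_⟩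
    have h1 : p ^ 1 ∣ DD Bs W k Z := by
      unfold DD
      have := Finset.dvd_prod_of_mem (fun q => q ^ (if q ≤ W then k else 1)) hmem
      simp only [if_neg hpW] at this
      exact this
    have h2 : 1 < j := by
      by_contra h3
      exact hj2 ((pow_dvd_pow p (by omega)).trans h1)
    exact (pow_dvd_pow p (by omega)).trans hj1

/-- total density bound for the integers not dividing `DD` -/
noncomputable def rho (Bs : Finset ℕ) (W k Z N : ℕ) : ℝ :=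
  (∑ p ∈ Bs, 1 / (p : ℝ)) + (∑ p ∈ pr 0 W, 1 / (p : ℝ) ^ (k + 1)) + (∑ p ∈ pr W Z, 1 / (p : ℝ) ^ 2) +
    ∑ p ∈ pr Z N, 1 / (p : ℝ)

theorem card_mult_le (d x : ℕ) : (((Finset.Ioc 0 x).filter (fun n => d ∣ n)).card : ℝ) ≤ x * (1 / (d : ℝ)) := by
  rw [Nat.Ioc_filter_dvd_card_eq_div, mul_one_div]
  exact Nat.cast_div_le

theorem card_exists_le (F : Finset ℕ) (g : ℕ → ℕ) (x : ℕ) :
    (((Finset.Ioc 0 x).filter (fun n => ∃ p ∈ F, g p ∣ n)).card : ℝ) ≤ x * ∑ p ∈ F, 1 / (g p : ℝ) := by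
  classical
  have h1 : (Finset.Ioc 0 x).filter (fun n => ∃ p ∈ F, g p ∣ n) ⊆
      F.biUnion (fun p => (Finset.Ioc 0 x).filter (fun n => g p ∣ n)) := by
    intro n hn
    rw [mem_filter] at hn
    obtain ⟨h1, p, hp, h2⟩ := hn
    rw [mem_biUnion]
    exact ⟨p, hp, mem_filter.mpr ⟨h1, h2⟩⟩
  have h2 := (Finset.card_le_card h1).trans Finset.card_biUnion_le
  calc (((Finset.Ioc 0 x).filter (fun n => ∃ p ∈ F, g p ∣ n)).card : ℝ)
      ≤ ((∑ p ∈ F, ((Finset.Ioc 0 x).filter (fun n => g p ∣ n)).card : ℕ) : ℝ) := by exact_mod_cast h2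
    _ = ∑ p ∈ F, (((Finset.Ioc 0 x).filter (fun n => g p ∣ n)).card : ℝ) := by push_cast; rfl
    _ ≤ ∑ p ∈ F, (x:ℝ) * (1 / (g p : ℝ)) := Finset.sum_le_sum fun p _ => card_mult_le (g p) x
    _ = _ := by rw [Finset.mul_sum]

theorem bad_count {Bs : Finset ℕ} {W k Z N x : ℕ} (hx : x ≤ N) :
    (((Finset.Ioc 0 x).filter (fun n => ¬ n ∣ DD Bs W k Z)).card : ℝ) ≤ x * rho Bs W k Z N := by
  classical
  have h1 : (Finset.Ioc 0 x).filter (fun n => ¬ n ∣ DD Bs W k Z) ⊆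
      (((Finset.Ioc 0 x).filter (fun n => ∃ p ∈ Bs, p ∣ n)) ∪ ((Finset.Ioc 0 x).filter (fun n => ∃ p ∈ pr 0 W, p ^ (k + 1) ∣ n))) ∪
      (((Finset.Ioc 0 x).filter (fun n => ∃ p ∈ pr W Z, p ^ 2 ∣ n)) ∪ ((Finset.Ioc 0 x).filter (fun n => ∃ p ∈ pr Z N, p ∣ n))) := by
    intro n hn
    rw [mem_filter, mem_Ioc] at hn
    obtain ⟨⟨h1, h2⟩, h3⟩ := hn
    have h4 : n ∈ Finset.Ioc 0 x := mem_Ioc.mpr ⟨h1, h2⟩
    rw [mem_union, mem_union, mem_union, mem_filter, mem_filter, mem_filter, mem_filter]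
    rcases bad_cases h1 (h2.trans hx) h3 with h | h | h | h
    · left; left; exact ⟨h4, h⟩
    · left; right; exact ⟨h4, h⟩
    · right; left; exact ⟨h4, h⟩
    · right; right; exact ⟨h4, h⟩
  have h2 := (Finset.card_le_card h1).trans (Finset.card_union_le _ _)
  have h3 := Finset.card_union_le ((Finset.Ioc 0 x).filter (fun n => ∃ p ∈ Bs, p ∣ n)) ((Finset.Ioc 0 x).filter (fun n => ∃ p ∈ pr 0 W, p ^ (k + 1) ∣ n))
  have h4 := Finset.card_union_le ((Finset.Ioc 0 x).filter (fun n => ∃ p ∈ pr W Z, p ^ 2 ∣ n)) ((Finset.Ioc 0 x).filter (fun n => ∃ p ∈ pr Z N, p ∣ n))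
  have g1 := card_exists_le Bs (fun p => p) x
  have g2 := card_exists_le (pr 0 W) (fun p => p ^ (k + 1)) x
  have g3 := card_exists_le (pr W Z) (fun p => p ^ 2) x
  have g4 := card_exists_le (pr Z N) (fun p => p) x
  simp only [Nat.cast_pow] at g2 g3
  have h5 : (((Finset.Ioc 0 x).filter (fun n => ¬ n ∣ DD Bs W k Z)).card : ℝ) ≤
      ((((Finset.Ioc 0 x).filter (fun n => ∃ p ∈ Bs, p ∣ n)).card : ℝ) + (((Finset.Ioc 0 x).filter (fun n => ∃ p ∈ pr 0 W, p ^ (k + 1) ∣ n)).card : ℝ)) +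
      ((((Finset.Ioc 0 x).filter (fun n => ∃ p ∈ pr W Z, p ^ 2 ∣ n)).card : ℝ) + (((Finset.Ioc 0 x).filter (fun n => ∃ p ∈ pr Z N, p ∣ n)).card : ℝ)) := by
    exact_mod_cast h2.trans (Nat.add_le_add h3 h4)
  unfold rho
  linarith

theorem sum_sq_le {a b : ℕ} (ha : 1 ≤ a) (hab : a ≤ b) : ∑ m ∈ Finset.Ioc a b, 1 / (m : ℝ) ^ 2 ≤ 1 / (a : ℝ) - 1 / (b : ℝ) := by
  induction b, hab using Nat.le_induction with
  | base => simp
  | succ b hb ih =>
    rw [← Finset.insert_Ioc_right_eq_Ioc_add_one (by omega), Finset.sum_insert (by simp)]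
    have hb0 : (0:ℝ) < b := by exact_mod_cast (by omega : 0 < b)
    have h1 : 1 / ((b + 1 : ℕ) : ℝ) ^ 2 ≤ 1 / b - 1 / ((b + 1 : ℕ) : ℝ) := by
      push_cast
      rw [div_sub_div _ _ hb0.ne' (by positivity), div_le_div_iff₀ (by positivity) (by positivity)]
      nlinarith
    linarith

theorem rho_le {Bs : Finset ℕ} {W k Z N : ℕ} (hW : 1 ≤ W) (hWZ : W ≤ Z) (hk : 1 ≤ k) :
    rho Bs W k Z N ≤ (∑ p ∈ Bs, 1 / (p : ℝ)) + 2 / 2 ^ k + 1 / (W : ℝ) + ∑ p ∈ pr Z N, 1 / (p : ℝ) := by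
  unfold rho
  have h1 : ∑ p ∈ pr 0 W, 1 / (p : ℝ) ^ (k + 1) ≤ 2 / 2 ^ k := by
    have hsub : pr 0 W ⊆ Finset.Ioc 1 W := by
      intro p hp; rw [mem_pr] at hp; rw [mem_Ioc]; exact ⟨hp.2.2.one_lt, hp.2.1⟩
    calc ∑ p ∈ pr 0 W, 1 / (p : ℝ) ^ (k + 1) ≤ ∑ p ∈ pr 0 W, (2 / 2 ^ k) * (1 / (p:ℝ) ^ 2) := by
          apply Finset.sum_le_sum
          intro p hp
          rw [mem_pr] at hp
          have hp2 : (2:ℝ) ≤ p := by exact_mod_cast hp.2.2.two_le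
          obtain ⟨k', rfl⟩ : ∃ k', k = k' + 1 := ⟨k - 1, by omega⟩
          rw [pow_succ (2:ℝ) k', show k' + 1 + 1 = k' + 2 by ring, pow_add]
          have h2 : (2:ℝ) ^ k' ≤ (p:ℝ) ^ k' := pow_le_pow_left₀ (by norm_num) hp2 k'
          have h3 : 2 / ((2:ℝ) ^ k' * 2) * (1 / (p:ℝ) ^ 2) = 1 / (2 ^ k' * (p:ℝ) ^ 2) := by
            field_simp
          rw [h3]
          apply one_div_le_one_div_of_le (by positivity)
          exact mul_le_mul_of_nonneg_right h2 (by positivity)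
      _ = (2 / 2 ^ k) * ∑ p ∈ pr 0 W, 1 / (p:ℝ) ^ 2 := by rw [Finset.mul_sum]
      _ ≤ (2 / 2 ^ k) * ∑ p ∈ Finset.Ioc 1 W, 1 / (p:ℝ) ^ 2 := by
          apply mul_le_mul_of_nonneg_left _ (by positivity)
          exact Finset.sum_le_sum_of_subset_of_nonneg hsub fun _ _ _ => by positivity
      _ ≤ (2 / 2 ^ k) * 1 := by
          apply mul_le_mul_of_nonneg_left _ (by positivity)
          have := sum_sq_le (le_refl 1) hW
          have h0 : (0:ℝ) ≤ 1 / (W : ℝ) := by positivity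
          push_cast at this
          linarith
      _ = _ := mul_one _
  have h2 : ∑ p ∈ pr W Z, 1 / (p : ℝ) ^ 2 ≤ 1 / (W : ℝ) := by
    have hsub : pr W Z ⊆ Finset.Ioc W Z := Finset.filter_subset _ _
    calc _ ≤ ∑ p ∈ Finset.Ioc W Z, 1 / (p:ℝ) ^ 2 := Finset.sum_le_sum_of_subset_of_nonneg hsub fun _ _ _ => by positivity
      _ ≤ 1 / (W : ℝ) - 1 / (Z : ℝ) := sum_sq_le hW hWZ
      _ ≤ _ := by
          have h0 : (0:ℝ) ≤ 1 / (Z : ℝ) := by positivity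
          linarith
  linarith

/-- reciprocals of the primes between `Z` and `N` -/
theorem recip_between {Z N : ℕ} (hZ : 2 ≤ Z) (hZN : Z ≤ N) :
    ∑ p ∈ pr Z N, 1 / (p : ℝ) ≤ 4 * ((Nat.log 2 N : ℝ) + 1 - Nat.log 2 Z) / Nat.log 2 Z := by
  set a := Nat.log 2 Z with ha
  set b := Nat.log 2 N with hb
  have ha1 : 1 ≤ a := by
    rw [ha]; exact Nat.log_pos (by norm_num) hZ
  have hab : a ≤ b := Nat.log_mono_right hZN
  have har : (1:ℝ) ≤ a := by exact_mod_cast ha1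
  have hsub : pr Z N ⊆ (Finset.Ico a (b + 1)).biUnion (fun i => pr (2 ^ i) (2 ^ (i + 1))) := by
    intro p hp
    rw [mem_pr] at hp
    rw [mem_biUnion]
    refine ⟨Nat.log 2 (p - 1), ?_, ?_⟩
    · rw [mem_Ico]
      constructor
      · exact Nat.log_mono_right (by omega)
      · have : Nat.log 2 (p - 1) ≤ b := Nat.log_mono_right (by omega)
        omega
    · rw [mem_pr]
      have h1 := Nat.pow_log_le_self 2 (x := p - 1) (by omega)
      have h2 := Nat.lt_pow_succ_log_self (b := 2) (by norm_num) (p - 1)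
      exact ⟨by omega, by rw [Nat.succ_eq_add_one] at h2; omega, hp.2.2⟩
  have hdisj : Set.PairwiseDisjoint ((Finset.Ico a (b + 1) : Finset ℕ) : Set ℕ) (fun i => pr (2 ^ i) (2 ^ (i + 1))) := by
    intro i _ j _ hij
    change Disjoint _ _
    rw [Finset.disjoint_left]
    intro p h1 h2
    rw [mem_pr] at h1 h2
    rcases Nat.lt_or_gt_of_ne hij with h | h
    · have : 2 ^ (i + 1) ≤ 2 ^ j := Nat.pow_le_pow_right (by norm_num) h
      omega
    · have : 2 ^ (j + 1) ≤ 2 ^ i := Nat.pow_le_pow_right (by norm_num) h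
      omega
  calc ∑ p ∈ pr Z N, 1 / (p : ℝ) ≤ ∑ p ∈ (Finset.Ico a (b + 1)).biUnion (fun i => pr (2 ^ i) (2 ^ (i + 1))), 1 / (p : ℝ) :=
        Finset.sum_le_sum_of_subset_of_nonneg hsub fun _ _ _ => by positivity
    _ = ∑ i ∈ Finset.Ico a (b + 1), ∑ p ∈ pr (2 ^ i) (2 ^ (i + 1)), 1 / (p : ℝ) :=
        Finset.sum_biUnion hdisj
    _ ≤ ∑ i ∈ Finset.Ico a (b + 1), 4 / (a:ℝ) := by
        apply Finset.sum_le_sum
        intro i hi
        rw [mem_Ico] at hi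
        apply (recip_dyadic (by omega)).trans
        apply div_le_div_of_nonneg_left (by norm_num) (by linarith)
        exact_mod_cast hi.1
    _ = _ := by
        rw [Finset.sum_const, Nat.card_Ico, nsmul_eq_mul, Nat.cast_sub (by omega)]
        push_cast; ring

end Pool.Agent.Helper52
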