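import Pool.Agent.Helper52.UF6

/-!
Choice of the cut and tails of sums.
-/

open Finset

namespace Pool.Agent.Helper52

/-- divisors of `D` in `(M, N]` -/
def Qm (D M N : ℕ) : Finset ℕ := (Finset.Ioc M N).filter (· ∣ D)

theorem mem_Qm {D M N n : ℕ} : n ∈ Qm D M N ↔ M < n ∧ n ≤ N ∧ n ∣ D := by
  unfold Qm; rw [mem_filter, mem_Ioc, and_assoc]

theorem R_cast (A : Finset ℕ) : ((R A : ℚ) : ℝ) = ∑ n ∈ A, 1 / (n : ℝ) := by
  unfold R; push_cast; rfl

theorem good_count {D x y : ℕ} {ρ : ℝ} (hxy : y ≤ x)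
    (hbad : (((Finset.Ioc 0 x).filter (fun n => ¬ n ∣ D)).card : ℝ) ≤ x * ρ) :
    (x:ℝ) - y - x * ρ ≤ ((Qm D y x).card : ℝ) := by
  have h1 : (Finset.Ioc y x).card = (Qm D y x).card + ((Finset.Ioc y x).filter (fun n => ¬ n ∣ D)).card := by
    unfold Qm
    exact (Finset.card_filter_add_card_filter_not _).symm
  have h2 : ((Finset.Ioc y x).filter (fun n => ¬ n ∣ D)).card ≤ ((Finset.Ioc 0 x).filter (fun n => ¬ n ∣ D)).card := by
    apply Finset.card_le_card
    apply Finset.filter_subset_filter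
    apply Finset.Ioc_subset_Ioc_left
    exact Nat.zero_le _
  rw [Nat.card_Ioc] at h1
  have h3 : ((x - y : ℕ) : ℝ) = x - y := by rw [Nat.cast_sub hxy]
  have h4 : ((x - y : ℕ) : ℝ) = ((Qm D y x).card : ℝ) + (((Finset.Ioc y x).filter (fun n => ¬ n ∣ D)).card : ℝ) := by
    exact_mod_cast h1
  have h5 : (((Finset.Ioc y x).filter (fun n => ¬ n ∣ D)).card : ℝ) ≤ (((Finset.Ioc 0 x).filter (fun n => ¬ n ∣ D)).card : ℝ) := by
    exact_mod_cast h2
  linarith

theorem Qm_lower {D N : ℕ} {ρ : ℝ}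
    (hbad : ∀ x ≤ N, (((Finset.Ioc 0 x).filter (fun n => ¬ n ∣ D)).card : ℝ) ≤ x * ρ) :
    ∀ I : ℕ, 1 ≤ N / 2 ^ I → (I:ℝ) * (1 / 2 - ρ) ≤ ((R (Qm D (N / 2 ^ I) N) : ℚ) : ℝ) := by
  intro I
  induction I with
  | zero =>
    intro _
    simp only [Nat.cast_zero, zero_mul]
    exact_mod_cast R_nonneg _
  | succ I ih =>
    intro hI
    have hdd : N / 2 ^ (I + 1) = N / 2 ^ I / 2 := by rw [Nat.div_div_eq_div_mul, pow_succ]
    set x := N / 2 ^ I with hx
    have hx1 : 1 ≤ x := by rw [hdd] at hI; omega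
    have hih := ih hx1
    have hxN : x ≤ N := Nat.div_le_self _ _
    rw [hdd]
    have hx0 : (0:ℝ) < x := by exact_mod_cast hx1
    have hsplit : Qm D (x / 2) N = Qm D x N ∪ Qm D (x / 2) x := by
      ext n
      rw [mem_union, mem_Qm, mem_Qm, mem_Qm]
      constructor
      · rintro ⟨h1, h2, h3⟩
        rcases Nat.lt_or_ge x n with h | h
        · left; exact ⟨h, h2, h3⟩
        · right; exact ⟨h1, h, h3⟩
      · rintro (⟨h1, h2, h3⟩ | ⟨h1, h2, h3⟩)
        · exact ⟨by omega, h2, h3⟩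
        · exact ⟨h1, by omega, h3⟩
    have hdisj : Disjoint (Qm D x N) (Qm D (x / 2) x) := by
      rw [Finset.disjoint_left]
      intro n h1 h2
      rw [mem_Qm] at h1 h2
      omega
    rw [hsplit, R_union hdisj]
    have hcount := good_count (D := D) (x := x) (y := x / 2) (Nat.div_le_self _ _) (hbad x hxN)
    have hhalf : ((x / 2 : ℕ) : ℝ) ≤ x / 2 := by
      have := Nat.cast_div_le (α := ℝ) (m := x) (n := 2)
      simpa using this
    have hlow : ((Qm D (x / 2) x).card : ℝ) / x ≤ ((R (Qm D (x / 2) x) : ℚ) : ℝ) := by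
      rw [R_cast]
      calc ((Qm D (x / 2) x).card : ℝ) / x = ∑ n ∈ Qm D (x / 2) x, 1 / (x:ℝ) := by
            rw [Finset.sum_const, nsmul_eq_mul, mul_one_div]
        _ ≤ _ := by
            apply Finset.sum_le_sum
            intro n hn
            rw [mem_Qm] at hn
            apply one_div_le_one_div_of_le
            · exact_mod_cast (by omega : 0 < n)
            · exact_mod_cast hn.2.1
    have hlow2 : 1 / 2 - ρ ≤ ((Qm D (x / 2) x).card : ℝ) / x := by
      rw [le_div_iff₀ hx0]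
      have : (1 / 2 - ρ) * x = x / 2 - x * ρ := by ring
      rw [this]
      linarith
    push_cast
    linarith

theorem Qm_upper {D M N : ℕ} (hM : 1 ≤ M) (hMN : M ≤ N) :
    ((R (Qm D M N) : ℚ) : ℝ) ≤ Real.log N - Real.log M := by
  rw [R_cast]
  calc ∑ n ∈ Qm D M N, 1 / (n:ℝ) ≤ ∑ n ∈ Finset.Ioc M N, 1 / (n:ℝ) :=
        Finset.sum_le_sum_of_subset_of_nonneg (Finset.filter_subset _ _) fun _ _ _ => by positivity
    _ ≤ _ := by
        induction N, hMN using Nat.le_induction with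
        | base => simp
        | succ N hN ih =>
          rw [← Finset.insert_Ioc_right_eq_Ioc_add_one (by omega), Finset.sum_insert (by simp)]
          have hN0 : (0:ℝ) < N := by exact_mod_cast (by omega : 0 < N)
          have hN1 : (0:ℝ) < ((N + 1 : ℕ) : ℝ) := by positivity
          have h1 : 1 / ((N + 1 : ℕ) : ℝ) ≤ Real.log ((N + 1 : ℕ) : ℝ) - Real.log N := by
            have h2 := Real.log_le_sub_one_of_pos (by positivity : (0:ℝ) < N / ((N + 1 : ℕ) : ℝ))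
            rw [Real.log_div hN0.ne' hN1.ne'] at h2
            have h3 : (N:ℝ) / ((N + 1 : ℕ) : ℝ) - 1 = -(1 / ((N + 1 : ℕ) : ℝ)) := by
              push_cast; field_simp; ring
            linarith
          linarith

theorem choose_M {D N : ℕ} {ρ : ℝ} (hρ : ρ ≤ 1 / 4)
    (hbad : ∀ x ≤ N, (((Finset.Ioc 0 x).filter (fun n => ¬ n ∣ D)).card : ℝ) ≤ x * ρ) {r : ℚ} {I : ℕ}
    (hr1 : 1 ≤ r) (hI : r ≤ I / 4) (hN : 4 ≤ N / 2 ^ I) :
    ∃ M, N / 2 ^ I ≤ M ∧ M < N ∧ 1 / 2 ≤ r - R (Qm D M N) ∧ r - R (Qm D M N) ≤ 3 / 4 ∧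
      (r:ℝ) - 3 / 4 ≤ Real.log N - Real.log M := by
  classical
  set M0 := N / 2 ^ I with hM0
  have hM0N : M0 ≤ N := Nat.div_le_self _ _
  have hlow := Qm_lower hbad I (by omega)
  have hP0 : r - 3 / 4 ≤ R (Qm D M0 N) := by
    have h1 : (I:ℝ) / 4 ≤ (I:ℝ) * (1 / 2 - ρ) := by
      have : (0:ℝ) ≤ I := Nat.cast_nonneg _
      nlinarith
    have h2 : ((I / 4 : ℚ) : ℝ) ≤ ((R (Qm D M0 N) : ℚ) : ℝ) := by
      push_cast; linarith
    have h3 : (I:ℚ) / 4 ≤ R (Qm D M0 N) := by exact_mod_cast h2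
    linarith
  set M := Nat.findGreatest (fun M => r - 3 / 4 ≤ R (Qm D M N)) N with hM
  have hMM0 : M0 ≤ M := Nat.le_findGreatest hM0N hP0
  have hPM : r - 3 / 4 ≤ R (Qm D M N) := Nat.findGreatest_spec (P := fun M => r - 3 / 4 ≤ R (Qm D M N)) hM0N hP0
  have hMN : M ≤ N := Nat.findGreatest_le N
  have hMN' : M < N := by
    rcases Nat.lt_or_ge M N with h | h
    · exact h
    · exfalso
      have hMeq : M = N := by omega
      have h1 : Qm D M N = ∅ := by
        ext n; rw [mem_Qm]; simp only [Finset.notMem_empty, iff_false]; rintro ⟨a, b, _⟩; omega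
      rw [h1] at hPM
      simp only [R, Finset.sum_empty] at hPM
      linarith
  have hnot : ¬ (r - 3 / 4 ≤ R (Qm D (M + 1) N)) :=
    Nat.findGreatest_is_greatest (P := fun M => r - 3 / 4 ≤ R (Qm D M N)) (Nat.lt_succ_self M) hMN'
  have hstep : R (Qm D M N) ≤ R (Qm D (M + 1) N) + 1 / ((M + 1 : ℕ) : ℚ) := by
    have h1 : Qm D M N ⊆ Qm D (M + 1) N ∪ {M + 1} := by
      intro n hn
      rw [mem_Qm] at hn
      rw [mem_union, mem_Qm, mem_singleton]
      by_cases h : n = M + 1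
      · right; exact h
      · left; exact ⟨by omega, hn.2.1, hn.2.2⟩
    have h2 : Disjoint (Qm D (M + 1) N) {M + 1} := by
      rw [Finset.disjoint_singleton_right, mem_Qm]
      rintro ⟨h, _⟩
      omega
    calc R (Qm D M N) ≤ R (Qm D (M + 1) N ∪ {M + 1}) := R_mono h1
      _ = R (Qm D (M + 1) N) + R {M + 1} := R_union h2
      _ = _ := by simp [R]
  have hM1 : 1 / ((M + 1 : ℕ) : ℚ) ≤ 1 / 5 := by
    apply one_div_le_one_div_of_le (by norm_num)
    have : 5 ≤ M + 1 := by omega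
    exact_mod_cast this
  refine ⟨M, hMM0, hMN', by linarith, by linarith, ?_⟩
  have h1 := Qm_upper (D := D) (by omega : 1 ≤ M) hMN
  have h2 : ((r - 3 / 4 : ℚ) : ℝ) ≤ ((R (Qm D M N) : ℚ) : ℝ) := by exact_mod_cast hPM
  push_cast at h2
  linarith

theorem tail_small {δ : ℝ} (hδ : 0 < δ) : ∃ W0 : ℕ, ∀ W, W0 ≤ W → ∀ Z,
    ∑ q ∈ Finset.Ioc W Z, 1 / ((q:ℝ) * 2 ^ (Nat.log 16 q)) ≤ δ := by
  have hs : Summable (fun q : ℕ => 1 / ((q:ℝ) * 2 ^ (Nat.log 16 q))) := by
    have h1 : Summable (fun q : ℕ => 2 * (1 / (q:ℝ) ^ ((5:ℝ) / 4))) :=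
      (Real.summable_one_div_nat_rpow.mpr (by norm_num)).mul_left 2
    apply Summable.of_nonneg_of_le (fun q => by positivity) _ h1
    intro q
    rcases Nat.eq_zero_or_pos q with h | h
    · subst h; simp
    · have hq : (0:ℝ) < q := by exact_mod_cast h
      have h2 : q < 16 ^ (Nat.log 16 q + 1) := Nat.lt_pow_succ_log_self (by norm_num) q
      have h3 : (q:ℝ) ^ ((1:ℝ) / 4) ≤ 2 * 2 ^ (Nat.log 16 q) := by
        have h4 : (q:ℝ) ≤ ((2:ℝ) ^ (Nat.log 16 q + 1)) ^ (4:ℝ) := by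
          have h5 : ((2:ℝ) ^ (Nat.log 16 q + 1)) ^ (4:ℝ) = (16:ℝ) ^ (Nat.log 16 q + 1) := by
            rw [show (4:ℝ) = ((4:ℕ):ℝ) by norm_num, Real.rpow_natCast, ← pow_mul, mul_comm, pow_mul]
            norm_num
          rw [h5]
          exact_mod_cast h2.le
        calc (q:ℝ) ^ ((1:ℝ) / 4) ≤ (((2:ℝ) ^ (Nat.log 16 q + 1)) ^ (4:ℝ)) ^ ((1:ℝ) / 4) :=
              Real.rpow_le_rpow hq.le h4 (by norm_num)
          _ = (2:ℝ) ^ (Nat.log 16 q + 1) := by
              rw [← Real.rpow_mul (by positivity)]; norm_num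
          _ = _ := by rw [pow_succ]; ring
      have h6 : (q:ℝ) ^ ((5:ℝ) / 4) = q * (q:ℝ) ^ ((1:ℝ) / 4) := by
        rw [show (5:ℝ) / 4 = 1 + 1 / 4 by norm_num, Real.rpow_add hq, Real.rpow_one]
      rw [h6, mul_one_div, div_le_div_iff₀ (by positivity) (by positivity)]
      nlinarith
  have hv := (summable_iff_vanishing_norm.mp hs) δ hδ
  obtain ⟨s, hs'⟩ := hv
  refine ⟨s.sup id, ?_⟩
  intro W hW Z
  have h1 : Disjoint (Finset.Ioc W Z) s := by
    rw [Finset.disjoint_left]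
    intro q hq hqs
    rw [mem_Ioc] at hq
    have : q ≤ s.sup id := Finset.le_sup (f := id) hqs
    omega
  have h2 := hs' _ h1
  rw [Real.norm_of_nonneg (Finset.sum_nonneg fun q _ => by positivity)] at h2
  exact h2.le

end Pool.Agent.Helper52
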