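import Pool.Agent.Helper52.UF7
import Pool.Agent.Helper52.UF2

/-!
Dense sets of integers free of the primes of a thin set, with a prescribed reciprocal sum.
-/

open Finset

namespace Pool.Agent.Helper52

theorem den_dvd_DD {Bs : Finset ℕ} {W k Z : ℕ} {r : ℚ} (hint : ∀ p ∈ Bs, PInt p r) (hW : r.den ≤ W)
    (hk : r.den ≤ k) (hWZ : W ≤ Z) : r.den ∣ DD Bs W k Z := by
  rw [Nat.dvd_iff_prime_pow_dvd_dvd]
  intro p j hp hj
  rcases Nat.eq_zero_or_pos j with h | h
  · subst h; simp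
  · have hpd : p ∣ r.den := (dvd_pow_self p (by omega)).trans hj
    have hpB : p ∉ Bs := fun hB => hint p hB hpd
    have hple : p ≤ W := (Nat.le_of_dvd r.den_pos hpd).trans hW
    have hjle : p ^ j ≤ r.den := Nat.le_of_dvd r.den_pos hj
    have hjk : j < p ^ j := Nat.lt_pow_self hp.one_lt
    have hmem : p ∈ (pr 0 Z).filter (· ∉ Bs) := by
      rw [mem_filter, mem_pr]; exact ⟨⟨hp.pos, by omega, hp⟩, hpB⟩
    have h1 : p ^ k ∣ DD Bs W k Z := by
      unfold DD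
      have := Finset.dvd_prod_of_mem (fun q => q ^ (if q ≤ W then k else 1)) hmem
      simp only [if_pos hple] at this
      exact this
    exact (pow_dvd_pow p (by omega)).trans h1

theorem R_mul_int {A : Finset ℕ} {D : ℕ} (hA : ∀ n ∈ A, 0 < n ∧ n ∣ D) : ∃ a : ℤ, R A * (D : ℚ) = a := by
  refine ⟨((∑ n ∈ A, D / n : ℕ) : ℤ), ?_⟩
  rw [Int.cast_natCast, Nat.cast_sum, R, Finset.sum_mul]
  apply Finset.sum_congr rfl
  intro n hn
  obtain ⟨h1, c, hc⟩ := hA n hn
  have hn0 : (n:ℚ) ≠ 0 := by exact_mod_cast h1.ne'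
  rw [hc, Nat.mul_div_cancel_left _ h1]
  push_cast
  field_simp

theorem sum_recip_Ioc {M N : ℕ} (hM : 1 ≤ M) (hMN : M ≤ N) :
    ∑ n ∈ Finset.Ioc M N, 1 / (n:ℝ) ≤ Real.log N - Real.log M := by
  have h := Qm_upper (D := 0) hM hMN
  rw [R_cast] at h
  have e : Qm 0 M N = Finset.Ioc M N := by
    unfold Qm; simp
  rw [e] at h
  exact h

theorem exists_Q {Bs : Finset ℕ} (hBp : ∀ p ∈ Bs, p.Prime ∧ 3 < p) {r : ℚ} (hr1 : 1 ≤ r)
    (hrint : ∀ p ∈ Bs, PInt p r) {δ : ℝ} (hδ : 0 < δ) (hδ' : δ ≤ 1 / 16) (hRB : ((R Bs : ℚ) : ℝ) ≤ δ) :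
    ∃ N0 : ℕ, ∀ N, N0 ≤ N → ∃ Q : Finset ℕ, (∀ n ∈ Q, 0 < n ∧ n ≤ N) ∧ (∀ n ∈ Q, ∀ p ∈ Bs, ¬ p ∣ n) ∧
      R Q = r ∧ ∃ M : ℕ, 1 ≤ M ∧ M ≤ N ∧ (r:ℝ) - 3 / 4 ≤ Real.log N - Real.log M ∧
        (N:ℝ) - M - 4 * δ * N ≤ Q.card := by
  classical
  -- parameters not depending on `N`
  obtain ⟨I, hI⟩ : ∃ I : ℕ, r ≤ I / 4 := by
    obtain ⟨I, hI⟩ := exists_nat_ge (4 * r)
    exact ⟨I, by linarith⟩
  obtain ⟨k1, hk1⟩ : ∃ k1 : ℕ, 2 / 2 ^ k1 ≤ δ := by
    obtain ⟨k1, hk1⟩ := exists_pow_lt_of_lt_one (by positivity : (0:ℝ) < δ / 2) (by norm_num : (1:ℝ) / 2 < 1)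
    refine ⟨k1, ?_⟩
    rw [div_pow, one_pow] at hk1
    have : (2:ℝ) / 2 ^ k1 = 2 * (1 / 2 ^ k1) := by ring
    rw [this]; linarith
  set k := max k1 (r.den + 1) with hk
  have hkδ : 2 / (2:ℝ) ^ k ≤ δ := by
    apply le_trans _ hk1
    apply div_le_div_of_nonneg_left (by norm_num) (by positivity)
    exact pow_le_pow_right₀ (by norm_num) (le_max_left _ _)
  have hk2 : 1 ≤ k := le_trans (by omega) (le_max_right _ _)
  have hkden : r.den ≤ k := le_trans (by omega) (le_max_right _ _)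
  obtain ⟨H, hH3, hHδ⟩ : ∃ H : ℕ, 3 ≤ H ∧ 9 ≤ δ * (H - 2) := by
    obtain ⟨H, hH⟩ := exists_nat_ge (max 3 (2 + 9 / δ))
    refine ⟨H, ?_, ?_⟩
    · exact_mod_cast (le_max_left _ _).trans hH
    · have h1 := (le_max_right _ _).trans hH
      have h2 : 9 / δ ≤ H - 2 := by linarith
      rw [div_le_iff₀ hδ] at h2
      linarith
  obtain ⟨i1, hi1, hT⟩ := good_T (2 * H)
  set i2 := max i1 (Bs.sup id + 1) with hi2
  obtain ⟨W1, hW1⟩ := tail_small (by norm_num : (0:ℝ) < 1 / 32)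
  obtain ⟨W2, hW2⟩ : ∃ W2 : ℕ, 1 ≤ δ * W2 := by
    obtain ⟨W2, hW2⟩ := exists_nat_ge (1 / δ)
    refine ⟨W2, ?_⟩
    rw [div_le_iff₀ hδ] at hW2; linarith
  set W := max (max W1 W2) (max (max (Bs.sup id) r.den) (16 ^ i2)) with hW
  have hWW1 : W1 ≤ W := (le_max_left _ _).trans (le_max_left _ _)
  have hWW2 : W2 ≤ W := (le_max_right _ _).trans (le_max_left _ _)
  have hWB : ∀ p ∈ Bs, p ≤ W := fun p hp =>
    (Finset.le_sup (f := id) hp).trans (((le_max_left _ _).trans (le_max_left _ _)).trans (le_max_right _ _))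
  have hWden : r.den ≤ W := ((le_max_right _ _).trans (le_max_left _ _)).trans (le_max_right _ _)
  have hW16 : 16 ^ i2 ≤ W := (le_max_right _ _).trans (le_max_right _ _)
  have hi2pos : 2 ≤ i2 := hi1.trans (le_max_left _ _)
  have hW256 : 256 ≤ W := by
    calc 256 = 16 ^ 2 := by norm_num
      _ ≤ 16 ^ i2 := Nat.pow_le_pow_right (by norm_num) hi2pos
      _ ≤ W := hW16
  have hWr : (0:ℝ) < W := by exact_mod_cast (by omega : 0 < W)
  have hWδ : 1 / (W:ℝ) ≤ δ := by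
    rw [div_le_iff₀ hWr]
    have : (W2:ℝ) ≤ W := by exact_mod_cast hWW2
    nlinarith
  set C := DD Bs W k W with hC
  have hC0 : 0 < C := DD_pos _ _ _ _
  have hC3 : 3 ∣ C := dvd_DD hk2 Nat.prime_three (by omega) (fun h => by have := (hBp 3 h).2; omega)
  have hC2 : ∀ i, C ≠ 2 ^ i := by
    intro i h
    rw [h] at hC3
    have := Nat.prime_three.dvd_of_dvd_pow hC3
    omega
  obtain ⟨i3, hi3⟩ : ∃ i3 : ℕ, ∀ i, i3 ≤ i → 4 * (1 + 3 * H * ((i:ℝ) + 1)) / 2 ^ i ≤ 1 / 8 := by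
    have h1 := tendsto_pow_const_div_const_pow_of_one_lt 1 (by norm_num : (1:ℝ) < 2)
    have h2 := tendsto_pow_const_div_const_pow_of_one_lt 0 (by norm_num : (1:ℝ) < 2)
    have h3 : Filter.Tendsto (fun i : ℕ => (4 * (1 + 3 * H)) * ((i:ℝ) ^ 0 / 2 ^ i) + (12 * H) * ((i:ℝ) ^ 1 / 2 ^ i)) Filter.atTop (nhds 0) := by
      have := (h2.const_mul (4 * (1 + 3 * (H:ℝ)))).add (h1.const_mul (12 * (H:ℝ)))
      simpa using this
    have h4 := h3.eventually (ge_mem_nhds (by norm_num : (0:ℝ) < 1 / 8))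
    rw [Filter.eventually_atTop] at h4
    obtain ⟨i3, hi3⟩ := h4
    refine ⟨i3, ?_⟩
    intro i hi
    have := hi3 i hi
    calc 4 * (1 + 3 * H * ((i:ℝ) + 1)) / 2 ^ i = (4 * (1 + 3 * H)) * ((i:ℝ) ^ 0 / 2 ^ i) + (12 * H) * ((i:ℝ) ^ 1 / 2 ^ i) := by
          rw [pow_zero, pow_one]; ring
      _ ≤ _ := this
  set i4 := max (max i2 i3) (max I W) with hi4
  refine ⟨max (16 ^ (H * i4)) (2 ^ I * (C * 2 ^ C + 4)), ?_⟩
  intro N hN
  have hN1 : 16 ^ (H * i4) ≤ N := (le_max_left _ _).trans hN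
  have hN2 : 2 ^ I * (C * 2 ^ C + 4) ≤ N := (le_max_right _ _).trans hN
  have hN0 : 0 < N := lt_of_lt_of_le (by positivity) hN1
  have hNr : (0:ℝ) < N := by exact_mod_cast hN0
  set i0 := Nat.log 16 N / H with hi0
  have hlogN : H * i4 ≤ Nat.log 16 N := Nat.le_log_of_pow_le (by norm_num) hN1
  have hi04 : i4 ≤ i0 := by
    rw [hi0, Nat.le_div_iff_mul_le (by omega)]
    rw [mul_comm]; exact hlogN
  have hi02 : i2 ≤ i0 := ((le_max_left _ _).trans (le_max_left _ _)).trans hi04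
  have hi03 : i3 ≤ i0 := ((le_max_right _ _).trans (le_max_left _ _)).trans hi04
  have hi0I : I ≤ i0 := ((le_max_left _ _).trans (le_max_right _ _)).trans hi04
  have hi0W : W ≤ i0 := ((le_max_right _ _).trans (le_max_right _ _)).trans hi04
  have hHi0 : H * i0 ≤ Nat.log 16 N := Nat.mul_div_le _ _
  have hHi0' : Nat.log 16 N + 1 ≤ H * (i0 + 1) := by
    have := Nat.lt_mul_div_succ (Nat.log 16 N) (by omega : 0 < H)
    rw [← hi0] at this
    omega
  have hNlow : 16 ^ (H * i0) ≤ N := by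
    exact (Nat.pow_le_pow_right (by norm_num) hHi0).trans (Nat.pow_log_le_self 16 (by omega))
  have hNup : N < 16 ^ (H * (i0 + 1)) := by
    have := Nat.lt_pow_succ_log_self (b := 16) (by norm_num) N
    exact lt_of_lt_of_le this (Nat.pow_le_pow_right (by norm_num) hHi0')
  set Z := N / 16 ^ (2 * i0) with hZ
  have hZlow : 16 ^ i0 ≤ Z := by
    rw [hZ, Nat.le_div_iff_mul_le (by positivity), ← pow_add]
    apply le_trans _ hNlow
    apply Nat.pow_le_pow_right (by norm_num)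
    nlinarith
  have hWZ : W ≤ Z := by
    calc W ≤ i0 := hi0W
      _ ≤ 16 ^ i0 := (Nat.lt_pow_self (by norm_num)).le
      _ ≤ Z := hZlow
  have hZN : Z ≤ N := Nat.div_le_self _ _
  -- the density
  have hrecip : ∑ p ∈ pr Z N, 1 / (p:ℝ) ≤ δ := by
    apply (recip_between (by omega) hZN).trans
    have h16 : 16 ^ (2 * i0) = 2 ^ (8 * i0) := by
      rw [show (16:ℕ) = 2 ^ 4 by norm_num, ← pow_mul]; congr 1; ring
    have hlz : Nat.log 2 Z = Nat.log 2 N - 8 * i0 := by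
      rw [hZ, h16, Nat.log_div_base_pow]
    have hl2N : 4 * (H * i0) ≤ Nat.log 2 N := by
      apply Nat.le_log_of_pow_le (by norm_num)
      calc 2 ^ (4 * (H * i0)) = 16 ^ (H * i0) := by rw [pow_mul]; norm_num
        _ ≤ N := hNlow
    have hi01 : 1 ≤ i0 := by omega
    have h8 : 8 * i0 ≤ Nat.log 2 N := by nlinarith
    have hlz' : (Nat.log 2 Z : ℝ) = Nat.log 2 N - 8 * i0 := by
      rw [hlz, Nat.cast_sub h8]; push_cast; ring
    have hi0r : (1:ℝ) ≤ i0 := by exact_mod_cast hi01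
    have hHr : (3:ℝ) ≤ H := by exact_mod_cast hH3
    have hl2r : 4 * ((H:ℝ) * i0) ≤ Nat.log 2 N := by exact_mod_cast hl2N
    have hden : (4 * (H:ℝ) - 8) * i0 ≤ (Nat.log 2 Z : ℝ) := by rw [hlz']; linarith
    have hdenpos : 0 < (4 * (H:ℝ) - 8) * i0 := by nlinarith
    rw [div_le_iff₀ (by linarith), hlz']
    have h9 : 4 * ((Nat.log 2 N:ℝ) + 1 - (Nat.log 2 N - 8 * i0)) ≤ 36 * i0 := by linarith
    have h10 : 36 * (i0:ℝ) ≤ δ * ((4 * (H:ℝ) - 8) * i0) := by nlinarith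
    have h11 : δ * ((4 * (H:ℝ) - 8) * i0) ≤ δ * (Nat.log 2 N - 8 * i0) := by
      rw [← hlz']; exact mul_le_mul_of_nonneg_left hden hδ.le
    linarith
  set D := DD Bs W k Z with hD
  have hrho : rho Bs W k Z N ≤ 4 * δ := by
    have h1 := rho_le (Bs := Bs) (W := W) (k := k) (Z := Z) (N := N) (by omega) hWZ hk2
    rw [R_cast] at hRB
    linarith
  have hbad : ∀ x ≤ N, (((Finset.Ioc 0 x).filter (fun n => ¬ n ∣ D)).card : ℝ) ≤ x * (4 * δ) := by
    intro x hx
    apply (bad_count hx).trans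
    exact mul_le_mul_of_nonneg_left hrho (Nat.cast_nonneg _)
  have hN2I : C * 2 ^ C + 4 ≤ N / 2 ^ I := by
    rw [Nat.le_div_iff_mul_le (by positivity)]; linarith
  obtain ⟨M, hM1, hM2, hM3, hM4, hM5⟩ := choose_M (D := D) (N := N) (by linarith : 4 * δ ≤ 1 / 4) hbad hr1 hI (by omega)
  -- the sets `T`
  have hT' : ∀ i, ∃ T : Finset ℕ, i1 ≤ i → T.card = 8 ^ i ∧
    (∀ l ∈ T, l.Prime ∧ 16 ^ i / 4 < l ∧ l < 16 ^ i) ∧
    ∀ q : ℕ, q.Prime → 16 ^ i ≤ q → q ≤ 16 ^ ((2 * H) * i) → ∀ r : ZMod q, ∃ S ⊆ T, ∑ l ∈ S, ((l : ZMod q))⁻¹ = r := by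
    intro i
    by_cases h : i1 ≤ i
    · obtain ⟨T, hT⟩ := hT i h
      exact ⟨T, fun _ => hT⟩
    · exact ⟨∅, fun h' => absurd h' h⟩
  choose Tf hTf using hT'
  set iq : ℕ → ℕ := fun q => min (Nat.log 16 q) i0 with hiq
  have hiq2 : ∀ q, W < q → i2 ≤ iq q := by
    intro q hq
    simp only [hiq]
    apply le_min _ hi02
    exact Nat.le_log_of_pow_le (by norm_num) (by omega)
  have hiq1 : ∀ q, W < q → i1 ≤ iq q := fun q hq => (le_max_left _ _).trans (hiq2 q hq)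
  have hiqle : ∀ q, W < q → 16 ^ iq q ≤ q := by
    intro q hq
    exact (Nat.pow_le_pow_right (by norm_num) (min_le_left _ _)).trans (Nat.pow_log_le_self 16 (by omega))
  have hiqup : ∀ q, W < q → q ≤ Z → q ≤ 16 ^ ((2 * H) * iq q) := by
    intro q hq hqZ
    have h2 := hiq2 q hq
    rcases le_total (Nat.log 16 q) i0 with h | h
    · have e : iq q = Nat.log 16 q := min_eq_left h
      rw [e] at h2 ⊢
      have h3 := Nat.lt_pow_succ_log_self (b := 16) (by norm_num) q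
      apply h3.le.trans
      apply Nat.pow_le_pow_right (by norm_num)
      rw [Nat.succ_eq_add_one]
      nlinarith
    · have e : iq q = i0 := min_eq_right h
      rw [e]
      apply (hqZ.trans hZN).trans
      apply hNup.le.trans
      apply Nat.pow_le_pow_right (by norm_num)
      nlinarith
  have hT1 : ∀ q, q.Prime → W < q → q ≤ Z → ∀ l ∈ Tf (iq q), l.Prime ∧ l < q ∧ l ∉ Bs := by
    intro q hq hqW hqZ l hl
    obtain ⟨h1, h2, h3⟩ := hTf (iq q) (hiq1 q hqW)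
    obtain ⟨g1, g2, g3⟩ := h2 l hl
    refine ⟨g1, lt_of_lt_of_le g3 (hiqle q hqW), ?_⟩
    intro hlB
    have h4 : l ≤ Bs.sup id := Finset.le_sup (f := id) hlB
    have h5 : Bs.sup id + 1 ≤ iq q := (le_max_right _ _).trans (hiq2 q hqW)
    have h6 : iq q - 1 < 16 ^ (iq q - 1) := Nat.lt_pow_self (by norm_num)
    have h7 : 16 ^ iq q = 16 ^ (iq q - 1) * 16 := by
      rw [← pow_succ]; congr 1; omega
    omega
  have hT2 : ∀ q, q.Prime → W < q → q ≤ Z → ∀ r : ZMod q, ∃ S ⊆ Tf (iq q), ∑ l ∈ S, ((l : ZMod q))⁻¹ = r := by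
    intro q hq hqW hqZ
    obtain ⟨h1, h2, h3⟩ := hTf (iq q) (hiq1 q hqW)
    exact h3 q hq (hiqle q hqW) (hiqup q hqW hqZ)
  -- elimination of large primes
  have hx0 : ∃ a : ℤ, (r - R (Qm D M N)) * (DD Bs W k Z : ℚ) = a := by
    obtain ⟨b, hb⟩ := R_mul_int (A := Qm D M N) (D := D) (by
      intro n hn; rw [mem_Qm] at hn; exact ⟨by omega, hn.2.2⟩)
    obtain ⟨c, hc⟩ := den_dvd_DD hrint hWden hkden hWZ
    refine ⟨r.num * c - b, ?_⟩
    have h1 : r * r.den = r.num := Rat.mul_den_eq_num r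
    push_cast
    rw [sub_mul, ← hb, ← h1, ← hD]
    have h2 : (D:ℚ) = r.den * c := by rw [hD, hc]; push_cast; ring
    rw [h2]; ring
  obtain ⟨E, hE1, hE2, hE3⟩ := elim (Bs := Bs) (W := W) (k := k) (Z0 := Z) hk2 hWB (fun q => Tf (iq q)) hT1 hT2 Z hWZ (le_refl _)
    (r - R (Qm D M N)) hx0
  have hREle : R E ≤ 1 / 4 := by
    have h1 : ((∑ q ∈ pr W Z, (1 / (q : ℚ)) * R (Tf (iq q)) : ℚ) : ℝ) ≤ 1 / 4 := by
      push_cast
      have h2 : ∀ q ∈ pr W Z, (1 / (q:ℝ)) * ((R (Tf (iq q)) : ℚ) : ℝ) ≤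
          4 * (1 / ((q:ℝ) * 2 ^ (Nat.log 16 q))) + (4 / 2 ^ i0) * (1 / (q:ℝ)) := by
        intro q hq
        rw [mem_pr] at hq
        obtain ⟨h1, h2, h3⟩ := hTf (iq q) (hiq1 q hq.1)
        have hq0 : (0:ℝ) < q := by exact_mod_cast hq.2.2.pos
        have h4 : ((R (Tf (iq q)) : ℚ) : ℝ) ≤ 4 / 2 ^ (iq q) := by
          rw [R_cast]
          calc ∑ l ∈ Tf (iq q), 1 / (l:ℝ) ≤ ∑ l ∈ Tf (iq q), 4 / (16:ℝ) ^ (iq q) := by
                apply Finset.sum_le_sum
                intro l hl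
                obtain ⟨g1, g2, g3⟩ := h2 l hl
                have hl0 : (0:ℝ) < l := by exact_mod_cast g1.pos
                rw [div_le_div_iff₀ hl0 (by positivity)]
                have : 16 ^ iq q ≤ 4 * l := by omega
                have h5 : ((16 ^ iq q : ℕ) : ℝ) ≤ ((4 * l : ℕ) : ℝ) := by exact_mod_cast this
                push_cast at h5
                linarith
            _ = 8 ^ (iq q) * (4 / (16:ℝ) ^ (iq q)) := by
                rw [Finset.sum_const, h1, nsmul_eq_mul]; push_cast; rfl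
            _ = _ := by
                have : (16:ℝ) ^ (iq q) = 8 ^ (iq q) * 2 ^ (iq q) := by rw [← mul_pow]; norm_num
                rw [this]; field_simp
        have h5 : (4:ℝ) / 2 ^ (iq q) ≤ 4 / 2 ^ (Nat.log 16 q) + 4 / 2 ^ i0 := by
          rcases min_choice (Nat.log 16 q) i0 with h | h
          · have e : iq q = Nat.log 16 q := h
            rw [e]
            have : (0:ℝ) ≤ 4 / 2 ^ i0 := by positivity
            linarith
          · have e : iq q = i0 := h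
            rw [e]
            have : (0:ℝ) ≤ 4 / 2 ^ (Nat.log 16 q) := by positivity
            linarith
        calc (1 / (q:ℝ)) * ((R (Tf (iq q)) : ℚ) : ℝ) ≤ (1 / (q:ℝ)) * (4 / 2 ^ (Nat.log 16 q) + 4 / 2 ^ i0) :=
              mul_le_mul_of_nonneg_left (h4.trans h5) (by positivity)
          _ = _ := by
              field_simp
      calc ∑ q ∈ pr W Z, (1 / (q:ℝ)) * ((R (Tf (iq q)) : ℚ) : ℝ)
          ≤ ∑ q ∈ pr W Z, (4 * (1 / ((q:ℝ) * 2 ^ (Nat.log 16 q))) + (4 / 2 ^ i0) * (1 / (q:ℝ))) := Finset.sum_le_sum h2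
        _ ≤ ∑ q ∈ Finset.Ioc W Z, (4 * (1 / ((q:ℝ) * 2 ^ (Nat.log 16 q))) + (4 / 2 ^ i0) * (1 / (q:ℝ))) :=
            Finset.sum_le_sum_of_subset_of_nonneg (Finset.filter_subset _ _) fun _ _ _ => by positivity
        _ = 4 * (∑ q ∈ Finset.Ioc W Z, 1 / ((q:ℝ) * 2 ^ (Nat.log 16 q))) + (4 / 2 ^ i0) * ∑ q ∈ Finset.Ioc W Z, 1 / (q:ℝ) := by
            rw [Finset.sum_add_distrib, Finset.mul_sum, Finset.mul_sum]
        _ ≤ 4 * (1 / 32) + (4 / 2 ^ i0) * (1 + 3 * H * ((i0:ℝ) + 1)) := by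
            apply add_le_add
            · exact mul_le_mul_of_nonneg_left (hW1 W hWW1 Z) (by norm_num)
            · apply mul_le_mul_of_nonneg_left _ (by positivity)
              have h3 := sum_recip_Ioc (by omega : 1 ≤ W) hWZ
              have h4 : 0 ≤ Real.log W := Real.log_natCast_nonneg W
              have h5 : Real.log Z ≤ Real.log N := by
                apply Real.log_le_log (by exact_mod_cast (by omega : 0 < Z))
                exact_mod_cast hZN
              have h6 : Real.log N ≤ (H * (i0 + 1) : ℕ) * Real.log 16 := by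
                rw [← Real.log_pow]
                apply Real.log_le_log hNr
                exact_mod_cast hNup.le
              have h7 : Real.log 16 < 3 := by
                have : Real.log 16 = 4 * Real.log 2 := by
                  rw [show (16:ℝ) = 2 ^ 4 by norm_num, Real.log_pow]; norm_num
                have := Real.log_two_lt_d9
                linarith
              have h8 : ((H * (i0 + 1) : ℕ) : ℝ) * Real.log 16 ≤ ((H * (i0 + 1) : ℕ) : ℝ) * 3 :=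
                mul_le_mul_of_nonneg_left h7.le (Nat.cast_nonneg _)
              push_cast at h6 h8
              linarith
        _ ≤ 1 / 4 := by
            have := hi3 i0 hi03
            have e : (4 / 2 ^ i0) * (1 + 3 * H * ((i0:ℝ) + 1)) = 4 * (1 + 3 * H * ((i0:ℝ) + 1)) / 2 ^ i0 := by ring
            rw [e]
            linarith
    have h2 : (∑ q ∈ pr W Z, (1 / (q : ℚ)) * R (Tf (iq q))) ≤ 1 / 4 := by
      have : ((∑ q ∈ pr W Z, (1 / (q : ℚ)) * R (Tf (iq q)) : ℚ) : ℝ) ≤ ((1 / 4 : ℚ) : ℝ) := by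
        push_cast at h1 ⊢; exact h1
      exact_mod_cast this
    exact hE3.trans h2
  have hRE0 := R_nonneg E
  -- the last part
  obtain ⟨F, hF1, hF2⟩ := egypt hC0 hC2 (x := r - R (Qm D M N) - R E) (by linarith) (by linarith) hE2
  have hEM : ∀ n ∈ E, 0 < n ∧ n ≤ M := by
    intro n hn
    obtain ⟨q, l, hq, hqW, hqZ, hl, rfl⟩ := hE1 n hn
    obtain ⟨h1, h2, h3⟩ := hTf (iq q) (hiq1 q hqW)
    obtain ⟨g1, g2, g3⟩ := h2 l hl
    refine ⟨Nat.mul_pos hq.pos g1.pos, ?_⟩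
    have h4 : l ≤ 16 ^ i0 := by
      apply g3.le.trans
      exact Nat.pow_le_pow_right (by norm_num) (min_le_right _ _)
    calc q * l ≤ Z * 16 ^ i0 := Nat.mul_le_mul hqZ h4
      _ ≤ N / 2 ^ I := by
          rw [Nat.le_div_iff_mul_le (by positivity)]
          calc Z * 16 ^ i0 * 2 ^ I ≤ Z * 16 ^ i0 * 16 ^ i0 := by
                apply Nat.mul_le_mul_left
                calc 2 ^ I ≤ 16 ^ I := Nat.pow_le_pow_left (by norm_num) _
                  _ ≤ 16 ^ i0 := Nat.pow_le_pow_right (by norm_num) hi0I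
            _ = Z * 16 ^ (2 * i0) := by rw [mul_assoc, ← pow_add]; congr 2; ring
            _ ≤ N := Nat.div_mul_le_self _ _
      _ ≤ M := hM1
  have hFM : ∀ n ∈ F, 0 < n ∧ n ≤ M := by
    intro n hn
    obtain ⟨h1, h2⟩ := hF2 n hn
    refine ⟨h1, ?_⟩
    have := Nat.le_of_dvd (by positivity) h2
    omega
  have hdEF : Disjoint E F := by
    rw [Finset.disjoint_left]
    intro n hn hn'
    obtain ⟨q, l, hq, hqW, hqZ, hl, rfl⟩ := hE1 n hn
    have h1 := (hF2 _ hn').2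
    have h2 : q ∣ C * 2 ^ C := (Dvd.intro _ rfl).trans h1
    rcases hq.dvd_mul.mp h2 with h3 | h3
    · exact coprime_DD hq (Or.inl hqW) h3
    · have := Nat.le_of_dvd (by norm_num) (hq.dvd_of_dvd_pow h3)
      omega
  have hdQ : Disjoint (Qm D M N) (E ∪ F) := by
    rw [Finset.disjoint_left]
    intro n hn hn'
    rw [mem_Qm] at hn
    rcases mem_union.mp hn' with h | h
    · have := (hEM n h).2; omega
    · have := (hFM n h).2; omega
  refine ⟨Qm D M N ∪ (E ∪ F), ?_, ?_, ?_, M, by omega, hM2.le, hM5, ?_⟩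
  · intro n hn
    rcases mem_union.mp hn with h | h
    · rw [mem_Qm] at h; exact ⟨by omega, h.2.1⟩
    · rcases mem_union.mp h with h | h
      · have := hEM n h; exact ⟨this.1, by omega⟩
      · have := hFM n h; exact ⟨this.1, by omega⟩
  · intro n hn p hp hd
    have hpP := (hBp p hp).1
    rcases mem_union.mp hn with h | h
    · rw [mem_Qm] at h
      exact coprime_DD hpP (Or.inr hp) (hd.trans h.2.2)
    · rcases mem_union.mp h with h | h
      · obtain ⟨q, l, hq, hqW, hqZ, hl, rfl⟩ := hE1 n h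
        obtain ⟨g1, g2, g3⟩ := hT1 q hq hqW hqZ l hl
        rcases hpP.dvd_mul.mp hd with h3 | h3
        · have h4 := (Nat.prime_dvd_prime_iff_eq hpP hq).mp h3
          have := hWB p hp
          omega
        · have h4 := (Nat.prime_dvd_prime_iff_eq hpP g1).mp h3
          exact g3 (h4 ▸ hp)
      · have h1 := hd.trans (hF2 n h).2
        rcases hpP.dvd_mul.mp h1 with h3 | h3
        · exact coprime_DD hpP (Or.inr hp) h3
        · have := Nat.le_of_dvd (by norm_num) (hpP.dvd_of_dvd_pow h3)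
          have := (hBp p hp).2
          omega
  · rw [R_union hdQ, R_union hdEF, hF1]; ring
  · have h1 := good_count (D := D) (x := N) (y := M) hM2.le (hbad N (le_refl _))
    have h2 : ((Qm D M N).card : ℝ) ≤ ((Qm D M N ∪ (E ∪ F)).card : ℝ) := by
      exact_mod_cast Finset.card_le_card Finset.subset_union_left
    linarith

end Pool.Agent.Helper52
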