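import Pool.Agent.Helper52.UF8

/-!
Assembly: admissible sets of density close to one.
-/

open Finset

namespace Pool.Agent.Helper52

/-- all the properties of a dense admissible set -/
theorem dense_admissible {ε : ℝ} (hε : 0 < ε) : ∃ N0 : ℕ, ∀ N, N0 ≤ N → ∃ A : Finset ℕ, ∃ δ : ℕ → ℤ,
    A ⊆ Finset.Icc 1 N ∧ (∀ n ∈ A, δ n = 1 ∨ δ n = -1) ∧ (∑ n ∈ A, (δ n : ℚ) / n = 0) ∧
    (∀ A' ⊂ A, A'.Nonempty → ∑ n ∈ A', (δ n : ℚ) / n ≠ 0) ∧ (1 - ε) * N ≤ A.card := by
  classical
  set d : ℝ := min (1 / 16) (ε / 8) with hd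
  have hd0 : 0 < d := lt_min (by norm_num) (by positivity)
  have hd1 : d ≤ 1 / 16 := min_le_left _ _
  have hd2 : d ≤ ε / 8 := min_le_right _ _
  obtain ⟨s, hs1, hs2⟩ : ∃ s : ℕ, 1 ≤ s ∧ Real.log (2 / ε) + 1 ≤ s := by
    obtain ⟨s, hs⟩ := exists_nat_ge (max 1 (Real.log (2 / ε) + 1))
    exact ⟨s, by exact_mod_cast (le_max_left _ _).trans hs, (le_max_right _ _).trans hs⟩
  obtain ⟨Bs, P, hB, hRB, hRP1, hRP2, hP0, hPB, hPint, hPmin⟩ := gadget hs1 hd0 3
  have hr1 : 1 ≤ R P := by
    have : (1:ℚ) ≤ s := by exact_mod_cast hs1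
    linarith
  obtain ⟨N0, hN0⟩ := exists_Q hB hr1 hPint hd0 hd1 hRB
  refine ⟨max (max N0 (P.sup id)) 1, ?_⟩
  intro N hN
  have hNN0 : N0 ≤ N := ((le_max_left _ _).trans (le_max_left _ _)).trans hN
  have hNP : P.sup id ≤ N := ((le_max_right _ _).trans (le_max_left _ _)).trans hN
  have hN1 : 1 ≤ N := (le_max_right _ _).trans hN
  have hNr : (0:ℝ) < N := by exact_mod_cast hN1
  obtain ⟨Q, hQ1, hQ2, hQ3, M, hM1, hM2, hM3, hM4⟩ := hN0 N hNN0
  have hPQ : Disjoint P Q := by
    rw [Finset.disjoint_left]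
    intro n hn hn'
    obtain ⟨p, hp, hd⟩ := hPB n hn
    exact hQ2 n hn' p hp hd
  set δ : ℕ → ℤ := fun n => if n ∈ P then 1 else -1 with hδ
  have hsumP : ∀ S ⊆ P, ∑ n ∈ S, (δ n : ℚ) / n = R S := by
    intro S hS
    unfold R
    apply Finset.sum_congr rfl
    intro n hn
    simp only [hδ, if_pos (hS hn)]
    norm_num
  have hsumQ : ∀ S ⊆ Q, ∑ n ∈ S, (δ n : ℚ) / n = -R S := by
    intro S hS
    unfold R
    rw [← Finset.sum_neg_distrib]
    apply Finset.sum_congr rfl
    intro n hn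
    have : n ∉ P := fun h => (Finset.disjoint_left.mp hPQ) h (hS hn)
    simp only [hδ, if_neg this]
    push_cast
    ring
  have hsum : ∀ A' ⊆ P ∪ Q, ∑ n ∈ A', (δ n : ℚ) / n = R (A' ∩ P) - R (A' ∩ Q) := by
    intro A' hA'
    have h1 : A' = (A' ∩ P) ∪ (A' ∩ Q) := by
      rw [← Finset.inter_union_distrib_left, Finset.inter_eq_left.mpr hA']
    have h2 : Disjoint (A' ∩ P) (A' ∩ Q) :=
      Finset.disjoint_of_subset_left Finset.inter_subset_right
        (Finset.disjoint_of_subset_right Finset.inter_subset_right hPQ)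
    conv_lhs => rw [h1]
    rw [Finset.sum_union h2, hsumP _ Finset.inter_subset_right, hsumQ _ Finset.inter_subset_right]
    ring
  refine ⟨P ∪ Q, δ, ?_, ?_, ?_, ?_, ?_⟩
  · intro n hn
    rw [mem_Icc]
    rcases mem_union.mp hn with h | h
    · exact ⟨hP0 n h, (Finset.le_sup (f := id) h).trans hNP⟩
    · exact hQ1 n h
  · intro n _
    simp only [hδ]
    split_ifs
    · left; rfl
    · right; rfl
  · rw [hsum _ (Finset.Subset.refl _)]
    have h1 : (P ∪ Q) ∩ P = P := Finset.inter_eq_right.mpr Finset.subset_union_left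
    have h2 : (P ∪ Q) ∩ Q = Q := Finset.inter_eq_right.mpr Finset.subset_union_right
    rw [h1, h2, hQ3, sub_self]
  · intro A' hA' hne h0
    rw [hsum _ hA'.1] at h0
    have heq : R (A' ∩ P) = R (A' ∩ Q) := by linarith
    have hint : ∀ p ∈ Bs, PInt p (R (A' ∩ P)) := by
      intro p hp
      rw [heq]
      apply PInt.sum (hB p hp).1
      intro n hn
      have hnQ : n ∈ Q := Finset.mem_of_mem_inter_right hn
      apply PInt.of_mul (hQ2 n hnQ p hp)
      refine ⟨1, ?_⟩
      have : (n:ℚ) ≠ 0 := by exact_mod_cast (hQ1 n hnQ).1.ne'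
      field_simp
      norm_num
    have hpos : ∀ S : Finset ℕ, (∀ n ∈ S, 0 < n) → R S = 0 → S = ∅ := by
      intro S hS hR
      by_contra hne
      rw [← Ne, ← Finset.nonempty_iff_ne_empty] at hne
      have : 0 < R S := by
        unfold R
        apply Finset.sum_pos _ hne
        intro n hn
        have : (0:ℚ) < n := by exact_mod_cast hS n hn
        positivity
      linarith
    have hcase : A' ∩ P = ∅ ∨ A' ∩ P = P := by
      by_contra hcon
      push Not at hcon
      obtain ⟨p, hp, hnot⟩ := hPmin (A' ∩ P) Finset.inter_subset_right hcon.1 hcon.2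
      exact hnot (hint p hp)
    rcases hcase with h | h
    · rw [h] at heq
      have h1 : A' ∩ Q = ∅ := hpos _ (fun n hn => (hQ1 n (Finset.mem_of_mem_inter_right hn)).1) (by
        rw [← heq]; simp [R])
      have h2 : A' = ∅ := by
        have h3 : A' = (A' ∩ P) ∪ (A' ∩ Q) := by
          rw [← Finset.inter_union_distrib_left, Finset.inter_eq_left.mpr hA'.1]
        rw [h3, h, h1]; rfl
      rw [h2] at hne
      exact Finset.not_nonempty_empty hne
    · -- everything
      have h1 : R (Q \ (A' ∩ Q)) = 0 := by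
        have h2 := Finset.sum_sdiff (f := fun n : ℕ => 1 / (n : ℚ)) (Finset.inter_subset_right : A' ∩ Q ⊆ Q)
        have h3 : R (A' ∩ Q) = R Q := by rw [← heq, h, hQ3]
        unfold R at h3 ⊢
        linarith
      have h2 : Q \ (A' ∩ Q) = ∅ := hpos _ (fun n hn => (hQ1 n (Finset.mem_sdiff.mp hn).1).1) h1
      have h3 : Q ⊆ A' := by
        intro n hn
        by_contra hnA
        have : n ∈ Q \ (A' ∩ Q) := by
          rw [mem_sdiff, mem_inter]
          exact ⟨hn, fun h => hnA h.1⟩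
        rw [h2] at this
        exact Finset.notMem_empty n this
      have h4 : P ⊆ A' := by
        rw [← h]; exact Finset.inter_subset_left
      exact hA'.2 (Finset.union_subset h4 h3)
  · have h1 : (Q.card : ℝ) ≤ ((P ∪ Q).card : ℝ) := by
      exact_mod_cast Finset.card_le_card Finset.subset_union_right
    have hMr : (0:ℝ) < M := by exact_mod_cast hM1
    have h2 : (M:ℝ) ≤ ε / 2 * N := by
      have h3 : Real.log (2 / ε) ≤ Real.log (N / M) := by
        rw [Real.log_div hNr.ne' hMr.ne']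
        have h4 : ((s:ℚ):ℝ) ≤ ((R P : ℚ) : ℝ) := by exact_mod_cast hRP1
        push_cast at h4
        linarith
      have h5 : 2 / ε ≤ N / M := (Real.log_le_log_iff (by positivity) (by positivity)).mp h3
      rw [div_le_div_iff₀ hε hMr] at h5
      linarith
    have h3 : 4 * d * N ≤ ε / 2 * N := by
      apply mul_le_mul_of_nonneg_right _ hNr.le
      linarith
    have h4 : (1 - ε) * N = N - ε / 2 * N - ε / 2 * N := by ring
    linarith

end Pool.Agent.Helper52
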